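import Pool.Agent.Helper72.SA.Corr

/-!
Lower bounds of an autocorrelation whose first ratio need not be close to one, and the global
correlation of the chain.
-/

set_option autoImplicit false

namespace Pool.Agent.Helper72.SA

open Finset Pool.Agent.H647R3.UG Pool.Agent.H573R3.SL Pool.Agent.TH522.US

/-- one step of the recursion -/
theorem geo_stepR {a F0 F1 F2 t x m b : ℝ} (ha : 0 < a) (hm : 0 < m) (hm1 : m ≤ 1)
    (hb : b = m * a) (hF0 : 0 < F0) (hF1 : 0 < F1) (ht : 0 < t) (ht1 : t ≤ 1)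
    (hx : 0 < x) (hxt : 2 * x < t ^ 2) (hr : t * F0 ≤ F1) (hb0 : b ≤ x * F0)
    (hd : F1 ^ 2 ≤ ((1 - m) * F0 + m * a) * ((1 - m) * F2 + m * a)) :
    (t - 2 * x / t) * F1 ≤ F2 := by
  obtain ⟨G0, hG0⟩ : ∃ G0, G0 = (1 - m) * F0 + m * a := ⟨_, rfl⟩
  obtain ⟨G2, hG2⟩ : ∃ G2, G2 = (1 - m) * F2 + m * a := ⟨_, rfl⟩
  rw [← hG0, ← hG2] at hd
  have ht2 : t ^ 2 ≤ 1 := pow_le_one₀ ht.le ht1
  have hG0pos : 0 < G0 := by
    rw [hG0]
    have h7 : 0 ≤ (1 - m) * F0 := mul_nonneg (by linarith) hF0.le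
    have h8 : 0 < m * a := by positivity
    linarith
  have hG0le : G0 ≤ (1 + x) * F0 := by
    rw [hG0]
    rw [hb] at hb0
    have h4 : 0 ≤ m * F0 := by positivity
    linarith
  have hG2pos : 0 < G2 := by
    by_contra hcon
    push Not at hcon
    have : G0 * G2 ≤ 0 := mul_nonpos_of_nonneg_of_nonpos hG0pos.le hcon
    have h9 : 0 < F1 ^ 2 := by positivity
    linarith
  have hG2low : t * (1 - x) * F1 ≤ G2 := by
    have h14 : F1 * F1 ≤ (1 + x) * F0 * G2 := by
      calc F1 * F1 = F1 ^ 2 := by ring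
        _ ≤ G0 * G2 := hd
        _ ≤ (1 + x) * F0 * G2 := mul_le_mul_of_nonneg_right hG0le hG2pos.le
    have h15 : t * F0 * F1 ≤ F1 * F1 := mul_le_mul_of_nonneg_right hr hF1.le
    have h16 : F0 * (t * F1) ≤ F0 * ((1 + x) * G2) := by linarith
    have h17 : t * F1 ≤ (1 + x) * G2 := le_of_mul_le_mul_left h16 hF0
    have h20 := mul_le_mul_of_nonneg_left h17 (by linarith : 0 ≤ 1 - x)
    have h21 : (1 - x) * ((1 + x) * G2) = G2 - x ^ 2 * G2 := by ring
    have h22 : 0 ≤ x ^ 2 * G2 := by positivity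
    linarith
  have hbF1 : b ≤ x / t * F1 := by
    have h1 : F0 ≤ F1 / t := by rw [le_div_iff₀ ht]; linarith
    calc b ≤ x * F0 := hb0
      _ ≤ x * (F1 / t) := mul_le_mul_of_nonneg_left h1 hx.le
      _ = _ := by ring
  have hF2 : 0 ≤ F2 := by
    by_contra h23
    push Not at h23
    have h24 : G2 ≤ b := by
      rw [hG2, hb]
      have h4 : (1 - m) * F2 ≤ 0 := mul_nonpos_of_nonneg_of_nonpos (by linarith) h23.le
      linarith
    have h25 : t * (1 - x) * F1 ≤ x / t * F1 := by linarith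
    have h26 : t * (1 - x) ≤ x / t := le_of_mul_le_mul_right h25 hF1
    rw [le_div_iff₀ ht] at h26
    have h27 : t * (1 - x) * t = t ^ 2 - x * t ^ 2 := by ring
    have h28 : x * t ^ 2 ≤ x * 1 := mul_le_mul_of_nonneg_left ht2 hx.le
    linarith
  have h32 : G2 ≤ F2 + b := by
    rw [hG2, hb]
    have h4 : 0 ≤ m * F2 := mul_nonneg hm.le hF2
    linarith
  have h34 : t * x ≤ x / t := by
    rw [le_div_iff₀ ht]
    calc t * x * t = x * t ^ 2 := by ring
      _ ≤ x * 1 := mul_le_mul_of_nonneg_left ht2 hx.le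
      _ = x := mul_one x
  have h35 : t * x * F1 ≤ x / t * F1 := mul_le_mul_of_nonneg_right h34 hF1.le
  have h36 : (t - 2 * x / t) * F1 = t * F1 - 2 * (x / t * F1) := by ring
  have h37 : t * (1 - x) * F1 = t * F1 - t * x * F1 := by ring
  rw [h36]
  rw [h37] at hG2low
  linarith

section
variable {f : ℕ → ℝ} {M : ℕ}

/-- geometric lower bound -/
theorem geoR (h : AC f M) (ha : 0 < f 0) (ρ : ℝ) (hρ : 0 < ρ) (hρ1 : ρ ≤ 1) (I : ℕ)
    (hM : 4 * (2 / ρ) ^ (I + 1) ≤ (M : ℝ)) (h1 : ρ * f 0 ≤ f 2) :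
    ∀ i, i ≤ I → (ρ / 2) ^ i * f 0 ≤ f (2 * i) := by
  obtain ⟨Q, hQ⟩ : ∃ Q : ℝ, Q = 2 / ρ := ⟨_, rfl⟩
  have hQ2 : 2 ≤ Q := by rw [hQ, le_div_iff₀ hρ]; linarith
  have hQ0 : 0 < Q := by linarith
  have hρQ : ρ / 2 = 1 / Q := by rw [hQ]; field_simp
  have hρQ' : ρ = 2 / Q := by rw [hQ]; field_simp
  rw [← hQ] at hM
  have hM0 : (0 : ℝ) < M := lt_of_lt_of_le (by positivity) hM
  have hth : ∀ i, i < I → ∀ t : ℝ, ρ - 4 * Q ^ i / M ≤ t → ρ / 2 ≤ t := by
    intro i hi t ht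
    refine le_trans ?_ ht
    have h2 : 4 * Q ^ i / (M : ℝ) ≤ ρ / 2 := by
      rw [div_le_iff₀ hM0, hρQ, div_mul_eq_mul_div, le_div_iff₀ hQ0, one_mul]
      calc 4 * Q ^ i * Q = 4 * Q ^ (i + 1) := by ring
        _ ≤ 4 * Q ^ (I + 1) := by
            refine mul_le_mul_of_nonneg_left ?_ (by norm_num)
            exact pow_le_pow_right₀ (by linarith) (by omega)
        _ ≤ M := hM
    linarith
  have key : ∀ i, i < I → ∃ t : ℝ, ρ - 4 * Q ^ i / M ≤ t ∧ t ≤ 1 ∧
      0 < f (2 * i) ∧ (ρ / 2) ^ i * f 0 ≤ f (2 * i) ∧ t * f (2 * i) ≤ f (2 * (i + 1)) := by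
    intro i
    induction i with
    | zero =>
      intro _
      refine ⟨ρ, by rw [pow_zero]; have : 0 < 4 * (1 : ℝ) / M := by positivity
                    linarith, hρ1, ?_, ?_, ?_⟩
      · rw [mul_zero]; exact ha
      · rw [mul_zero, pow_zero, one_mul]
      · rw [mul_zero]; exact h1
    | succ i ih =>
      intro hi
      obtain ⟨t, ht, ht1, hF0, hF, hF1⟩ := ih (by omega)
      have hthi := hth i (by omega) t ht
      have ht0 : 0 < t := by linarith
      have hF1pos : 0 < f (2 * (i + 1)) := lt_of_lt_of_le (by positivity) hF1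
      have hF1' : (ρ / 2) ^ (i + 1) * f 0 ≤ f (2 * (i + 1)) := by
        calc (ρ / 2) ^ (i + 1) * f 0 = ρ / 2 * ((ρ / 2) ^ i * f 0) := by ring
          _ ≤ ρ / 2 * f (2 * i) := mul_le_mul_of_nonneg_left hF (by linarith)
          _ ≤ t * f (2 * i) := mul_le_mul_of_nonneg_right hthi hF0.le
          _ ≤ _ := hF1
      have hdisc : ∀ x : ℝ, 0 ≤ ((1 - 1 / (M : ℝ)) * f (2 * (i + 1 + 1)) +
          1 / (M : ℝ) * f 0) * (x * x) + (2 * f (2 * (i + 1))) * x +
          ((1 - 1 / (M : ℝ)) * f (2 * i) + 1 / (M : ℝ) * f 0) := by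
        intro x
        have h3 := h i (i + 1 + 1) 1 x
        have e : i + (i + 1 + 1) = 2 * (i + 1) := by ring
        rw [e] at h3
        refine h3.trans (le_of_eq ?_)
        ring
      have hd := discrim_le_zero hdisc
      unfold discrim at hd
      have hbF0 : 1 / (M : ℝ) * f 0 ≤ Q ^ i / M * f (2 * i) := by
        have h10 : f 0 ≤ Q ^ i * f (2 * i) := by
          have h11 := mul_le_mul_of_nonneg_left hF (by positivity : (0 : ℝ) ≤ Q ^ i)
          have h12 : Q ^ i * ((ρ / 2) ^ i * f 0) = f 0 := by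
            rw [← mul_assoc, ← mul_pow, hρQ, mul_one_div_cancel hQ0.ne', one_pow, one_mul]
          linarith
        calc 1 / (M : ℝ) * f 0 ≤ 1 / (M : ℝ) * (Q ^ i * f (2 * i)) :=
              mul_le_mul_of_nonneg_left h10 (by positivity)
          _ = _ := by ring
      have hQpow : Q ^ (i + 2) ≤ Q ^ (I + 1) := pow_le_pow_right₀ (by linarith) (by omega)
      have hstep := geo_stepR (a := f 0) (m := 1 / (M : ℝ)) (b := 1 / (M : ℝ) * f 0)
        (F0 := f (2 * i)) (F1 := f (2 * (i + 1))) (F2 := f (2 * (i + 1 + 1))) (t := t)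
        (x := Q ^ i / M) ha
        (by positivity) (by
          rw [div_le_one hM0]
          have : 1 ≤ Q ^ (I + 1) := one_le_pow₀ (by linarith)
          linarith) rfl hF0 hF1pos ht0 ht1 (by positivity) (by
          have h3 : (1 / Q) ^ 2 ≤ t ^ 2 := pow_le_pow_left₀ (by positivity) (by
            rw [← hρQ]; exact hthi) 2
          refine lt_of_lt_of_le ?_ h3
          rw [one_div, inv_pow, ← mul_div_assoc, div_lt_iff₀ hM0, inv_mul_eq_div,
            lt_div_iff₀ (by positivity)]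
          calc 2 * Q ^ i * Q ^ 2 = 2 * Q ^ (i + 2) := by ring
            _ < 4 * Q ^ (i + 2) := by
                have : 0 < Q ^ (i + 2) := by positivity
                linarith
            _ ≤ 4 * Q ^ (I + 1) := mul_le_mul_of_nonneg_left hQpow (by norm_num)
            _ ≤ M := hM) hF1 hbF0 (by nlinarith)
      refine ⟨t - 2 * (Q ^ i / M) / t, ?_, ?_, hF1pos, hF1', hstep⟩
      · have h3 : 2 * (Q ^ i / M) / t ≤ 2 * Q ^ (i + 1) / M := by
          rw [div_le_iff₀ ht0]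
          have h4 : 1 ≤ Q * t := by
            have := mul_le_mul_of_nonneg_left hthi hQ0.le
            rw [hρQ, mul_one_div_cancel hQ0.ne'] at this
            exact this
          have h5 : 0 ≤ 2 * Q ^ i / M := by positivity
          calc 2 * (Q ^ i / M) = 2 * Q ^ i / M * 1 := by ring
            _ ≤ 2 * Q ^ i / M * (Q * t) := mul_le_mul_of_nonneg_left h4 h5
            _ = 2 * Q ^ (i + 1) / M * t := by ring
        have h6 : 4 * Q ^ i / (M : ℝ) ≤ 2 * Q ^ (i + 1) / M := by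
          refine div_le_div_of_nonneg_right ?_ hM0.le
          calc 4 * Q ^ i = 2 * (2 * Q ^ i) := by ring
            _ ≤ 2 * (Q * Q ^ i) := by
                refine mul_le_mul_of_nonneg_left ?_ (by norm_num)
                exact mul_le_mul_of_nonneg_right hQ2 (by positivity)
            _ = 2 * Q ^ (i + 1) := by ring
        have h7 : 4 * Q ^ (i + 1) / (M : ℝ) = 2 * Q ^ (i + 1) / M + 2 * Q ^ (i + 1) / M := by ring
        linarith
      · have : 0 < 2 * (Q ^ i / (M : ℝ)) / t := by positivity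
        linarith
  intro i hi
  rcases Nat.lt_or_ge i I with h2 | h2
  · obtain ⟨t, -, -, -, hF, -⟩ := key i h2
    exact hF
  · have hiI : i = I := le_antisymm hi h2
    rcases Nat.eq_zero_or_pos i with h0 | h0
    · rw [h0, mul_zero, pow_zero, one_mul]
    · obtain ⟨i', rfl⟩ : ∃ i', i = i' + 1 := ⟨i - 1, by omega⟩
      obtain ⟨t, ht, -, hF0, hF, hF1⟩ := key i' (by omega)
      have hthi := hth i' (by omega) t ht
      calc (ρ / 2) ^ (i' + 1) * f 0 = ρ / 2 * ((ρ / 2) ^ i' * f 0) := by ring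
        _ ≤ ρ / 2 * f (2 * i') := mul_le_mul_of_nonneg_left hF (by linarith)
        _ ≤ t * f (2 * i') := mul_le_mul_of_nonneg_right hthi hF0.le
        _ ≤ _ := hF1

/-- lower bound of an autocorrelation at some time beyond `T` -/
theorem ac_lowerR (h : AC f M) (ha : 0 < f 0) (r : ℝ) (hr : 0 < r) (hr1 : r ≤ 1)
    (h1 : r * f 0 ≤ f 1) (T : ℕ) (hM : 4 * (2 / r) ^ (T + 3) ≤ M) :
    ∃ t : ℕ, T ≤ t ∧ (r / 2) ^ (T + 1) * f 0 ≤ f t := by
  have hQ2 : 2 ≤ 2 / r := by rw [le_div_iff₀ hr]; linarith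
  have hQ1 : (1 : ℝ) ≤ 2 / r := by linarith
  have hM0 : (0 : ℝ) < M := lt_of_lt_of_le (by positivity) hM
  obtain ⟨I, hI1, hI2⟩ : ∃ I : ℕ, T ≤ 2 * I ∧ 2 * I ≤ T + 1 := ⟨(T + 1) / 2, by omega, by omega⟩
  have hM3 : 4 * (2 / r) ^ 2 ≤ (M : ℝ) := by
    refine le_trans (mul_le_mul_of_nonneg_left ?_ (by norm_num)) hM
    exact pow_le_pow_right₀ hQ1 (by omega)
  -- the second value
  have hstart : r ^ 2 / 2 * f 0 ≤ f 2 := by
    have hdisc : ∀ x : ℝ, 0 ≤ ((1 - 1 / (M : ℝ)) * f 2 + 1 / (M : ℝ) * f 0) * (x * x) +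
        (2 * f 1) * x + f 0 := by
      intro x
      have h3 := h 0 1 1 x
      rw [mul_zero, zero_add, mul_one] at h3
      refine h3.trans (le_of_eq ?_)
      ring
    have hd := discrim_le_zero hdisc
    unfold discrim at hd
    have h2 : r ^ 2 * f 0 ≤ (1 - 1 / (M : ℝ)) * f 2 + 1 / (M : ℝ) * f 0 := by
      have h3 : (r * f 0) ^ 2 ≤ f 1 ^ 2 := pow_le_pow_left₀ (by positivity) h1 2
      have h4 : f 0 * (r ^ 2 * f 0) ≤
          f 0 * ((1 - 1 / (M : ℝ)) * f 2 + 1 / (M : ℝ) * f 0) := by nlinarith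
      exact le_of_mul_le_mul_left h4 ha
    have h5 : 1 / (M : ℝ) ≤ r ^ 2 / 2 := by
      rw [div_le_div_iff₀ hM0 (by norm_num)]
      have h6 : r ^ 2 * (4 * (2 / r) ^ 2) ≤ r ^ 2 * M :=
        mul_le_mul_of_nonneg_left hM3 (by positivity)
      have h7 : r ^ 2 * (4 * (2 / r) ^ 2) = 16 := by field_simp; norm_num
      linarith
    have h6 : 1 / (M : ℝ) * f 0 ≤ r ^ 2 / 2 * f 0 := mul_le_mul_of_nonneg_right h5 ha.le
    have h7 : r ^ 2 / 2 * f 0 ≤ (1 - 1 / (M : ℝ)) * f 2 := by linarith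
    have h8 : 0 < 1 - 1 / (M : ℝ) := by
      have : r ^ 2 ≤ 1 := pow_le_one₀ hr.le hr1
      linarith
    have h9 : 0 < f 2 := by
      by_contra hcon
      push Not at hcon
      have : (1 - 1 / (M : ℝ)) * f 2 ≤ 0 := mul_nonpos_of_nonneg_of_nonpos h8.le hcon
      have h10 : 0 < r ^ 2 / 2 * f 0 := by positivity
      linarith
    have h10 : 0 ≤ 1 / (M : ℝ) * f 2 := by positivity
    linarith
  have hr2 : r ^ 2 / 2 ≤ 1 := by
    have : r ^ 2 ≤ 1 := pow_le_one₀ hr.le hr1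
    linarith
  have e1 : 2 / (r ^ 2 / 2) = (2 / r) ^ 2 := by field_simp
  have e2 : r ^ 2 / 2 / 2 = (r / 2) ^ 2 := by ring
  have hgeo := geoR h ha (r ^ 2 / 2) (by positivity) hr2 I (by
    rw [e1, ← pow_mul]
    refine le_trans (mul_le_mul_of_nonneg_left ?_ (by norm_num)) hM
    exact pow_le_pow_right₀ hQ1 (by omega)) hstart I le_rfl
  refine ⟨2 * I, hI1, ?_⟩
  refine le_trans ?_ hgeo
  rw [e2, ← pow_mul]
  refine mul_le_mul_of_nonneg_right ?_ ha.le
  exact pow_le_pow_of_le_one (by positivity) (by linarith) hI2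

end

section
variable {W : Type} [Fintype W] [DecidableEq W] {m : W → ℝ} {T : (W → ℝ) → (W → ℝ)}

/-- global correlation, positive masses -/
theorem gcr (h : IsOper m T) (κ r q : ℝ) (hκ : 0 < κ) (hκ1 : κ < 1)
    (hr : 0 < r) (hr1 : r ≤ 1) (hq : 0 < q) (hq1 : q ≤ 1)
    (hH : ∀ g : W → ℝ, (∀ u, 0 ≤ g u) → ip m g (T g) ≤
      (vol m univ) ^ (-κ) * (∑ u, m u * g u ^ (2 / (1 + κ))) ^ (1 + κ))
    (hW : Nonempty W) (k : W → W → ℝ) (hsy : ∀ u v, k u v = k v u) (M : ℕ)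
    (hM : 4 * Real.exp (Real.log (2 / r) * (Real.log (1 / q) / κ + 4)) ≤ M) (hk : LP (M + M) k)
    (ha : 0 < ∑ u, m u * k u u)
    (hen : r * ∑ u, m u * k u u ≤ ∑ u, ∑ v, m u * m v * (T (dl m v)) u * k u v) :
    (∑ u, m u * k u u) ^ 2 * (Real.exp (-(2 * Real.log (2 / r) * (Real.log (1 / q) / κ + 2)))
        * (Fintype.card W : ℝ) ^ (-q)) ≤ ∑ u, ∑ v, m u * m v * k u v ^ 2 := by
  set a : ℝ := ∑ u, m u * k u u with had
  have hlogq : 0 ≤ Real.log (1 / q) := Real.log_nonneg (by rw [le_div_iff₀ hq]; linarith)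
  have hR : 0 ≤ Real.log (2 / r) := Real.log_nonneg (by rw [le_div_iff₀ hr]; linarith)
  have hMpos : (0 : ℝ) < M := lt_of_lt_of_le (by positivity) hM
  have hM0 : 0 < M := by exact_mod_cast hMpos
  obtain ⟨hAC, h0⟩ := ac_oper h k hsy M hM0 hk
  obtain ⟨T0, hT0⟩ : ∃ T0 : ℕ, T0 = ⌈Real.log (1 / q) / κ⌉₊ := ⟨_, rfl⟩
  have hT1 : Real.log (1 / q) / κ ≤ T0 := by rw [hT0]; exact Nat.le_ceil _
  have hT2 : (T0 : ℝ) ≤ Real.log (1 / q) / κ + 1 := by
    rw [hT0]; exact (Nat.ceil_lt_add_one (by positivity)).le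
  have e2r : 2 / r = Real.exp (Real.log (2 / r)) := (Real.exp_log (by positivity)).symm
  have hM2 : 4 * (2 / r) ^ (T0 + 3) ≤ (M : ℝ) := by
    refine le_trans (mul_le_mul_of_nonneg_left ?_ (by norm_num)) hM
    rw [e2r, ← Real.exp_nat_mul, ← e2r]
    apply Real.exp_le_exp.2
    rw [mul_comm]
    refine mul_le_mul_of_nonneg_left ?_ hR
    push_cast
    linarith
  obtain ⟨t, ht, hft⟩ := ac_lowerR hAC (by show 0 < ∑ u, ∑ v, _; rw [h0]; exact ha) r hr hr1
    (by show r * (∑ u, ∑ v, m u * m v * (T^[0] (dl m v)) u * k u v) ≤ _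
        rw [h0]; exact hen) T0 hM2
  have hft' : Real.exp (-(Real.log (2 / r) * (Real.log (1 / q) / κ + 2))) * a ≤
      ∑ u, ∑ v, m u * m v * (T^[t] (dl m v)) u * k u v := by
    refine le_trans ?_ hft
    show _ ≤ (r / 2) ^ (T0 + 1) * (∑ u, ∑ v, m u * m v * (T^[0] (dl m v)) u * k u v)
    rw [h0]
    refine mul_le_mul_of_nonneg_right ?_ ha.le
    have e3 : r / 2 = Real.exp (-Real.log (2 / r)) := by
      rw [Real.exp_neg, ← e2r, inv_div]
    rw [e3, ← Real.exp_nat_mul]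
    apply Real.exp_le_exp.2
    push_cast
    have h5 : ((T0 : ℝ) + 1) * Real.log (2 / r) ≤
        (Real.log (1 / q) / κ + 2) * Real.log (2 / r) :=
      mul_le_mul_of_nonneg_right (by linarith) hR
    linarith
  have hdec : (1 - κ) ^ t ≤ q := by
    have a1 : 1 - κ ≤ Real.exp (-κ) := by
      have := Real.add_one_le_exp (-κ)
      linarith
    calc (1 - κ) ^ t ≤ Real.exp (-κ) ^ t := pow_le_pow_left₀ (by linarith) a1 t
      _ = Real.exp (t * -κ) := by rw [← Real.exp_nat_mul]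
      _ ≤ Real.exp (-Real.log (1 / q)) := by
          apply Real.exp_le_exp.2
          rw [div_le_iff₀ hκ] at hT1
          have h3 : (T0 : ℝ) ≤ t := by exact_mod_cast ht
          have h4 : (T0 : ℝ) * κ ≤ t * κ := mul_le_mul_of_nonneg_right h3 hκ.le
          linarith
      _ = q := by rw [← Real.log_inv, one_div, inv_inv, Real.exp_log hq]
  set H : W → W → ℝ := fun u v => (T^[t] (dl m v)) u with hH'
  have l2 : (∑ u, ∑ v, m u * m v * H u v * k u v) ^ 2 ≤
      (∑ u, ∑ v, m u * m v * H u v ^ 2) * ∑ u, ∑ v, m u * m v * k u v ^ 2 := by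
    have h1 := Finset.sum_sq_le_sum_mul_sum_of_sq_le_mul ((univ : Finset W) ×ˢ (univ : Finset W))
      (r := fun p => m p.1 * m p.2 * H p.1 p.2 * k p.1 p.2)
      (f := fun p => m p.1 * m p.2 * H p.1 p.2 ^ 2) (g := fun p => m p.1 * m p.2 * k p.1 p.2 ^ 2)
      (fun p _ => mul_nonneg (mul_nonneg (h.pos _).le (h.pos _).le) (sq_nonneg _))
      (fun p _ => mul_nonneg (mul_nonneg (h.pos _).le (h.pos _).le) (sq_nonneg _))
      (fun p _ => le_of_eq (by ring))
    rwa [sum_product, sum_product, sum_product] at h1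
  have l3 : ∑ u, ∑ v, m u * m v * H u v ^ 2 ≤ (Fintype.card W : ℝ) ^ q :=
    sq_total h κ hκ hκ1 hH q hq1 t hdec
  have hn : (1 : ℝ) ≤ (Fintype.card W : ℝ) := by
    exact_mod_cast Fintype.card_pos
  set Q : ℝ := ∑ u, ∑ v, m u * m v * k u v ^ 2 with hQ
  have hQ0 : 0 ≤ Q := sum_nonneg fun u _ => sum_nonneg fun v _ =>
    mul_nonneg (mul_nonneg (h.pos _).le (h.pos _).le) (sq_nonneg _)
  have hc0 : 0 ≤ Real.exp (-(Real.log (2 / r) * (Real.log (1 / q) / κ + 2))) * a := by positivity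
  have l4 : (Real.exp (-(Real.log (2 / r) * (Real.log (1 / q) / κ + 2))) * a) ^ 2 ≤
      (Fintype.card W : ℝ) ^ q * Q :=
    (pow_le_pow_left₀ hc0 hft' 2).trans (l2.trans (mul_le_mul_of_nonneg_right l3 hQ0))
  have hp : 0 < (Fintype.card W : ℝ) ^ q := Real.rpow_pos_of_pos (by linarith) _
  have hpn : (Fintype.card W : ℝ) ^ (-q) * (Fintype.card W : ℝ) ^ q = 1 := by
    rw [← Real.rpow_add (by linarith), neg_add_cancel, Real.rpow_zero]
  refine le_of_mul_le_mul_right ?_ hp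
  have e1 : Real.exp (-(2 * Real.log (2 / r) * (Real.log (1 / q) / κ + 2))) =
      Real.exp (-(Real.log (2 / r) * (Real.log (1 / q) / κ + 2))) ^ 2 := by
    rw [← Real.exp_nat_mul]
    congr 1
    push_cast
    ring
  calc a ^ 2 * (Real.exp (-(2 * Real.log (2 / r) * (Real.log (1 / q) / κ + 2))) *
        (Fintype.card W : ℝ) ^ (-q)) * (Fintype.card W : ℝ) ^ q
      = (Real.exp (-(Real.log (2 / r) * (Real.log (1 / q) / κ + 2))) * a) ^ 2 *
        ((Fintype.card W : ℝ) ^ (-q) * (Fintype.card W : ℝ) ^ q) := by rw [e1]; ring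
    _ = (Real.exp (-(Real.log (2 / r) * (Real.log (1 / q) / κ + 2))) * a) ^ 2 := by
        rw [hpn, mul_one]
    _ ≤ (Fintype.card W : ℝ) ^ q * Q := l4
    _ = Q * (Fintype.card W : ℝ) ^ q := by ring

end

open Classical in
/-- global correlation, zero masses allowed -/
theorem gcr0 {V : Type} [Fintype V] (K : V → V → ℝ) (hK : IsKer K) (m : V → ℝ)
    (hd : ∀ u, ∑ v, K u v = m u) (κ r q : ℝ) (n : ℕ) (hκ : 0 < κ) (hκ1 : κ < 1)
    (hr : 0 < r) (hr1 : r ≤ 1) (hq : 0 < q) (hq1 : q ≤ 1)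
    (hn : (univ.filter fun v => 0 < m v).card ≤ n)
    (hH : ∀ g : V → ℝ, (∀ u, 0 ≤ g u) → bil K g g ≤
      (∑ u, m u) ^ (-κ) * (∑ u, m u * g u ^ (2 / (1 + κ))) ^ (1 + κ))
    (k : V → V → ℝ) (hsy : ∀ u v, k u v = k v u) (M : ℕ)
    (hM : 4 * Real.exp (Real.log (2 / r) * (Real.log (1 / q) / κ + 4)) ≤ M) (hk : LP (M + M) k)
    (ha : 0 < ∑ u, m u * k u u)
    (hen : r * ∑ u, m u * k u u ≤ ∑ u, ∑ v, K u v * k u v) :
    (∑ u, m u * k u u) ^ 2 * (Real.exp (-(2 * Real.log (2 / r) * (Real.log (1 / q) / κ + 2)))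
        * (n : ℝ) ^ (-q)) ≤ ∑ u, ∑ v, m u * m v * k u v ^ 2 := by
  have hm : ∀ u, 0 ≤ m u := fun u => by rw [← hd]; exact sum_nonneg fun v _ => hK.nonneg u v
  have h0 : ∀ u, m u = 0 → ∀ v, K u v = 0 := fun u hu v => by
    rw [← hd] at hu
    exact (sum_eq_zero_iff_of_nonneg fun v _ => hK.nonneg u v).1 hu v (mem_univ v)
  have h0' : ∀ u v, m v = 0 → K u v = 0 := fun u v hv => by rw [hK.symm, h0 v hv]
  set W := {v // 0 < m v} with hWd
  set K' : W → W → ℝ := fun u v => K u.1 v.1 with hK'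
  set m' : W → ℝ := fun u => m u.1 with hm'
  have ext0 : ∀ (g : W → ℝ), ∃ e : V → ℝ, (∀ u : W, e u.1 = g u) ∧
      ((∀ u, 0 ≤ g u) → ∀ v, 0 ≤ e v) := by
    intro g
    refine ⟨fun v => if hv : 0 < m v then g ⟨v, hv⟩ else 0, fun u => ?_, fun hg v => ?_⟩
    · simp only [dif_pos u.2]
      rfl
    · simp only
      split_ifs
      · exact hg _
      · exact le_rfl
  have hbil : ∀ (f g : V → ℝ), bil K f g = bil K' (fun u => f u.1) (fun u => g u.1) := by
    intro f g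
    unfold bil
    exact GCFL.red2 m hm (fun u v => K u v * (f u * g v)) (fun u v hu => by simp [h0 u hu v])
      (fun u v hv => by simp [h0' u v hv])
  have hKer : IsKer K' := by
    refine ⟨fun u v => hK.nonneg _ _, fun u v => hK.symm _ _, fun f => ?_⟩
    obtain ⟨e, he, -⟩ := ext0 f
    have h1 := hK.psd e
    rw [hbil] at h1
    simp only [he] at h1
    exact h1
  have hdW : ∀ u : W, ∑ v, K' u v = m' u := by
    intro u
    have h1 := GCFL.red m hm (fun v => K u.1 v) (fun v hv => h0' _ _ hv)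
    rw [hd] at h1
    exact h1.symm
  have hop := isOper hKer m' (fun u => u.2) hdW
  have ea : ∑ u, m u * k u u = ∑ u : W, m' u * k u.1 u.1 :=
    GCFL.red m hm (fun u => m u * k u u) (fun v hv => by simp [hv])
  have hne : Nonempty W := by
    by_contra hemp
    rw [not_nonempty_iff] at hemp
    rw [ea, Fintype.sum_empty] at ha
    exact lt_irrefl _ ha
  have hvol : vol m' univ = ∑ u, m u :=
    (GCFL.red m hm (fun v => m v) (fun v hv => hv)).symm
  have hH' : ∀ g : W → ℝ, (∀ u, 0 ≤ g u) → ip m' g (ch K' m' g) ≤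
      (vol m' univ) ^ (-κ) * (∑ u, m' u * g u ^ (2 / (1 + κ))) ^ (1 + κ) := by
    intro g hg
    obtain ⟨e, he, he0⟩ := ext0 g
    have h1 := hH e (he0 hg)
    rw [hbil, GCFL.red m hm (fun u => m u * e u ^ (2 / (1 + κ))) (fun v hv => by simp [hv])] at h1
    simp only [he] at h1
    rw [ip_ch m' (fun u => u.2), hvol]
    exact h1
  have e3 : ∑ u, ∑ v, m u * m v * k u v ^ 2 =
      ∑ u : W, ∑ v : W, m' u * m' v * k u.1 v.1 ^ 2 :=
    GCFL.red2 m hm (fun u v => m u * m v * k u v ^ 2) (fun u v hu => by simp [hu])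
      (fun u v hv => by simp [hv])
  -- the first value of the autocorrelation
  have e4 : ∑ u : W, ∑ v : W, m' u * m' v * (ch K' m' (dl m' v)) u * k u.1 v.1 =
      ∑ u, ∑ v, K u v * k u v := by
    rw [GCFL.red2 m hm (fun u v => K u v * k u v) (fun u v hu => by simp [h0 u hu v])
      (fun u v hv => by simp [h0' u v hv])]
    refine sum_congr rfl fun u _ => sum_congr rfl fun v _ => ?_
    have e5 : (ch K' m' (dl m' v)) u = K' u v / (m' v * m' u) := by
      unfold ch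
      rw [sum_eq_single v]
      · unfold dl
        rw [if_pos rfl, mul_one_div, div_div]
      · intro w _ hw
        unfold dl
        rw [if_neg hw, mul_zero]
      · intro h; exact absurd (mem_univ v) h
    rw [e5]
    have h6 : m' u ≠ 0 := (u.2).ne'
    have h7 : m' v ≠ 0 := (v.2).ne'
    show m' u * m' v * (K' u v / (m' v * m' u)) * k u.1 v.1 = K' u v * k u.1 v.1
    field_simp
  have h := gcr hop κ r q hκ hκ1 hr hr1 hq hq1 hH' hne (fun u v : W => k u.1 v.1)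
    (fun u v => hsy _ _) M hM (fun x c => hk (fun i => (x i).1) c)
    (by rw [← ea]; exact ha) (by
      rw [← ea]
      exact hen.trans (le_of_eq e4.symm))
  rw [← ea] at h
  rw [e3]
  refine le_trans ?_ h
  refine mul_le_mul_of_nonneg_left ?_ (sq_nonneg _)
  refine mul_le_mul_of_nonneg_left ?_ (by positivity)
  have hc : Fintype.card W ≤ n := by
    have h9 : Fintype.card W = (univ.filter fun v => 0 < m v).card :=
      Fintype.card_subtype (fun v => 0 < m v)
    rw [h9]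
    exact hn
  have hc1 : 1 ≤ Fintype.card W := Fintype.card_pos
  refine Real.rpow_le_rpow_of_nonpos ?_ ?_ (by linarith)
  · exact_mod_cast hc1
  · exact_mod_cast hc

end Pool.Agent.Helper72.SA
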