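import Pool.Agent.Helper72.SA.Fct

/-!
Conditioning with general masses and general error weights, for the Sherali-Adams hierarchy.
-/

set_option autoImplicit false

namespace Pool.Agent.Helper72.SA

open Finset Pool.Agent.H647R3.UG Pool.Agent.H573R3.SL Pool.Agent.TH522.UG Pool.Agent.TH522.US

/-- global correlation property for the kernels which are positive semidefinite on `N` points -/
def GCS {V : Type} [Fintype V] (K : V → V → ℝ) (m : V → ℝ) (τ g : ℝ) (N : ℕ) : Prop :=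
  ∀ k : V → V → ℝ, (∀ u v, k u v = k v u) → LP N k → 0 < ∑ u, m u * k u u →
    (1 / 2) * ∑ u, ∑ v, K u v * (k u u + k v v - 2 * k u v) ≤ τ * ∑ u, m u * k u u →
    (∑ u, m u * k u u) ^ 2 * g ≤ ∑ u, ∑ v, m u * m v * k u v ^ 2

section
variable {V A E : Type} [Fintype V] [DecidableEq V] [Fintype A] [DecidableEq A] [Fintype E]
  {N : ℕ}

/-- one conditioning step -/
theorem s1g (K : V → V → ℝ) (m : V → ℝ) (L : ((V → A) → ℝ) →ₗ[ℝ] ℝ) (τ g c0 ε' : ℝ)
    (hL : FctS N L) (hm : ∀ v, 0 ≤ m v) (hM : 0 < ∑ v, m v) (hg : 0 ≤ g) (hGC : GCS K m τ g N)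
    (hc0 : 0 < c0) (hτ : 192 * ε' / c0 ≤ τ) (hτ0 : 0 ≤ τ)
    (hPhi : c0 * ∑ v, m v ≤ PhiM m L) (hE : Eng K L ≤ 24 * (ε' * ∑ v, m v)) :
    ∃ u, c0 ^ 2 / 64 * g * ∑ v, m v ≤ PhiM m L - ∑ a, pr L u a * PhiM m (cnd L u a) := by
  obtain ⟨hlaw, hpr0, hsymm, hdiag, hsat, hsat1, hks, hpsd, hFD'⟩ := hL
  set M : ℝ := ∑ v, m v with hMd
  have hkk : ∀ u, kr L u u = ker (dg (pr L u)) (pr L u) (pr L u) := fun u => by
    unfold kr; rw [hdiag]
  have hvr : ∀ u, vr L u / 8 ≤ kr L u u := fun u => by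
    rw [hkk]; exact T_RB A (pr L u) (hpr0 u) (hlaw u u).one
  have hT1 : PhiM m L / 8 ≤ ∑ u, m u * kr L u u := by
    unfold PhiM
    rw [sum_div]
    refine sum_le_sum fun u hu => ?_
    rw [mul_div_assoc]
    exact mul_le_mul_of_nonneg_left (hvr u) (hm u)
  have hT2 : c0 * M / 8 ≤ ∑ u, m u * kr L u u := le_trans (by linarith) hT1
  have hT0 : 0 < ∑ u, m u * kr L u u := lt_of_lt_of_le (by positivity) hT2
  have hgc := hGC (kr L) hks hpsd hT0 (by
    refine (show _ ≤ 24 * (ε' * M) from hE).trans ?_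
    have h1 : 24 * (ε' * M) = 192 * ε' / c0 * (c0 * M / 8) := by
      field_simp
      ring
    rw [h1]
    have h2 : 0 ≤ c0 * M / 8 := by positivity
    calc 192 * ε' / c0 * (c0 * M / 8) ≤ τ * (c0 * M / 8) := mul_le_mul_of_nonneg_right hτ h2
      _ ≤ _ := mul_le_mul_of_nonneg_left hT2 hτ0)
  have hlow : c0 ^ 2 / 64 * g * M ^ 2 ≤ ∑ u, ∑ v, m u * m v * (kr L u v) ^ 2 := by
    refine le_trans ?_ hgc
    have h1 : (c0 * M / 8) ^ 2 ≤ (∑ u, m u * kr L u u) ^ 2 :=
      pow_le_pow_left₀ (by positivity) hT2 2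
    have h2 : c0 ^ 2 / 64 * g * M ^ 2 = (c0 * M / 8) ^ 2 * g := by ring
    rw [h2]
    exact mul_le_mul_of_nonneg_right h1 hg
  have hdec : ∀ u v, (kr L u v) ^ 2 ≤ (dec L u v + dec L v u) / 2 := by
    intro u v
    obtain ⟨h1, h2, h3, h4⟩ := T_RD A (pr2 L u v) (pr L u) (pr L v) (hlaw u v)
    have e1 : (∑ a, ∑ b, (pr2 L u v a b - pr L u a * pr L v b) ^ 2 / pr L u a) = dec L u v := rfl
    have e2 : (∑ a, ∑ b, (pr2 L u v a b - pr L u a * pr L v b) ^ 2 / pr L v b) = dec L v u := by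
      unfold dec
      rw [sum_comm]
      refine sum_congr rfl fun b _ => sum_congr rfl fun a _ => ?_
      rw [hsymm u v a b, mul_comm (pr L u a)]
    rw [e1] at h2 h3
    rw [e2] at h2 h4
    have h5 : kr L u v = ker (pr2 L u v) (pr L u) (pr L v) := rfl
    rw [← h5] at h1 h2
    have h6 : kr L u v ≤ 1 := by linarith
    nlinarith
  have hup : ∑ u, ∑ v, m u * m v * (kr L u v) ^ 2 ≤ ∑ u, m u * ∑ v, m v * dec L u v := by
    have h1 : ∑ u, ∑ v, m u * m v * (kr L u v) ^ 2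
        ≤ ∑ u, ∑ v, m u * m v * ((dec L u v + dec L v u) / 2) :=
      sum_le_sum fun u hu => sum_le_sum fun v hv =>
        mul_le_mul_of_nonneg_left (hdec u v) (mul_nonneg (hm u) (hm v))
    refine h1.trans (le_of_eq ?_)
    have h2 : ∑ u, ∑ v, m u * m v * ((dec L u v + dec L v u) / 2)
        = (∑ u, ∑ v, m u * m v * dec L u v
          + ∑ u, ∑ v, m u * m v * dec L v u) / 2 := by
      rw [← sum_add_distrib, sum_div]
      refine sum_congr rfl fun u _ => ?_
      rw [← sum_add_distrib, sum_div]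
      refine sum_congr rfl fun v _ => ?_
      ring
    have h3 : ∑ u, ∑ v, m u * m v * dec L v u
        = ∑ u, ∑ v, m u * m v * dec L u v := by
      rw [sum_comm]
      refine sum_congr rfl fun u _ => sum_congr rfl fun v _ => ?_
      ring
    rw [h2, h3]
    have h4 : ∑ u, ∑ v, m u * m v * dec L u v = ∑ u, m u * ∑ v, m v * dec L u v := by
      refine sum_congr rfl fun u _ => ?_
      rw [mul_sum]
      exact sum_congr rfl fun v _ => by ring
    rw [h4]
    ring
  have hex : ∃ u, c0 ^ 2 / 64 * g * M ≤ ∑ v, m v * dec L u v := by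
    by_contra hcon
    push Not at hcon
    obtain ⟨u0, -, hu0⟩ : ∃ u ∈ (univ : Finset V), 0 < m u := by
      apply exists_lt_of_sum_lt (f := fun _ => (0 : ℝ))
      rw [sum_const_zero]
      exact hM
    have h1 : ∑ u, m u * ∑ v, m v * dec L u v < ∑ u, m u * (c0 ^ 2 / 64 * g * M) :=
      sum_lt_sum (fun u _ => mul_le_mul_of_nonneg_left (hcon u).le (hm u))
        ⟨u0, mem_univ _, mul_lt_mul_of_pos_left (hcon u0) hu0⟩
    rw [← sum_mul, ← hMd] at h1
    have h2 := hlow.trans hup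
    nlinarith
  obtain ⟨u, hle⟩ := hex
  refine ⟨u, hle.trans (le_of_eq ?_)⟩
  unfold PhiM
  have h2 : ∑ a, pr L u a * ∑ v, m v * vr (cnd L u a) v
      = ∑ v, m v * ∑ a, pr L u a * vr (cnd L u a) v := by
    simp_rw [mul_sum]
    rw [sum_comm]
    refine sum_congr rfl fun v _ => sum_congr rfl fun a _ => ?_
    ring
  rw [h2, ← sum_sub_distrib]
  refine sum_congr rfl fun v _ => ?_
  rw [hFD' u v]
  ring

theorem phiM_bounds (m : V → ℝ) (hm : ∀ v, 0 ≤ m v) {L : ((V → A) → ℝ) →ₗ[ℝ] ℝ} (hL : FctS N L) :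
    0 ≤ PhiM m L ∧ PhiM m L ≤ ∑ v, m v := by
  constructor
  · exact sum_nonneg fun v _ => mul_nonneg (hm v) (vr_bounds hL v).1
  · refine sum_le_sum fun v _ => ?_
    have := (vr_bounds hL v).2
    have := hm v
    nlinarith

theorem errW_nonneg (s t : E → V) (π : E → Equiv.Perm A) (α : E → ℝ) (hα : ∀ e, 0 ≤ α e)
    {L : ((V → A) → ℝ) →ₗ[ℝ] ℝ} (hL : FctS N L) : 0 ≤ ErrW s t π α L :=
  sum_nonneg fun e _ => mul_nonneg (hα e) (by linarith [hL.sat1 (s e) (t e) (π e)])

theorem errW_avg {Q : ℕ → (((V → A) → ℝ) →ₗ[ℝ] ℝ) → Prop} (hQ : HierS N Q) (s t : E → V)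
    (π : E → Equiv.Perm A) (α : E → ℝ) {L : ((V → A) → ℝ) →ₗ[ℝ] ℝ} {k : ℕ} (hL : Q (k + 1) L)
    (u : V) : ∑ a, pr L u a * ErrW s t π α (cnd L u a) = ErrW s t π α L := by
  have hone : ∑ a, pr L u a = 1 := ((hQ.fct _ _ hL).law u u).one
  unfold ErrW
  simp_rw [mul_sum]
  rw [sum_comm]
  refine sum_congr rfl fun e _ => ?_
  have h5 := hQ.avg k L hL u (s e) (t e) (π e)
  calc ∑ a, pr L u a * (α e * (1 - cnd L u a (sat (s e) (t e) (π e))))
      = α e * (∑ a, pr L u a - ∑ a, pr L u a * cnd L u a (sat (s e) (t e) (π e))) := by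
        rw [← sum_sub_distrib, mul_sum]
        refine sum_congr rfl fun a _ => ?_
        ring
    _ = _ := by rw [hone, h5]

/-- iteration -/
theorem s2g {Q : ℕ → (((V → A) → ℝ) →ₗ[ℝ] ℝ) → Prop} (hQ : HierS N Q) (s t : E → V)
    (π : E → Equiv.Perm A) (K : V → V → ℝ) (m : V → ℝ) (α : E → ℝ) (τ g c0 ε0 : ℝ) (k : ℕ)
    (hm : ∀ v, 0 ≤ m v) (hM' : 0 < ∑ v, m v) (hα : ∀ e, 0 ≤ α e) (hg : 0 ≤ g)
    (hGC : GCS K m τ g N) (hc0 : 0 < c0) (hε : 0 < ε0) (hτ : 384 * ε0 / c0 ≤ τ) (hτ0 : 0 ≤ τ)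
    (hk : 2 ≤ k * (c0 ^ 2 / 64 * g))
    (hEng : ∀ (k : ℕ) (L : ((V → A) → ℝ) →ₗ[ℝ] ℝ), Q k L → Eng K L ≤ 24 * ErrW s t π α L)
    (K0 : ℕ) (L : ((V → A) → ℝ) →ₗ[ℝ] ℝ) (hL : Q (K0 + k) L)
    (hErr : ErrW s t π α L ≤ ε0 * ∑ v, m v) :
    ∃ L' : ((V → A) → ℝ) →ₗ[ℝ] ℝ, Q K0 L' ∧ PhiM m L' ≤ c0 * ∑ v, m v ∧
      ErrW s t π α L' ≤ 2 * ε0 * ∑ v, m v := by
  set M := ∑ v, m v with hMdef
  have hM : 0 < M := hM'
  set Δ := c0 ^ 2 / 64 * g with hΔ
  have hΔ0 : 0 < Δ := by
    by_contra hneg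
    push Not at hneg
    have : (k : ℝ) * Δ ≤ 0 := mul_nonpos_of_nonneg_of_nonpos (Nat.cast_nonneg k) hneg
    linarith
  have key : ∀ k' : ℕ, ∀ (L : ((V → A) → ℝ) →ₗ[ℝ] ℝ), Q (K0 + k') L →
      PhiM m L / M + ErrW s t π α L / (ε0 * M) ≤ 2 →
      PhiM m L / M + ErrW s t π α L / (ε0 * M) ≤ k' * Δ →
      ∃ L' : ((V → A) → ℝ) →ₗ[ℝ] ℝ, Q K0 L' ∧ PhiM m L' ≤ c0 * M ∧
      ErrW s t π α L' ≤ 2 * ε0 * M := by
    intro k'
    induction k' with
    | zero =>
      intro L hL h2 hk'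
      have hfc := hQ.fct _ _ hL
      obtain ⟨hp0, hp1⟩ := phiM_bounds m hm hfc
      have he0 := errW_nonneg s t π α hα hfc
      have h1 : 0 ≤ PhiM m L / M := by positivity
      have h3 : 0 ≤ ErrW s t π α L / (ε0 * M) := by positivity
      have h4 : PhiM m L / M ≤ 0 := by
        push_cast at hk'; linarith
      have h5 : ErrW s t π α L / (ε0 * M) ≤ 0 := by
        push_cast at hk'; linarith
      rw [div_le_iff₀ hM] at h4
      rw [div_le_iff₀ (by positivity)] at h5
      refine ⟨L, hL, ?_, ?_⟩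
      · have : 0 < c0 * M := by positivity
        linarith
      · have : 0 < 2 * ε0 * M := by positivity
        linarith
    | succ k' ih =>
      intro L hL h2 hk'
      have hfc := hQ.fct _ _ hL
      obtain ⟨hp0, hp1⟩ := phiM_bounds m hm hfc
      have he0 := errW_nonneg s t π α hα hfc
      have h1 : 0 ≤ PhiM m L / M := by positivity
      have h3 : 0 ≤ ErrW s t π α L / (ε0 * M) := by positivity
      have herr : ErrW s t π α L ≤ 2 * ε0 * M := by
        have h5 : ErrW s t π α L / (ε0 * M) ≤ 2 := by linarith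
        rw [div_le_iff₀ (by positivity)] at h5
        linarith
      rcases le_total (PhiM m L) (c0 * M) with hc | hc
      · exact ⟨L, hQ.mono' L K0 (k' + 1) hL, hc, herr⟩
      · have hE : Eng K L ≤ 24 * (2 * ε0 * M) :=
          (hEng _ L hL).trans (mul_le_mul_of_nonneg_left herr (by norm_num))
        obtain ⟨u, hle⟩ := s1g K m L τ g c0 (2 * ε0) hfc hm hM' hg hGC hc0
          (by
            have e1 : 192 * (2 * ε0) / c0 = 384 * ε0 / c0 := by ring
            rw [e1]; exact hτ) hτ0 hc hE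
        rw [← hΔ, ← hMdef] at hle
        have hpr0 := hfc.nn
        have hone : ∑ a, pr L u a = 1 := (hfc.law u u).one
        have havg := errW_avg hQ s t π α (k := K0 + k') hL u
        have hex : ∃ a, 0 < pr L u a ∧
            PhiM m (cnd L u a) / M + ErrW s t π α (cnd L u a) / (ε0 * M)
              ≤ PhiM m L / M + ErrW s t π α L / (ε0 * M) - Δ := by
          by_contra hne
          push Not at hne
          have hs : ∑ a, pr L u a * (PhiM m (cnd L u a) / M
              + ErrW s t π α (cnd L u a) / (ε0 * M))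
              ≤ PhiM m L / M + ErrW s t π α L / (ε0 * M) - Δ := by
            have e2 : ∑ a, pr L u a * (PhiM m (cnd L u a) / M
              + ErrW s t π α (cnd L u a) / (ε0 * M))
              = (∑ a, pr L u a * PhiM m (cnd L u a)) / M + ErrW s t π α L / (ε0 * M) := by
              rw [← havg, sum_div, sum_div, ← sum_add_distrib]
              refine sum_congr rfl fun a _ => ?_
              ring
            rw [e2]
            have h6 : (∑ a, pr L u a * PhiM m (cnd L u a)) / M ≤ PhiM m L / M - Δ := by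
              rw [div_le_iff₀ hM, sub_mul, div_mul_cancel₀ _ hM.ne']
              linarith
            linarith
          have hpos' : ∃ a, 0 < pr L u a := by
            by_contra hno
            push Not at hno
            have : ∑ a, pr L u a ≤ 0 := sum_nonpos fun a _ => hno a
            linarith
          obtain ⟨a0, ha0⟩ := hpos'
          have hlt : ∑ a, pr L u a * (PhiM m L / M + ErrW s t π α L / (ε0 * M) - Δ)
              < ∑ a, pr L u a * (PhiM m (cnd L u a) / M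
              + ErrW s t π α (cnd L u a) / (ε0 * M)) := by
            apply sum_lt_sum
            · intro a _
              rcases (hpr0 u a).lt_or_eq with h | h
              · exact mul_le_mul_of_nonneg_left (hne a h).le h.le
              · rw [← h, zero_mul, zero_mul]
            · exact ⟨a0, mem_univ _, mul_lt_mul_of_pos_left (hne a0 ha0) ha0⟩
          rw [← sum_mul, hone, one_mul] at hlt
          linarith
        obtain ⟨a, ha, hle2⟩ := hex
        have hL' := hQ.step (K0 + k') L hL u a ha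
        refine ih (cnd L u a) hL' ?_ ?_
        · linarith
        · push_cast at hk'
          linarith
  obtain ⟨hp0, hp1⟩ := phiM_bounds m hm (hQ.fct _ _ hL)
  have h1 : PhiM m L / M ≤ 1 := by rw [div_le_one hM]; exact hp1
  have h2 : ErrW s t π α L / (ε0 * M) ≤ 1 := by rw [div_le_one (by positivity)]; exact hErr
  exact key k L hL (by linarith) (by linarith)

end

end Pool.Agent.Helper72.SA
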