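import Pool.Agent.Helper72.SA.Sub

/-!
The walk killed at the vertices of large rate, and the correlation of kernels which are positive
semidefinite on few points only, on a network with a logarithmic Sobolev inequality.
-/

set_option autoImplicit false

namespace Pool.Agent.Helper72.SA

open Finset Pool.Agent.H647R3.UG Pool.Agent.H573R3.SL Pool.Agent.TH522.US

section
variable {W : Type} [Fintype W] {K : W → W → ℝ}

theorem bil_le (hK : IsKer K) (m : W → ℝ) (hd : ∀ u, ∑ v, K u v ≤ m u) (f : W → ℝ) :
    bil K f f ≤ ip m f f := by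
  unfold bil ip
  have h1 : ∑ u, ∑ v, K u v * (f u * f v) ≤
      ∑ u, ∑ v, (K u v * (f u * f u) / 2 + K u v * (f v * f v) / 2) :=
    sum_le_sum fun u _ => sum_le_sum fun v _ => by
      have h2 := mul_nonneg (hK.nonneg u v) (sq_nonneg (f u - f v))
      linarith
  refine h1.trans ?_
  simp only [sum_add_distrib]
  have e1 : ∑ u, ∑ v, K u v * (f v * f v) / 2 = ∑ u, ∑ v, K u v * (f u * f u) / 2 := by
    rw [sum_comm]
    refine sum_congr rfl fun u _ => sum_congr rfl fun v _ => ?_
    rw [hK.symm]
  rw [e1, ← sum_add_distrib]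
  refine sum_le_sum fun u _ => ?_
  have e2 : ∑ v, K u v * (f u * f u) / 2 = (∑ v, K u v) * (f u * f u) / 2 := by
    rw [sum_mul, sum_div]
  rw [e2]
  have := mul_le_mul_of_nonneg_right (hd u) (mul_self_nonneg (f u))
  linarith

theorem isSub_ch (hK : IsKer K) (m : W → ℝ) (hm : ∀ u, 0 < m u) (hd : ∀ u, ∑ v, K u v ≤ m u) :
    IsSub m (ch K m) where
  pos := hm
  sym f g := by rw [OPX.ip_comm, ip_ch m hm, ip_ch m hm, bil_comm hK]
  tot f hf := by
    have h1 : ∑ u, m u * ch K m f u = ip m (fun _ => 1) (ch K m f) := by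
      unfold ip
      exact sum_congr rfl fun u _ => by ring
    rw [h1, ip_ch m hm, bil_comm hK]
    unfold bil
    refine sum_le_sum fun u _ => ?_
    have e : ∑ v, K u v * (f u * 1) = (∑ v, K u v) * f u := by
      rw [sum_mul]
      exact sum_congr rfl fun v _ => by ring
    rw [e]
    exact mul_le_mul_of_nonneg_right (hd u) (hf u)
  nn f hf u := div_nonneg (sum_nonneg fun v _ => mul_nonneg (hK.nonneg u v) (hf v)) (hm u).le
  sq f := by
    set g := ch K m f with hg
    have h1 : ip m g g = bil K g f := by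
      conv_lhs => rw [hg]
      rw [← hg, ip_ch m hm]
    have h2 : bil K g g ≤ ip m g g := bil_le hK m hd g
    have h3 : ip m f g = bil K f f := ip_ch m hm f f
    have h4 := bil_cs hK g f
    rw [h3]
    have h5 := hK.psd f
    have h6 := LCX.ip_self_nonneg hm g
    rcases h6.eq_or_lt with h7 | h7
    · rw [← h7]; exact h5
    · have h8 : ip m g g * ip m g g ≤ ip m g g * bil K f f := by
        calc ip m g g * ip m g g = bil K g f ^ 2 := by rw [h1]; ring
          _ ≤ bil K f f * bil K g g := h4
          _ ≤ bil K f f * ip m g g := mul_le_mul_of_nonneg_left h2 h5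
          _ = _ := by ring
      exact le_of_mul_le_mul_left h8 h7
  le f := by
    rw [ip_ch m hm]
    exact bil_le hK m hd f
  lin f g c := by
    funext u
    unfold ch
    have : ∑ v, K u v * (f v + c * g v) = ∑ v, K u v * f v + c * ∑ v, K u v * g v := by
      rw [mul_sum, ← sum_add_distrib]
      exact sum_congr rfl fun v _ => by ring
    simp only [this]
    ring

end

theorem sub_red {W : Type} [Fintype W] (P : W → Prop) [DecidablePred P] (F : W → ℝ) :
    ∑ u : {u // P u}, F u.1 = ∑ u, if P u then F u else 0 := by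
  rw [← sum_filter]
  exact (Finset.sum_subtype (univ.filter P) (fun x => by simp) F).symm

theorem sub_red2 {W : Type} [Fintype W] (P : W → Prop) [DecidablePred P] (F : W → W → ℝ) :
    ∑ u : {u // P u}, ∑ v : {u // P u}, F u.1 v.1 =
      ∑ u, ∑ v, if P u ∧ P v then F u v else 0 := by
  have h1 : ∀ u : W, ∑ v : {u // P u}, F u v.1 = ∑ v, if P v then F u v else 0 :=
    fun u => sub_red P (F u)
  have h2 := sub_red P fun u => ∑ v, if P v then F u v else 0
  rw [sum_congr rfl fun (u : {u // P u}) _ => h1 u.1, h2]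
  refine sum_congr rfl fun u _ => ?_
  by_cases hu : P u
  · rw [if_pos hu]
    refine sum_congr rfl fun v _ => ?_
    by_cases hv : P v
    · rw [if_pos hv, if_pos ⟨hu, hv⟩]
    · rw [if_neg hv, if_neg fun h => hv h.2]
  · rw [if_neg hu]
    symm
    exact sum_eq_zero fun v _ => if_neg fun h => hu h.1

theorem LP.two {W : Type} {N : ℕ} {k : W → W → ℝ} (hk : LP N k) (hN : 2 ≤ N)
    (hsy : ∀ u v, k u v = k v u) (u v : W) : 0 ≤ k u u + k v v - 2 * k u v := by
  classical
  obtain ⟨i, hi⟩ : ∃ i : Fin N, i = ⟨0, by omega⟩ := ⟨_, rfl⟩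
  obtain ⟨j, hj⟩ : ∃ j : Fin N, j = ⟨1, by omega⟩ := ⟨_, rfl⟩
  have hij : i ≠ j := by
    rw [hi, hj]
    intro h
    have := congrArg Fin.val h
    simp at this
  have h := hk (fun a => if a = i then u else v)
    (fun a => if a = i then 1 else if a = j then -1 else 0)
  have e : ∀ F : Fin N → ℝ, ∑ a, (if a = i then 1 else if a = j then -1 else 0) * F a =
      F i - F j := by
    intro F
    rw [← add_sum_erase univ _ (mem_univ i), ← add_sum_erase (univ.erase i) _
      (mem_erase.2 ⟨hij.symm, mem_univ j⟩)]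
    rw [sum_eq_zero fun a ha => ?_]
    · simp [hij.symm]
      ring
    · have h1 := (mem_erase.1 ha).1
      have h2 := (mem_erase.1 (mem_erase.1 ha).2).1
      simp [h1, h2]
  have e2 : ∑ a, ∑ b, (if a = i then (1 : ℝ) else if a = j then -1 else 0) *
      (if b = i then 1 else if b = j then -1 else 0) *
        k (if a = i then u else v) (if b = i then u else v) =
      ∑ a, (if a = i then (1 : ℝ) else if a = j then -1 else 0) *
        ∑ b, (if b = i then 1 else if b = j then -1 else 0) *
        k (if a = i then u else v) (if b = i then u else v) := by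
    refine sum_congr rfl fun a _ => ?_
    rw [mul_sum]
    exact sum_congr rfl fun b _ => by ring
  rw [e2, e, e, e] at h
  simp only [if_true, if_neg hij.symm] at h
  rw [hsy v u] at h
  linarith

section
variable {W : Type} [Fintype W] [DecidableEq W]

open Classical in
/-- global correlation from the killed walk, positive masses -/
theorem gckill (c : W → W → ℝ) (m : W → ℝ) (l s τ q β : ℝ) (hc : ∀ u v, 0 ≤ c u v)
    (hsym : ∀ u v, c u v = c v u) (hm : ∀ u, 0 < m u) (hl : 0 < l) (hLS : LSob c m l)
    (hs : 0 < s) (hs1 : s ≤ 1 / 8) (hsl : s * l ≤ 1) (hτ : 0 < τ) (hτ1 : τ ≤ 1) (hq : 0 < q)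
    (hq1 : q ≤ 1) (k : W → W → ℝ) (hsy : ∀ u v, k u v = k v u) (hk1 : ∀ u, k u u ≤ 1) (M : ℕ)
    (hM : 96 * Real.exp (24 * (τ / l) * Real.log (1 / q)) ≤ M)
    (hM' : 1 + 5 * Real.log (1 / (s * τ)) ≤ M) (hk : LP (M + M) k)
    (ha : 0 < ∑ u, m u * k u u)
    (hβ : ∑ u, (if s * ∑ v, c u v ≤ m u then 0 else ∑ v, c u v + m u) ≤ β)
    (hβa : β ≤ (∑ u, m u * k u u) / 2)
    (hE : (1 / 2) * ∑ u, ∑ v, c u v * (k u u + k v v - 2 * k u v) + β ≤
      τ * ∑ u, m u * k u u) :
    (∑ u, m u * k u u) ^ 2 * (1 / 256 * Real.exp (-(48 * (τ / l) * Real.log (1 / q)))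
        * (Fintype.card W : ℝ) ^ (-q)) ≤ ∑ u, ∑ v, m u * m v * k u v ^ 2 := by
  set a : ℝ := ∑ u, m u * k u u with had
  set deg : W → ℝ := fun u => ∑ v, c u v with hdeg
  have hdeg0 : ∀ u, 0 ≤ deg u := fun u => sum_nonneg fun v _ => hc u v
  set P : W → Prop := fun u => s * deg u ≤ m u with hP
  have hM2 : 2 ≤ M + M := by
    have h1 : (0 : ℝ) < M := lt_of_lt_of_le (by positivity) hM
    have h2 : 0 < M := by exact_mod_cast h1
    omega
  have hkd : ∀ u, 0 ≤ k u u := fun u => hk.diag (by omega) u
  have hk2 : ∀ u v, 0 ≤ k u u + k v v - 2 * k u v := fun u v => hk.two hM2 hsy u v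
  set m' : {u // P u} → ℝ := fun u => m u.1 with hm'
  set Kk : {u // P u} → {u // P u} → ℝ := fun u v => s / 2 * c u.1 v.1 +
    (if u = v then m u.1 - s / 2 * deg u.1 else 0) with hKk
  have hsub_le : ∀ (F : W → ℝ), (∀ u, 0 ≤ F u) → ∑ u : {u // P u}, F u.1 ≤ ∑ u, F u := by
    intro F hF
    rw [sub_red]
    exact sum_le_sum fun u _ => by split_ifs; exacts [le_rfl, hF u]
  have hdiag : ∀ u : {u // P u}, 0 ≤ m u.1 - s / 2 * deg u.1 := by
    intro u
    have h1 : s * deg u.1 ≤ m u.1 := u.2
    have h2 : 0 ≤ s * deg u.1 := mul_nonneg hs.le (hdeg0 _)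
    linarith
  have hKs : ∀ (F : {u // P u} → {u // P u} → ℝ), ∑ u, ∑ v, Kk u v * F u v =
      s / 2 * (∑ u, ∑ v, c u.1 v.1 * F u v) + ∑ u, (m u.1 - s / 2 * deg u.1) * F u u := by
    intro F
    rw [mul_sum, ← sum_add_distrib]
    refine sum_congr rfl fun u _ => ?_
    simp only [hKk, add_mul, sum_add_distrib, ite_mul, zero_mul]
    rw [sum_ite_eq, if_pos (mem_univ _)]
    congr 1
    rw [mul_sum]
    exact sum_congr rfl fun v _ => by ring
  have hKer : IsKer Kk := by
    refine ⟨fun u v => ?_, fun u v => ?_, fun f => ?_⟩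
    · simp only [hKk]
      refine add_nonneg (mul_nonneg (by linarith) (hc _ _)) ?_
      split_ifs
      · exact hdiag u
      · exact le_rfl
    · simp only [hKk]
      rw [hsym u.1 v.1]
      rcases eq_or_ne u v with h | h
      · rw [h]
      · rw [if_neg h, if_neg h.symm]
    · unfold bil
      rw [hKs]
      have h1 : -(∑ u : {u // P u}, deg u.1 * (f u * f u)) ≤
          ∑ u : {u // P u}, ∑ v : {u // P u}, c u.1 v.1 * (f u * f v) := by
        have h2 : -(∑ u : {u // P u}, ∑ v : {u // P u},
            (c u.1 v.1 * (f u * f u) / 2 + c u.1 v.1 * (f v * f v) / 2)) ≤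
            ∑ u : {u // P u}, ∑ v : {u // P u}, c u.1 v.1 * (f u * f v) := by
          rw [← sum_neg_distrib]
          refine sum_le_sum fun u _ => ?_
          rw [← sum_neg_distrib]
          refine sum_le_sum fun v _ => ?_
          have h3 := mul_nonneg (hc u.1 v.1) (sq_nonneg (f u + f v))
          linarith
        refine le_trans (neg_le_neg ?_) h2
        simp only [sum_add_distrib]
        have e1 : ∑ u : {u // P u}, ∑ v : {u // P u}, c u.1 v.1 * (f v * f v) / 2 =
            ∑ u : {u // P u}, ∑ v : {u // P u}, c u.1 v.1 * (f u * f u) / 2 := by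
          rw [sum_comm]
          refine sum_congr rfl fun u _ => sum_congr rfl fun v _ => ?_
          rw [hsym]
        rw [e1, ← sum_add_distrib]
        refine sum_le_sum fun u _ => ?_
        have e2 : ∑ v : {u // P u}, c u.1 v.1 * (f u * f u) / 2 =
            (∑ v : {u // P u}, c u.1 v.1) * (f u * f u) / 2 := by
          rw [sum_mul, sum_div]
        rw [e2]
        have h4 : ∑ v : {u // P u}, c u.1 v.1 ≤ deg u.1 := hsub_le (c u.1) (hc u.1)
        have := mul_le_mul_of_nonneg_right h4 (mul_self_nonneg (f u))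
        linarith
      have h5 : ∑ u : {u // P u}, (s * deg u.1) * (f u * f u) ≤
          ∑ u : {u // P u}, m u.1 * (f u * f u) :=
        sum_le_sum fun u _ => mul_le_mul_of_nonneg_right u.2 (mul_self_nonneg _)
      have e3 : ∑ u : {u // P u}, (m u.1 - s / 2 * deg u.1) * (f u * f u) =
          ∑ u : {u // P u}, m u.1 * (f u * f u) -
            s / 2 * ∑ u : {u // P u}, deg u.1 * (f u * f u) := by
        rw [mul_sum, ← sum_sub_distrib]
        exact sum_congr rfl fun u _ => by ring
      have e4 : ∑ u : {u // P u}, (s * deg u.1) * (f u * f u) =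
          s * ∑ u : {u // P u}, deg u.1 * (f u * f u) := by
        rw [mul_sum]
        exact sum_congr rfl fun u _ => by ring
      have h6 := mul_le_mul_of_nonneg_left h1 (by linarith : 0 ≤ s / 2)
      rw [e3]
      rw [e4] at h5
      linarith
  have hrow : ∀ u, ∑ v, Kk u v ≤ m' u := by
    intro u
    simp only [hKk]
    rw [sum_add_distrib, sum_ite_eq, if_pos (mem_univ _), ← mul_sum]
    have h4 : ∑ v : {u // P u}, c u.1 v.1 ≤ deg u.1 := hsub_le (c u.1) (hc u.1)
    have := mul_le_mul_of_nonneg_left h4 (by linarith : 0 ≤ s / 2)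
    show _ ≤ m u.1
    linarith
  have hpos' : ∀ u, 0 < m' u := fun u => hm u.1
  have hop := isSub_ch hKer m' hpos' hrow
  -- the masses
  have haX : a / 2 ≤ ∑ u : {u // P u}, m' u * k u.1 u.1 := by
    have e1 : ∑ u : {u // P u}, m' u * k u.1 u.1 = ∑ u, if P u then m u * k u u else 0 :=
      sub_red P fun u => m u * k u u
    have h1 : a - β ≤ ∑ u, if P u then m u * k u u else 0 := by
      have h2 : a - ∑ u, (if P u then m u * k u u else 0) ≤ β := by
        refine le_trans ?_ hβ
        rw [had, ← sum_sub_distrib]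
        refine sum_le_sum fun u _ => ?_
        by_cases hu : P u
        · rw [if_pos hu, if_pos hu, sub_self]
        · rw [if_neg hu, if_neg hu, sub_zero]
          have h3 : m u * k u u ≤ m u * 1 := mul_le_mul_of_nonneg_left (hk1 u) (hm u).le
          have h4 := hdeg0 u
          show _ ≤ deg u + m u
          linarith
      linarith
    rw [e1]
    linarith
  have haX0 : 0 < ∑ u : {u // P u}, m' u * k u.1 u.1 := lt_of_lt_of_le (by linarith) haX
  have hne : Nonempty {u // P u} := by
    by_contra hemp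
    rw [not_nonempty_iff] at hemp
    rw [Fintype.sum_empty] at haX0
    exact lt_irrefl _ haX0
  -- the extension by zero
  set ext : ({u // P u} → ℝ) → W → ℝ := fun g v => if h : P v then g ⟨v, h⟩ else 0 with hext
  have ext1 : ∀ g (u : {u // P u}), ext g u.1 = g u := fun g u => by
    simp only [hext, dif_pos u.2]
  have ext0 : ∀ g u, ¬ P u → ext g u = 0 := fun g u hu => by
    simp only [hext, dif_neg hu]
  have hen : ∀ g : {u // P u} → ℝ, bil Kk g g = ip m' g g - s / 2 * en c (ext g) := by
    intro g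
    have e1 : en c (ext g) = ∑ u : {u // P u}, deg u.1 * (g u * g u) -
        ∑ u : {u // P u}, ∑ v : {u // P u}, c u.1 v.1 * (g u * g v) := by
      have f1 : ∑ u : {u // P u}, deg u.1 * (g u * g u) = ∑ u, deg u * (ext g u * ext g u) := by
        have h := sub_red P fun u => deg u * (ext g u * ext g u)
        simp only [ext1] at h
        rw [h]
        refine sum_congr rfl fun u _ => ?_
        by_cases hu : P u
        · rw [if_pos hu]
        · rw [if_neg hu, ext0 g u hu]; ring
      have f2 : ∑ u : {u // P u}, ∑ v : {u // P u}, c u.1 v.1 * (g u * g v) =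
          ∑ u, ∑ v, c u v * (ext g u * ext g v) := by
        have h := sub_red2 P fun u v => c u v * (ext g u * ext g v)
        simp only [ext1] at h
        rw [h]
        refine sum_congr rfl fun u _ => sum_congr rfl fun v _ => ?_
        by_cases hu : P u
        · by_cases hv : P v
          · rw [if_pos ⟨hu, hv⟩]
          · rw [if_neg (fun h => hv h.2), ext0 g v hv]; ring
        · rw [if_neg (fun h => hu h.1), ext0 g u hu]; ring
      rw [f1, f2]
      unfold en
      have g1 : ∑ u, ∑ v, c u v * (ext g u * ext g u) = ∑ u, deg u * (ext g u * ext g u) := by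
        refine sum_congr rfl fun u _ => ?_
        rw [← sum_mul]
      have g2 : ∑ u, ∑ v, c u v * (ext g v * ext g v) = ∑ u, deg u * (ext g u * ext g u) := by
        rw [← g1, sum_comm]
        refine sum_congr rfl fun u _ => sum_congr rfl fun v _ => ?_
        rw [hsym]
      have g3 : ∑ u, ∑ v, c u v * (ext g u - ext g v) ^ 2 =
          ∑ u, ∑ v, c u v * (ext g u * ext g u) + ∑ u, ∑ v, c u v * (ext g v * ext g v) -
            2 * ∑ u, ∑ v, c u v * (ext g u * ext g v) := by
        rw [mul_sum, ← sum_add_distrib, ← sum_sub_distrib]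
        refine sum_congr rfl fun u _ => ?_
        rw [mul_sum, ← sum_add_distrib, ← sum_sub_distrib]
        exact sum_congr rfl fun v _ => by ring
      rw [g3, g1, g2]
      ring
    unfold bil
    rw [hKs, e1]
    have e2 : ∑ u : {u // P u}, (m u.1 - s / 2 * deg u.1) * (g u * g u) =
        ip m' g g - s / 2 * ∑ u : {u // P u}, deg u.1 * (g u * g u) := by
      unfold ip
      rw [mul_sum, ← sum_sub_distrib]
      exact sum_congr rfl fun u _ => by simp only [hm']; ring
    rw [e2]
    ring
  have hvolX : vol m' univ ≤ vol m univ := hsub_le m fun u => (hm u).le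
  have hFK : ∀ g : {u // P u} → ℝ, (∀ u, 0 ≤ g u) → ∑ u, m' u * g u ≤ 1 →
      1 ≤ vol m univ * ip m' g g / 4 → ip m' g (ch Kk m' g) ≤
        ip m' g g * (1 - s * l / 4 * Real.log (vol m univ * ip m' g g / 4)) := by
    intro g hg hg1 hg2
    rw [ip_ch m' hpos', hen]
    have hV0 : 0 ≤ vol m univ := sum_nonneg fun u _ => (hm u).le
    have hipg : 0 < ip m' g g := by
      rcases (LCX.ip_self_nonneg hpos' g).eq_or_lt with h | h
      · rw [← h] at hg2; norm_num at hg2
      · exact h
    set σ : ℝ := ∑ u, m' u * g u with hσ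
    have hσ0 : 0 ≤ σ := sum_nonneg fun u _ => mul_nonneg (hpos' u).le (hg u)
    have hσpos : 0 < σ := by
      rcases hσ0.eq_or_lt with h | h
      · exfalso
        have h1 := (sum_eq_zero_iff_of_nonneg (fun u _ => mul_nonneg (hpos' u).le (hg u))).1 h.symm
        have h2 : ip m' g g = 0 := sum_eq_zero fun u hu => by rw [h1 u hu, zero_mul]
        rw [h2] at hipg
        exact lt_irrefl _ hipg
      · exact h
    have hext0 : ∀ u, 0 ≤ ext g u := fun u => by
      by_cases hu : P u
      · have := ext1 g ⟨u, hu⟩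
        simp only at this
        rw [this]
        exact hg _
      · rw [ext0 g u hu]
    set f : W → ℝ := fun u => ext g u / σ with hf
    have f1 : ∑ u, m u * f u = 1 := by
      have h1 : ∑ u, m u * ext g u = σ := by
        have h := sub_red P fun u => m u * ext g u
        simp only [ext1] at h
        rw [hσ]
        refine Eq.trans ?_ h.symm
        refine sum_congr rfl fun u _ => ?_
        by_cases hu : P u
        · rw [if_pos hu]
        · rw [if_neg hu, ext0 g u hu, mul_zero]
      simp only [hf, ← mul_div_assoc]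
      rw [← sum_div, h1, div_self hσpos.ne']
    have f2 : ip m f f = ip m' g g / σ ^ 2 := by
      have h1 : ∑ u, m u * ext g u * ext g u = ip m' g g := by
        have h := sub_red P fun u => m u * ext g u * ext g u
        simp only [ext1] at h
        unfold ip
        refine Eq.trans ?_ h.symm
        refine sum_congr rfl fun u _ => ?_
        by_cases hu : P u
        · rw [if_pos hu]
        · rw [if_neg hu, ext0 g u hu, mul_zero]
      rw [← h1, sum_div]
      unfold ip
      refine sum_congr rfl fun u _ => ?_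
      simp only [hf]
      field_simp
    have f3 : en c f = en c (ext g) / σ ^ 2 := by
      unfold en
      simp only [hf]
      rw [mul_div_assoc, sum_div]
      congr 1
      refine sum_congr rfl fun u _ => ?_
      rw [sum_div]
      refine sum_congr rfl fun v _ => ?_
      field_simp
    have hσ2 : σ ^ 2 ≤ 1 := pow_le_one₀ hσ0 hg1
    have hσ2p : 0 < σ ^ 2 := by positivity
    have f4 : vol m univ * ip m' g g / 4 ≤ vol m univ * ip m f f / 4 := by
      rw [f2]
      have h1 : ip m' g g ≤ ip m' g g / σ ^ 2 := by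
        rw [le_div_iff₀ hσ2p]
        exact mul_le_of_le_one_right hipg.le hσ2
      have := mul_le_mul_of_nonneg_left h1 hV0
      linarith
    have h7 := T_FKL T_EP W c m f l hc hm hl.le hLS (fun u => div_nonneg (hext0 u) hσ0) f1
      (hg2.trans f4)
    have h8 : Real.log (vol m univ * ip m' g g / 4) ≤ Real.log (vol m univ * ip m f f / 4) :=
      Real.log_le_log (by linarith) f4
    have h9 : l * Real.log (vol m univ * ip m' g g / 4) * ip m' g g / 2 ≤ en c (ext g) := by
      have h10 : l * Real.log (vol m univ * ip m' g g / 4) * ip m f f / 2 ≤ en c f := by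
        refine le_trans ?_ h7
        have h11 : 0 ≤ ip m f f := LCX.ip_self_nonneg hm f
        have h12 := mul_le_mul_of_nonneg_left h8 hl.le
        have h13 := mul_le_mul_of_nonneg_right h12 h11
        linarith
      rw [f2, f3] at h10
      have h14 := mul_le_mul_of_nonneg_right h10 hσ2p.le
      have e1 : en c (ext g) / σ ^ 2 * σ ^ 2 = en c (ext g) := by field_simp
      have e2 : l * Real.log (vol m univ * ip m' g g / 4) * (ip m' g g / σ ^ 2) / 2 * σ ^ 2 =
          l * Real.log (vol m univ * ip m' g g / 4) * ip m' g g / 2 := by field_simp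
      rw [e1, e2] at h14
      exact h14
    have h15 := mul_le_mul_of_nonneg_left h9 (by linarith : 0 ≤ s / 2)
    linarith
  -- the first step
  have hstep : (1 - s * τ) * ∑ u : {u // P u}, m' u * k u.1 u.1 ≤
      ∑ u : {u // P u}, ∑ v : {u // P u}, m' u * m' v * (ch Kk m' (dl m' v)) u * k u.1 v.1 := by
    have e4 : ∑ u : {u // P u}, ∑ v : {u // P u},
        m' u * m' v * (ch Kk m' (dl m' v)) u * k u.1 v.1 =
        ∑ u : {u // P u}, ∑ v : {u // P u}, Kk u v * k u.1 v.1 := by
      refine sum_congr rfl fun u _ => sum_congr rfl fun v _ => ?_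
      have e5 : (ch Kk m' (dl m' v)) u = Kk u v / (m' v * m' u) := by
        unfold ch
        rw [sum_eq_single v]
        · unfold dl
          rw [if_pos rfl, mul_one_div, div_div]
        · intro w _ hw
          unfold dl
          rw [if_neg hw, mul_zero]
        · intro h; exact absurd (mem_univ v) h
      rw [e5]
      have h6 : m' u ≠ 0 := (hpos' u).ne'
      have h7 : m' v ≠ 0 := (hpos' v).ne'
      field_simp
    rw [e4, hKs fun u v => k u.1 v.1]
    have e5 : ∑ u : {u // P u}, (m u.1 - s / 2 * deg u.1) * k u.1 u.1 =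
        ∑ u : {u // P u}, m' u * k u.1 u.1 - s / 2 * ∑ u : {u // P u}, deg u.1 * k u.1 u.1 := by
      rw [mul_sum, ← sum_sub_distrib]
      exact sum_congr rfl fun u _ => by simp only [hm']; ring
    rw [e5]
    have key : ∑ u : {u // P u}, deg u.1 * k u.1 u.1 -
        ∑ u : {u // P u}, ∑ v : {u // P u}, c u.1 v.1 * k u.1 v.1 ≤
        (1 / 2) * ∑ u, ∑ v, c u v * (k u u + k v v - 2 * k u v) + β := by
      set χ : W → ℝ := fun u => if P u then 1 else 0 with hχ
      have f1 : ∑ u : {u // P u}, deg u.1 * k u.1 u.1 = ∑ u, ∑ v, c u v * (χ u * k u u) := by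
        rw [sub_red P fun u => deg u * k u u]
        refine sum_congr rfl fun u _ => ?_
        rw [← sum_mul]
        simp only [hχ]
        by_cases hu : P u
        · rw [if_pos hu, if_pos hu, one_mul]
        · rw [if_neg hu, if_neg hu, zero_mul, mul_zero]
      have f2 : ∑ u : {u // P u}, ∑ v : {u // P u}, c u.1 v.1 * k u.1 v.1 =
          ∑ u, ∑ v, c u v * (χ u * χ v * k u v) := by
        rw [sub_red2 P fun u v => c u v * k u v]
        refine sum_congr rfl fun u _ => sum_congr rfl fun v _ => ?_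
        simp only [hχ]
        by_cases hu : P u
        · by_cases hv : P v
          · rw [if_pos ⟨hu, hv⟩, if_pos hu, if_pos hv]; ring
          · rw [if_neg (fun h => hv h.2), if_neg hv]; ring
        · rw [if_neg (fun h => hu h.1), if_neg hu]; ring
      have f3 : ∑ u, ∑ v, c u v * (χ u * k u u) = ∑ u, ∑ v, c u v * (χ v * k v v) := by
        rw [sum_comm]
        refine sum_congr rfl fun u _ => sum_congr rfl fun v _ => ?_
        rw [hsym]
      have f4 : ∑ u, ∑ v, c u v * (1 - χ u) = ∑ u, ∑ v, c u v * (1 - χ v) := by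
        rw [sum_comm]
        refine sum_congr rfl fun u _ => sum_congr rfl fun v _ => ?_
        rw [hsym]
      have f5 : ∑ u, ∑ v, c u v * (1 - χ u) ≤ β := by
        refine le_trans ?_ hβ
        refine sum_le_sum fun u _ => ?_
        rw [← sum_mul]
        simp only [hχ]
        by_cases hu : P u
        · rw [if_pos hu, if_pos hu, sub_self, mul_zero]
        · rw [if_neg hu, if_neg hu, sub_zero, mul_one]
          show deg u ≤ deg u + m u
          linarith [hm u]
      have hχ01 : ∀ u, χ u = 0 ∨ χ u = 1 := fun u => by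
        simp only [hχ]; split_ifs; exacts [Or.inr rfl, Or.inl rfl]
      have f6 : ∑ u, ∑ v, (c u v * (χ u * k u u) + c u v * (χ v * k v v) -
          2 * (c u v * (χ u * χ v * k u v))) ≤
          ∑ u, ∑ v, (c u v * (k u u + k v v - 2 * k u v) + c u v * (1 - χ u) +
            c u v * (1 - χ v)) := by
        refine sum_le_sum fun u _ => sum_le_sum fun v _ => ?_
        have h1 : χ u * k u u + χ v * k v v - 2 * (χ u * χ v * k u v) ≤
            (k u u + k v v - 2 * k u v) + (1 - χ u) + (1 - χ v) := by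
          have h2 := hk2 u v
          have h3 := hk1 u
          have h4 := hk1 v
          rcases hχ01 u with hu | hu <;> rcases hχ01 v with hv | hv <;> rw [hu, hv] <;> linarith
        have := mul_le_mul_of_nonneg_left h1 (hc u v)
        linarith
      simp only [sum_add_distrib, sum_sub_distrib, ← mul_sum] at f6
      rw [f1, f2]
      rw [← f3, ← f4] at f6
      have f7 : ∑ u, ∑ v, c u v * (k u u + k v v - 2 * k u v) =
          ∑ u, ∑ v, c u v * (k u u + k v v - 2 * k u v) := rfl
      linarith
    have h8 : s / 2 * (∑ u : {u // P u}, deg u.1 * k u.1 u.1 -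
        ∑ u : {u // P u}, ∑ v : {u // P u}, c u.1 v.1 * k u.1 v.1) ≤
        s / 2 * (τ * (2 * ∑ u : {u // P u}, m' u * k u.1 u.1)) := by
      refine mul_le_mul_of_nonneg_left ?_ (by linarith)
      refine (key.trans hE).trans ?_
      exact mul_le_mul_of_nonneg_left (by linarith) hτ.le
    linarith
  have hratio : s * τ / (s * l) = τ / l := by field_simp
  have h := IsSub.corr hop (vol m univ) (s * l) hvolX (by positivity) hsl hFK (s * τ) q
    (by positivity) (by nlinarith) hq hq1 hne (fun u v => k u.1 v.1) (fun u v => hsy _ _) M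
    (by rw [hratio]; exact hM) hM' (fun x d => hk (fun i => (x i).1) d) haX0 hstep
  rw [hratio] at h
  have h9 : ∑ u : {u // P u}, ∑ v : {u // P u}, m' u * m' v * k u.1 v.1 ^ 2 ≤
      ∑ u, ∑ v, m u * m v * k u v ^ 2 := by
    have e1 := sub_red2 P fun u v => m u * m v * k u v ^ 2
    refine (show _ = _ from e1).le.trans ?_
    refine sum_le_sum fun u _ => sum_le_sum fun v _ => ?_
    split_ifs
    · exact le_rfl
    · exact mul_nonneg (mul_nonneg (hm u).le (hm v).le) (sq_nonneg _)
  refine le_trans ?_ (h.trans h9)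
  have hc1 : 1 ≤ Fintype.card {u // P u} := Fintype.card_pos
  have hcc : Fintype.card {u // P u} ≤ Fintype.card W := Fintype.card_subtype_le _
  have h10 : (Fintype.card W : ℝ) ^ (-q) ≤ (Fintype.card {u // P u} : ℝ) ^ (-q) := by
    refine Real.rpow_le_rpow_of_nonpos ?_ ?_ (by linarith)
    · exact_mod_cast hc1
    · exact_mod_cast hcc
  have h11 : (a / 2) ^ 2 ≤ (∑ u : {u // P u}, m' u * k u.1 u.1) ^ 2 :=
    pow_le_pow_left₀ (by linarith) haX 2
  calc a ^ 2 * (1 / 256 * Real.exp (-(48 * (τ / l) * Real.log (1 / q))) *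
        (Fintype.card W : ℝ) ^ (-q)) =
        (a / 2) ^ 2 * (1 / 64 * Real.exp (-(48 * (τ / l) * Real.log (1 / q))) *
          (Fintype.card W : ℝ) ^ (-q)) := by ring
    _ ≤ (∑ u : {u // P u}, m' u * k u.1 u.1) ^ 2 *
        (1 / 64 * Real.exp (-(48 * (τ / l) * Real.log (1 / q))) *
          (Fintype.card {u // P u} : ℝ) ^ (-q)) := by
        refine mul_le_mul h11 ?_ ?_ (sq_nonneg _)
        · exact mul_le_mul_of_nonneg_left h10 (by positivity)
        · exact mul_nonneg (by positivity) (Real.rpow_nonneg (Nat.cast_nonneg _) _)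

end

open Classical in
/-- global correlation from the killed walk, zero masses allowed -/
theorem gckill0 {V : Type} [Fintype V] (c : V → V → ℝ) (m : V → ℝ) (l s τ q β : ℝ)
    (hc : ∀ u v, 0 ≤ c u v) (hsym : ∀ u v, c u v = c v u) (hm : ∀ u, 0 ≤ m u)
    (h0 : ∀ u, m u = 0 → ∀ v, c u v = 0) (hl : 0 < l) (hLS : LSob c m l)
    (hs : 0 < s) (hs1 : s ≤ 1 / 8) (hsl : s * l ≤ 1) (hτ : 0 < τ) (hτ1 : τ ≤ 1) (hq : 0 < q)
    (hq1 : q ≤ 1) (k : V → V → ℝ) (hsy : ∀ u v, k u v = k v u) (hk1 : ∀ u, k u u ≤ 1) (M : ℕ)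
    (hM : 96 * Real.exp (24 * (τ / l) * Real.log (1 / q)) ≤ M)
    (hM' : 1 + 5 * Real.log (1 / (s * τ)) ≤ M) (hk : LP (M + M) k)
    (ha : 0 < ∑ u, m u * k u u)
    (hβ : ∑ u, (if s * ∑ v, c u v ≤ m u then 0 else ∑ v, c u v + m u) ≤ β)
    (hβa : β ≤ (∑ u, m u * k u u) / 2)
    (hE : (1 / 2) * ∑ u, ∑ v, c u v * (k u u + k v v - 2 * k u v) + β ≤
      τ * ∑ u, m u * k u u) :
    (∑ u, m u * k u u) ^ 2 * (1 / 256 * Real.exp (-(48 * (τ / l) * Real.log (1 / q)))
        * (Fintype.card V : ℝ) ^ (-q)) ≤ ∑ u, ∑ v, m u * m v * k u v ^ 2 := by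
  have h0' : ∀ u v, m v = 0 → c u v = 0 := fun u v hv => by rw [hsym, h0 v hv]
  have e1 : ∑ u, m u * k u u = ∑ u : {v // 0 < m v}, m u.1 * k u.1 u.1 :=
    GCFL.red m hm (fun u => m u * k u u) (fun v hv => by simp [hv])
  have e2 : ∑ u, ∑ v, c u v * (k u u + k v v - 2 * k u v) =
      ∑ u : {v // 0 < m v}, ∑ v : {v // 0 < m v},
        c u.1 v.1 * (k u.1 u.1 + k v.1 v.1 - 2 * k u.1 v.1) :=
    GCFL.red2 m hm (fun u v => c u v * (k u u + k v v - 2 * k u v))
      (fun u v hu => by simp [h0 u hu v]) (fun u v hv => by simp [h0' u v hv])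
  have e3 : ∑ u, ∑ v, m u * m v * k u v ^ 2 =
      ∑ u : {v // 0 < m v}, ∑ v : {v // 0 < m v}, m u.1 * m v.1 * k u.1 v.1 ^ 2 :=
    GCFL.red2 m hm (fun u v => m u * m v * k u v ^ 2) (fun u v hu => by simp [hu])
      (fun u v hv => by simp [hv])
  have e4 : ∀ u, ∑ v, c u v = ∑ v : {v // 0 < m v}, c u v.1 := fun u =>
    GCFL.red m hm (fun v => c u v) (fun v hv => h0' u v hv)
  have e5 : ∑ u, (if s * ∑ v, c u v ≤ m u then 0 else ∑ v, c u v + m u) =
      ∑ u : {v // 0 < m v}, (if s * ∑ v : {v // 0 < m v}, c u.1 v.1 ≤ m u.1 then 0 else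
        ∑ v : {v // 0 < m v}, c u.1 v.1 + m u.1) := by
    rw [GCFL.red m hm (fun u => if s * ∑ v, c u v ≤ m u then 0 else ∑ v, c u v + m u)
      (fun v hv => by
        rw [if_pos]
        rw [hv, sum_eq_zero fun w _ => h0 v hv w, mul_zero])]
    refine sum_congr rfl fun u _ => ?_
    rw [e4 u.1]
  have hne : Nonempty {v // 0 < m v} := by
    by_contra hemp
    rw [not_nonempty_iff] at hemp
    rw [e1, Fintype.sum_empty] at ha
    exact lt_irrefl _ ha
  have hcard : (1:ℝ) ≤ (Fintype.card {v // 0 < m v} : ℝ) := by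
    exact_mod_cast Fintype.card_pos
  have hcard2 : (Fintype.card {v // 0 < m v} : ℝ) ≤ (Fintype.card V : ℝ) := by
    exact_mod_cast Fintype.card_subtype_le _
  have h := gckill (W := {v // 0 < m v}) (fun u v => c u.1 v.1) (fun u => m u.1) l s τ q β
    (fun u v => hc _ _) (fun u v => hsym _ _) (fun u => u.2) hl
    (GCFL.LSob_red c m hm hsym h0 l hLS) hs hs1 hsl hτ hτ1 hq hq1 (fun u v => k u.1 v.1)
    (fun u v => hsy _ _) (fun u => hk1 _) M hM hM' (fun x d => hk (fun i => (x i).1) d)
    (by rw [← e1]; exact ha) (by rw [← e5]; exact hβ) (by rw [← e1]; exact hβa)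
    (by rw [← e1, ← e2]; exact hE)
  rw [← e1] at h
  rw [e3]
  refine le_trans ?_ h
  refine mul_le_mul_of_nonneg_left ?_ (by positivity)
  refine mul_le_mul_of_nonneg_left ?_ (by positivity)
  exact Real.rpow_le_rpow_of_nonpos (by linarith) hcard2 (by linarith)

end Pool.Agent.Helper72.SA
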