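import Pool.Agent.Helper72.SA.RelG

/-!
Conditioning until independent labels are almost as good, for two-variable constraints.
-/

set_option autoImplicit false

namespace Pool.Agent.Helper72.SA

open Finset Pool.Agent.H647R3.UG Pool.Agent.H573R3.SL Pool.Agent.TH522.UG Pool.Agent.TH522.US
  Pool.Agent.TH522.DG

section
variable {Z A E : Type} [Fintype Z] [DecidableEq Z] [Fintype A] [DecidableEq A] [Fintype E]
  {N : ℕ}

/-- value of the pair laws -/
noncomputable def SatG (s t : E → Z) (q : E → A → A → ℝ) (L : ((Z → A) → ℝ) →ₗ[ℝ] ℝ) : ℝ :=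
  ∑ e, py (q e) (pr2 L (s e) (t e))

/-- value of independent labels -/
noncomputable def IndG (s t : E → Z) (q : E → A → A → ℝ) (p : Z → A → ℝ) : ℝ :=
  ∑ e, py (q e) (fun a b => p (s e) a * p (t e) b)

theorem satG_avg {D : ℕ} (hD : 3 ≤ D) {L : ((Z → A) → ℝ) →ₗ[ℝ] ℝ} (hL : SAh D L) (s t : E → Z)
    (q : E → A → A → ℝ) (u : Z) :
    ∑ a, pr L u a * SatG s t q (cnd L u a) = SatG s t q L := by
  have key : ∀ e, ∑ a, pr L u a * py (q e) (pr2 (cnd L u a) (s e) (t e)) =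
      py (q e) (pr2 L (s e) (t e)) := by
    intro e
    unfold py
    have h1 : ∀ x y, q e x y * pr2 L (s e) (t e) x y =
        ∑ a, pr L u a * (q e x y * pr2 (cnd L u a) (s e) (t e) x y) := by
      intro x y
      rw [← avg2S hD hL u (s e) (t e) x y, mul_sum]
      exact sum_congr rfl fun a _ => by ring
    simp only [h1, mul_sum]
    rw [sum_comm]
    refine sum_congr rfl fun x _ => ?_
    rw [sum_comm]
  unfold SatG
  simp only [mul_sum]
  rw [sum_comm]
  exact sum_congr rfl fun e _ => key e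

/-- one conditioning step -/
theorem s1G (s t : E → Z) (q : E → A → A → ℝ) (d₁ d₂ β : ℝ) (hq : ∀ e, Pay d₁ d₂ (q e))
    (hβ : β = Real.sqrt (d₁ * d₂)) (hβ0 : 0 < β) (hE : 0 < Fintype.card E)
    (L : ((Z → A) → ℝ) →ₗ[ℝ] ℝ) (hN : 2 ≤ N) (hL : FctS N L) (θ g : ℝ) (hθ : 0 < θ) (hg : 0 ≤ g)
    (hGC : GCR (wt s t) (fun u => ∑ z, wt s t u z) (θ ^ 2 / β) g N)
    (hSI : θ * (Fintype.card E : ℝ) ≤ SatG s t q L - IndG s t q (pr L)) :
    ∃ u, (θ ^ 2 / β) ^ 2 * g * (2 * (Fintype.card E : ℝ)) ≤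
      PhiM (fun u => ∑ z, wt s t u z) L -
        ∑ a, pr L u a * PhiM (fun u => ∑ z, wt s t u z) (cnd L u a) := by
  obtain ⟨hw0, hws, hwd, hwC, hwsum, hwend, hwF, hwh, hwins⟩ := T_WT Z E s t
  have hE0 : (0 : ℝ) < Fintype.card E := by exact_mod_cast hE
  have hvol : ∑ u, ∑ z, wt s t u z = 2 * (Fintype.card E : ℝ) := by
    simp only [hwd]
    exact hwsum
  have hlow : θ ^ 2 / β * ∑ u, ∑ z, wt s t u z ≤ ∑ u, ∑ v, wt s t u v * kr L u v := by
    have h1 := hwF univ (kr L) hL.ksym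
    have hins : ins s t (univ : Finset Z) = univ := by
      ext e; simp [ins]
    rw [hins] at h1
    rw [h1, hvol]
    have h2 : ∀ e, (1 / β) * (2 * θ * (py (q e) (pr2 L (s e) (t e)) -
        py (q e) (fun a b => pr L (s e) a * pr L (t e) b)) - θ ^ 2) ≤ kr L (s e) (t e) := by
      intro e
      have h3 := py_ker (hq e) (hL.law (s e) (t e))
      have h4 : kr L (s e) (t e) = ker (pr2 L (s e) (t e)) (pr L (s e)) (pr L (t e)) := rfl
      rw [← h4, ← hβ] at h3
      set X := py (q e) (pr2 L (s e) (t e)) - py (q e) (fun a b => pr L (s e) a * pr L (t e) b)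
      rw [one_div, inv_mul_le_iff₀ hβ0]
      nlinarith [sq_nonneg (X - θ)]
    have h3 := sum_le_sum fun e (_ : e ∈ (univ : Finset E)) => h2 e
    rw [← mul_sum, sum_sub_distrib, ← mul_sum, sum_sub_distrib, sum_const, card_univ,
      nsmul_eq_mul] at h3
    have h4 : ∑ e, py (q e) (pr2 L (s e) (t e)) -
        ∑ e, py (q e) (fun a b => pr L (s e) a * pr L (t e) b) =
        SatG s t q L - IndG s t q (pr L) := rfl
    rw [h4] at h3
    have h5 : θ ^ 2 / β * (Fintype.card E : ℝ) ≤ 1 / β * (2 * θ * (SatG s t q L -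
        IndG s t q (pr L)) - Fintype.card E * θ ^ 2) := by
      rw [div_mul_eq_mul_div, one_div_mul_eq_div]
      refine div_le_div_of_nonneg_right ?_ hβ0.le
      nlinarith
    linarith
  obtain ⟨u, hu⟩ := s1core (wt s t) hw0 hws L hN hL (fun u => ∑ z, wt s t u z) (fun u => rfl)
    (θ ^ 2 / β) g (by positivity) hg (by rw [hvol]; positivity) hGC hlow
  rw [hvol] at hu
  exact ⟨u, hu⟩

/-- iteration -/
theorem s2G (s t : E → Z) (q : E → A → A → ℝ) (d₁ d₂ β : ℝ) (hq : ∀ e, Pay d₁ d₂ (q e))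
    (hβ : β = Real.sqrt (d₁ * d₂)) (hβ0 : 0 < β) (hE : 0 < Fintype.card E) (hN : 3 ≤ N)
    (c δ g : ℝ) (hδ : 0 < δ) (hg : 0 ≤ g) (hcδ : δ / 2 < c)
    (hGC : GCR (wt s t) (fun u => ∑ z, wt s t u z) ((δ / 2) ^ 2 / β) g N) (k : ℕ)
    (hk : 1 ≤ k * (δ / 2 * (((δ / 2) ^ 2 / β) ^ 2 * g)))
    (L : ((Z → A) → ℝ) →ₗ[ℝ] ℝ) (hL : SAh (k + N) L)
    (hS : c * (Fintype.card E : ℝ) ≤ SatG s t q L) :
    ∃ L' : ((Z → A) → ℝ) →ₗ[ℝ] ℝ, SAh N L' ∧
      (c - δ) * (Fintype.card E : ℝ) ≤ IndG s t q (pr L') := by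
  obtain ⟨hw0, hws, hwd, hwC, hwsum, hwend, hwF, hwh, hwins⟩ := T_WT Z E s t
  set m : Z → ℝ := fun u => ∑ z, wt s t u z with hm
  set n : ℝ := (Fintype.card E : ℝ) with hn
  have hn0 : 0 < n := by rw [hn]; exact_mod_cast hE
  have hvol : ∑ u, m u = 2 * n := by
    simp only [hm, hwd]
    exact hwsum
  set Δ := ((δ / 2) ^ 2 / β) ^ 2 * g with hΔ
  have hΔ0 : 0 ≤ Δ := by positivity
  have hm0 : ∀ u, 0 ≤ m u := fun u => sum_nonneg fun v _ => hw0 u v
  have hsat1 : ∀ L : ((Z → A) → ℝ) →ₗ[ℝ] ℝ, FctS N L → SatG s t q L ≤ n := by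
    intro L hL
    calc SatG s t q L ≤ ∑ _e : E, (1 : ℝ) :=
          sum_le_sum fun e _ => py_le_one (hq e) (hL.law (s e) (t e))
      _ = n := by simp [hn]
  have key : ∀ k' : ℕ, ∀ (L : ((Z → A) → ℝ) →ₗ[ℝ] ℝ), SAh (k' + N) L →
      δ / 4 * PhiM m L - SatG s t q L < (k' * (δ / 2 * Δ) - 1) * n →
      δ / 4 * PhiM m L - SatG s t q L ≤ (δ / 2 - c) * n →
      ∃ L' : ((Z → A) → ℝ) →ₗ[ℝ] ℝ, SAh N L' ∧ (c - δ) * n ≤ IndG s t q (pr L') := by
    intro k'
    induction k' with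
    | zero =>
      intro L hL h2 h3
      have hfc : FctS N L := Sx.fct (by omega) (by omega) hL
      obtain ⟨hp0, hp1⟩ := phiM_bounds m hm0 hfc
      have h4 := hsat1 L hfc
      have h5 : 0 ≤ δ / 4 * PhiM m L := by positivity
      push_cast at h2
      exfalso
      linarith
    | succ k' ih =>
      intro L hL h2 h3
      have hfc : FctS N L := Sx.fct (by omega) (by omega) hL
      obtain ⟨hp0, hp1⟩ := phiM_bounds m hm0 hfc
      rcases le_total ((c - δ) * n) (IndG s t q (pr L)) with hc | hc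
      · exact ⟨L, Sx.mono (by omega) hL, hc⟩
      · have hS' : δ / 2 * n ≤ SatG s t q L - IndG s t q (pr L) := by
          have : 0 ≤ δ / 4 * PhiM m L := by positivity
          linarith
        obtain ⟨u, hle⟩ := s1G s t q d₁ d₂ β hq hβ hβ0 hE L (by omega) hfc (δ / 2) g
          (by positivity) hg hGC hS'
        rw [← hΔ] at hle
        have hpr0 := hfc.nn
        have hone : ∑ a, pr L u a = 1 := (hfc.law u u).one
        have havg := satG_avg (D := k' + 1 + N) (by omega) hL s t q u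
        have hex : ∃ a, 0 < pr L u a ∧
            δ / 4 * PhiM m (cnd L u a) - SatG s t q (cnd L u a)
              ≤ δ / 4 * PhiM m L - SatG s t q L - δ / 2 * Δ * n := by
          by_contra hne
          push Not at hne
          have hs : ∑ a, pr L u a * (δ / 4 * PhiM m (cnd L u a) - SatG s t q (cnd L u a))
              ≤ δ / 4 * PhiM m L - SatG s t q L - δ / 2 * Δ * n := by
            have e2 : ∑ a, pr L u a * (δ / 4 * PhiM m (cnd L u a)
              - SatG s t q (cnd L u a))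
              = δ / 4 * (∑ a, pr L u a * PhiM m (cnd L u a)) - SatG s t q L := by
              rw [← havg, mul_sum, ← sum_sub_distrib]
              refine sum_congr rfl fun a _ => ?_
              ring
            rw [e2]
            have := mul_le_mul_of_nonneg_left hle (by positivity : 0 ≤ δ / 4)
            have e3 : δ / 4 * (Δ * (2 * n)) = δ / 2 * Δ * n := by ring
            have e4 : δ / 4 * (PhiM m L - ∑ a, pr L u a * PhiM m (cnd L u a)) =
              δ / 4 * PhiM m L - δ / 4 * ∑ a, pr L u a * PhiM m (cnd L u a) := by ring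
            linarith
          have hpos' : ∃ a, 0 < pr L u a := by
            by_contra hno
            push Not at hno
            have : ∑ a, pr L u a ≤ 0 := sum_nonpos fun a _ => hno a
            linarith
          obtain ⟨a0, ha0⟩ := hpos'
          have hlt : ∑ a, pr L u a * (δ / 4 * PhiM m L - SatG s t q L - δ / 2 * Δ * n)
              < ∑ a, pr L u a * (δ / 4 * PhiM m (cnd L u a) - SatG s t q (cnd L u a)) := by
            apply sum_lt_sum
            · intro a _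
              rcases (hpr0 u a).lt_or_eq with h | h
              · exact mul_le_mul_of_nonneg_left (hne a h).le h.le
              · rw [← h, zero_mul, zero_mul]
            · exact ⟨a0, mem_univ _, mul_lt_mul_of_pos_left (hne a0 ha0) ha0⟩
          rw [← sum_mul, hone, one_mul] at hlt
          linarith
        obtain ⟨a, ha, hle2⟩ := hex
        have hL' : SAh (k' + N) (cnd L u a) := Sx.step (D := k' + N) (by
          have : k' + 1 + N = k' + N + 1 := by omega
          rw [← this]; exact hL) u a ha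
        refine ih (cnd L u a) hL' ?_ ?_
        · push_cast at h2
          linarith
        · have : 0 ≤ δ / 2 * Δ * n := by positivity
          linarith
  have hfc : FctS N L := Sx.fct (by omega) (by omega) hL
  obtain ⟨hp0, hp1⟩ := phiM_bounds m hm0 hfc
  have h1 : δ / 4 * PhiM m L ≤ δ / 4 * (2 * n) := by
    rw [← hvol]
    exact mul_le_mul_of_nonneg_left hp1 (by positivity)
  have h2 : 1 * n ≤ k * (δ / 2 * Δ) * n := mul_le_mul_of_nonneg_right hk hn0.le
  have h3 : 0 < (c - δ / 2) * n := mul_pos (by linarith) hn0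
  exact key k L hL (by linarith) (by linarith)

/-- the conditioned functional, in terms of the return probabilities -/
theorem partG (s t : E → Z) (q : E → A → A → ℝ) (d₁ d₂ β : ℝ) (hq : ∀ e, Pay d₁ d₂ (q e))
    (hβ : β = Real.sqrt (d₁ * d₂)) (hβ1 : 1 ≤ β) (c δ P : ℝ) (hδ : 0 < δ) (hδ1 : δ ≤ 1)
    (T D : ℕ) (hP1 : 1 ≤ P) (hP : ∑ u, wk (wt s t) (2 * T) u u ≤ P)
    (hD : 2 * P * (8 * β / δ ^ 2) ^ (2 * T + 4) / δ ≤ D)
    (L : ((Z → A) → ℝ) →ₗ[ℝ] ℝ) (hL : SAh D L)
    (hS : c * (Fintype.card E : ℝ) ≤ SatG s t q L) :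
    ∃ L' : ((Z → A) → ℝ) →ₗ[ℝ] ℝ, SAh 3 L' ∧
      (c - δ) * (Fintype.card E : ℝ) ≤ IndG s t q (pr L') := by
  obtain ⟨hw0, hws, hwd, hwC, hwsum, hwend, hwF, hwh, hwins⟩ := T_WT Z E s t
  have hβ0 : 0 < β := by linarith
  have hδ2 : δ ^ 2 ≤ 1 := pow_le_one₀ hδ.le hδ1
  obtain ⟨R, hR⟩ : ∃ R, R = 8 * β / δ ^ 2 := ⟨_, rfl⟩
  rw [← hR] at hD
  have hR8 : 8 ≤ R := by
    rw [hR, le_div_iff₀ (by positivity)]
    nlinarith
  have hR0 : 0 < R := by linarith
  obtain ⟨Y, hY⟩ : ∃ Y, Y = P * R ^ (2 * T + 4) / δ := ⟨_, rfl⟩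
  have hP0 : 0 < P := by linarith
  have hRT : 1 ≤ R ^ (T + 1) := one_le_pow₀ (by linarith)
  have hRT8 : 8 ≤ R ^ (T + 1) := by
    rw [pow_succ]
    have : 1 ≤ R ^ T := one_le_pow₀ (by linarith)
    nlinarith
  have hYR : R ^ (2 * T + 4) ≤ Y := by
    rw [hY, le_div_iff₀ hδ]
    have h1 : 0 < R ^ (2 * T + 4) := by positivity
    nlinarith
  have hY1 : 8 * R ^ (T + 3) ≤ Y := by
    refine le_trans ?_ hYR
    have h1 : R ^ (2 * T + 4) = R ^ (T + 1) * R ^ (T + 3) := by rw [← pow_add]; congr 1; omega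
    rw [h1]
    exact mul_le_mul_of_nonneg_right hRT8 (by positivity)
  have hY2 : 6 ≤ Y := by
    refine le_trans ?_ hY1
    have : 1 ≤ R ^ (T + 3) := one_le_pow₀ (by linarith)
    linarith
  obtain ⟨k, hk⟩ : ∃ k : ℕ, k = ⌈Y / 2⌉₊ := ⟨_, rfl⟩
  obtain ⟨M, hM⟩ : ∃ M : ℕ, M = ⌈4 * R ^ (T + 3)⌉₊ := ⟨_, rfl⟩
  have hkl : Y / 2 ≤ k := by rw [hk]; exact Nat.le_ceil _
  have hku : (k : ℝ) < Y / 2 + 1 := by rw [hk]; exact Nat.ceil_lt_add_one (by linarith)
  have hMl : 4 * R ^ (T + 3) ≤ M := by rw [hM]; exact Nat.le_ceil _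
  have hMu : (M : ℝ) < 4 * R ^ (T + 3) + 1 := by rw [hM]; exact Nat.ceil_lt_add_one (by positivity)
  have hkD : k + (M + M) ≤ D := by
    have h : ((k + (M + M) : ℕ) : ℝ) ≤ D := by
      push_cast
      have h1 : 2 * P * R ^ (2 * T + 4) / δ = 2 * Y := by rw [hY]; ring
      rw [h1] at hD
      linarith
    exact_mod_cast h
  have hM2 : 3 ≤ M + M := by
    have h1 : (2 : ℝ) ≤ M := by
      have : 1 ≤ R ^ (T + 3) := one_le_pow₀ (by linarith)
      linarith
    have h2 : 2 ≤ M := by exact_mod_cast h1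
    omega
  have hL' : SAh (k + (M + M)) L := Sx.mono hkD hL
  have hfc : FctS 3 L := Sx.fct (D := k + (M + M)) (by omega) (by omega) hL'
  have hind : 0 ≤ IndG s t q (pr L) := sum_nonneg fun e _ => sum_nonneg fun a _ =>
    sum_nonneg fun b _ => mul_nonneg ((hq e).nonneg a b) (mul_nonneg (hfc.nn _ _) (hfc.nn _ _))
  rcases Nat.eq_zero_or_pos (Fintype.card E) with hE | hE
  · refine ⟨L, Sx.mono (by omega) hL', ?_⟩
    rw [hE]
    simpa using hind
  rcases le_or_gt c (δ / 2) with hc | hc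
  · refine ⟨L, Sx.mono (by omega) hL', le_trans ?_ hind⟩
    exact mul_nonpos_of_nonpos_of_nonneg (by linarith) (Nat.cast_nonneg _)
  obtain ⟨r, hr⟩ : ∃ r, r = (δ / 2) ^ 2 / β := ⟨_, rfl⟩
  have hr0 : 0 < r := by rw [hr]; positivity
  have hrR : r / 2 = R⁻¹ := by
    rw [hr, hR]
    field_simp
    ring
  have hr2R : 2 / r = R := by
    rw [hr, hR]
    field_simp
    ring
  have hr1 : r ≤ 1 := by
    have h1 : R⁻¹ ≤ 1 / 8 := by
      rw [inv_le_comm₀ hR0 (by norm_num)]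
      norm_num
      exact hR8
    linarith
  have hGC := gcretR (w := wt s t) hw0 hws T P r hP0 hP hr0 hr1 M (by rw [hr2R]; exact hMl)
  rw [hrR] at hGC
  obtain ⟨L'', h1, h2⟩ := s2G s t q d₁ d₂ β hq hβ hβ0 hE hM2 c δ (R⁻¹ ^ (2 * (T + 1)) / P) hδ
    (by positivity) hc (by rw [← hr]; exact hGC) k (by
      rw [← hr]
      have h3 : r = 2 * R⁻¹ := by linarith
      have h4 : δ / 2 * (r ^ 2 * (R⁻¹ ^ (2 * (T + 1)) / P)) = 2 / Y := by
        rw [h3, hY]
        have e1 : R ^ (2 * T + 4) = R ^ 2 * R ^ (2 * (T + 1)) := by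
          rw [← pow_add]; congr 1; omega
        rw [e1, inv_pow]
        field_simp
      rw [h4]
      have hY0 : 0 < Y := by linarith
      calc (1 : ℝ) = Y / 2 * (2 / Y) := by field_simp
        _ ≤ k * (2 / Y) := mul_le_mul_of_nonneg_right hkl (by positivity)) L hL' hS
  exact ⟨L'', Sx.mono hM2 h1, h2⟩

end

end Pool.Agent.Helper72.SA
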