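import Pool.Agent.Helper72.SA.Corr
import Pool.Agent.TH522.US.Round

/-!
Sherali-Adams functionals: facts used by the rounding. The kernel of the functional is positive
semidefinite on few vertices only.
-/

set_option autoImplicit false

namespace Pool.Agent.Helper72.SA

open Finset Pool.Agent.H647R3.UG Pool.Agent.H573R3.SL Pool.Agent.TH522.UG Pool.Agent.TH522.US

/-- the facts on a functional which the rounding uses -/
structure FctS {V A : Type} [Fintype V] [DecidableEq V] [Fintype A] [DecidableEq A] (N : ℕ)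
    (L : ((V → A) → ℝ) →ₗ[ℝ] ℝ) : Prop where
  law : ∀ u v, IsLaw (pr2 L u v) (pr L u) (pr L v)
  nn : ∀ u a, 0 ≤ pr L u a
  symm : ∀ u v a b, pr2 L u v a b = pr2 L v u b a
  diag : ∀ u, pr2 L u u = dg (pr L u)
  sat : ∀ u v (π : Equiv.Perm A), L (sat u v π) = ∑ a, pr2 L u v a (π a)
  sat1 : ∀ u v (π : Equiv.Perm A), L (Pool.Agent.H647R3.UG.sat u v π) ≤ 1
  ksym : ∀ u v, kr L u v = kr L v u
  psd : LP N (kr L)
  fd : ∀ u v, dec L u v = vr L v - ∑ a, pr L u a * vr (cnd L u a) v

/-- a hierarchy of functionals closed under conditioning -/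
structure HierS {V A : Type} [Fintype V] [DecidableEq V] [Fintype A] [DecidableEq A] (N : ℕ)
    (Q : ℕ → (((V → A) → ℝ) →ₗ[ℝ] ℝ) → Prop) : Prop where
  fct : ∀ k L, Q k L → FctS N L
  step : ∀ k L, Q (k + 1) L → ∀ u a, 0 < pr L u a → Q k (cnd L u a)
  mono : ∀ k L, Q (k + 1) L → Q k L
  avg : ∀ k L, Q (k + 1) L → ∀ u v w (π : Equiv.Perm A),
    ∑ a, pr L u a * cnd L u a (sat v w π) = L (sat v w π)

theorem HierS.mono' {V A : Type} [Fintype V] [DecidableEq V] [Fintype A] [DecidableEq A] {N : ℕ}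
    {Q : ℕ → (((V → A) → ℝ) →ₗ[ℝ] ℝ) → Prop} (h : HierS N Q) (L : ((V → A) → ℝ) →ₗ[ℝ] ℝ)
    (k j : ℕ) (hL : Q (k + j) L) : Q k L := by
  induction j with
  | zero => exact hL
  | succ j ih => exact ih (h.mono _ _ hL)

/-- solutions of the Sherali-Adams relaxation for sets of `D` vertices -/
structure SAh {V A : Type} (D : ℕ) (L : ((V → A) → ℝ) →ₗ[ℝ] ℝ) : Prop where
  one : L (fun _ => 1) = 1
  junta : ∀ S : Finset V, S.card ≤ D → ∀ f : (V → A) → ℝ, Dep S f → (∀ x, 0 ≤ f x) → 0 ≤ L f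

namespace Sx

variable {V A : Type} [Fintype V] [DecidableEq V] [Fintype A] [DecidableEq A]

theorem pr_nonneg {D : ℕ} (hD : 3 ≤ D) {L : ((V → A) → ℝ) →ₗ[ℝ] ℝ} (hL : SAh D L) (u : V) (a : A) :
    0 ≤ pr L u a :=
  hL.junta {u} (by rw [card_singleton]; omega) _ (Mx.dep_ind u a _ (by simp)) (Mx.ind_nonneg u a)

theorem pr2_nonneg {D : ℕ} (hD : 3 ≤ D) {L : ((V → A) → ℝ) →ₗ[ℝ] ℝ} (hL : SAh D L) (u v : V)
    (a b : A) : 0 ≤ pr2 L u v a b := by
  refine hL.junta {u, v} ?_ _ (Mx.dep_mul (Mx.dep_ind u a _ (by simp)) (Mx.dep_ind v b _ (by simp)))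
    fun x => mul_nonneg (Mx.ind_nonneg u a x) (Mx.ind_nonneg v b x)
  exact (card_le_two).trans (by omega)

theorem law {D : ℕ} (hD : 3 ≤ D) {L : ((V → A) → ℝ) →ₗ[ℝ] ℝ} (hL : SAh D L) (u v : V) :
    IsLaw (pr2 L u v) (pr L u) (pr L v) :=
  ⟨pr2_nonneg hD hL u v, FB.left L u v, FB.right L u v, FB.one L hL.one u⟩

theorem sat_le {D : ℕ} (hD : 3 ≤ D) {L : ((V → A) → ℝ) →ₗ[ℝ] ℝ} (hL : SAh D L) (u v : V)
    (π : Equiv.Perm A) : L (sat u v π) ≤ 1 := by
  rw [Mx.sat_eq]
  calc ∑ a, pr2 L u v a (π a) ≤ ∑ a, ∑ b, pr2 L u v a b := by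
        apply Finset.sum_le_sum
        intro a _
        exact Finset.single_le_sum (f := fun b => pr2 L u v a b)
          (fun b _ => pr2_nonneg hD hL u v a b) (Finset.mem_univ (π a))
    _ = ∑ a, pr L u a := Finset.sum_congr rfl fun a _ => FB.left L u v a
    _ = 1 := FB.one L hL.one u

theorem ksym (L : ((V → A) → ℝ) →ₗ[ℝ] ℝ) (u v : V) : kr L u v = kr L v u := by
  unfold kr ker
  rw [sum_comm]
  refine sum_congr rfl fun a _ => sum_congr rfl fun b _ => ?_
  rw [FB.symm L u v b a, mul_comm (pr L u b)]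

/-- the kernel is positive semidefinite on few vertices -/
theorem psd {D N : ℕ} (hD : 3 ≤ D) (hN : N ≤ D) {L : ((V → A) → ℝ) →ₗ[ℝ] ℝ} (hL : SAh D L) :
    LP N (kr L) := by
  intro x c
  have hpr := pr_nonneg hD hL
  have hsy := FB.symm L
  set S : Finset V := univ.image x with hS
  have hSc : S.card ≤ D := by
    refine (card_image_le).trans ?_
    rw [card_univ, Fintype.card_fin]
    exact hN
  have hx : ∀ i, x i ∈ S := fun i => mem_image_of_mem _ (mem_univ i)
  have key : ∀ (u v : V) (a b : A), pr2 L u v a b - pr L u a * pr L v b =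
      L (fun x => (ind u a x - pr L u a) * (ind v b x - pr L v b)) := by
    intro u v a b
    have h1 : (fun x : V → A => (ind u a x - pr L u a) * (ind v b x - pr L v b)) =
        (fun x => ind u a x * ind v b x) - (pr L v b) • (ind u a) - (pr L u a) • (ind v b)
          + (pr L u a * pr L v b) • (fun _ => (1 : ℝ)) := by
      funext x
      simp only [Pi.add_apply, Pi.sub_apply, Pi.smul_apply, smul_eq_mul]
      ring
    rw [h1, map_add, map_sub, map_sub, map_smul, map_smul, map_smul, hL.one]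
    simp only [smul_eq_mul]
    change pr2 L u v a b - _ = pr2 L u v a b - pr L v b * pr L u a - pr L u a * pr L v b + _
    ring
  let cc : (S × A) → (S × A) → ℝ := fun i j =>
    pr2 L i.1.1 j.1.1 i.2 j.2 - pr L i.1.1 i.2 * pr L j.1.1 j.2
  have hc : ∀ i j, cc i j = L (fun x => (ind i.1.1 i.2 x - pr L i.1.1 i.2) *
      (ind j.1.1 j.2 x - pr L j.1.1 j.2)) := fun i j => key _ _ _ _
  obtain ⟨B, hB⟩ := FV.gram cc (fun i j => by
    simp only [cc, hsy i.1.1 j.1.1 i.2 j.2]; ring) (fun y => by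
    have h2 := hL.junta S hSc
      (fun z => (∑ i : S × A, y i * (ind i.1.1 i.2 z - pr L i.1.1 i.2)) ^ 2) (fun z z' h => by
        have : ∀ i : S × A, ind i.1.1 i.2 z = ind i.1.1 i.2 z' := fun i =>
          Mx.dep_ind i.1.1 i.2 S i.1.2 z z' h
        simp only [this]) (fun z => sq_nonneg _)
    have e2 : (fun z : V → A => (∑ i : S × A, y i * (ind i.1.1 i.2 z - pr L i.1.1 i.2)) ^ 2) =
        ∑ i : S × A, ∑ j : S × A, (y i * y j) • (fun z : V → A =>
          (ind i.1.1 i.2 z - pr L i.1.1 i.2) * (ind j.1.1 j.2 z - pr L j.1.1 j.2)) := by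
      funext z
      simp only [Finset.sum_apply, Pi.smul_apply, smul_eq_mul]
      rw [sq, Finset.sum_mul_sum]
      refine Finset.sum_congr rfl fun i _ => Finset.sum_congr rfl fun j _ => by ring
    rw [e2] at h2
    simp only [map_sum, map_smul, smul_eq_mul] at h2
    simpa only [hc] using h2)
  set U : (S × A) × (S × A) → S → ℝ := fun kl u =>
    ∑ a, B kl.1 (u, a) * B kl.2 (u, a) / Real.sqrt (pr L u.1 a) with hU
  have hG : ∀ u v : S, kr L u.1 v.1 = ∑ kl, U kl u * U kl v := by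
    intro u v
    unfold kr ker
    have hsq : ∀ a b, (pr2 L u.1 v.1 a b - pr L u.1 a * pr L v.1 b) ^ 2 =
        ∑ kl : (S × A) × (S × A), (B kl.1 (u, a) * B kl.2 (u, a)) *
          (B kl.1 (v, b) * B kl.2 (v, b)) := by
      intro a b
      have h := hB (u, a) (v, b)
      simp only [cc] at h
      rw [h, sq, Finset.sum_mul_sum]
      conv_rhs => rw [Fintype.sum_prod_type]
      refine Finset.sum_congr rfl fun i _ => Finset.sum_congr rfl fun j _ => ?_
      simp only []
      ring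
    have hs : ∀ a b, Real.sqrt (pr L u.1 a * pr L v.1 b) =
        Real.sqrt (pr L u.1 a) * Real.sqrt (pr L v.1 b) := fun a b => Real.sqrt_mul (hpr u.1 a) _
    simp only [hsq, hs, Finset.sum_div]
    have e3 : ∀ kl : (S × A) × (S × A), U kl u * U kl v =
        ∑ a, ∑ b, (B kl.1 (u, a) * B kl.2 (u, a)) *
          (B kl.1 (v, b) * B kl.2 (v, b)) / (Real.sqrt (pr L u.1 a) * Real.sqrt (pr L v.1 b)) := by
      intro kl
      simp only [hU]
      rw [Finset.sum_mul_sum]
      refine Finset.sum_congr rfl fun a _ => Finset.sum_congr rfl fun b _ => ?_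
      rw [div_mul_div_comm]
    simp only [e3]
    rw [Finset.sum_comm]
    rw [Finset.sum_comm]
    conv_rhs => rw [Finset.sum_comm]
    refine Finset.sum_congr rfl fun a _ => ?_
    rw [Finset.sum_comm]
  have e4 : ∑ i, ∑ j, c i * c j * kr L (x i) (x j) =
      ∑ kl, (∑ i, c i * U kl ⟨x i, hx i⟩) ^ 2 := by
    have e5 : ∀ i j, c i * c j * kr L (x i) (x j) =
        ∑ kl, (c i * U kl ⟨x i, hx i⟩) * (c j * U kl ⟨x j, hx j⟩) := by
      intro i j
      have := hG ⟨x i, hx i⟩ ⟨x j, hx j⟩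
      simp only at this
      rw [this, mul_sum]
      exact sum_congr rfl fun kl _ => by ring
    simp only [e5, sq, sum_mul_sum]
    rw [sum_comm]
    rw [sum_comm]
    have e6 : ∀ kl, (∑ i, ∑ j, c i * U kl ⟨x i, hx i⟩ * (c j * U kl ⟨x j, hx j⟩)) =
        ∑ i, ∑ j, c i * U kl ⟨x i, hx i⟩ * (c j * U kl ⟨x j, hx j⟩) := fun _ => rfl
    rw [eq_comm, sum_comm]
    refine sum_congr rfl fun i _ => ?_
    rw [sum_comm]
  rw [e4]
  exact sum_nonneg fun kl _ => sq_nonneg _

/-- decrease of the variance by conditioning -/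
theorem fd {D : ℕ} (hD : 3 ≤ D) {L : ((V → A) → ℝ) →ₗ[ℝ] ℝ} (hL : SAh D L) (u v : V) :
    dec L u v = vr L v - ∑ a, pr L u a * vr (cnd L u a) v := by
  have h := law hD hL u v
  set p : A → ℝ := pr L u with hp
  set q : A → ℝ := pr L v with hq
  set r : A → A → ℝ := pr2 L u v with hr
  have hc : ∀ a b, pr (cnd L u a) v b = r a b / p a := fun a b => rfl
  have hr0 : ∀ a, p a = 0 → ∀ b, r a b = 0 := by
    intro a ha b
    have h1 : r a b ≤ ∑ b, r a b :=
      single_le_sum (f := fun b => r a b) (fun b _ => h.nonneg a b) (mem_univ b)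
    rw [h.left a, ha] at h1
    exact le_antisymm h1 (h.nonneg a b)
  have e1 : ∀ a b, (r a b - p a * q b) ^ 2 / p a = r a b ^ 2 / p a - 2 * (r a b * q b) +
      p a * q b ^ 2 := by
    intro a b
    by_cases ha : p a = 0
    · rw [hr0 a ha b, ha]; simp
    · field_simp
      ring
  have e2 : ∀ a, p a * vr (cnd L u a) v = p a - ∑ b, r a b ^ 2 / p a := by
    intro a
    unfold vr
    simp only [hc]
    rw [mul_sub, mul_one, mul_sum]
    congr 1
    apply sum_congr rfl
    intro b _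
    by_cases ha : p a = 0
    · rw [ha]; simp
    · field_simp
  have e3 : dec L u v = (∑ a, ∑ b, r a b ^ 2 / p a) - ∑ b, q b ^ 2 := by
    unfold dec
    change ∑ a, ∑ b, (r a b - p a * q b) ^ 2 / p a = _
    simp only [e1, sum_add_distrib, sum_sub_distrib]
    have f1 : ∑ a, ∑ b, 2 * (r a b * q b) = 2 * ∑ b, q b ^ 2 := by
      rw [sum_comm, mul_sum]
      apply sum_congr rfl
      intro b _
      rw [← mul_sum, ← sum_mul, h.right b]
      ring
    have f2 : ∑ a, ∑ b, p a * q b ^ 2 = ∑ b, q b ^ 2 := by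
      simp only [← mul_sum]
      rw [← sum_mul, h.one, one_mul]
    rw [f1, f2]
    ring
  have e4 : ∑ a, pr L u a * vr (cnd L u a) v = 1 - ∑ a, ∑ b, r a b ^ 2 / p a := by
    change ∑ a, p a * vr (cnd L u a) v = _
    simp only [e2, sum_sub_distrib]
    rw [h.one]
  rw [e3, e4]
  unfold vr
  change _ = 1 - ∑ b, q b ^ 2 - _
  ring

theorem fct {D N : ℕ} (hD : 3 ≤ D) (hN : N ≤ D) {L : ((V → A) → ℝ) →ₗ[ℝ] ℝ} (hL : SAh D L) :
    FctS N L :=
  ⟨law hD hL, pr_nonneg hD hL, FB.symm L, Mx.diag L, Mx.sat_eq L, sat_le hD hL, ksym L,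
    psd hD hN hL, fd hD hL⟩

theorem step {D : ℕ} {L : ((V → A) → ℝ) →ₗ[ℝ] ℝ} (hL : SAh (D + 1) L) (u : V) (a : A)
    (ha : 0 < pr L u a) : SAh D (cnd L u a) := by
  refine ⟨?_, fun S hS f hf hf0 => ?_⟩
  · show L (fun x => ind u a x * 1) / pr L u a = 1
    simp only [mul_one]
    exact div_self ha.ne'
  · show 0 ≤ L (fun x => ind u a x * f x) / pr L u a
    refine div_nonneg (hL.junta (insert u S) ?_ _ (Mx.dep_mul (Mx.dep_ind u a _
      (mem_insert_self _ _)) (Mx.dep_mono hf (subset_insert _ _))) fun x =>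
      mul_nonneg (Mx.ind_nonneg u a x) (hf0 x)) ha.le
    exact (card_insert_le _ _).trans (by omega)

theorem mono {D D' : ℕ} (h : D' ≤ D) {L : ((V → A) → ℝ) →ₗ[ℝ] ℝ} (hL : SAh D L) : SAh D' L :=
  ⟨hL.one, fun S hS => hL.junta S (hS.trans h)⟩

theorem avg {D : ℕ} (hD : 3 ≤ D) {L : ((V → A) → ℝ) →ₗ[ℝ] ℝ} (hL : SAh D L) (u v w : V)
    (π : Equiv.Perm A) : ∑ a, pr L u a * cnd L u a (sat v w π) = L (sat v w π) := by
  have h1 : ∀ a, pr L u a * cnd L u a (sat v w π) = L (fun x => ind u a x * sat v w π x) := by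
    intro a
    show pr L u a * (L (fun x => ind u a x * sat v w π x) / pr L u a) = _
    by_cases ha : pr L u a = 0
    · rw [ha, zero_mul]
      have hS : ({u, v, w} : Finset V).card ≤ D := card_le_three.trans (by omega)
      have h2 : 0 ≤ L (fun x => ind u a x * sat v w π x) :=
        hL.junta {u, v, w} hS _ (Mx.dep_mul (Mx.dep_ind u a _ (by simp))
          (Mx.dep_sat v w π _ (by simp) (by simp))) fun x =>
          mul_nonneg (Mx.ind_nonneg u a x) (Mx.sat_nonneg v w π x)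
      have h3 : 0 ≤ L (fun x => ind u a x - ind u a x * sat v w π x) := by
        refine hL.junta {u, v, w} hS _ ?_ fun x => ?_
        · intro x y h
          have d1 := Mx.dep_mul (Mx.dep_ind u a {u, v, w} (by simp))
            (Mx.dep_sat v w π {u, v, w} (by simp) (by simp)) x y h
          have d2 := Mx.dep_ind u a {u, v, w} (by simp) x y h
          show ind u a x - ind u a x * sat v w π x = ind u a y - ind u a y * sat v w π y
          simp only at d1
          rw [d1, d2]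
        · have := mul_le_mul_of_nonneg_left (Mx.sat_le_one v w π x) (Mx.ind_nonneg u a x)
          linarith
      have h4 : (fun x : V → A => ind u a x - ind u a x * sat v w π x) =
          ind u a - fun x => ind u a x * sat v w π x := rfl
      rw [h4, map_sub] at h3
      have h5 : L (ind u a) = 0 := ha
      linarith
    · rw [mul_div_cancel₀ _ ha]
  simp only [h1]
  rw [← map_sum]
  congr 1
  funext x
  rw [Finset.sum_apply, ← Finset.sum_mul, FB.sum_ind, one_mul]

end Sx

/-- the Sherali-Adams hierarchy is closed under conditioning -/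
theorem hierS (V A : Type) [Fintype V] [DecidableEq V] [Fintype A] [DecidableEq A] (N : ℕ)
    (hN : 3 ≤ N) : HierS (V := V) (A := A) N (fun k L => SAh (k + N) L) where
  fct k L hL := Sx.fct (by omega) (by omega) hL
  step k L hL u a ha := Sx.step (D := k + N) (by
    have : k + 1 + N = k + N + 1 := by omega
    rw [← this]; exact hL) u a ha
  mono k L hL := Sx.mono (by omega) hL
  avg k L hL u v w π := Sx.avg (by omega) hL u v w π

section
variable {V A : Type} [Fintype V] [DecidableEq V] [Fintype A] [DecidableEq A] {N : ℕ}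

theorem vr_bounds {L : ((V → A) → ℝ) →ₗ[ℝ] ℝ} (hL : FctS N L) (v : V) :
    0 ≤ vr L v ∧ vr L v ≤ 1 := by
  have h1 : ∑ a, pr L v a = 1 := (hL.law v v).one
  have h2 : ∀ a, pr L v a ≤ 1 := fun a => by
    rw [← h1]
    exact single_le_sum (fun a _ => hL.nn v a) (mem_univ a)
  have h3 : ∑ a, pr L v a ^ 2 ≤ 1 := by
    calc ∑ a, pr L v a ^ 2 ≤ ∑ a, pr L v a :=
          sum_le_sum fun a _ => by nlinarith [hL.nn v a, h2 a]
      _ = 1 := h1
  have h4 : 0 ≤ ∑ a, pr L v a ^ 2 := sum_nonneg fun a _ => sq_nonneg _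
  unfold vr
  constructor <;> linarith

theorem pr_le_one {L : ((V → A) → ℝ) →ₗ[ℝ] ℝ} (hL : FctS N L) (v : V) (a : A) : pr L v a ≤ 1 := by
  rw [← (hL.law v v).one]
  exact single_le_sum (fun a _ => hL.nn v a) (mem_univ a)

theorem pr2_le_left {L : ((V → A) → ℝ) →ₗ[ℝ] ℝ} (hL : FctS N L) (u v : V) (a b : A) :
    pr2 L u v a b ≤ pr L u a := by
  rw [← (hL.law u v).left a]
  exact single_le_sum (fun b _ => (hL.law u v).nonneg a b) (mem_univ b)

theorem pr2_le_right {L : ((V → A) → ℝ) →ₗ[ℝ] ℝ} (hL : FctS N L) (u v : V) (a b : A) :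
    pr2 L u v a b ≤ pr L v b := by
  rw [← (hL.law u v).right b]
  exact single_le_sum (f := fun a => pr2 L u v a b) (fun a _ => (hL.law u v).nonneg a b)
    (mem_univ a)

/-- the variance is Lipschitz along an edge -/
theorem vr_lip {L : ((V → A) → ℝ) →ₗ[ℝ] ℝ} (hL : FctS N L) (u v : V) (π : Equiv.Perm A) :
    |vr L u - vr L v| ≤ 2 * (1 - L (sat u v π)) := by
  have e1 : ∑ b, pr L v b ^ 2 = ∑ a, pr L v (π a) ^ 2 := (Equiv.sum_comp π _).symm
  have e2 : ∑ a, pr L v (π a) = 1 := by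
    rw [Equiv.sum_comp π (fun b => pr L v b)]
    exact (hL.law v v).one
  have e3 : ∑ a, pr L u a = 1 := (hL.law u u).one
  have key : ∀ x y z : ℝ, 0 ≤ z → z ≤ x → z ≤ y → x ≤ 1 → x ^ 2 - y ^ 2 ≤ 2 * (x - z) := by
    intro x y z h0 h1 h2 h3
    nlinarith [mul_nonneg (sub_nonneg.2 h1) (by linarith : (0:ℝ) ≤ 2 - x - z)]
  unfold vr
  rw [hL.sat, e1, abs_le]
  constructor
  · have h1 : ∑ a, (pr L u a ^ 2 - pr L v (π a) ^ 2) ≤
        ∑ a, 2 * (pr L u a - pr2 L u v a (π a)) :=
      sum_le_sum fun a _ => key _ _ _ ((hL.law u v).nonneg a (π a)) (pr2_le_left hL u v a (π a))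
        (pr2_le_right hL u v a (π a)) (pr_le_one hL u a)
    rw [sum_sub_distrib, ← mul_sum, sum_sub_distrib, e3] at h1
    linarith
  · have h1 : ∑ a, (pr L v (π a) ^ 2 - pr L u a ^ 2) ≤
        ∑ a, 2 * (pr L v (π a) - pr2 L u v a (π a)) :=
      sum_le_sum fun a _ => key _ _ _ ((hL.law u v).nonneg a (π a)) (pr2_le_right hL u v a (π a))
        (pr2_le_left hL u v a (π a)) (pr_le_one hL v (π a))
    rw [sum_sub_distrib, ← mul_sum, sum_sub_distrib, e2] at h1
    linarith

/-- a labelling by the most likely labels -/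
theorem exists_argmax {L : ((V → A) → ℝ) →ₗ[ℝ] ℝ} (hL : FctS N L) :
    ∃ x : V → A, ∀ v, 1 - vr L v ≤ pr L v (x v) := by
  have h : ∀ v, ∃ a, 1 - vr L v ≤ pr L v a := by
    intro v
    have hone : ∑ a, pr L v a = 1 := (hL.law v v).one
    by_contra hcon
    push Not at hcon
    have h1 : ∑ a, pr L v a ^ 2 < 1 - vr L v := by
      obtain ⟨a0, -, ha0⟩ : ∃ a ∈ (univ : Finset A), 0 < pr L v a := by
        apply exists_lt_of_sum_lt (f := fun _ => (0 : ℝ))
        rw [sum_const_zero, hone]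
        exact one_pos
      calc ∑ a, pr L v a ^ 2 < ∑ a, pr L v a * (1 - vr L v) := by
            apply sum_lt_sum
            · intro a _
              rw [sq]
              exact mul_le_mul_of_nonneg_left (hcon a).le (hL.nn v a)
            · refine ⟨a0, mem_univ _, ?_⟩
              rw [sq]
              exact mul_lt_mul_of_pos_left (hcon a0) ha0
        _ = 1 - vr L v := by rw [← sum_mul, hone, one_mul]
    unfold vr at h1
    linarith
  choose x hx using h
  exact ⟨x, hx⟩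

/-- the most likely labels satisfy the edges of small error -/
theorem argmax_edge {L : ((V → A) → ℝ) →ₗ[ℝ] ℝ} (hL : FctS N L) (x : V → A)
    (hx : ∀ v, 1 - vr L v ≤ pr L v (x v)) (u v : V) (π : Equiv.Perm A) (hu : vr L u < 1 / 4)
    (hv : vr L v < 1 / 4) (hne : π (x u) ≠ x v) : 1 ≤ 2 * (1 - L (sat u v π)) := by
  have h1 := hx u
  have h2 := hx v
  rw [hL.sat, ← add_sum_erase univ _ (mem_univ (x u))]
  have h3 : pr2 L u v (x u) (π (x u)) ≤ 1 - pr L v (x v) := by
    have h4 := pr2_le_right hL u v (x u) (π (x u))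
    have h5 : pr L v (π (x u)) + pr L v (x v) ≤ 1 := by
      rw [← (hL.law v v).one, ← sum_pair hne]
      exact sum_le_sum_of_subset_of_nonneg (subset_univ _) fun a _ _ => hL.nn v a
    linarith
  have h4 : ∑ a ∈ univ.erase (x u), pr2 L u v a (π a) ≤ 1 - pr L u (x u) := by
    have h5 : ∑ a ∈ univ.erase (x u), pr2 L u v a (π a) ≤ ∑ a ∈ univ.erase (x u), pr L u a :=
      sum_le_sum fun a _ => pr2_le_left hL u v a (π a)
    have h6 := add_sum_erase univ (pr L u) (mem_univ (x u))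
    rw [(hL.law u u).one] at h6
    linarith
  linarith

end

end Pool.Agent.Helper72.SA
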