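import Pool.Agent.Helper72.SA.Kill
import Pool.Agent.Helper72.SA.Fct

/-!
Conditioning inside a soft part, for the Sherali-Adams hierarchy.
-/

set_option autoImplicit false

namespace Pool.Agent.Helper72.SA

open Finset Pool.Agent.H647R3.UG Pool.Agent.H573R3.SL Pool.Agent.TH522.UG

/-- size of one conditioning step -/
noncomputable def stk (l c0 τ q : ℝ) (n : ℕ) : ℝ :=
  c0 ^ 2 / 64 * (1 / 256 * Real.exp (-(48 * (τ / l) * Real.log (1 / q))) * (n : ℝ) ^ (-q))

/-- one conditioning step -/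
theorem s1k {V A E : Type} [Fintype V] [DecidableEq V] [Fintype A] [DecidableEq A] [Fintype E]
    (M : ℕ) (s t : E → V) (π : E → Equiv.Perm A) (f : V → ℝ) (L : ((V → A) → ℝ) →ₗ[ℝ] ℝ)
    (l c0 ε' q η : ℝ) (hL : FctS (M + M) L) (hf : ∀ v, 0 ≤ f v) (hf1 : ∀ v, f v ≤ 1)
    (hvol : 0 < volL s t f)
    (hl : 0 < l) (hLS : LSob (cf (wt s t) f) (fun v => dgr s t v * f v ^ 2) l) (hc0 : 0 < c0)
    (hε : 0 < ε') (hτ : 384 * ε' / c0 ≤ 1) (hq : 0 < q) (hq1 : q ≤ 1)
    (hη : 0 < η) (hη1 : η ≤ 1 / 8)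
    (hMs : 96 * Real.exp (24 * (384 * ε' / c0 / l) * Real.log (1 / q)) ≤ M)
    (hMs' : 1 + 5 * Real.log (1 / (η / (1 + l) * (384 * ε' / c0))) ≤ M)
    (hβ : 2 * (η * ∑ v, dgr s t v) ≤ 24 * (ε' * volL s t f))
    (hPhi : c0 * volL s t f ≤ PhiL s t f L) (hErr : ErrL s t π f L ≤ ε' * volL s t f) :
    ∃ u, stk l c0 (384 * ε' / c0) q (Fintype.card V) * volL s t f
      ≤ PhiL s t f L - ∑ a, pr L u a * PhiL s t f (cnd L u a) := by
  obtain ⟨hlaw, hpr0, hsymm, hdiag, hsat, hsat1, hks, hpsd, hFD'⟩ := hL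
  obtain ⟨hw0, hws, hwd, hwC, hwsum, hwend, hwF, hwh, hwins⟩ := T_WT V E s t
  set m : V → ℝ := fun v => dgr s t v * f v ^ 2 with hm
  have hdg0 : ∀ v, 0 ≤ dgr s t v := fun v => by unfold dgr; positivity
  have hm0 : ∀ v, 0 ≤ m v := fun v => mul_nonneg (hdg0 v) (sq_nonneg _)
  have hvolm : volL s t f = ∑ v, m v := rfl
  -- the diagonal of the kernel
  have hkk : ∀ u, kr L u u = ker (dg (pr L u)) (pr L u) (pr L u) := fun u => by
    unfold kr; rw [hdiag]
  have hvr : ∀ u, vr L u / 8 ≤ kr L u u := fun u => by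
    rw [hkk]; exact T_RB A (pr L u) (hpr0 u) (hlaw u u).one
  have hT1 : PhiL s t f L / 8 ≤ ∑ u, m u * kr L u u := by
    unfold PhiL
    rw [sum_div]
    refine sum_le_sum fun u hu => ?_
    rw [mul_div_assoc]
    exact mul_le_mul_of_nonneg_left (hvr u) (hm0 u)
  have hT2 : c0 * volL s t f / 8 ≤ ∑ u, m u * kr L u u :=
    le_trans (by linarith) hT1
  have hT0 : 0 < ∑ u, m u * kr L u u := lt_of_lt_of_le (by positivity) hT2
  have hk1 : ∀ u, kr L u u ≤ 1 := by
    intro u
    obtain ⟨h1, h2, h3, h4⟩ := T_RD A (pr2 L u u) (pr L u) (pr L u) (hlaw u u)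
    have h5 : kr L u u = ker (pr2 L u u) (pr L u) (pr L u) := rfl
    rw [← h5] at h2
    linarith
  -- the energy
  have hins : ins s t (univ : Finset V) = univ := by
    ext e; simp [ins]
  have hen : (1 / 2) * ∑ u, ∑ v, cf (wt s t) f u v * (kr L u u + kr L v v - 2 * kr L u v)
      = ∑ e, f (s e) * f (t e) * (kr L (s e) (s e) + kr L (t e) (t e) - 2 * kr L (s e) (t e)) := by
    unfold cf
    have h1 : ∀ u v, wt s t u v * (f u * f v) * (kr L u u + kr L v v - 2 * kr L u v)
        = wt s t u v * (f u * f v * (kr L u u + kr L v v - 2 * kr L u v)) := fun u v => by ring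
    simp_rw [h1]
    have h2 := hwF univ (fun u v => f u * f v * (kr L u u + kr L v v - 2 * kr L u v)) (by
      intro u v
      rw [hks u v]; ring)
    rw [h2, hins]
    ring
  have hen2 : (1 / 2) * ∑ u, ∑ v, cf (wt s t) f u v * (kr L u u + kr L v v - 2 * kr L u v)
      ≤ 24 * (ε' * volL s t f) := by
    rw [hen]
    refine le_trans ?_ (mul_le_mul_of_nonneg_left hErr (by norm_num))
    unfold ErrL
    rw [mul_sum]
    refine sum_le_sum fun e _ => ?_
    have h1 : kr L (s e) (s e) + kr L (t e) (t e) - 2 * kr L (s e) (t e)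
        ≤ 24 * (1 - L (sat (s e) (t e) (π e))) := by
      rw [hkk, hkk, hsat]
      exact T_RA A _ _ _ (π e) (hlaw (s e) (t e))
    have h2 := mul_le_mul_of_nonneg_left h1 (mul_nonneg (hf (s e)) (hf (t e)))
    linarith
  have hτ0 : 0 < 384 * ε' / c0 := by positivity
  -- the vertices of large rate
  have h1l : 0 < 1 + l := by linarith
  have hsη : η / (1 + l) ≤ η := div_le_self hη.le (by linarith)
  have hbad : ∑ u, (if η / (1 + l) * ∑ v, cf (wt s t) f u v ≤ m u then 0 else
      ∑ v, cf (wt s t) f u v + m u) ≤ 24 * (ε' * volL s t f) := by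
    refine le_trans ?_ hβ
    rw [mul_sum, mul_sum]
    refine sum_le_sum fun u _ => ?_
    have hdeg : ∑ v, cf (wt s t) f u v ≤ dgr s t u * f u := by
      rw [← hwd u, sum_mul]
      refine sum_le_sum fun v _ => ?_
      unfold cf
      have h1 : f u * f v ≤ f u := mul_le_of_le_one_right (hf u) (hf1 v)
      exact mul_le_mul_of_nonneg_left h1 (hw0 u v)
    have hdeg0 : 0 ≤ ∑ v, cf (wt s t) f u v := sum_nonneg fun v _ =>
      mul_nonneg (hw0 u v) (mul_nonneg (hf u) (hf v))
    have hdd := mul_nonneg hη.le (hdg0 u)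
    split_ifs with hgood
    · linarith
    · have hfη : f u ≤ η := by
        by_contra hcon
        push Not at hcon
        apply hgood
        calc η / (1 + l) * ∑ v, cf (wt s t) f u v ≤ η * ∑ v, cf (wt s t) f u v :=
              mul_le_mul_of_nonneg_right hsη hdeg0
          _ ≤ η * (dgr s t u * f u) := mul_le_mul_of_nonneg_left hdeg hη.le
          _ ≤ f u * (dgr s t u * f u) :=
              mul_le_mul_of_nonneg_right hcon.le (mul_nonneg (hdg0 u) (hf u))
          _ = m u := by simp only [hm]; ring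
      have h1 : dgr s t u * f u ≤ dgr s t u * η := mul_le_mul_of_nonneg_left hfη (hdg0 u)
      have h2 : m u ≤ dgr s t u * f u := by
        simp only [hm]
        refine mul_le_mul_of_nonneg_left ?_ (hdg0 u)
        rw [sq]
        exact mul_le_of_le_one_right (hf u) (hf1 u)
      linarith
  have hvd : 24 * (ε' * volL s t f) = 384 * ε' / c0 * (c0 * volL s t f / 8) / 2 := by
    field_simp
    ring
  have hgc := gckill0 (cf (wt s t) f) m l (η / (1 + l)) (384 * ε' / c0) q
    (24 * (ε' * volL s t f))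
    (fun u v => mul_nonneg (hw0 u v) (mul_nonneg (hf u) (hf v)))
    (fun u v => by unfold cf; rw [hws u v, mul_comm (f u)])
    hm0
    (by
      intro u hu v
      unfold cf
      rcases mul_eq_zero.1 hu with h1 | h1
      · have h2 : ∑ v, wt s t u v = 0 := by rw [hwd, h1]
        have h3 := (sum_eq_zero_iff_of_nonneg (fun v _ => hw0 u v)).1 h2 v (mem_univ v)
        rw [h3, zero_mul]
      · have h2 : f u = 0 := pow_eq_zero_iff (two_ne_zero) |>.1 h1
        rw [h2, zero_mul, mul_zero])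
    hl hLS (by positivity) (hsη.trans hη1) (by
      rw [div_mul_eq_mul_div, div_le_one h1l]
      have : η * l ≤ 1 * l := mul_le_mul_of_nonneg_right (by linarith) hl.le
      linarith) hτ0 hτ hq hq1 (kr L) hks hk1 M hMs hMs' hpsd hT0 hbad (by
      have h1 : 384 * ε' / c0 * (c0 * volL s t f / 8) ≤ 1 * (c0 * volL s t f / 8) :=
        mul_le_mul_of_nonneg_right hτ (by positivity)
      rw [hvd]
      linarith) (by
      have h1 : 384 * ε' / c0 * (c0 * volL s t f / 8) ≤
          384 * ε' / c0 * ∑ u, m u * kr L u u := mul_le_mul_of_nonneg_left hT2 hτ0.le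
      linarith)
  -- Delta
  set X := (1 / 256 * Real.exp (-(48 * (384 * ε' / c0 / l) * Real.log (1 / q)))
        * (Fintype.card V : ℝ) ^ (-q)) with hX
  have hX0 : 0 ≤ X := by positivity
  have hstp : stk l c0 (384 * ε' / c0) q (Fintype.card V) = c0 ^ 2 / 64 * X := rfl
  have hlow : stk l c0 (384 * ε' / c0) q (Fintype.card V) * volL s t f ^ 2
      ≤ ∑ u, ∑ v, m u * m v * (kr L u v) ^ 2 := by
    refine le_trans ?_ hgc
    have h1 : (c0 * volL s t f / 8) ^ 2 ≤ (∑ u, m u * kr L u u) ^ 2 :=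
      pow_le_pow_left₀ (by positivity) hT2 2
    have h2 : stk l c0 (384 * ε' / c0) q (Fintype.card V) * volL s t f ^ 2 =
        (c0 * volL s t f / 8) ^ 2 * X := by rw [hstp]; ring
    rw [h2]
    exact mul_le_mul_of_nonneg_right h1 hX0
  -- the kernel and dec
  have hdec : ∀ u v, (kr L u v) ^ 2 ≤ (dec L u v + dec L v u) / 2 := by
    intro u v
    obtain ⟨h1, h2, h3, h4⟩ := T_RD A (pr2 L u v) (pr L u) (pr L v) (hlaw u v)
    have e1 : (∑ a, ∑ b, (pr2 L u v a b - pr L u a * pr L v b) ^ 2 / pr L u a) = dec L u v := rfl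
    have e2 : (∑ a, ∑ b, (pr2 L u v a b - pr L u a * pr L v b) ^ 2 / pr L v b) = dec L v u := by
      unfold dec
      rw [sum_comm]
      refine sum_congr rfl fun b _ => sum_congr rfl fun a _ => ?_
      rw [hsymm u v a b, mul_comm (pr L u a)]
    rw [e1] at h2 h3
    rw [e2] at h2 h4
    have h5 : kr L u v = ker (pr2 L u v) (pr L u) (pr L v) := rfl
    rw [← h5] at h1 h2
    have h6 : kr L u v ≤ 1 := by linarith
    nlinarith
  have hup : ∑ u, ∑ v, m u * m v * (kr L u v) ^ 2
      ≤ ∑ u, m u * ∑ v, m v * dec L u v := by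
    have h1 : ∑ u, ∑ v, m u * m v * (kr L u v) ^ 2
        ≤ ∑ u, ∑ v, m u * m v * ((dec L u v + dec L v u) / 2) :=
      sum_le_sum fun u hu => sum_le_sum fun v hv =>
        mul_le_mul_of_nonneg_left (hdec u v) (mul_nonneg (hm0 u) (hm0 v))
    refine h1.trans (le_of_eq ?_)
    have h2 : ∑ u, ∑ v, m u * m v * ((dec L u v + dec L v u) / 2)
        = (∑ u, ∑ v, m u * m v * dec L u v
          + ∑ u, ∑ v, m u * m v * dec L v u) / 2 := by
      rw [← sum_add_distrib, sum_div]
      refine sum_congr rfl fun u _ => ?_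
      rw [← sum_add_distrib, sum_div]
      refine sum_congr rfl fun v _ => ?_
      ring
    have h3 : ∑ u, ∑ v, m u * m v * dec L v u
        = ∑ u, ∑ v, m u * m v * dec L u v := by
      rw [sum_comm]
      refine sum_congr rfl fun u _ => sum_congr rfl fun v _ => ?_
      ring
    rw [h2, h3]
    have h4 : ∑ u, ∑ v, m u * m v * dec L u v
        = ∑ u, m u * ∑ v, m v * dec L u v := by
      refine sum_congr rfl fun u _ => ?_
      rw [mul_sum]
      exact sum_congr rfl fun v _ => by ring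
    rw [h4]
    ring
  have hex : ∃ u, stk l c0 (384 * ε' / c0) q (Fintype.card V) * volL s t f
      ≤ ∑ v, m v * dec L u v := by
    by_contra hcon
    push Not at hcon
    obtain ⟨u0, -, hu0⟩ : ∃ u ∈ (univ : Finset V), 0 < m u := by
      apply exists_lt_of_sum_lt (f := fun _ => (0 : ℝ))
      rw [sum_const_zero, ← hvolm]
      exact hvol
    have h1 : ∑ u, m u * ∑ v, m v * dec L u v
        < ∑ u, m u * (stk l c0 (384 * ε' / c0) q (Fintype.card V) * volL s t f) :=
      sum_lt_sum (fun u _ => mul_le_mul_of_nonneg_left (hcon u).le (hm0 u))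
        ⟨u0, mem_univ _, mul_lt_mul_of_pos_left (hcon u0) hu0⟩
    rw [← sum_mul, ← hvolm] at h1
    have h2 := hlow.trans hup
    nlinarith
  obtain ⟨u, hle⟩ := hex
  refine ⟨u, hle.trans (le_of_eq ?_)⟩
  unfold PhiL
  have h2 : ∑ a, pr L u a * ∑ v, dgr s t v * f v ^ 2 * vr (cnd L u a) v
      = ∑ v, dgr s t v * f v ^ 2 * ∑ a, pr L u a * vr (cnd L u a) v := by
    simp_rw [mul_sum]
    rw [sum_comm]
    refine sum_congr rfl fun v _ => sum_congr rfl fun a _ => ?_
    ring
  rw [h2, ← sum_sub_distrib]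
  refine sum_congr rfl fun v _ => ?_
  rw [hFD' u v]
  ring


theorem phi_bounds {V A E : Type} [Fintype V] [DecidableEq V] [Fintype A]
    [DecidableEq A] [Fintype E] (s t : E → V) (f : V → ℝ)
    {N : ℕ} {L : ((V → A) → ℝ) →ₗ[ℝ] ℝ} (hL : FctS N L) :
    0 ≤ PhiL s t f L ∧ PhiL s t f L ≤ volL s t f := by
  constructor
  · exact sum_nonneg fun v _ => mul_nonneg (mul_nonneg (S2L.dgr_nonneg s t v) (sq_nonneg _))
      (vr_bounds hL v).1
  · refine sum_le_sum fun v _ => ?_
    have h1 : 0 ≤ dgr s t v * f v ^ 2 := mul_nonneg (S2L.dgr_nonneg s t v) (sq_nonneg _)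
    have := (vr_bounds hL v).2
    nlinarith

theorem err_nonneg {V A E : Type} [Fintype V] [DecidableEq V] [Fintype A]
    [DecidableEq A] [Fintype E] (s t : E → V) (π : E → Equiv.Perm A) (f : V → ℝ)
    (hf : ∀ v, 0 ≤ f v)
    {N : ℕ} {L : ((V → A) → ℝ) →ₗ[ℝ] ℝ} (hL : FctS N L) :
    0 ≤ ErrL s t π f L :=
  sum_nonneg fun e _ => mul_nonneg (mul_nonneg (hf _) (hf _))
    (by linarith [hL.sat1 (s e) (t e) (π e)])

theorem err_avg {V A E : Type} [Fintype V]
    [DecidableEq V] [Fintype A] [DecidableEq A] [Fintype E]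
    {N : ℕ} {Q : ℕ → (((V → A) → ℝ) →ₗ[ℝ] ℝ) → Prop} (hQ : HierS N Q) (s t : E → V)
    (π : E → Equiv.Perm A) (f : V → ℝ)
    {L : ((V → A) → ℝ) →ₗ[ℝ] ℝ} {k : ℕ} (hL : Q (k + 1) L) (u : V) :
    ∑ a, pr L u a * ErrL s t π f (cnd L u a) = ErrL s t π f L := by
  have hone : ∑ a, pr L u a = 1 := ((hQ.fct _ _ hL).law u u).one
  unfold ErrL
  simp_rw [mul_sum]
  rw [sum_comm]
  refine sum_congr rfl fun e _ => ?_
  have h5 := hQ.avg k L hL u (s e) (t e) (π e)
  calc ∑ a, pr L u a * (f (s e) * f (t e) * (1 - cnd L u a (sat (s e) (t e) (π e))))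
      = f (s e) * f (t e) * (∑ a, pr L u a -
        ∑ a, pr L u a * cnd L u a (sat (s e) (t e) (π e))) := by
        rw [← sum_sub_distrib, mul_sum]
        refine sum_congr rfl fun a _ => ?_
        ring
    _ = _ := by rw [hone, h5]

theorem s2k {V A E : Type} [Fintype V] [DecidableEq V] [Fintype A] [DecidableEq A] [Fintype E]
    (M : ℕ) {Q : ℕ → (((V → A) → ℝ) →ₗ[ℝ] ℝ) → Prop} (hQ : HierS (M + M) Q)
    (s t : E → V) (π : E → Equiv.Perm A) (f : V → ℝ) (l c0 ε0 q η : ℝ) (k : ℕ)
    (hf : ∀ v, 0 ≤ f v) (hf1 : ∀ v, f v ≤ 1) (hM : 0 < volL s t f)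
    (hl : 0 < l) (hls : LSob (cf (wt s t) f) (fun v => dgr s t v * f v ^ 2) l)
    (hc0 : 0 < c0) (hε : 0 < ε0) (hτ : 768 * ε0 / c0 ≤ 1) (hq : 0 < q) (hq1 : q ≤ 1)
    (hη : 0 < η) (hη1 : η ≤ 1 / 8)
    (hMs : 96 * Real.exp (24 * (768 * ε0 / c0 / l) * Real.log (1 / q)) ≤ M)
    (hMs' : 1 + 5 * Real.log (1 / (η / (1 + l) * (768 * ε0 / c0))) ≤ M)
    (hβ : 2 * (η * ∑ v, dgr s t v) ≤ 48 * (ε0 * volL s t f))
    (hk : 2 ≤ k * stk l c0 (768 * ε0 / c0) q (Fintype.card V))
    (K : ℕ) (L : ((V → A) → ℝ) →ₗ[ℝ] ℝ) (hL : Q (K + k) L)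
    (hErr : ErrL s t π f L ≤ ε0 * volL s t f) :
    ∃ L' : ((V → A) → ℝ) →ₗ[ℝ] ℝ, Q K L' ∧ PhiL s t f L' ≤ c0 * volL s t f ∧
      ErrL s t π f L' ≤ 2 * ε0 * volL s t f := by
  set MM := volL s t f with hMdef
  set Δ := stk l c0 (768 * ε0 / c0) q (Fintype.card V) with hΔ
  have hΔ0 : 0 < Δ := by
    by_contra hneg
    push Not at hneg
    have : (k : ℝ) * Δ ≤ 0 := mul_nonpos_of_nonneg_of_nonpos (Nat.cast_nonneg k) hneg
    linarith
  -- the potential
  have key : ∀ k' : ℕ, ∀ (L : ((V → A) → ℝ) →ₗ[ℝ] ℝ), Q (K + k') L →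
      PhiL s t f L / MM + ErrL s t π f L / (ε0 * MM) ≤ 2 →
      PhiL s t f L / MM + ErrL s t π f L / (ε0 * MM) ≤ k' * Δ →
      ∃ L' : ((V → A) → ℝ) →ₗ[ℝ] ℝ, Q K L' ∧ PhiL s t f L' ≤ c0 * MM ∧
      ErrL s t π f L' ≤ 2 * ε0 * MM := by
    intro k'
    induction k' with
    | zero =>
      intro L hL h2 hk'
      have hfc := hQ.fct _ _ hL
      obtain ⟨hp0, hp1⟩ := phi_bounds s t f hfc
      have he0 := err_nonneg s t π f hf hfc
      have h1 : 0 ≤ PhiL s t f L / MM := by positivity
      have h3 : 0 ≤ ErrL s t π f L / (ε0 * MM) := by positivity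
      have h4 : PhiL s t f L / MM ≤ 0 := by
        push_cast at hk'; linarith
      have h5 : ErrL s t π f L / (ε0 * MM) ≤ 0 := by
        push_cast at hk'; linarith
      rw [div_le_iff₀ hM] at h4
      rw [div_le_iff₀ (by positivity)] at h5
      refine ⟨L, hL, ?_, ?_⟩
      · have : 0 < c0 * MM := by positivity
        linarith
      · have : 0 < 2 * ε0 * MM := by positivity
        linarith
    | succ k' ih =>
      intro L hL h2 hk'
      have hfc := hQ.fct _ _ hL
      obtain ⟨hp0, hp1⟩ := phi_bounds s t f hfc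
      have he0 := err_nonneg s t π f hf hfc
      have h1 : 0 ≤ PhiL s t f L / MM := by positivity
      have h3 : 0 ≤ ErrL s t π f L / (ε0 * MM) := by positivity
      have herr : ErrL s t π f L ≤ 2 * ε0 * MM := by
        have h5 : ErrL s t π f L / (ε0 * MM) ≤ 2 := by linarith
        rw [div_le_iff₀ (by positivity)] at h5
        linarith
      rcases le_total (PhiL s t f L) (c0 * MM) with hc | hc
      · exact ⟨L, hQ.mono' L K (k' + 1) hL, hc, herr⟩
      · have e1 : 384 * (2 * ε0) / c0 = 768 * ε0 / c0 := by ring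
        obtain ⟨u, hle⟩ := s1k M s t π f L l c0 (2 * ε0) q η hfc hf hf1 hM hl
          hls hc0 (by positivity) (by rw [e1]; exact hτ) hq hq1 hη hη1
          (by rw [e1]; exact hMs) (by rw [e1]; exact hMs')
          (by refine hβ.trans (le_of_eq ?_); ring) hc herr
        rw [e1, ← hΔ, ← hMdef] at hle
        have hpr0 := hfc.nn
        have hone : ∑ a, pr L u a = 1 := (hfc.law u u).one
        have havg := err_avg hQ s t π f (k := K + k') hL u
        -- some a
        have hex : ∃ a, 0 < pr L u a ∧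
            PhiL s t f (cnd L u a) / MM + ErrL s t π f (cnd L u a) / (ε0 * MM)
              ≤ PhiL s t f L / MM + ErrL s t π f L / (ε0 * MM) - Δ := by
          by_contra hne
          push Not at hne
          have hs : ∑ a, pr L u a * (PhiL s t f (cnd L u a) / MM
              + ErrL s t π f (cnd L u a) / (ε0 * MM))
              ≤ PhiL s t f L / MM + ErrL s t π f L / (ε0 * MM) - Δ := by
            have e2 : ∑ a, pr L u a * (PhiL s t f (cnd L u a) / MM
              + ErrL s t π f (cnd L u a) / (ε0 * MM))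
              = (∑ a, pr L u a * PhiL s t f (cnd L u a)) / MM + ErrL s t π f L / (ε0 * MM) := by
              rw [← havg, sum_div, sum_div, ← sum_add_distrib]
              refine sum_congr rfl fun a _ => ?_
              ring
            rw [e2]
            have h6 : (∑ a, pr L u a * PhiL s t f (cnd L u a)) / MM ≤ PhiL s t f L / MM - Δ := by
              rw [div_le_iff₀ hM, sub_mul, div_mul_cancel₀ _ hM.ne']
              linarith
            linarith
          -- there is a with positive probability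
          have hpos' : ∃ a, 0 < pr L u a := by
            by_contra hno
            push Not at hno
            have : ∑ a, pr L u a ≤ 0 := sum_nonpos fun a _ => hno a
            linarith
          obtain ⟨a0, ha0⟩ := hpos'
          have hlt : ∑ a, pr L u a * (PhiL s t f L / MM + ErrL s t π f L / (ε0 * MM) - Δ)
              < ∑ a, pr L u a * (PhiL s t f (cnd L u a) / MM
              + ErrL s t π f (cnd L u a) / (ε0 * MM)) := by
            apply sum_lt_sum
            · intro a _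
              rcases (hpr0 u a).lt_or_eq with h | h
              · exact mul_le_mul_of_nonneg_left (hne a h).le h.le
              · rw [← h, zero_mul, zero_mul]
            · exact ⟨a0, mem_univ _, mul_lt_mul_of_pos_left (hne a0 ha0) ha0⟩
          rw [← sum_mul, hone, one_mul] at hlt
          linarith
        obtain ⟨a, ha, hle2⟩ := hex
        have hL' := hQ.step (K + k') L hL u a ha
        refine ih (cnd L u a) hL' ?_ ?_
        · linarith
        · push_cast at hk'
          linarith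
  obtain ⟨hp0, hp1⟩ := phi_bounds s t f (hQ.fct _ _ hL)
  have h1 : PhiL s t f L / MM ≤ 1 := by rw [div_le_one hM]; exact hp1
  have h2 : ErrL s t π f L / (ε0 * MM) ≤ 1 := by rw [div_le_one (by positivity)]; exact hErr
  exact key k L hL (by linarith) (by linarith)


end Pool.Agent.Helper72.SA
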