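import Pool.Agent.Helper72.SA.Ret
import Pool.Agent.Helper72.SA.Fct

/-!
Conditioning for the Sherali-Adams hierarchy, with the return probabilities of the constraint graph.
-/

set_option autoImplicit false

namespace Pool.Agent.Helper72.SA

open Finset Pool.Agent.H647R3.UG Pool.Agent.H573R3.SL Pool.Agent.TH522.UG

/-- total variance -/
noncomputable def PhT {V A E : Type} [Fintype V] [DecidableEq V] [Fintype A] [DecidableEq A]
    [Fintype E] (s t : E → V) (L : ((V → A) → ℝ) →ₗ[ℝ] ℝ) : ℝ := ∑ v, dgr s t v * vr L v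

/-- total error -/
noncomputable def ErT {V A E : Type} [DecidableEq A] [Fintype E] (s t : E → V)
    (π : E → Equiv.Perm A) (L : ((V → A) → ℝ) →ₗ[ℝ] ℝ) : ℝ :=
  ∑ e, (1 - L (sat (s e) (t e) (π e)))

/-- size of one conditioning step -/
noncomputable def stt (c0 τ N : ℝ) (T : ℕ) : ℝ :=
  c0 ^ 2 / 256 * (2 : ℝ) ^ (-(16 * τ * T)) / N

/-- one conditioning step -/
theorem s1t {V A E : Type} [Fintype V] [DecidableEq V] [Fintype A] [DecidableEq A] [Fintype E]
    (M : ℕ) (s t : E → V) (π : E → Equiv.Perm A) (L : ((V → A) → ℝ) →ₗ[ℝ] ℝ)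
    (c0 ε' N : ℝ) (T : ℕ) (hL : FctS (M + M) L) (hvol : 0 < ∑ v, dgr s t v) (hc0 : 0 < c0)
    (hε : 0 < ε') (hτ : 192 * ε' / c0 ≤ 1 / 8) (hN0 : 0 < N)
    (hN : ∑ u, wk (wt s t) (2 * T) u u ≤ N)
    (hMs : 48 * (2 : ℝ) ^ (8 * (192 * ε' / c0) * T) ≤ M)
    (hMs' : 1 + 5 * Real.log (1 / (192 * ε' / c0)) ≤ M)
    (hPhi : c0 * ∑ v, dgr s t v ≤ PhT s t L) (hErr : ErT s t π L ≤ ε' * ∑ v, dgr s t v) :
    ∃ u, stt c0 (192 * ε' / c0) N T * ∑ v, dgr s t v
      ≤ PhT s t L - ∑ a, pr L u a * PhT s t (cnd L u a) := by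
  obtain ⟨hlaw, hpr0, hsymm, hdiag, hsat, hsat1, hks, hpsd, hFD'⟩ := hL
  obtain ⟨hw0, hws, hwd, hwC, hwsum, hwend, hwF, hwh, hwins⟩ := T_WT V E s t
  set m : V → ℝ := fun v => dgr s t v with hm
  have hm0 : ∀ v, 0 ≤ m v := fun v => by simp only [hm]; unfold dgr; positivity
  set vol : ℝ := ∑ v, dgr s t v with hvold
  have hvolm : vol = ∑ v, m v := rfl
  -- the diagonal of the kernel
  have hkk : ∀ u, kr L u u = ker (dg (pr L u)) (pr L u) (pr L u) := fun u => by
    unfold kr; rw [hdiag]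
  have hvr : ∀ u, vr L u / 8 ≤ kr L u u := fun u => by
    rw [hkk]; exact T_RB A (pr L u) (hpr0 u) (hlaw u u).one
  have hT1 : PhT s t L / 8 ≤ ∑ u, m u * kr L u u := by
    unfold PhT
    rw [sum_div]
    refine sum_le_sum fun u hu => ?_
    rw [mul_div_assoc]
    exact mul_le_mul_of_nonneg_left (hvr u) (hm0 u)
  have hT2 : c0 * vol / 8 ≤ ∑ u, m u * kr L u u :=
    le_trans (by linarith) hT1
  have hT0 : 0 < ∑ u, m u * kr L u u := lt_of_lt_of_le (by positivity) hT2
  -- the energy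
  have hins : ins s t (univ : Finset V) = univ := by
    ext e; simp [ins]
  have hen : (1 / 2) * ∑ u, ∑ v, wt s t u v * (kr L u u + kr L v v - 2 * kr L u v)
      = ∑ e, (kr L (s e) (s e) + kr L (t e) (t e) - 2 * kr L (s e) (t e)) := by
    have h2 := hwF univ (fun u v => kr L u u + kr L v v - 2 * kr L u v) (by
      intro u v
      rw [hks u v]; ring)
    rw [h2, hins]
    ring
  have hen2 : (1 / 2) * ∑ u, ∑ v, wt s t u v * (kr L u u + kr L v v - 2 * kr L u v)
      ≤ 24 * (ε' * vol) := by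
    rw [hen]
    refine le_trans ?_ (mul_le_mul_of_nonneg_left hErr (by norm_num))
    unfold ErT
    rw [mul_sum]
    refine sum_le_sum fun e _ => ?_
    rw [hkk, hkk, hsat]
    exact T_RA A _ _ _ (π e) (hlaw (s e) (t e))
  have hτ0 : 0 < 192 * ε' / c0 := by positivity
  have hgc := gcret (w := wt s t) hw0 hws (kr L) hks T N (192 * ε' / c0) hN hτ0 hτ M hMs hMs'
    hpsd (by simp only [hwd]; exact hT0) (by
      simp only [hwd]
      refine hen2.trans ?_
      have h1 : 192 * ε' / c0 * (c0 * vol / 8) ≤ 192 * ε' / c0 * ∑ u, m u * kr L u u :=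
        mul_le_mul_of_nonneg_left hT2 hτ0.le
      refine le_trans (le_of_eq ?_) h1
      field_simp
      ring)
  simp only [hwd] at hgc
  -- Delta
  have hlow : stt c0 (192 * ε' / c0) N T * vol ^ 2
      ≤ ∑ u, ∑ v, m u * m v * (kr L u v) ^ 2 := by
    refine le_of_mul_le_mul_left (le_trans ?_ hgc) hN0
    have h1 : (c0 * vol / 8) ^ 2 ≤ (∑ u, m u * kr L u u) ^ 2 :=
      pow_le_pow_left₀ (by positivity) hT2 2
    have h2 : N * (stt c0 (192 * ε' / c0) N T * vol ^ 2) =
        1 / 4 * (2 : ℝ) ^ (-(16 * (192 * ε' / c0) * T)) * (c0 * vol / 8) ^ 2 := by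
      unfold stt
      field_simp
      ring
    rw [h2]
    exact mul_le_mul_of_nonneg_left h1 (by positivity)
  -- the kernel and dec
  have hdec : ∀ u v, (kr L u v) ^ 2 ≤ (dec L u v + dec L v u) / 2 := by
    intro u v
    obtain ⟨h1, h2, h3, h4⟩ := T_RD A (pr2 L u v) (pr L u) (pr L v) (hlaw u v)
    have e1 : (∑ a, ∑ b, (pr2 L u v a b - pr L u a * pr L v b) ^ 2 / pr L u a) = dec L u v := rfl
    have e2 : (∑ a, ∑ b, (pr2 L u v a b - pr L u a * pr L v b) ^ 2 / pr L v b) = dec L v u := by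
      unfold dec
      rw [sum_comm]
      refine sum_congr rfl fun b _ => sum_congr rfl fun a _ => ?_
      rw [hsymm u v a b, mul_comm (pr L u a)]
    rw [e1] at h2 h3
    rw [e2] at h2 h4
    have h5 : kr L u v = ker (pr2 L u v) (pr L u) (pr L v) := rfl
    rw [← h5] at h1 h2
    have h6 : kr L u v ≤ 1 := by linarith
    nlinarith
  have hup : ∑ u, ∑ v, m u * m v * (kr L u v) ^ 2
      ≤ ∑ u, m u * ∑ v, m v * dec L u v := by
    have h1 : ∑ u, ∑ v, m u * m v * (kr L u v) ^ 2
        ≤ ∑ u, ∑ v, m u * m v * ((dec L u v + dec L v u) / 2) :=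
      sum_le_sum fun u hu => sum_le_sum fun v hv =>
        mul_le_mul_of_nonneg_left (hdec u v) (mul_nonneg (hm0 u) (hm0 v))
    refine h1.trans (le_of_eq ?_)
    have h2 : ∑ u, ∑ v, m u * m v * ((dec L u v + dec L v u) / 2)
        = (∑ u, ∑ v, m u * m v * dec L u v
          + ∑ u, ∑ v, m u * m v * dec L v u) / 2 := by
      rw [← sum_add_distrib, sum_div]
      refine sum_congr rfl fun u _ => ?_
      rw [← sum_add_distrib, sum_div]
      refine sum_congr rfl fun v _ => ?_
      ring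
    have h3 : ∑ u, ∑ v, m u * m v * dec L v u
        = ∑ u, ∑ v, m u * m v * dec L u v := by
      rw [sum_comm]
      refine sum_congr rfl fun u _ => sum_congr rfl fun v _ => ?_
      ring
    rw [h2, h3]
    have h4 : ∑ u, ∑ v, m u * m v * dec L u v
        = ∑ u, m u * ∑ v, m v * dec L u v := by
      refine sum_congr rfl fun u _ => ?_
      rw [mul_sum]
      exact sum_congr rfl fun v _ => by ring
    rw [h4]
    ring
  have hex : ∃ u, stt c0 (192 * ε' / c0) N T * vol
      ≤ ∑ v, m v * dec L u v := by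
    by_contra hcon
    push Not at hcon
    obtain ⟨u0, -, hu0⟩ : ∃ u ∈ (univ : Finset V), 0 < m u := by
      apply exists_lt_of_sum_lt (f := fun _ => (0 : ℝ))
      rw [sum_const_zero, ← hvolm]
      exact hvol
    have h1 : ∑ u, m u * ∑ v, m v * dec L u v
        < ∑ u, m u * (stt c0 (192 * ε' / c0) N T * vol) :=
      sum_lt_sum (fun u _ => mul_le_mul_of_nonneg_left (hcon u).le (hm0 u))
        ⟨u0, mem_univ _, mul_lt_mul_of_pos_left (hcon u0) hu0⟩
    rw [← sum_mul, ← hvolm] at h1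
    have h2 := hlow.trans hup
    nlinarith
  obtain ⟨u, hle⟩ := hex
  refine ⟨u, hle.trans (le_of_eq ?_)⟩
  unfold PhT
  have h2 : ∑ a, pr L u a * ∑ v, dgr s t v * vr (cnd L u a) v
      = ∑ v, dgr s t v * ∑ a, pr L u a * vr (cnd L u a) v := by
    simp_rw [mul_sum]
    rw [sum_comm]
    refine sum_congr rfl fun v _ => sum_congr rfl fun a _ => ?_
    ring
  rw [h2, ← sum_sub_distrib]
  refine sum_congr rfl fun v _ => ?_
  rw [hFD' u v]
  ring



theorem pht_bounds {V A E : Type} [Fintype V] [DecidableEq V] [Fintype A]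
    [DecidableEq A] [Fintype E] (s t : E → V)
    {N : ℕ} {L : ((V → A) → ℝ) →ₗ[ℝ] ℝ} (hL : FctS N L) :
    0 ≤ PhT s t L ∧ PhT s t L ≤ ∑ v, dgr s t v := by
  constructor
  · exact sum_nonneg fun v _ => mul_nonneg (S2L.dgr_nonneg s t v) (vr_bounds hL v).1
  · refine sum_le_sum fun v _ => ?_
    have h1 : 0 ≤ dgr s t v := S2L.dgr_nonneg s t v
    have := (vr_bounds hL v).2
    nlinarith

theorem ert_nonneg {V A E : Type} [Fintype V] [DecidableEq V] [Fintype A]
    [DecidableEq A] [Fintype E] (s t : E → V) (π : E → Equiv.Perm A)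
    {N : ℕ} {L : ((V → A) → ℝ) →ₗ[ℝ] ℝ} (hL : FctS N L) :
    0 ≤ ErT s t π L :=
  sum_nonneg fun e _ => by linarith [hL.sat1 (s e) (t e) (π e)]

theorem ert_avg {V A E : Type} [Fintype V]
    [DecidableEq V] [Fintype A] [DecidableEq A] [Fintype E]
    {N : ℕ} {Q : ℕ → (((V → A) → ℝ) →ₗ[ℝ] ℝ) → Prop} (hQ : HierS N Q) (s t : E → V)
    (π : E → Equiv.Perm A)
    {L : ((V → A) → ℝ) →ₗ[ℝ] ℝ} {k : ℕ} (hL : Q (k + 1) L) (u : V) :
    ∑ a, pr L u a * ErT s t π (cnd L u a) = ErT s t π L := by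
  have hone : ∑ a, pr L u a = 1 := ((hQ.fct _ _ hL).law u u).one
  unfold ErT
  simp_rw [mul_sum]
  rw [sum_comm]
  refine sum_congr rfl fun e _ => ?_
  have h5 := hQ.avg k L hL u (s e) (t e) (π e)
  calc ∑ a, pr L u a * (1 - cnd L u a (sat (s e) (t e) (π e)))
      = (∑ a, pr L u a - ∑ a, pr L u a * cnd L u a (sat (s e) (t e) (π e))) := by
        rw [← sum_sub_distrib]
        refine sum_congr rfl fun a _ => ?_
        ring
    _ = _ := by rw [hone, h5]

theorem s2t {V A E : Type} [Fintype V] [DecidableEq V] [Fintype A] [DecidableEq A] [Fintype E]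
    (M : ℕ) {Q : ℕ → (((V → A) → ℝ) →ₗ[ℝ] ℝ) → Prop} (hQ : HierS (M + M) Q)
    (s t : E → V) (π : E → Equiv.Perm A) (c0 ε0 N : ℝ) (T : ℕ) (k : ℕ)
    (hM : 0 < ∑ v, dgr s t v)
    (hc0 : 0 < c0) (hε : 0 < ε0) (hτ : 384 * ε0 / c0 ≤ 1 / 8) (hN0 : 0 < N)
    (hN : ∑ u, wk (wt s t) (2 * T) u u ≤ N)
    (hMs : 48 * (2 : ℝ) ^ (8 * (384 * ε0 / c0) * T) ≤ M)
    (hMs' : 1 + 5 * Real.log (1 / (384 * ε0 / c0)) ≤ M)
    (hk : 2 ≤ k * stt c0 (384 * ε0 / c0) N T)
    (K : ℕ) (L : ((V → A) → ℝ) →ₗ[ℝ] ℝ) (hL : Q (K + k) L)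
    (hErr : ErT s t π L ≤ ε0 * ∑ v, dgr s t v) :
    ∃ L' : ((V → A) → ℝ) →ₗ[ℝ] ℝ, Q K L' ∧ PhT s t L' ≤ c0 * ∑ v, dgr s t v ∧
      ErT s t π L' ≤ 2 * ε0 * ∑ v, dgr s t v := by
  set MM := ∑ v, dgr s t v with hMdef
  set Δ := stt c0 (384 * ε0 / c0) N T with hΔ
  have hΔ0 : 0 < Δ := by
    by_contra hneg
    push Not at hneg
    have : (k : ℝ) * Δ ≤ 0 := mul_nonpos_of_nonneg_of_nonpos (Nat.cast_nonneg k) hneg
    linarith
  -- the potential
  have key : ∀ k' : ℕ, ∀ (L : ((V → A) → ℝ) →ₗ[ℝ] ℝ), Q (K + k') L →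
      PhT s t L / MM + ErT s t π L / (ε0 * MM) ≤ 2 →
      PhT s t L / MM + ErT s t π L / (ε0 * MM) ≤ k' * Δ →
      ∃ L' : ((V → A) → ℝ) →ₗ[ℝ] ℝ, Q K L' ∧ PhT s t L' ≤ c0 * MM ∧
      ErT s t π L' ≤ 2 * ε0 * MM := by
    intro k'
    induction k' with
    | zero =>
      intro L hL h2 hk'
      have hfc := hQ.fct _ _ hL
      obtain ⟨hp0, hp1⟩ := pht_bounds s t hfc
      have he0 := ert_nonneg s t π hfc
      have h1 : 0 ≤ PhT s t L / MM := by positivity
      have h3 : 0 ≤ ErT s t π L / (ε0 * MM) := by positivity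
      have h4 : PhT s t L / MM ≤ 0 := by
        push_cast at hk'; linarith
      have h5 : ErT s t π L / (ε0 * MM) ≤ 0 := by
        push_cast at hk'; linarith
      rw [div_le_iff₀ hM] at h4
      rw [div_le_iff₀ (by positivity)] at h5
      refine ⟨L, hL, ?_, ?_⟩
      · have : 0 < c0 * MM := by positivity
        linarith
      · have : 0 < 2 * ε0 * MM := by positivity
        linarith
    | succ k' ih =>
      intro L hL h2 hk'
      have hfc := hQ.fct _ _ hL
      obtain ⟨hp0, hp1⟩ := pht_bounds s t hfc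
      have he0 := ert_nonneg s t π hfc
      have h1 : 0 ≤ PhT s t L / MM := by positivity
      have h3 : 0 ≤ ErT s t π L / (ε0 * MM) := by positivity
      have herr : ErT s t π L ≤ 2 * ε0 * MM := by
        have h5 : ErT s t π L / (ε0 * MM) ≤ 2 := by linarith
        rw [div_le_iff₀ (by positivity)] at h5
        linarith
      rcases le_total (PhT s t L) (c0 * MM) with hc | hc
      · exact ⟨L, hQ.mono' L K (k' + 1) hL, hc, herr⟩
      · have e1 : 192 * (2 * ε0) / c0 = 384 * ε0 / c0 := by ring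
        obtain ⟨u, hle⟩ := s1t M s t π L c0 (2 * ε0) N T hfc hM hc0 (by positivity)
          (by rw [e1]; exact hτ) hN0 hN
          (by rw [e1]; exact hMs) (by rw [e1]; exact hMs') hc herr
        rw [e1, ← hΔ, ← hMdef] at hle
        have hpr0 := hfc.nn
        have hone : ∑ a, pr L u a = 1 := (hfc.law u u).one
        have havg := ert_avg hQ s t π (k := K + k') hL u
        -- some a
        have hex : ∃ a, 0 < pr L u a ∧
            PhT s t (cnd L u a) / MM + ErT s t π (cnd L u a) / (ε0 * MM)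
              ≤ PhT s t L / MM + ErT s t π L / (ε0 * MM) - Δ := by
          by_contra hne
          push Not at hne
          have hs : ∑ a, pr L u a * (PhT s t (cnd L u a) / MM
              + ErT s t π (cnd L u a) / (ε0 * MM))
              ≤ PhT s t L / MM + ErT s t π L / (ε0 * MM) - Δ := by
            have e2 : ∑ a, pr L u a * (PhT s t (cnd L u a) / MM
              + ErT s t π (cnd L u a) / (ε0 * MM))
              = (∑ a, pr L u a * PhT s t (cnd L u a)) / MM + ErT s t π L / (ε0 * MM) := by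
              rw [← havg, sum_div, sum_div, ← sum_add_distrib]
              refine sum_congr rfl fun a _ => ?_
              ring
            rw [e2]
            have h6 : (∑ a, pr L u a * PhT s t (cnd L u a)) / MM ≤ PhT s t L / MM - Δ := by
              rw [div_le_iff₀ hM, sub_mul, div_mul_cancel₀ _ hM.ne']
              linarith
            linarith
          -- there is a with positive probability
          have hpos' : ∃ a, 0 < pr L u a := by
            by_contra hno
            push Not at hno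
            have : ∑ a, pr L u a ≤ 0 := sum_nonpos fun a _ => hno a
            linarith
          obtain ⟨a0, ha0⟩ := hpos'
          have hlt : ∑ a, pr L u a * (PhT s t L / MM + ErT s t π L / (ε0 * MM) - Δ)
              < ∑ a, pr L u a * (PhT s t (cnd L u a) / MM
              + ErT s t π (cnd L u a) / (ε0 * MM)) := by
            apply sum_lt_sum
            · intro a _
              rcases (hpr0 u a).lt_or_eq with h | h
              · exact mul_le_mul_of_nonneg_left (hne a h).le h.le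
              · rw [← h, zero_mul, zero_mul]
            · exact ⟨a0, mem_univ _, mul_lt_mul_of_pos_left (hne a0 ha0) ha0⟩
          rw [← sum_mul, hone, one_mul] at hlt
          linarith
        obtain ⟨a, ha, hle2⟩ := hex
        have hL' := hQ.step (K + k') L hL u a ha
        refine ih (cnd L u a) hL' ?_ ?_
        · linarith
        · push_cast at hk'
          linarith
  obtain ⟨hp0, hp1⟩ := pht_bounds s t (hQ.fct _ _ hL)
  have h1 : PhT s t L / MM ≤ 1 := by rw [div_le_one hM]; exact hp1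
  have h2 : ErT s t π L / (ε0 * MM) ≤ 1 := by rw [div_le_one (by positivity)]; exact hErr
  exact key k L hL (by linarith) (by linarith)



end Pool.Agent.Helper72.SA
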