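import Pool.Agent.Helper72.SA.Semi
import Pool.Agent.TH522.US.Kernel

/-!
Global correlation for kernels which are positive semidefinite on few points only.
-/

set_option autoImplicit false

namespace Pool.Agent.Helper72.SA

open Finset Pool.Agent.H647R3.UG Pool.Agent.H573R3.SL Pool.Agent.TH522.US

section
variable {W : Type} [Fintype W] [DecidableEq W] {m : W → ℝ} {T : (W → ℝ) → (W → ℝ)}

theorem ip_dl (hm : ∀ u, 0 < m u) (f : W → ℝ) (v : W) : ip m f (dl m v) = f v := by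
  unfold ip dl
  rw [sum_eq_single v]
  · rw [if_pos rfl]
    have := (hm v).ne'
    field_simp
  · intro u _ hu; rw [if_neg hu, mul_zero]
  · intro h; exact absurd (mem_univ v) h

theorem it_symm (h : IsOper m T) (s : ℕ) (u v : W) :
    (T^[s] (dl m v)) u = (T^[s] (dl m u)) v := by
  rw [← ip_dl h.pos (T^[s] (dl m v)) u, move h, OPX.ip_comm, ip_dl h.pos]

theorem it_nonneg (h : IsOper m T) (f : W → ℝ) (hf : ∀ u, 0 ≤ f u) (s : ℕ) :
    ∀ u, 0 ≤ (T^[s] f) u := by
  induction s with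
  | zero => exact hf
  | succ s ih => intro u; rw [Function.iterate_succ_apply']; exact h.nn _ ih u

theorem it_tot (h : IsOper m T) (f : W → ℝ) (s : ℕ) :
    ∑ u, m u * (T^[s] f) u = ∑ u, m u * f u := by
  induction s with
  | zero => rfl
  | succ s ih => rw [Function.iterate_succ_apply', h.tot, ih]

theorem dl_nonneg (hm : ∀ u, 0 < m u) (v u : W) : 0 ≤ dl m v u := by
  unfold dl
  split_ifs
  · exact (div_pos one_pos (hm v)).le
  · exact le_rfl

theorem dl_tot (hm : ∀ u, 0 < m u) (v : W) : ∑ u, m u * dl m v u = 1 := by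
  unfold dl
  rw [sum_eq_single v]
  · rw [if_pos rfl, mul_one_div, div_self (hm v).ne']
  · intro u _ hu; rw [if_neg hu, mul_zero]
  · intro h; exact absurd (mem_univ v) h

theorem it_add (h : IsOper m T) (s s' : ℕ) (u v : W) :
    ∑ z, m z * (T^[s] (dl m z)) u * (T^[s'] (dl m v)) z = (T^[s + s'] (dl m v)) u := by
  rw [Function.iterate_add_apply, it_kernel h (T^[s'] (dl m v)) s u]
  exact sum_congr rfl fun z _ => by ring

/-- the autocorrelation along a chain -/
theorem ac_oper (h : IsOper m T) (k : W → W → ℝ) (hsy : ∀ u v, k u v = k v u) (M : ℕ)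
    (hM : 0 < M) (hk : LP (M + M) k) :
    AC (fun t => ∑ u, ∑ v, m u * m v * (T^[t] (dl m v)) u * k u v) M ∧
      (∑ u, ∑ v, m u * m v * (T^[0] (dl m v)) u * k u v) = ∑ u, m u * k u u := by
  have h0 : (∑ u, ∑ v, m u * m v * (T^[0] (dl m v)) u * k u v) = ∑ u, m u * k u u := by
    refine sum_congr rfl fun u _ => ?_
    rw [sum_eq_single u]
    · show m u * m u * dl m u u * k u u = _
      unfold dl
      rw [if_pos rfl]
      have := (h.pos u).ne'
      field_simp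
    · intro v _ hv
      show m u * m v * dl m v u * k u v = _
      unfold dl
      rw [if_neg hv.symm, mul_zero, zero_mul]
    · intro h; exact absurd (mem_univ u) h
  refine ⟨?_, h0⟩
  refine ac_of_semigroup m (fun s u v => (T^[s] (dl m v)) u) (fun u => (h.pos u).le)
    (fun s u v => it_nonneg h _ (dl_nonneg h.pos v) s u) (fun s u v => it_symm h s u v)
    (fun s s' u v => it_add h s s' u v) (fun s u => ?_) k hsy M hM hk _ (fun t => rfl) h0
  have e : ∀ v, m v * (T^[s] (dl m v)) u = m v * (T^[s] (dl m u)) v := fun v => by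
    rw [it_symm h]
  show ∑ v, m v * (T^[s] (dl m v)) u ≤ 1
  rw [sum_congr rfl fun v _ => e v, it_tot h, dl_tot h.pos]

/-- the total of the squares of the transition densities -/
theorem sq_total [Nonempty W] (h : IsOper m T) (κ : ℝ) (hκ : 0 < κ) (hκ1 : κ < 1)
    (hH : ∀ g : W → ℝ, (∀ u, 0 ≤ g u) → ip m g (T g) ≤
      (vol m univ) ^ (-κ) * (∑ u, m u * g u ^ (2 / (1 + κ))) ^ (1 + κ)) (q : ℝ) (hq1 : q ≤ 1)
    (s : ℕ) (hs : (1 - κ) ^ s ≤ q) :
    ∑ u, ∑ v, m u * m v * (T^[s] (dl m v)) u ^ 2 ≤ (Fintype.card W : ℝ) ^ q := by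
  have hn : (1 : ℝ) ≤ (Fintype.card W : ℝ) := by
    exact_mod_cast Fintype.card_pos
  set δ : ℝ := (1 - κ) ^ s with hδ
  have hδ0 : 0 ≤ δ := pow_nonneg (by linarith) _
  rw [sum_comm]
  have h1 : ∀ v ∈ (univ : Finset W), ∑ u, m u * m v * (T^[s] (dl m v)) u ^ 2 ≤
      m v * (1 / vol m univ * (vol m univ / m v) ^ δ) := by
    intro v _
    have e : ∑ u, m u * m v * (T^[s] (dl m v)) u ^ 2 =
        m v * ip m (T^[s] (dl m v)) (T^[s] (dl m v)) := by
      unfold ip
      rw [mul_sum]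
      apply sum_congr rfl
      intro u _
      ring
    rw [e]
    exact mul_le_mul_of_nonneg_left (decay h κ hκ hκ1 hH v s) (h.pos v).le
  refine (sum_le_sum h1).trans ?_
  have h2 := T_SQ W m δ h.pos hδ0 (hs.trans hq1)
  have h3 : ∑ v, m v * (1 / vol m univ * (vol m univ / m v) ^ δ) =
      (∑ v, m v * (4 / vol m univ * (vol m univ / m v) ^ δ)) / 4 := by
    rw [sum_div]
    refine sum_congr rfl fun v _ => ?_
    ring
  rw [h3]
  have h4 : (Fintype.card W : ℝ) ^ δ ≤ (Fintype.card W : ℝ) ^ q :=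
    Real.rpow_le_rpow_of_exponent_le hn hs
  linarith

/-- global correlation, positive masses -/
theorem gcs (h : IsOper m T) (κ τ q : ℝ) (hκ : 0 < κ) (hκ1 : κ < 1)
    (hτ : 0 < τ) (hτ1 : τ ≤ 1 / 8) (hq : 0 < q) (hq1 : q ≤ 1)
    (hH : ∀ g : W → ℝ, (∀ u, 0 ≤ g u) → ip m g (T g) ≤
      (vol m univ) ^ (-κ) * (∑ u, m u * g u ^ (2 / (1 + κ))) ^ (1 + κ))
    (hW : Nonempty W) (k : W → W → ℝ) (hsy : ∀ u v, k u v = k v u) (M : ℕ)
    (hM : 48 * Real.exp (6 * τ * (Real.log (1 / q) / κ + 1)) ≤ M)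
    (hM' : 1 + 5 * Real.log (1 / τ) ≤ M) (hk : LP (M + M) k)
    (ha : 0 < ∑ u, m u * k u u)
    (hen : (1 - τ) * ∑ u, m u * k u u ≤ ∑ u, ∑ v, m u * m v * (T (dl m v)) u * k u v) :
    (∑ u, m u * k u u) ^ 2 * (1 / 4 * Real.exp (-(12 * τ * (Real.log (1 / q) / κ + 1)))
        * (Fintype.card W : ℝ) ^ (-q)) ≤ ∑ u, ∑ v, m u * m v * k u v ^ 2 := by
  set a : ℝ := ∑ u, m u * k u u with had
  set Λ : ℝ := Real.log (1 / q) / κ + 1 with hΛ
  have hlogq : 0 ≤ Real.log (1 / q) := Real.log_nonneg (by rw [le_div_iff₀ hq]; linarith)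
  have hΛ0 : 0 < Λ := by rw [hΛ]; positivity
  have hMpos : (0 : ℝ) < M := lt_of_lt_of_le (by positivity) hM
  have hM0 : 0 < M := by exact_mod_cast hMpos
  obtain ⟨hAC, h0⟩ := ac_oper h k hsy M hM0 hk
  obtain ⟨T0, hT0⟩ : ∃ T0 : ℕ, T0 = ⌈Real.log (1 / q) / κ⌉₊ := ⟨_, rfl⟩
  have hT1 : Real.log (1 / q) / κ ≤ T0 := by rw [hT0]; exact Nat.le_ceil _
  have hT2 : (T0 : ℝ) ≤ Λ := by
    rw [hT0, hΛ]; exact (Nat.ceil_lt_add_one (by positivity)).le
  have hlog2 := Real.log_two_lt_d9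
  have hpow : (2 : ℝ) ^ (8 * τ * T0) ≤ Real.exp (6 * τ * Λ) := by
    rw [Real.rpow_def_of_pos (by norm_num)]
    apply Real.exp_le_exp.2
    have h2 : Real.log 2 * (8 * τ * T0) ≤ 3 / 4 * (8 * τ * T0) :=
      mul_le_mul_of_nonneg_right (by linarith) (by positivity)
    have h3 : 6 * τ * T0 ≤ 6 * τ * Λ := mul_le_mul_of_nonneg_left hT2 (by positivity)
    linarith
  obtain ⟨t, ht, hft⟩ := ac_lower hAC (by show 0 < ∑ u, ∑ v, _; rw [h0]; exact ha) τ hτ hτ1
    (by show (1 - τ) * (∑ u, ∑ v, m u * m v * (T^[0] (dl m v)) u * k u v) ≤ _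
        rw [h0]; exact hen) T0 (by linarith) hM'
  have hft' : 1 / 2 * Real.exp (-(6 * τ * Λ)) * a ≤
      ∑ u, ∑ v, m u * m v * (T^[t] (dl m v)) u * k u v := by
    refine le_trans ?_ hft
    show _ ≤ 1 / 2 * (2 : ℝ) ^ (-(8 * τ * T0)) *
      (∑ u, ∑ v, m u * m v * (T^[0] (dl m v)) u * k u v)
    rw [h0]
    refine mul_le_mul_of_nonneg_right ?_ ha.le
    refine mul_le_mul_of_nonneg_left ?_ (by norm_num)
    rw [Real.rpow_neg (by norm_num), Real.exp_neg]
    exact inv_anti₀ (by positivity) hpow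
  have hdec : (1 - κ) ^ t ≤ q := by
    have a1 : 1 - κ ≤ Real.exp (-κ) := by
      have := Real.add_one_le_exp (-κ)
      linarith
    calc (1 - κ) ^ t ≤ Real.exp (-κ) ^ t := pow_le_pow_left₀ (by linarith) a1 t
      _ = Real.exp (t * -κ) := by rw [← Real.exp_nat_mul]
      _ ≤ Real.exp (-Real.log (1 / q)) := by
          apply Real.exp_le_exp.2
          rw [div_le_iff₀ hκ] at hT1
          have h3 : (T0 : ℝ) ≤ t := by exact_mod_cast ht
          have h4 : (T0 : ℝ) * κ ≤ t * κ := mul_le_mul_of_nonneg_right h3 hκ.le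
          linarith
      _ = q := by rw [← Real.log_inv, one_div, inv_inv, Real.exp_log hq]
  set H : W → W → ℝ := fun u v => (T^[t] (dl m v)) u with hH'
  have l2 : (∑ u, ∑ v, m u * m v * H u v * k u v) ^ 2 ≤
      (∑ u, ∑ v, m u * m v * H u v ^ 2) * ∑ u, ∑ v, m u * m v * k u v ^ 2 := by
    have h1 := Finset.sum_sq_le_sum_mul_sum_of_sq_le_mul ((univ : Finset W) ×ˢ (univ : Finset W))
      (r := fun p => m p.1 * m p.2 * H p.1 p.2 * k p.1 p.2)
      (f := fun p => m p.1 * m p.2 * H p.1 p.2 ^ 2) (g := fun p => m p.1 * m p.2 * k p.1 p.2 ^ 2)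
      (fun p _ => mul_nonneg (mul_nonneg (h.pos _).le (h.pos _).le) (sq_nonneg _))
      (fun p _ => mul_nonneg (mul_nonneg (h.pos _).le (h.pos _).le) (sq_nonneg _))
      (fun p _ => le_of_eq (by ring))
    rwa [sum_product, sum_product, sum_product] at h1
  have l3 : ∑ u, ∑ v, m u * m v * H u v ^ 2 ≤ (Fintype.card W : ℝ) ^ q :=
    sq_total h κ hκ hκ1 hH q hq1 t hdec
  have hn : (1 : ℝ) ≤ (Fintype.card W : ℝ) := by
    exact_mod_cast Fintype.card_pos
  set Q : ℝ := ∑ u, ∑ v, m u * m v * k u v ^ 2 with hQ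
  have hQ0 : 0 ≤ Q := sum_nonneg fun u _ => sum_nonneg fun v _ =>
    mul_nonneg (mul_nonneg (h.pos _).le (h.pos _).le) (sq_nonneg _)
  have hc0 : 0 ≤ 1 / 2 * Real.exp (-(6 * τ * Λ)) * a := by positivity
  have l4 : (1 / 2 * Real.exp (-(6 * τ * Λ)) * a) ^ 2 ≤ (Fintype.card W : ℝ) ^ q * Q :=
    (pow_le_pow_left₀ hc0 hft' 2).trans (l2.trans (mul_le_mul_of_nonneg_right l3 hQ0))
  have hp : 0 < (Fintype.card W : ℝ) ^ q := Real.rpow_pos_of_pos (by linarith) _
  have hpn : (Fintype.card W : ℝ) ^ (-q) * (Fintype.card W : ℝ) ^ q = 1 := by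
    rw [← Real.rpow_add (by linarith), neg_add_cancel, Real.rpow_zero]
  refine le_of_mul_le_mul_right ?_ hp
  have e1 : Real.exp (-(12 * τ * Λ)) = Real.exp (-(6 * τ * Λ)) ^ 2 := by
    rw [← Real.exp_nat_mul]
    congr 1
    push_cast
    ring
  calc a ^ 2 * (1 / 4 * Real.exp (-(12 * τ * Λ)) * (Fintype.card W : ℝ) ^ (-q)) *
        (Fintype.card W : ℝ) ^ q
      = (1 / 2 * Real.exp (-(6 * τ * Λ)) * a) ^ 2 *
        ((Fintype.card W : ℝ) ^ (-q) * (Fintype.card W : ℝ) ^ q) := by rw [e1]; ring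
    _ = (1 / 2 * Real.exp (-(6 * τ * Λ)) * a) ^ 2 := by rw [hpn, mul_one]
    _ ≤ (Fintype.card W : ℝ) ^ q * Q := l4
    _ = Q * (Fintype.card W : ℝ) ^ q := by ring

end

open Classical in
/-- global correlation, zero masses allowed -/
theorem gcs0 {V : Type} [Fintype V] (K : V → V → ℝ) (hK : IsKer K) (m : V → ℝ)
    (hd : ∀ u, ∑ v, K u v = m u) (κ τ q : ℝ) (n : ℕ) (hκ : 0 < κ) (hκ1 : κ < 1)
    (hτ : 0 < τ) (hτ1 : τ ≤ 1 / 8) (hq : 0 < q) (hq1 : q ≤ 1)
    (hn : (univ.filter fun v => 0 < m v).card ≤ n)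
    (hH : ∀ g : V → ℝ, (∀ u, 0 ≤ g u) → bil K g g ≤
      (∑ u, m u) ^ (-κ) * (∑ u, m u * g u ^ (2 / (1 + κ))) ^ (1 + κ))
    (k : V → V → ℝ) (hsy : ∀ u v, k u v = k v u) (M : ℕ)
    (hM : 48 * Real.exp (6 * τ * (Real.log (1 / q) / κ + 1)) ≤ M)
    (hM' : 1 + 5 * Real.log (1 / τ) ≤ M) (hk : LP (M + M) k)
    (ha : 0 < ∑ u, m u * k u u)
    (hen : (1 / 2) * ∑ u, ∑ v, K u v * (k u u + k v v - 2 * k u v) ≤ τ * ∑ u, m u * k u u) :
    (∑ u, m u * k u u) ^ 2 * (1 / 4 * Real.exp (-(12 * τ * (Real.log (1 / q) / κ + 1)))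
        * (n : ℝ) ^ (-q)) ≤ ∑ u, ∑ v, m u * m v * k u v ^ 2 := by
  have hm : ∀ u, 0 ≤ m u := fun u => by rw [← hd]; exact sum_nonneg fun v _ => hK.nonneg u v
  have h0 : ∀ u, m u = 0 → ∀ v, K u v = 0 := fun u hu v => by
    rw [← hd] at hu
    exact (sum_eq_zero_iff_of_nonneg fun v _ => hK.nonneg u v).1 hu v (mem_univ v)
  have h0' : ∀ u v, m v = 0 → K u v = 0 := fun u v hv => by rw [hK.symm, h0 v hv]
  set W := {v // 0 < m v} with hWd
  set K' : W → W → ℝ := fun u v => K u.1 v.1 with hK'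
  set m' : W → ℝ := fun u => m u.1 with hm'
  have ext0 : ∀ (g : W → ℝ), ∃ e : V → ℝ, (∀ u : W, e u.1 = g u) ∧
      ((∀ u, 0 ≤ g u) → ∀ v, 0 ≤ e v) := by
    intro g
    refine ⟨fun v => if hv : 0 < m v then g ⟨v, hv⟩ else 0, fun u => ?_, fun hg v => ?_⟩
    · simp only [dif_pos u.2]
      rfl
    · simp only
      split_ifs
      · exact hg _
      · exact le_rfl
  have hbil : ∀ (f g : V → ℝ), bil K f g = bil K' (fun u => f u.1) (fun u => g u.1) := by
    intro f g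
    unfold bil
    exact GCFL.red2 m hm (fun u v => K u v * (f u * g v)) (fun u v hu => by simp [h0 u hu v])
      (fun u v hv => by simp [h0' u v hv])
  have hKer : IsKer K' := by
    refine ⟨fun u v => hK.nonneg _ _, fun u v => hK.symm _ _, fun f => ?_⟩
    obtain ⟨e, he, -⟩ := ext0 f
    have h1 := hK.psd e
    rw [hbil] at h1
    simp only [he] at h1
    exact h1
  have hdW : ∀ u : W, ∑ v, K' u v = m' u := by
    intro u
    have h1 := GCFL.red m hm (fun v => K u.1 v) (fun v hv => h0' _ _ hv)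
    rw [hd] at h1
    exact h1.symm
  have hop := isOper hKer m' (fun u => u.2) hdW
  have ea : ∑ u, m u * k u u = ∑ u : W, m' u * k u.1 u.1 :=
    GCFL.red m hm (fun u => m u * k u u) (fun v hv => by simp [hv])
  have hne : Nonempty W := by
    by_contra hemp
    rw [not_nonempty_iff] at hemp
    rw [ea, Fintype.sum_empty] at ha
    exact lt_irrefl _ ha
  have hvol : vol m' univ = ∑ u, m u :=
    (GCFL.red m hm (fun v => m v) (fun v hv => hv)).symm
  have hH' : ∀ g : W → ℝ, (∀ u, 0 ≤ g u) → ip m' g (ch K' m' g) ≤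
      (vol m' univ) ^ (-κ) * (∑ u, m' u * g u ^ (2 / (1 + κ))) ^ (1 + κ) := by
    intro g hg
    obtain ⟨e, he, he0⟩ := ext0 g
    have h1 := hH e (he0 hg)
    rw [hbil, GCFL.red m hm (fun u => m u * e u ^ (2 / (1 + κ))) (fun v hv => by simp [hv])] at h1
    simp only [he] at h1
    rw [ip_ch m' (fun u => u.2), hvol]
    exact h1
  have e3 : ∑ u, ∑ v, m u * m v * k u v ^ 2 =
      ∑ u : W, ∑ v : W, m' u * m' v * k u.1 v.1 ^ 2 :=
    GCFL.red2 m hm (fun u v => m u * m v * k u v ^ 2) (fun u v hu => by simp [hu])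
      (fun u v hv => by simp [hv])
  -- the first value of the autocorrelation
  have e4 : ∑ u : W, ∑ v : W, m' u * m' v * (ch K' m' (dl m' v)) u * k u.1 v.1 =
      ∑ u, ∑ v, K u v * k u v := by
    rw [GCFL.red2 m hm (fun u v => K u v * k u v) (fun u v hu => by simp [h0 u hu v])
      (fun u v hv => by simp [h0' u v hv])]
    refine sum_congr rfl fun u _ => sum_congr rfl fun v _ => ?_
    have e5 : (ch K' m' (dl m' v)) u = K' u v / (m' v * m' u) := by
      unfold ch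
      rw [sum_eq_single v]
      · unfold dl
        rw [if_pos rfl, mul_one_div, div_div]
      · intro w _ hw
        unfold dl
        rw [if_neg hw, mul_zero]
      · intro h; exact absurd (mem_univ v) h
    rw [e5]
    have h6 : m' u ≠ 0 := (u.2).ne'
    have h7 : m' v ≠ 0 := (v.2).ne'
    show m' u * m' v * (K' u v / (m' v * m' u)) * k u.1 v.1 = K' u v * k u.1 v.1
    field_simp
  have e6 : (1 / 2) * ∑ u, ∑ v, K u v * (k u u + k v v - 2 * k u v) =
      ∑ u, m u * k u u - ∑ u, ∑ v, K u v * k u v := by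
    have f1 : ∑ u, ∑ v, K u v * k u u = ∑ u, m u * k u u := by
      refine sum_congr rfl fun u _ => ?_
      rw [← sum_mul, hd]
    have f2 : ∑ u, ∑ v, K u v * k v v = ∑ u, m u * k u u := by
      rw [← f1, sum_comm]
      refine sum_congr rfl fun u _ => sum_congr rfl fun v _ => ?_
      rw [hK.symm]
    have f3 : ∑ u, ∑ v, K u v * (k u u + k v v - 2 * k u v) =
        ∑ u, ∑ v, K u v * k u u + ∑ u, ∑ v, K u v * k v v -
          2 * ∑ u, ∑ v, K u v * k u v := by
      rw [mul_sum, ← sum_add_distrib, ← sum_sub_distrib]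
      refine sum_congr rfl fun u _ => ?_
      rw [mul_sum, ← sum_add_distrib, ← sum_sub_distrib]
      refine sum_congr rfl fun v _ => by ring
    rw [f3, f1, f2]
    ring
  have h := gcs hop κ τ q hκ hκ1 hτ hτ1 hq hq1 hH' hne (fun u v : W => k u.1 v.1)
    (fun u v => hsy _ _) M hM hM' (fun x c => hk (fun i => (x i).1) c)
    (by rw [← ea]; exact ha) (by
      rw [← ea]
      refine le_trans ?_ (le_of_eq e4.symm)
      rw [e6] at hen
      linarith)
  rw [← ea] at h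
  rw [e3]
  refine le_trans ?_ h
  refine mul_le_mul_of_nonneg_left ?_ (sq_nonneg _)
  refine mul_le_mul_of_nonneg_left ?_ (by positivity)
  have hc : Fintype.card W ≤ n := by
    have h9 : Fintype.card W = (univ.filter fun v => 0 < m v).card :=
      Fintype.card_subtype (fun v => 0 < m v)
    rw [h9]
    exact hn
  have hc1 : 1 ≤ Fintype.card W := Fintype.card_pos
  refine Real.rpow_le_rpow_of_nonpos ?_ ?_ (by linarith)
  · exact_mod_cast hc1
  · exact_mod_cast hc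

end Pool.Agent.Helper72.SA
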