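import Pool.Agent.Helper72.SA.CondK

/-!
The soft cut by variance and the rounding of the part of small variance.
-/

set_option autoImplicit false

namespace Pool.Agent.Helper72.SA

open Finset Pool.Agent.H647R3.UG Pool.Agent.H573R3.SL Pool.Agent.TH522.UG

section
variable {V A : Type} [Fintype V] [DecidableEq V] [Fintype A] [DecidableEq A] {N : ℕ}

theorem phi_le {L : ((V → A) → ℝ) →ₗ[ℝ] ℝ} (hL : FctS N L) (v : V) : phi L v ≤ 4 * vr L v := by
  have h0 := (vr_bounds hL v).1
  unfold phi
  refine max_le (by linarith) ?_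
  rcases le_total (1 / 4) (vr L v) with h | h
  · exact (min_le_left _ _).trans (by linarith)
  · exact (min_le_right _ _).trans (by linarith)

variable {E : Type} [Fintype E] {s t : E → V} {π : E → Equiv.Perm A}

/-- rounding of a part: the soft cut -/
theorem ach_part {L : ((V → A) → ℝ) →ₗ[ℝ] ℝ} (hL : FctS N L) (f : V → ℝ) (hf : ∀ v, 0 ≤ f v) (x : ℝ)
    (hx : Ach s t π (fun v => f v ^ 2 * phi L v) x) :
    Ach s t π (fun v => f v ^ 2) (18 * ErrL s t π f L + x) := by
  obtain ⟨lab, hlab⟩ := exists_argmax hL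
  have hP1 : ∀ v, 0 ≤ f v ^ 2 * (1 - phi L v) := fun v =>
    mul_nonneg (sq_nonneg _) (by linarith [phi_le_one L v])
  have hleaf := ach_leaf (s := s) (t := t) (π := π) (fun v => f v ^ 2 * (1 - phi L v)) hP1 lab
  have hcut := ach_cut (fun v => f v ^ 2) (phi L) (fun v => sq_nonneg _) (phi_nonneg L)
    (phi_le_one L) x _ hx hleaf
  refine hcut.mono ?_
  have hmin : ∀ e, min (f (s e) ^ 2) (f (t e) ^ 2) ≤ f (s e) * f (t e) := by
    intro e
    rcases le_total (f (s e)) (f (t e)) with h | h
    · exact (min_le_left _ _).trans (by nlinarith [hf (s e)])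
    · exact (min_le_right _ _).trans (by nlinarith [hf (t e)])
  have herr : ∀ e, 0 ≤ 1 - L (sat (s e) (t e) (π e)) := fun e => by
    linarith [hL.sat1 (s e) (t e) (π e)]
  have h1 : ∑ e, min (f (s e) ^ 2) (f (t e) ^ 2) * |phi L (s e) - phi L (t e)| ≤
      16 * ErrL s t π f L := by
    unfold ErrL
    rw [mul_sum]
    refine sum_le_sum fun e _ => ?_
    have h2 : |phi L (s e) - phi L (t e)| ≤ 16 * (1 - L (sat (s e) (t e) (π e))) := by
      have := vr_lip hL (s e) (t e) (π e)
      linarith [phi_lip L (s e) (t e)]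
    calc min (f (s e) ^ 2) (f (t e) ^ 2) * |phi L (s e) - phi L (t e)|
        ≤ (f (s e) * f (t e)) * (16 * (1 - L (sat (s e) (t e) (π e)))) :=
          mul_le_mul (hmin e) h2 (abs_nonneg _) (mul_nonneg (hf _) (hf _))
      _ = _ := by ring
  have h2 : ∑ e, min (f (s e) ^ 2 * (1 - phi L (s e))) (f (t e) ^ 2 * (1 - phi L (t e))) *
      (if π e (lab (s e)) = lab (t e) then 0 else 1) ≤ 2 * ErrL s t π f L := by
    unfold ErrL
    rw [mul_sum]
    refine sum_le_sum fun e _ => ?_
    have h3 : min (f (s e) ^ 2 * (1 - phi L (s e))) (f (t e) ^ 2 * (1 - phi L (t e))) ≤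
        f (s e) * f (t e) := by
      refine le_trans (min_le_min ?_ ?_) (hmin e)
      · exact mul_le_of_le_one_right (sq_nonneg _) (by linarith [phi_nonneg L (s e)])
      · exact mul_le_of_le_one_right (sq_nonneg _) (by linarith [phi_nonneg L (t e)])
    have hr : 0 ≤ f (s e) * f (t e) * (1 - L (sat (s e) (t e) (π e))) :=
      mul_nonneg (mul_nonneg (hf _) (hf _)) (herr e)
    split_ifs with h4
    · rw [mul_zero]; linarith
    · rw [mul_one]
      by_cases h5 : phi L (s e) < 1 ∧ phi L (t e) < 1
      · have h6 := argmax_edge hL lab hlab (s e) (t e) (π e) (vr_lt L _ h5.1) (vr_lt L _ h5.2) h4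
        calc min (f (s e) ^ 2 * (1 - phi L (s e))) (f (t e) ^ 2 * (1 - phi L (t e)))
            ≤ (f (s e) * f (t e)) * 1 := by rw [mul_one]; exact h3
          _ ≤ (f (s e) * f (t e)) * (2 * (1 - L (sat (s e) (t e) (π e)))) :=
              mul_le_mul_of_nonneg_left h6 (mul_nonneg (hf _) (hf _))
          _ = _ := by ring
      · have h6 : min (f (s e) ^ 2 * (1 - phi L (s e))) (f (t e) ^ 2 * (1 - phi L (t e))) ≤ 0 := by
          rw [not_and_or, not_lt, not_lt] at h5
          rcases h5 with h5 | h5
          · refine (min_le_left _ _).trans ?_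
            have : phi L (s e) = 1 := le_antisymm (phi_le_one L _) h5
            rw [this]; simp
          · refine (min_le_right _ _).trans ?_
            have : phi L (t e) = 1 := le_antisymm (phi_le_one L _) h5
            rw [this]; simp
        linarith
  linarith

end

end Pool.Agent.Helper72.SA
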