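import Pool.Agent.Helper72.SA.RoundD

/-!
Rounding of the Sherali-Adams hierarchy for projection games with fibres of at most `d` elements.
-/

set_option autoImplicit false

namespace Pool.Agent.Helper72.SA

open Finset Pool.Agent.H647R3.UG Pool.Agent.H573R3.SL Pool.Agent.TH522.UG Pool.Agent.TH522.US
  Pool.Agent.TH522.DG

/-- the numbers of conditioning steps and of samples -/
theorem numD (n d : ℕ) (hd : 0 < d) (c l x : ℝ) (hc : 0 < c) (hc1 : c ≤ 1)
    (hx : x = Real.log (2048 * d / c ^ 4) / l) (hl : Real.log (2048 * d / c ^ 4) ≤ l)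
    (hln : l ≤ Real.log n) (k M : ℝ) (hk : (n : ℝ) ^ (12 * (x * Real.log (2 / x))) ≤ k)
    (hM : 4 * (n : ℝ) ^ (12 * (x * Real.log (2 / x))) ≤ M) :
    1 ≤ k * (c ^ 2 / 8 / 2 * (((c ^ 2 / 8 / 4) ^ 2 / d) ^ 2 *
      (Real.exp (-(2 * Real.log (2 / ((c ^ 2 / 8 / 4) ^ 2 / d)) *
        (Real.log (1 / x) / (l / (2 * Real.log n)) + 2))) * (n : ℝ) ^ (-x)))) ∧
    4 * Real.exp (Real.log (2 / ((c ^ 2 / 8 / 4) ^ 2 / d)) *
      (Real.log (1 / x) / (l / (2 * Real.log n)) + 4)) ≤ M ∧ 8 / c ^ 2 ≤ M := by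
  have hd0 : (0 : ℝ) < d := by exact_mod_cast hd
  have hd1 : (1 : ℝ) ≤ d := by exact_mod_cast hd
  have hc2 : c ^ 2 ≤ 1 := pow_le_one₀ hc.le hc1
  have hc4 : c ^ 4 ≤ 1 := pow_le_one₀ hc.le hc1
  have hc2p : 0 < c ^ 2 := by positivity
  have hc4p : 0 < c ^ 4 := by positivity
  have hR : (2048 : ℝ) ≤ 2048 * d / c ^ 4 := by
    rw [le_div_iff₀ (by positivity)]
    nlinarith
  set R : ℝ := 2048 * d / c ^ 4 with hRd
  have hR0 : 0 < R := by linarith
  set Λ := Real.log R with hΛ
  have hΛ1 : 0 < Λ := Real.log_pos (by linarith)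
  have hl0 : 0 < l := by linarith
  have hlog : 0 < Real.log n := by linarith
  have hn0 : (0 : ℝ) < n := by
    rcases Nat.eq_zero_or_pos n with h | h
    · rw [h] at hlog; simp at hlog
    · exact_mod_cast h
  have hx0 : 0 < x := by rw [hx]; positivity
  have hx1 : x ≤ 1 := by rw [hx, div_le_one hl0]; exact hl
  have hxl : x * l = Λ := by rw [hx]; field_simp
  have e1 : (c ^ 2 / 8 / 4) ^ 2 / d = 2 * R⁻¹ := by
    rw [hRd]
    field_simp
    ring
  have e2 : (2 : ℝ) / (2 * R⁻¹) = R := by field_simp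
  have e0 : (2 : ℝ) / ((c ^ 2 / 8 / 4) ^ 2 / d) = R := by rw [e1, e2]
  rw [e0, e1, ← hΛ]
  have e3 : 2 * Λ * (Real.log (1 / x) / (l / (2 * Real.log n)) + 2) =
      4 * (x * Real.log (1 / x)) * Real.log n + 4 * Λ := by
    rw [← hxl]
    field_simp
    ring
  have e3' : Λ * (Real.log (1 / x) / (l / (2 * Real.log n)) + 4) =
      2 * (x * Real.log (1 / x)) * Real.log n + 4 * Λ := by
    rw [← hxl]
    field_simp
  rw [e3, e3']
  have e4 : R⁻¹ = Real.exp (-Λ) := by rw [Real.exp_neg, hΛ, Real.exp_log hR0]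
  have hc42 : c ^ 4 ≤ c ^ 2 := by
    calc c ^ 4 = c ^ 2 * c ^ 2 := by ring
      _ ≤ c ^ 2 * 1 := mul_le_mul_of_nonneg_left hc2 (by positivity)
      _ = c ^ 2 := mul_one _
  have h1 : Real.exp (-Λ) ≤ c ^ 2 / 8 / 2 := by
    rw [← e4, hRd, inv_div, div_le_iff₀ (by positivity)]
    nlinarith [pow_pos hc 2]
  have hk0 : 0 ≤ k := le_trans (Real.rpow_nonneg hn0.le _) hk
  have hlogx : 0 ≤ Real.log (1 / x) := Real.log_nonneg (by rw [le_div_iff₀ hx0]; linarith)
  have hlog2 : Real.log (2 / x) = Real.log 2 + Real.log (1 / x) := by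
    rw [← Real.log_mul (by norm_num) (by positivity)]
    congr 1
    ring
  have hl2 := Real.log_two_gt_d9
  have h4 : Λ ≤ x * Real.log n := by
    rw [← hxl]
    exact mul_le_mul_of_nonneg_left hln hx0.le
  have h5 : 0 ≤ x * Real.log n := by positivity
  have h6 : 0 ≤ x * Real.log (1 / x) * Real.log n := by positivity
  have h7 : 8 * (x * Real.log n) ≤ 12 * Real.log 2 * (x * Real.log n) :=
    mul_le_mul_of_nonneg_right (by linarith) h5
  have hexpo : Real.log n * (12 * (x * Real.log (2 / x))) =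
      12 * Real.log 2 * (x * Real.log n) + 12 * (x * Real.log (1 / x) * Real.log n) := by
    rw [hlog2]; ring
  rw [e4]
  rw [Real.rpow_def_of_pos hn0, hexpo] at hk hM
  rw [Real.rpow_def_of_pos hn0]
  refine ⟨?_, ?_, ?_⟩
  · have h3 : Real.exp (12 * Real.log 2 * (x * Real.log n) +
        12 * (x * Real.log (1 / x) * Real.log n)) *
        (Real.exp (-Λ) * (Real.exp (-Λ) ^ 2 *
        (Real.exp (-(4 * (x * Real.log (1 / x)) * Real.log n + 4 * Λ)) *
          Real.exp (Real.log n * -x)))) ≤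
        k * (c ^ 2 / 8 / 2 * ((2 * Real.exp (-Λ)) ^ 2 *
        (Real.exp (-(4 * (x * Real.log (1 / x)) * Real.log n + 4 * Λ)) *
          Real.exp (Real.log n * -x)))) := by
      refine mul_le_mul hk ?_ (by positivity) hk0
      refine mul_le_mul h1 ?_ (by positivity) (by positivity)
      refine mul_le_mul_of_nonneg_right ?_ (by positivity)
      rw [mul_pow]
      have : 0 ≤ Real.exp (-Λ) ^ 2 := by positivity
      linarith
    refine le_trans ?_ h3
    rw [← Real.exp_nat_mul, ← Real.exp_add, ← Real.exp_add, ← Real.exp_add, ← Real.exp_add]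
    apply Real.one_le_exp
    push_cast
    linarith
  · refine le_trans (mul_le_mul_of_nonneg_left ?_ (by norm_num)) hM
    apply Real.exp_le_exp.2
    linarith
  · refine le_trans ?_ hM
    have h8 : 8 / c ^ 2 ≤ Real.exp Λ := by
      rw [hΛ, Real.exp_log hR0, hRd, div_le_div_iff₀ hc2p hc4p]
      nlinarith
    have h9 : Real.exp Λ ≤ Real.exp (12 * Real.log 2 * (x * Real.log n) +
        12 * (x * Real.log (1 / x) * Real.log n)) := Real.exp_le_exp.2 (by linarith)
    have h10 : 0 < Real.exp (12 * Real.log 2 * (x * Real.log n) +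
        12 * (x * Real.log (1 / x) * Real.log n)) := Real.exp_pos _
    linarith

section
variable {V W A B E : Type} [Fintype V] [Fintype W] [Fintype E] [Fintype A] [Fintype B]
  [DecidableEq B]

/-- rounding of the Sherali-Adams hierarchy -/
theorem coreD (v : E → V) (w : E → W) (π : E → A → B) (d : ℕ)
    (hfib : ∀ e, Fib d (π e)) (c l x : ℝ) (hc : 0 < c) (hc1 : c ≤ 1)
    (hx : x = Real.log (2048 * d / c ^ 4) / l) (hl0 : 0 < l)
    (hl : Real.log (2048 * d / c ^ 4) ≤ l) (hln : l ≤ Real.log (Fintype.card W)) (k M : ℕ)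
    (hk : (Fintype.card W : ℝ) ^ (12 * (x * Real.log (2 / x))) ≤ k)
    (hM : 4 * (Fintype.card W : ℝ) ^ (12 * (x * Real.log (2 / x))) ≤ M)
    (L : ((W → A) × (V → B) → ℝ) →ₗ[ℝ] ℝ) (hL : SA2 (k + (M + M)) L)
    (hval : c * (Fintype.card E : ℝ) ≤ ∑ e, L (satE v w π e)) :
    ∃ (X : W → A) (N : V → B), c ^ 5 * Real.exp (-l) / 2 ^ 21 * (Fintype.card E : ℝ) ≤
      ((univ.filter fun e => π e (X (w e)) = N (v e)).card : ℝ) := by
  classical
  have hne : Nonempty ((W → A) × (V → B)) := by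
    by_contra hcon
    rw [not_nonempty_iff] at hcon
    have h1 := hL.one
    have h2 : (fun _ : (W → A) × (V → B) => (1 : ℝ)) = 0 := Subsingleton.elim _ _
    rw [h2, map_zero] at h1
    exact zero_ne_one h1
  obtain ⟨M0, N0⟩ := hne
  rcases Nat.eq_zero_or_pos (Fintype.card E) with hE | hE
  · refine ⟨M0, N0, ?_⟩
    rw [hE]
    simp
  have hE0 : (0 : ℝ) < Fintype.card E := by exact_mod_cast hE
  obtain ⟨e0⟩ : Nonempty E := Fintype.card_pos_iff.1 hE
  have hA : Nonempty A := ⟨M0 (w e0)⟩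
  have hB : Nonempty B := ⟨N0 (v e0)⟩
  set a0 : A := M0 (w e0) with ha0
  have hd : 0 < d := by
    have h1 := hfib e0 (π e0 a0)
    have h2 : 0 < (univ.filter fun a => π e0 a = π e0 a0).card :=
      card_pos.2 ⟨a0, by simp⟩
    omega
  have hd0 : (0 : ℝ) < d := by exact_mod_cast hd
  have hlog : 0 < Real.log (Fintype.card W) := by linarith
  have hn : 0 < Fintype.card W := by
    rcases Nat.eq_zero_or_pos (Fintype.card W) with h | h
    · rw [h] at hlog; simp at hlog
    · exact h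
  have hn0 : (0 : ℝ) < Fintype.card W := by exact_mod_cast hn
  have hc4 : c ^ 4 ≤ 1 := pow_le_one₀ hc.le hc1
  have hR : (2048 : ℝ) ≤ 2048 * d / c ^ 4 := by
    have hd1 : (1 : ℝ) ≤ d := by exact_mod_cast hd
    rw [le_div_iff₀ (by positivity)]
    nlinarith [pow_pos hc 4]
  have hΛ : 0 < Real.log (2048 * d / c ^ 4) := Real.log_pos (by linarith)
  have hx0 : 0 < x := by rw [hx]; positivity
  have hx1 : x ≤ 1 := by rw [hx, div_le_one hl0]; exact hl
  obtain ⟨hkr, hMr, hMc⟩ := numD (Fintype.card W) d hd c l x hc hc1 hx hl hln k M hk hM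
  have hk1 : 1 ≤ k := by
    by_contra hcon
    have h0 : k = 0 := by omega
    rw [h0] at hkr
    norm_num at hkr
  have hMpos : (0 : ℝ) < M := lt_of_lt_of_le (by positivity) hMc
  have hM0 : 0 < M := by exact_mod_cast hMpos
  have hsat0 : ∀ e, 0 ≤ L (satE v w π e) ∧ L (satE v w π e) ≤ 1 := by
    intro e
    have hdep : Dep2 {w e} {v e} (satE v w π e) := by
      intro z z' h1 h2
      unfold satE
      rw [h1 _ (mem_singleton_self _), h2 _ (mem_singleton_self _)]
    constructor
    · refine hL.junta {w e} {v e} (by rw [card_singleton, card_singleton]; omega) _ hdep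
        fun z => ?_
      unfold satE
      split_ifs <;> norm_num
    · have h1 : 0 ≤ L (fun z => 1 - satE v w π e z) := by
        refine hL.junta {w e} {v e} (by rw [card_singleton, card_singleton]; omega) _
          (fun z z' h1 h2 => ?_) fun z => ?_
        · show 1 - satE v w π e z = 1 - satE v w π e z'
          rw [hdep z z' h1 h2]
        · unfold satE
          split_ifs <;> norm_num
      have h2 : (fun z => 1 - satE v w π e z) = (fun _ => (1 : ℝ)) - satE v w π e := rfl
      rw [h2, map_sub, hL.one] at h1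
      linarith
  -- good edges
  set G : E → Prop := fun e => c / 2 ≤ L (satE v w π e) with hG
  set ω : E → ℝ := fun e => if G e then (1 : ℝ) else 0 with hωd
  have hω : ∀ e, 0 ≤ ω e := fun e => by simp only [hωd]; split_ifs <;> norm_num
  have hgood : c / 2 * (Fintype.card E : ℝ) ≤ ∑ e, ω e := by
    have h1 : ∀ e, L (satE v w π e) ≤ c / 2 + ω e := by
      intro e
      simp only [hωd]
      by_cases h : G e
      · rw [if_pos h]
        have := (hsat0 e).2
        linarith
      · rw [if_neg h]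
        simp only [hG, not_le] at h
        linarith
    have h2 := sum_le_sum fun e (_ : e ∈ (univ : Finset E)) => h1 e
    rw [sum_add_distrib, sum_const, card_univ, nsmul_eq_mul] at h2
    linarith
  have hD : 0 < ∑ e, ω e := lt_of_lt_of_le (by positivity) hgood
  have hpair0 := pair_corrS (D := k + (M + M)) (M := M) hM0 (by omega) L hL a0 v w π ω hω (c / 2)
    (by positivity) (fun e he => by
    by_contra hcon
    have h1 : ω e = 0 := by
      simp only [hωd]
      rw [if_neg]
      exact hcon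
    linarith)
  set s : E → W ⊕ V := fun e => Sum.inl (w e) with hs
  set t : E → W ⊕ V := fun e => Sum.inr (v e) with ht
  have hpair : ∀ F : W ⊕ V → ℝ, (∀ z, 0 ≤ F z) → c ^ 2 / 8 * bil (K2 s t ω) F F ≤
      SatF s t π ω F (pj a0 L) := by
    intro F hF
    refine le_trans ?_ (hpair0 F hF)
    refine mul_le_mul_of_nonneg_right ?_ ((isKer_K2 s t ω hω).psd F)
    have h1 : 1 / (M : ℝ) ≤ c ^ 2 / 8 := by
      rw [div_le_iff₀ (by positivity)] at hMc
      rw [div_le_div_iff₀ hMpos (by norm_num)]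
      linarith
    have h2 : (c / 2) ^ 2 = c ^ 2 / 8 + c ^ 2 / 8 := by ring
    rw [h2]
    linarith
  have hPL := pj_SA a0 (k + (M + M)) L hL
  have hκ0 : 0 < l / (2 * Real.log (Fintype.card W)) := by positivity
  have hκ1 : l / (2 * Real.log (Fintype.card W)) < 1 := by
    rw [div_lt_one (by positivity)]
    linarith
  have hβe : (Fintype.card W : ℝ) ^ (-(2 * (l / (2 * Real.log (Fintype.card W))))) =
      Real.exp (-l) := by
    rw [Real.rpow_def_of_pos hn0]
    congr 1
    field_simp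
  set U : Finset (W ⊕ V) := univ.map Function.Embedding.inl with hU
  have hUc : U.card = Fintype.card W := by rw [hU, card_map, card_univ]
  have hsU : ∀ e, s e ∈ U := fun e => by simp [hs, hU]
  have hcsq : c ^ 2 ≤ 1 := pow_le_one₀ hc.le hc1
  have hpart := fun (U0 : Finset (W ⊕ V)) (hU0 : U0 ⊆ U) =>
    part_roundR M s t π d hd hfib ω hω hD (Fintype.card W) hn
      (l / (2 * Real.log (Fintype.card W))) x
      (c ^ 2 / 8) hκ0 hκ1 hx0 hx1 (by positivity) (by linarith) k hkr hMr (pj a0 L) hPL hpair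
      U0 (by rw [← hUc]; exact card_le_card hU0)
  rw [hβe] at hpart
  obtain ⟨X, Y, hXY⟩ := two_sided s t π ω hω ((c ^ 2 / 8) ^ 2 * Real.exp (-l) / 4096)
    (by positivity) U hsU hpart (fun _ a => if a = a0 then 1 else 0)
    ⟨fun _ a => by beta_reduce; split_ifs <;> norm_num, fun _ => by simp⟩
  refine ⟨fun w' => X (Sum.inl w'), fun v' => Y (Sum.inr v'), ?_⟩
  have h1 : ∑ e, ω e * (if π e (X (s e)) = Y (t e) then 1 else 0) ≤
      ((univ.filter fun e => π e (X (Sum.inl (w e))) = Y (Sum.inr (v e))).card : ℝ) := by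
    rw [card_filter]
    push_cast
    refine sum_le_sum fun e _ => ?_
    simp only [hωd, hs, ht]
    split_ifs <;> norm_num
  refine le_trans ?_ (hXY.trans h1)
  have h2 : (c ^ 2 / 8) ^ 2 * Real.exp (-l) / 4096 * (c / 2 * (Fintype.card E : ℝ)) ≤
      (c ^ 2 / 8) ^ 2 * Real.exp (-l) / 4096 * ∑ e, ω e :=
    mul_le_mul_of_nonneg_left hgood (by positivity)
  have h3 : c ^ 5 * Real.exp (-l) / 2 ^ 21 * (Fintype.card E : ℝ) =
      (c ^ 2 / 8) ^ 2 * Real.exp (-l) / 4096 * (c / 2 * (Fintype.card E : ℝ)) / 4 := by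
    ring
  rw [h3]
  linarith

end

end Pool.Agent.Helper72.SA
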