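import Pool.Agent.Helper72.SA.NodeK
import Pool.Agent.TH522.UG.Main

/-!
The rounding theorem for the Sherali-Adams hierarchy: the sharp trade-off.
-/

set_option autoImplicit false

namespace Pool.Agent.Helper72.SA

open Finset Pool.Agent.H647R3.UG Pool.Agent.H573R3.SL Pool.Agent.TH522.UG

/-- the number of conditioning steps of a stage -/
theorem stepsK (n : ℕ) (hn : 1 ≤ n) (q : ℝ) (hq : 0 < q) (hq1 : q ≤ 1) (k : ℕ)
    (hk : 4294967296 * (n : ℝ) ^ (2 * q) ≤ k) :
    2 ≤ k * (1 / 1073741824 * (Real.exp (-(q * Real.log (n + 1))) * (n : ℝ) ^ (-q))) := by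
  have hn0 : (0 : ℝ) < n := by exact_mod_cast hn
  have hn1 : (1 : ℝ) ≤ n := by exact_mod_cast hn
  have h1 : 1 / 2 * (n : ℝ) ^ (-q) ≤ Real.exp (-(q * Real.log (n + 1))) := by
    have h2 : Real.exp (-(q * Real.log (n + 1))) = ((n : ℝ) + 1) ^ (-q) := by
      rw [Real.rpow_def_of_pos (by linarith)]
      congr 1
      ring
    rw [h2]
    have h3 : (2 * (n : ℝ)) ^ (-q) ≤ ((n : ℝ) + 1) ^ (-q) :=
      Real.rpow_le_rpow_of_nonpos (by linarith) (by linarith) (by linarith)
    refine le_trans ?_ h3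
    rw [Real.mul_rpow (by norm_num) hn0.le]
    refine mul_le_mul_of_nonneg_right ?_ (Real.rpow_nonneg hn0.le _)
    have h4 : (2 : ℝ) ^ (-1 : ℝ) ≤ 2 ^ (-q) :=
      Real.rpow_le_rpow_of_exponent_le (by norm_num) (by linarith)
    rw [Real.rpow_neg_one] at h4
    linarith
  have h5 : 0 < (n : ℝ) ^ (-q) := Real.rpow_pos_of_pos hn0 _
  have h6 : (n : ℝ) ^ (2 * q) * ((n : ℝ) ^ (-q) * (n : ℝ) ^ (-q)) = 1 := by
    rw [← Real.rpow_add hn0, ← Real.rpow_add hn0, show 2 * q + (-q + -q) = 0 by ring,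
      Real.rpow_zero]
  calc (2 : ℝ) = 4294967296 * (n : ℝ) ^ (2 * q) *
        (1 / 1073741824 * (1 / 2 * (n : ℝ) ^ (-q) * (n : ℝ) ^ (-q))) := by
        have : 4294967296 * (n : ℝ) ^ (2 * q) *
          (1 / 1073741824 * (1 / 2 * (n : ℝ) ^ (-q) * (n : ℝ) ^ (-q))) =
          2 * ((n : ℝ) ^ (2 * q) * ((n : ℝ) ^ (-q) * (n : ℝ) ^ (-q))) := by ring
        rw [this, h6]; norm_num
    _ ≤ k * (1 / 1073741824 * (Real.exp (-(q * Real.log (n + 1))) * (n : ℝ) ^ (-q))) := by
        refine mul_le_mul hk ?_ (by positivity) (Nat.cast_nonneg k)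
        refine mul_le_mul_of_nonneg_left ?_ (by norm_num)
        exact mul_le_mul_of_nonneg_right h1 h5.le

/-- the total loss -/
theorem lossK (r γ ε m : ℝ) (T : ℕ) (hr : 0 < r) (hr1 : r ≤ 1) (hγ : 0 < γ)
    (hε : 0 < ε) (hm : 0 < m) (hεγ : 8589934592 * (ε * Real.log (2 / r)) ≤ r * γ ^ 2)
    (hT1 : 8 / γ ≤ (16 : ℝ) ^ T) (hT2 : (16 : ℝ) ^ T ≤ 128 / γ) :
    2 * G (2359296 * (Real.log (2 / (r / 2)) / (r / 2))) T (ε * m) (2 * m) ≤ γ * m := by
  have hl2 := Real.log_two_gt_d9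
  have hΛ2 : Real.log 2 ≤ Real.log (2 / r) :=
    Real.log_le_log (by norm_num) (by rw [le_div_iff₀ hr]; linarith)
  have hΛ : 0 < Real.log (2 / r) := by linarith
  have h1 : Real.log (2 / (r / 2)) ≤ 2 * Real.log (2 / r) := by
    have : 2 / (r / 2) = 2 * (2 / r) := by field_simp
    rw [this, Real.log_mul (by norm_num) (by positivity)]
    linarith
  have h1' : 0 ≤ Real.log (2 / (r / 2)) := Real.log_nonneg (by
    rw [le_div_iff₀ (by positivity)]; linarith)
  -- the square root term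
  have h2 : 2 * Real.sqrt (2359296 * (Real.log (2 / (r / 2)) / (r / 2)) * (ε * m * (2 * m))) ≤
      γ * m / 8 := by
    have h3 : 2359296 * (Real.log (2 / (r / 2)) / (r / 2)) * (ε * m * (2 * m)) ≤
        (γ * m / 16) ^ 2 := by
      have h4 : Real.log (2 / (r / 2)) / (r / 2) * ε ≤ γ ^ 2 / 2147483648 := by
        rw [div_mul_eq_mul_div, div_le_iff₀ (by positivity)]
        have h5 : Real.log (2 / (r / 2)) * ε ≤ 2 * Real.log (2 / r) * ε :=
          mul_le_mul_of_nonneg_right h1 hε.le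
        nlinarith
      calc 2359296 * (Real.log (2 / (r / 2)) / (r / 2)) * (ε * m * (2 * m))
          = 4718592 * m ^ 2 * (Real.log (2 / (r / 2)) / (r / 2) * ε) := by ring
        _ ≤ 4718592 * m ^ 2 * (γ ^ 2 / 2147483648) := mul_le_mul_of_nonneg_left h4 (by positivity)
        _ ≤ (γ * m / 16) ^ 2 := by
            have : 0 ≤ m ^ 2 * γ ^ 2 := by positivity
            nlinarith
    have h6 := Real.sqrt_le_sqrt h3
    rw [Real.sqrt_sq (by positivity)] at h6
    linarith
  -- the middle term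
  have h7 : ε ≤ γ ^ 2 / 2147483648 := by
    have h8 : ε * (1 / 2) ≤ ε * Real.log (2 / r) :=
      mul_le_mul_of_nonneg_left (by linarith) hε.le
    have h9 : r * γ ^ 2 ≤ γ ^ 2 := mul_le_of_le_one_left (sq_nonneg _) hr1
    have : 0 ≤ ε := hε.le
    linarith
  have h10 : (4 : ℝ) ^ T ≤ 128 / γ :=
    (pow_le_pow_left₀ (by norm_num) (by norm_num) T).trans hT2
  have h11 : 24 * ((4 : ℝ) ^ T - 1) * (ε * m) ≤ γ * m / 8 := by
    have h12 : (4 : ℝ) ^ T * ε ≤ γ / 192 := by
      calc (4 : ℝ) ^ T * ε ≤ 128 / γ * (γ ^ 2 / 2147483648) :=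
            mul_le_mul h10 h7 hε.le (by positivity)
        _ ≤ γ / 192 := by
            have : 128 / γ * (γ ^ 2 / 2147483648) = γ * (128 / 2147483648) := by field_simp
            rw [this]
            nlinarith
    have h13 : 24 * ((4 : ℝ) ^ T - 1) * (ε * m) ≤ 24 * m * ((4 : ℝ) ^ T * ε) := by
      have : 0 ≤ ε * m := by positivity
      nlinarith
    have h14 : 24 * m * ((4 : ℝ) ^ T * ε) ≤ 24 * m * (γ / 192) :=
      mul_le_mul_of_nonneg_left h12 (by positivity)
    linarith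
  -- the last term
  have h15 : 1 / 2 * (1 / 16 : ℝ) ^ T * (2 * m) ≤ γ * m / 8 := by
    have h16 : (1 / 16 : ℝ) ^ T ≤ γ / 8 := by
      rw [one_div, inv_pow, inv_le_comm₀ (by positivity) (by positivity)]
      rw [inv_div]
      exact hT1
    have := mul_le_mul_of_nonneg_right h16 hm.le
    linarith
  unfold G
  have : 0 < γ * m := by positivity
  linarith

/-- the parameter `X`: `n + 2 ≤ (n + 1) ^ 2` -/
theorem logn2 (n : ℝ) (hn : 1 ≤ n) : Real.log (n + 2) ≤ 2 * Real.log (n + 1) := by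
  have h := Real.log_le_log (by linarith) (by nlinarith : n + 2 ≤ (n + 1) ^ 2)
  rwa [Real.log_pow, Nat.cast_ofNat] at h

/-- the rounding theorem with the choice of the error -/
theorem coreK {V A E : Type} [Fintype V] [DecidableEq V] [Fintype A] [DecidableEq A] [Fintype E]
    (s t : E → V) (π : E → Equiv.Perm A) (r γ ε : ℝ) (hr1 : r ≤ 1) (hγ : 0 < γ)
    (hγ1 : γ < 1) (hr : 1 / Real.log ((Fintype.card V : ℝ) + 2) ≤ r)
    (hε : ε = r * γ ^ 2 / (8589934592 * Real.log (2 / r))) (K : ℕ)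
    (hK : 17179869184 * (Real.log (2 / γ) * ((Fintype.card V : ℝ) ^ r +
      Real.log ((Fintype.card V : ℝ) + 1))) ≤ K)
    (L : ((V → A) → ℝ) →ₗ[ℝ] ℝ) (hL : SAh K L)
    (hval : (1 - ε) * (Fintype.card E : ℝ) ≤ ∑ e, L (sat (s e) (t e) (π e))) :
    ∃ x : V → A, (1 - γ) * (Fintype.card E : ℝ)
      ≤ ((univ.filter fun e => π e (x (s e)) = x (t e)).card : ℝ) := by
  obtain ⟨x0⟩ : Nonempty (V → A) := by
    rcases isEmpty_or_nonempty (V → A) with h | h
    · exfalso
      have h1 := hL.one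
      have h2 : (fun _ : V → A => (1 : ℝ)) = 0 := funext fun x => (h.false x).elim
      rw [h2, map_zero] at h1
      exact zero_ne_one h1
    · exact h
  rcases isEmpty_or_nonempty E with hE | ⟨⟨e0⟩⟩
  · exact ⟨x0, by simp⟩
  set m : ℝ := (Fintype.card E : ℝ) with hm
  have hm0 : 0 < m := by
    rw [hm]
    exact_mod_cast Fintype.card_pos_iff.2 ⟨e0⟩
  have hn : 1 ≤ Fintype.card V := Fintype.card_pos_iff.2 ⟨s e0⟩
  obtain ⟨n, hnn⟩ : ∃ n : ℝ, n = (Fintype.card V : ℝ) := ⟨_, rfl⟩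
  have hn1 : (1 : ℝ) ≤ n := by rw [hnn]; exact_mod_cast hn
  have hn0 : (0 : ℝ) < n := by linarith
  obtain ⟨N, hNdef⟩ : ∃ N : ℝ, N = Real.log (n + 1) := ⟨_, rfl⟩
  obtain ⟨Λ, hΛdef⟩ : ∃ Λ : ℝ, Λ = Real.log (2 / γ) := ⟨_, rfl⟩
  have hl2 := Real.log_two_gt_d9
  have hl2' := Real.log_two_lt_d9
  have hN2 : Real.log 2 ≤ N := by
    rw [hNdef]
    exact Real.log_le_log (by norm_num) (by linarith)
  have hΛ2 : Real.log 2 ≤ Λ := by
    rw [hΛdef]
    exact Real.log_le_log (by norm_num) (by rw [le_div_iff₀ hγ]; linarith)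
  have hlogn2 : Real.log (n + 2) ≤ 2 * N := by
    rw [hNdef]
    exact logn2 n hn1
  have hlogn2p : 0 < Real.log (n + 2) := Real.log_pos (by linarith)
  rw [← hnn] at hr hK
  rw [← hNdef, ← hΛdef] at hK
  have hr0 : 0 < r := lt_of_lt_of_le (by positivity) hr
  have hrinv : 1 / r ≤ Real.log (n + 2) := by
    rw [div_le_iff₀ hr0]
    rw [div_le_iff₀ hlogn2p] at hr
    linarith
  have hrinv2 : 1 / r ≤ 2 * N := hrinv.trans hlogn2
  have hr2 : Real.log 2 ≤ Real.log (2 / r) :=
    Real.log_le_log (by norm_num) (by rw [le_div_iff₀ hr0]; linarith)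
  have hlr0 : 0 < Real.log (2 / r) := by linarith
  -- `log (2 / r) ≤ log 2 + 2 N`
  have hlr : Real.log (2 / r) ≤ Real.log 2 + 2 * N := by
    have e1 : 2 / r = 2 * (1 / r) := by ring
    rw [e1, Real.log_mul (by norm_num) (by positivity)]
    have h1 := Real.log_le_sub_one_of_pos (show 0 < 1 / r by positivity)
    linarith
  have hε0 : 0 < ε := by rw [hε]; positivity
  have hεγ : 8589934592 * (ε * Real.log (2 / r)) ≤ r * γ ^ 2 := by
    rw [hε]
    apply le_of_eq
    field_simp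
  have hε4 : ε ≤ 1 / 4 := by
    have h1 : r * γ ^ 2 ≤ 1 := mul_le_one₀ hr1 (sq_nonneg _) (pow_le_one₀ hγ.le hγ1.le)
    have h2 : ε * (1 / 2) ≤ ε * Real.log (2 / r) :=
      mul_le_mul_of_nonneg_left (by linarith) hε0.le
    linarith
  have hlogε : Real.log (1 / ε) ≤ 35 * Real.log 2 + 4 * N + 2 * Λ := by
    have e1 : 1 / ε = 2 ^ 33 * (Real.log (2 / r) * ((1 / r) * (1 / γ) ^ 2)) := by
      rw [hε]
      field_simp
      norm_num
    have h1 : Real.log (Real.log (2 / r)) ≤ Real.log (2 / r) := by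
      have := Real.log_le_sub_one_of_pos hlr0
      linarith
    have h2 : Real.log (1 / r) ≤ Real.log (2 / r) :=
      Real.log_le_log (by positivity) (by gcongr; norm_num)
    have h3 : Real.log (1 / γ) ≤ Λ := by
      rw [hΛdef]
      exact Real.log_le_log (by positivity) (by gcongr; norm_num)
    rw [e1, Real.log_mul (by positivity) (by positivity), Real.log_mul hlr0.ne' (by positivity),
      Real.log_mul (by positivity) (by positivity), Real.log_pow, Real.log_pow]
    push_cast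
    linarith
  -- the product `Y = Λ N`
  obtain ⟨Y, hY⟩ : ∃ Y : ℝ, Y = Λ * N := ⟨_, rfl⟩
  have hΛ0 : 0 < Λ := by linarith
  have hN0 : 0 < N := by linarith
  have hYN : 0.693 * N ≤ Y := by
    rw [hY]
    exact mul_le_mul_of_nonneg_right (by linarith) hN0.le
  have hYΛ : 0.693 * Λ ≤ Y := by
    rw [hY, mul_comm]
    exact mul_le_mul_of_nonneg_left (by linarith) hΛ0.le
  have hY1 : 0.48 ≤ Y := by
    have : (0.693 : ℝ) ≤ N := by linarith
    linarith
  have hlogε' : Real.log (1 / ε) ≤ 60 * Y := by linarith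
  obtain ⟨T, hT1, hT2, hT3⟩ := Main.exists_stages γ hγ hγ1
  rw [← hΛdef] at hT3
  have hT0 : (0 : ℝ) ≤ T := Nat.cast_nonneg T
  -- the parameter `B`
  obtain ⟨B, hBdef⟩ : ∃ B : ℝ, B = 2 * (n + 1) ^ T / ε := ⟨_, rfl⟩
  have hn1T : 1 ≤ (n + 1) ^ T := one_le_pow₀ (by linarith)
  have hB8 : 8 ≤ B := by
    rw [hBdef, le_div_iff₀ hε0]
    linarith
  have hlogB : Real.log B ≤ 65 * Y := by
    have e1 : B = 2 * ((n + 1) ^ T * (1 / ε)) := by rw [hBdef]; ring
    rw [e1, Real.log_mul (by norm_num) (by positivity), Real.log_mul (by positivity)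
      (by positivity), Real.log_pow, ← hNdef]
    have h1 : (T : ℝ) * N ≤ 3 * Y := by
      rw [hY, ← mul_assoc]
      exact mul_le_mul_of_nonneg_right hT3 hN0.le
    linarith
  -- the parameter `X`
  have hX : Real.log (1 + 48 * Real.log (2 / (r / 2)) / (r / 2 * N)) ≤ 17 * Y := by
    have h1 : Real.log (2 / (r / 2)) ≤ 4 * N := by
      have e1 : 2 / (r / 2) = 2 * (2 / r) := by field_simp
      rw [e1, Real.log_mul (by norm_num) (by positivity)]
      linarith
    have h2 : 48 * Real.log (2 / (r / 2)) / (r / 2 * N) ≤ 768 * N := by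
      have e1 : 48 * Real.log (2 / (r / 2)) / (r / 2 * N) =
          96 * Real.log (2 / (r / 2)) * (1 / r) / N := by
        field_simp
        ring
      rw [e1, div_le_iff₀ hN0]
      calc 96 * Real.log (2 / (r / 2)) * (1 / r) ≤ 96 * (4 * N) * (2 * N) :=
            mul_le_mul (by linarith) hrinv2 (by positivity) (by positivity)
        _ = 768 * N * N := by ring
    have h3 : 0 ≤ 48 * Real.log (2 / (r / 2)) / (r / 2 * N) := by
      have : 0 ≤ Real.log (2 / (r / 2)) := Real.log_nonneg (by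
        rw [le_div_iff₀ (by positivity)]; linarith)
      positivity
    have h4 : Real.log (1 + 48 * Real.log (2 / (r / 2)) / (r / 2 * N)) ≤
        Real.log (2 ^ 10 * (1 + N)) := Real.log_le_log (by linarith) (by linarith)
    rw [Real.log_mul (by norm_num) (by linarith), Real.log_pow] at h4
    have h5 := Real.log_le_sub_one_of_pos (show 0 < 1 + N by linarith)
    push_cast at h4
    linarith
  -- the numbers `k` and `M`
  obtain ⟨P, hP⟩ : ∃ P : ℝ, P = n ^ r := ⟨_, rfl⟩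
  have hP1 : 1 ≤ P := by
    rw [hP]
    exact Real.one_le_rpow hn1 hr0.le
  rw [← hP] at hK
  have e2r : 2 * (r / 2) = r := by ring
  obtain ⟨k, hk⟩ : ∃ k : ℕ, k = ⌈4294967296 * P⌉₊ := ⟨_, rfl⟩
  have hk1 : 4294967296 * P ≤ k := by rw [hk]; exact Nat.le_ceil _
  have hk2 : (k : ℝ) < 4294967296 * P + 1 := by
    rw [hk]; exact Nat.ceil_lt_add_one (by positivity)
  obtain ⟨M, hM⟩ : ∃ M : ℕ, M = ⌈192 * P + 1 + 735 * Y⌉₊ := ⟨_, rfl⟩
  have hM1 : 192 * P + 1 + 735 * Y ≤ M := by rw [hM]; exact Nat.le_ceil _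
  have hM2 : (M : ℝ) < 192 * P + 1 + 735 * Y + 1 := by
    rw [hM]; exact Nat.ceil_lt_add_one (by positivity)
  have hM3 : 3 ≤ M + M := by
    have h : ((3 : ℕ) : ℝ) ≤ ((M + M : ℕ) : ℝ) := by
      push_cast
      linarith
    exact_mod_cast h
  have hexp : 96 * Real.exp (r / 2 * N / 2) ≤ M := by
    have h1 : Real.exp (r / 2 * N / 2) ≤ Real.exp (r * N) := by
      apply Real.exp_le_exp.2
      have : 0 ≤ r * N := by positivity
      linarith
    have h2 : Real.exp (r * N) = (n + 1) ^ r := by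
      rw [Real.rpow_def_of_pos (by linarith), hNdef]
      congr 1
      ring
    have h3 : (n + 1) ^ r ≤ (2 * n) ^ r := Real.rpow_le_rpow (by linarith) (by linarith) hr0.le
    have h4 : (2 * n) ^ r ≤ 2 * P := by
      rw [Real.mul_rpow (by norm_num) hn0.le, ← hP]
      refine mul_le_mul_of_nonneg_right ?_ (by linarith)
      have h5 : (2 : ℝ) ^ r ≤ 2 ^ (1 : ℝ) :=
        Real.rpow_le_rpow_of_exponent_le (by norm_num) hr1
      rwa [Real.rpow_one] at h5
    linarith
  have hM5 : 1 + 5 * (2 * Real.log B + 17 * Y) ≤ M := by linarith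
  have hTk : T * k + (M + M) ≤ K := by
    have h1 : ((T * k + (M + M) : ℕ) : ℝ) ≤ K := by
      push_cast
      refine le_trans ?_ hK
      have h2 : (T : ℝ) * k ≤ 3 * Λ * (4294967297 * P) := by
        refine mul_le_mul hT3 (by linarith) (Nat.cast_nonneg k) (by linarith)
      have h3 : 0.693 * P ≤ Λ * P := mul_le_mul_of_nonneg_right (by linarith) (by linarith)
      have h4 : 17179869184 * (Λ * (P + N)) = 17179869184 * (Λ * P) + 17179869184 * Y := by
        rw [hY]; ring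
      rw [h4]
      have h5 : 3 * Λ * (4294967297 * P) = 12884901891 * (Λ * P) := by ring
      rw [h5] at h2
      linarith
    exact_mod_cast h1
  have hL2 : SAh (T * k + (M + M)) L := ⟨hL.one, fun S hS => hL.junta S (hS.trans hTk)⟩
  have hErr : ErrL s t π (fun _ => (1 : ℝ)) L ≤ ε * m := by
    unfold ErrL
    simp only [one_mul]
    rw [sum_sub_distrib]
    have h1 : ∑ _e : E, (1 : ℝ) = m := by rw [hm]; simp
    rw [h1]
    linarith
  have hvol : volL s t (fun _ => (1 : ℝ)) = 2 * m := by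
    unfold volL
    simp only [one_pow, mul_one]
    exact (T_WT V E s t).2.2.2.2.1
  have hdg : ∑ v, dgr s t v = 2 * m := (T_WT V E s t).2.2.2.2.1
  have hsteps := stepsK (Fintype.card V) hn (r / 2) (by positivity) (by linarith) k (by
    rw [e2r, ← hnn, ← hP]; exact hk1)
  have h := nodek M (hierS V A (M + M) hM3) s t π x0 (r / 2) N (by positivity) (by linarith) hN0
    (by rw [← hnn, hNdef]; exact Real.log_le_log hn0 (by linarith)) k
    (by rw [hNdef, hnn]; exact hsteps) B (17 * Y) hB8 hexp hM5 hX T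
    (fun _ => 1) L (ε * m) (fun _ => zero_le_one) (fun _ => le_rfl) (by positivity)
    (by
      rw [hdg, ← hnn, hBdef]
      apply le_of_eq
      field_simp) hL2 hErr
  rw [hvol] at h
  obtain ⟨c, hc⟩ := ach_round _ (h.congr (P' := fun _ => 1) fun v => by norm_num)
  have hloss := lossK r γ ε m T hr0 hr1 hγ hε0 hm0 hεγ hT1 hT2
  exact ⟨c, by linarith⟩

end Pool.Agent.Helper72.SA
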