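import Pool.Agent.Helper72.SA.CondR

/-!
Rounding of the Sherali-Adams hierarchy, with the return probabilities of the constraint graph.
-/

set_option autoImplicit false

namespace Pool.Agent.Helper72.SA

open Finset Pool.Agent.H647R3.UG Pool.Agent.H573R3.SL Pool.Agent.TH522.UG

/-- the labeling by the most likely labels -/
theorem round_argmax {V A E : Type} [Fintype V] [DecidableEq V] [Fintype A] [DecidableEq A]
    [Fintype E] {N : ℕ} (s t : E → V) (π : E → Equiv.Perm A) (L : ((V → A) → ℝ) →ₗ[ℝ] ℝ)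
    (hL : FctS N L) :
    ∃ x : V → A, (Fintype.card E : ℝ) - (4 * PhT s t L + 2 * ErT s t π L) ≤
      ((univ.filter fun e => π e (x (s e)) = x (t e)).card : ℝ) := by
  obtain ⟨x, hx⟩ := exists_argmax hL
  refine ⟨x, ?_⟩
  have h1 : ∀ e, (1 : ℝ) ≤ (if π e (x (s e)) = x (t e) then 1 else 0) +
      (4 * (vr L (s e) + vr L (t e)) + 2 * (1 - L (sat (s e) (t e) (π e)))) := by
    intro e
    have b1 := (vr_bounds hL (s e)).1
    have b2 := (vr_bounds hL (t e)).1
    have b3 := hL.sat1 (s e) (t e) (π e)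
    by_cases h : π e (x (s e)) = x (t e)
    · rw [if_pos h]
      linarith
    · rw [if_neg h]
      rcases lt_or_ge (vr L (s e)) (1 / 4) with hu | hu
      · rcases lt_or_ge (vr L (t e)) (1 / 4) with hv | hv
        · have := argmax_edge hL x hx (s e) (t e) (π e) hu hv h
          linarith
        · linarith
      · linarith
  have h2 := sum_le_sum fun e (_ : e ∈ (univ : Finset E)) => h1 e
  rw [sum_const, card_univ, nsmul_eq_mul, mul_one, sum_add_distrib, sum_add_distrib, ← mul_sum,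
    ← mul_sum] at h2
  obtain ⟨-, -, -, -, -, -, -, hh, -⟩ := T_WT V E s t
  have h3 := hh univ (fun v => vr L v) (fun v => (vr_bounds hL v).1)
  have hins : ins s t (univ : Finset V) = univ := by
    ext e; simp [ins]
  rw [hins] at h3
  have h4 : ((univ.filter fun e => π e (x (s e)) = x (t e)).card : ℝ) =
      ∑ e, (if π e (x (s e)) = x (t e) then (1 : ℝ) else 0) := by
    rw [card_filter]
    push_cast
    rfl
  rw [h4]
  unfold PhT ErT
  linarith

/-- the rounding theorem -/
theorem coreT {V A E : Type} [Fintype V] [DecidableEq V] [Fintype A] [DecidableEq A] [Fintype E]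
    (s t : E → V) (π : E → Equiv.Perm A) (c ε N : ℝ) (T : ℕ) (hc : 0 < c) (hε : 0 < ε)
    (hεc : ε ≤ c / 32768) (hN0 : 0 < N)
    (hN : ∑ u, wk (wt s t) (2 * T) u u ≤ N) (k M : ℕ)
    (hk : 131072 * N * (2 : ℝ) ^ (49152 * ε / c * T) / c ^ 2 ≤ k)
    (hM : 48 * (2 : ℝ) ^ (24576 * ε / c * T) ≤ M)
    (hM' : 1 + 5 * Real.log (c / (3072 * ε)) ≤ M)
    (L : ((V → A) → ℝ) →ₗ[ℝ] ℝ) (hL : SAh (k + (M + M)) L)
    (hval : (1 - ε) * (Fintype.card E : ℝ) ≤ ∑ e, L (sat (s e) (t e) (π e))) :
    ∃ x : V → A, (1 - c) * (Fintype.card E : ℝ) ≤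
      ((univ.filter fun e => π e (x (s e)) = x (t e)).card : ℝ) := by
  obtain ⟨hw0, hws, hwd, hwC, hwsum, hwend, hwF, hwh, hwins⟩ := T_WT V E s t
  have hMpos : (48 : ℝ) ≤ M := by
    refine le_trans ?_ hM
    have : (1 : ℝ) ≤ (2 : ℝ) ^ (24576 * ε / c * T) :=
      Real.one_le_rpow (by norm_num) (by positivity)
    linarith
  have hM3 : 3 ≤ M + M := by
    have : (48 : ℕ) ≤ M := by exact_mod_cast hMpos
    omega
  rcases Nat.eq_zero_or_pos (Fintype.card E) with hE | hE
  · obtain ⟨x, hx⟩ := round_argmax s t π L (Sx.fct (D := k + (M + M)) (by omega) le_rfl hL)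
    refine ⟨x, ?_⟩
    rw [hE]
    simp
  have hE0 : (0 : ℝ) < Fintype.card E := by exact_mod_cast hE
  have hvol : 0 < ∑ v, dgr s t v := by rw [hwsum]; positivity
  have hτ : 384 * (ε / 2) / (c / 16) = 3072 * ε / c := by field_simp; ring
  have hErr : ErT s t π L ≤ ε / 2 * ∑ v, dgr s t v := by
    rw [hwsum]
    unfold ErT
    rw [sum_sub_distrib, sum_const, card_univ, nsmul_eq_mul, mul_one]
    linarith
  have hH := hierS V A (M + M) hM3
  obtain ⟨L', hL', hP', hE'⟩ := s2t M hH s t π (c / 16) (ε / 2) N T k hvol (by positivity)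
    (by positivity) (by
      rw [hτ, div_le_iff₀ hc]
      linarith) hN0 hN
    (by rw [hτ]
        refine le_trans (le_of_eq ?_) hM
        congr 2
        ring)
    (by rw [hτ, one_div_div]; exact hM')
    (by
      rw [hτ]
      unfold stt
      have e1 : (2 : ℝ) ^ (-(16 * (3072 * ε / c) * T)) = ((2 : ℝ) ^ (49152 * ε / c * T))⁻¹ := by
        rw [← Real.rpow_neg (by norm_num)]
        congr 1
        ring
      rw [e1]
      have h2 : 0 < (2 : ℝ) ^ (49152 * ε / c * T) := by positivity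
      have h3 : (131072 * N * (2 : ℝ) ^ (49152 * ε / c * T) / c ^ 2) *
          ((c / 16) ^ 2 / 256 * ((2 : ℝ) ^ (49152 * ε / c * T))⁻¹ / N) = 2 := by
        field_simp
        norm_num
      refine le_trans (le_of_eq h3.symm) ?_
      exact mul_le_mul_of_nonneg_right hk (by positivity))
    0 L (by rw [zero_add]; exact hL) hErr
  obtain ⟨x, hx⟩ := round_argmax s t π L' (hH.fct _ _ hL')
  refine ⟨x, le_trans ?_ hx⟩
  rw [hwsum] at hP' hE'
  have h5 : ε * (Fintype.card E : ℝ) ≤ c / 32768 * Fintype.card E :=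
    mul_le_mul_of_nonneg_right hεc hE0.le
  nlinarith

end Pool.Agent.Helper72.SA
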