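import Pool.Agent.Helper72.SA.Ret

/-!
Return probabilities of graphs with small-set expansion at all scales.
-/

set_option autoImplicit false

namespace Pool.Agent.Helper72.SA

open Finset MeasureTheory

section
variable {W : Type} [Fintype W]

/-- measure of the level set -/
noncomputable def Lv (μ g : W → ℝ) (a : ℝ) : ℝ := ∑ u, μ u * (if a < g u then 1 else 0)

theorem ind_integral (x R : ℝ) (hx : 0 ≤ x) (hR : x ≤ R) :
    ∫ a in (0 : ℝ)..R, (if a < x then (1 : ℝ) else 0) = x := by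
  rw [intervalIntegral.integral_of_le (hx.trans hR)]
  have e : (fun a : ℝ => if a < x then (1 : ℝ) else 0) = (Set.Iio x).indicator 1 := by
    funext a
    simp [Set.indicator_apply]
  rw [e, integral_indicator_one measurableSet_Iio]
  rw [measureReal_restrict_apply measurableSet_Iio]
  have e2 : Set.Iio x ∩ Set.Ioc 0 R = Set.Ioo 0 x := by
    ext a
    simp only [Set.mem_inter_iff, Set.mem_Iio, Set.mem_Ioc, Set.mem_Ioo]
    constructor
    · rintro ⟨h1, h2, h3⟩; exact ⟨h2, h1⟩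
    · rintro ⟨h1, h2⟩; exact ⟨h2, h1, (h2.le).trans hR⟩
  rw [e2, Measure.real, Real.volume_Ioo, sub_zero, ENNReal.toReal_ofReal hx]

theorem ind_integrable (x p q : ℝ) :
    IntervalIntegrable (fun a : ℝ => if a < x then (1 : ℝ) else 0) volume p q := by
  have e : (fun a : ℝ => if a < x then (1 : ℝ) else 0) = (Set.Iio x).indicator 1 := by
    funext a
    simp [Set.indicator_apply]
  rw [e, intervalIntegrable_iff]
  exact (integrableOn_const (by simp)).indicator measurableSet_Iio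

theorem layer (g : W → ℝ) (hg : ∀ u, 0 ≤ g u) (R : ℝ) (hR : ∀ u, g u ≤ R) (c : W → ℝ) :
    ∑ u, c u * g u = ∫ a in (0 : ℝ)..R, ∑ u, c u * (if a < g u then 1 else 0) := by
  rw [intervalIntegral.integral_finsetSum fun u _ => (ind_integrable (g u) 0 R).const_mul (c u)]
  refine sum_congr rfl fun u _ => ?_
  rw [intervalIntegral.integral_const_mul, ind_integral (g u) R (hg u) (hR u)]

theorem Lv_nonneg (μ g : W → ℝ) (hμ : ∀ u, 0 ≤ μ u) (a : ℝ) : 0 ≤ Lv μ g a :=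
  sum_nonneg fun u _ => mul_nonneg (hμ u) (by split_ifs <;> norm_num)

theorem Lv_anti (μ g : W → ℝ) (hμ : ∀ u, 0 ≤ μ u) (a b : ℝ) (h : a ≤ b) :
    Lv μ g b ≤ Lv μ g a := by
  refine sum_le_sum fun u _ => mul_le_mul_of_nonneg_left ?_ (hμ u)
  split_ifs with h1 h2
  · exact le_rfl
  · exact absurd (h.trans_lt h1) h2
  · norm_num
  · exact le_rfl

theorem Lv_integrable (μ g : W → ℝ) (hμ : ∀ u, 0 ≤ μ u) (θ : ℝ) (hθ : 0 ≤ θ) (p q : ℝ) :
    IntervalIntegrable (fun a => Lv μ g a ^ θ) volume p q := by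
  have h : Antitone fun a => Lv μ g a ^ θ := fun a b hab =>
    Real.rpow_le_rpow (Lv_nonneg μ g hμ b) (Lv_anti μ g hμ a b hab) hθ
  exact h.intervalIntegrable

theorem Lv_le1 (μ g : W → ℝ) (hμ : ∀ u, 0 ≤ μ u) (hg : ∀ u, 0 ≤ g u) (a : ℝ) (ha : 0 < a) :
    Lv μ g a ≤ (∑ u, μ u * g u) / a := by
  rw [le_div_iff₀ ha, Lv, sum_mul]
  refine sum_le_sum fun u _ => ?_
  rw [mul_assoc]
  refine mul_le_mul_of_nonneg_left ?_ (hμ u)
  split_ifs with h
  · linarith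
  · rw [zero_mul]; exact hg u

theorem Lv_le2 (μ g : W → ℝ) (hμ : ∀ u, 0 ≤ μ u) (a : ℝ) (ha : 0 < a) :
    Lv μ g a ≤ (∑ u, μ u * g u ^ 2) / a ^ 2 := by
  rw [le_div_iff₀ (by positivity), Lv, sum_mul]
  refine sum_le_sum fun u _ => ?_
  rw [mul_assoc]
  refine mul_le_mul_of_nonneg_left ?_ (hμ u)
  split_ifs with h
  · rw [one_mul]
    exact pow_le_pow_left₀ ha.le h.le 2
  · rw [zero_mul]; positivity

/-- the Lorentz norm is bounded by the norms of `L ^ 1` and `L ^ 2` -/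
theorem J_le (μ g : W → ℝ) (hμ : ∀ u, 0 ≤ μ u) (hg : ∀ u, 0 ≤ g u) (θ : ℝ) (hθ : 1 / 2 < θ)
    (hθ1 : θ < 1) (h1 : 0 < ∑ u, μ u * g u) (h2 : 0 < ∑ u, μ u * g u ^ 2) (R : ℝ)
    (hR : (∑ u, μ u * g u ^ 2) / (∑ u, μ u * g u) ≤ R) :
    ∫ a in (0 : ℝ)..R, Lv μ g a ^ θ ≤ (1 / (1 - θ) + 1 / (2 * θ - 1)) *
      ((∑ u, μ u * g u) ^ (2 * θ - 1) * (∑ u, μ u * g u ^ 2) ^ (1 - θ)) := by
  set G1 := ∑ u, μ u * g u with hG1
  set G2 := ∑ u, μ u * g u ^ 2 with hG2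
  set a0 := G2 / G1 with ha0
  have ha0p : 0 < a0 := div_pos h2 h1
  have hθ0 : 0 ≤ θ := by linarith
  rw [← intervalIntegral.integral_add_adjacent_intervals (b := a0)
    (Lv_integrable μ g hμ θ hθ0 0 a0) (Lv_integrable μ g hμ θ hθ0 a0 R)]
  have i1 : ∫ a in (0 : ℝ)..a0, Lv μ g a ^ θ ≤ G1 ^ θ * (a0 ^ (1 - θ) / (1 - θ)) := by
    have e : ∫ a in (0 : ℝ)..a0, G1 ^ θ * a ^ (-θ) = G1 ^ θ * (a0 ^ (1 - θ) / (1 - θ)) := by
      rw [intervalIntegral.integral_const_mul, integral_rpow (Or.inl (by linarith))]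
      congr 2
      · rw [Real.zero_rpow (by linarith), sub_zero]
        congr 1
        ring
      · ring
    rw [← e]
    refine intervalIntegral.integral_mono_on_of_le_Ioo ha0p.le (Lv_integrable μ g hμ θ hθ0 0 a0)
      ((intervalIntegral.intervalIntegrable_rpow' (by linarith)).const_mul _) fun a ha => ?_
    rw [Real.rpow_neg ha.1.le, ← div_eq_mul_inv, ← Real.div_rpow h1.le ha.1.le]
    exact Real.rpow_le_rpow (Lv_nonneg μ g hμ a) (Lv_le1 μ g hμ hg a ha.1) hθ0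
  have i2 : ∫ a in a0..R, Lv μ g a ^ θ ≤ G2 ^ θ * (a0 ^ (1 - 2 * θ) / (2 * θ - 1)) := by
    have hnot : (0 : ℝ) ∉ Set.uIcc a0 R := by
      rw [Set.uIcc_of_le hR]
      rintro ⟨h3, h4⟩
      linarith
    have e : ∫ a in a0..R, G2 ^ θ * a ^ (-(2 * θ)) =
        G2 ^ θ * ((a0 ^ (1 - 2 * θ) - R ^ (1 - 2 * θ)) / (2 * θ - 1)) := by
      rw [intervalIntegral.integral_const_mul, integral_rpow (Or.inr ⟨by linarith, hnot⟩)]
      congr 1
      have e1 : -(2 * θ) + 1 = 1 - 2 * θ := by ring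
      rw [e1, ← neg_sub, ← neg_sub (2 * θ) 1, neg_div_neg_eq]
    have hRp : 0 < R := lt_of_lt_of_le ha0p hR
    have h5 : ∫ a in a0..R, Lv μ g a ^ θ ≤ ∫ a in a0..R, G2 ^ θ * a ^ (-(2 * θ)) := by
      refine intervalIntegral.integral_mono_on_of_le_Ioo hR (Lv_integrable μ g hμ θ hθ0 a0 R)
        ((intervalIntegral.intervalIntegrable_rpow (Or.inr hnot)).const_mul _) fun a ha => ?_
      have hap : 0 < a := lt_trans ha0p ha.1
      have e2 : G2 ^ θ * a ^ (-(2 * θ)) = (G2 / a ^ 2) ^ θ := by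
        rw [Real.div_rpow h2.le (by positivity), ← Real.rpow_natCast a 2, ← Real.rpow_mul hap.le,
          Real.rpow_neg hap.le]
        push_cast
        rfl
      rw [e2]
      exact Real.rpow_le_rpow (Lv_nonneg μ g hμ a) (Lv_le2 μ g hμ a hap) hθ0
    rw [e] at h5
    refine h5.trans ?_
    refine mul_le_mul_of_nonneg_left ?_ (Real.rpow_nonneg h2.le _)
    refine div_le_div_of_nonneg_right ?_ (by linarith)
    have : 0 ≤ R ^ (1 - 2 * θ) := Real.rpow_nonneg hRp.le _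
    linarith
  have e1 : G1 ^ θ * a0 ^ (1 - θ) = G1 ^ (2 * θ - 1) * G2 ^ (1 - θ) := by
    rw [ha0, Real.div_rpow h2.le h1.le]
    have e3 : G1 ^ θ = G1 ^ (2 * θ - 1) * G1 ^ (1 - θ) := by
      rw [← Real.rpow_add h1]
      congr 1
      ring
    rw [e3]
    have : G1 ^ (1 - θ) ≠ 0 := (Real.rpow_pos_of_pos h1 _).ne'
    field_simp
  have e2 : G2 ^ θ * a0 ^ (1 - 2 * θ) = G1 ^ (2 * θ - 1) * G2 ^ (1 - θ) := by
    rw [ha0, Real.div_rpow h2.le h1.le]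
    have e3 : G2 ^ (1 - θ) = G2 ^ θ * G2 ^ (1 - 2 * θ) := by
      rw [← Real.rpow_add h2]
      congr 1
      ring
    have e4 : G1 ^ (2 * θ - 1) = (G1 ^ (1 - 2 * θ))⁻¹ := by
      rw [← Real.rpow_neg h1.le]
      congr 1
      ring
    rw [e3, e4]
    ring
  have hfin : (1 / (1 - θ) + 1 / (2 * θ - 1)) * (G1 ^ (2 * θ - 1) * G2 ^ (1 - θ)) =
      G1 ^ θ * (a0 ^ (1 - θ) / (1 - θ)) + G2 ^ θ * (a0 ^ (1 - 2 * θ) / (2 * θ - 1)) := by
    rw [← mul_div_assoc, ← mul_div_assoc, e1, e2]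
    ring
  rw [hfin]
  exact add_le_add i1 i2

/-- a bilinear form is bounded by the square of the Lorentz norm -/
theorem bil_J (w : W → W → ℝ) (μ g : W → ℝ) (hμ : ∀ u, 0 ≤ μ u) (hg : ∀ u, 0 ≤ g u) (R : ℝ)
    (hR : ∀ u, g u ≤ R) (hR0 : 0 ≤ R) (C θ : ℝ) (hθ : 0 ≤ θ)
    (hE : ∀ a b, ∑ u, ∑ v, w u v * ((if a < g u then 1 else 0) * (if b < g v then 1 else 0)) ≤
      C * (Lv μ g a ^ θ * Lv μ g b ^ θ)) :
    ∑ u, ∑ v, w u v * (g u * g v) ≤ C * (∫ a in (0 : ℝ)..R, Lv μ g a ^ θ) ^ 2 := by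
  set J := ∫ a in (0 : ℝ)..R, Lv μ g a ^ θ with hJ
  have hint : ∀ c : W → ℝ, IntervalIntegrable
      (fun a : ℝ => ∑ u, c u * (if a < g u then (1 : ℝ) else 0)) volume 0 R := by
    intro c
    have h1 : (fun a : ℝ => ∑ u, c u * (if a < g u then (1 : ℝ) else 0)) =
        ∑ u, fun a : ℝ => c u * (if a < g u then (1 : ℝ) else 0) := by
      funext a
      rw [Finset.sum_apply]
    rw [h1]
    exact IntervalIntegrable.sum _ fun u _ => (ind_integrable (g u) 0 R).const_mul (c u)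
  have inner : ∀ a, ∑ u, ∑ v, w u v * ((if a < g u then 1 else 0) * g v) ≤
      C * Lv μ g a ^ θ * J := by
    intro a
    have e1 : ∑ u, ∑ v, w u v * ((if a < g u then 1 else 0) * g v) =
        ∑ v, (∑ u, w u v * (if a < g u then 1 else 0)) * g v := by
      rw [sum_comm]
      refine sum_congr rfl fun v _ => ?_
      rw [sum_mul]
      exact sum_congr rfl fun u _ => by ring
    rw [e1, layer g hg R hR, hJ, ← intervalIntegral.integral_const_mul]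
    refine intervalIntegral.integral_mono_on_of_le_Ioo hR0 (hint _)
      ((Lv_integrable μ g hμ θ hθ 0 R).const_mul _) fun b _ => ?_
    refine le_trans (le_of_eq ?_) ((hE a b).trans (le_of_eq (by ring)))
    rw [sum_comm]
    refine sum_congr rfl fun v _ => ?_
    rw [sum_mul]
    exact sum_congr rfl fun u _ => by ring
  have e2 : ∑ u, ∑ v, w u v * (g u * g v) = ∑ u, (∑ v, w u v * g v) * g u := by
    refine sum_congr rfl fun u _ => ?_
    rw [sum_mul]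
    exact sum_congr rfl fun v _ => by ring
  rw [e2, layer g hg R hR]
  have e3 : C * J ^ 2 = ∫ a in (0 : ℝ)..R, C * J * Lv μ g a ^ θ := by
    rw [intervalIntegral.integral_const_mul, ← hJ]
    ring
  rw [e3]
  refine intervalIntegral.integral_mono_on_of_le_Ioo hR0 (hint _)
    ((Lv_integrable μ g hμ θ hθ 0 R).const_mul _) fun a _ => ?_
  refine le_trans (le_of_eq ?_) ((inner a).trans (le_of_eq (by ring)))
  refine sum_congr rfl fun u _ => ?_
  rw [sum_mul]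
  exact sum_congr rfl fun v _ => by ring

theorem min_geo (E p q : ℝ) (hE : 0 ≤ E) (hp : E ≤ p) (hq : E ≤ q) :
    E ≤ p ^ (1 / 4 : ℝ) * q ^ (3 / 4 : ℝ) := by
  have h1 : E ^ (1 / 4 : ℝ) * E ^ (3 / 4 : ℝ) = E := by
    rw [← Real.rpow_add_of_nonneg hE (by norm_num) (by norm_num)]
    norm_num
  calc E = E ^ (1 / 4 : ℝ) * E ^ (3 / 4 : ℝ) := h1.symm
    _ ≤ p ^ (1 / 4 : ℝ) * q ^ (3 / 4 : ℝ) :=
      mul_le_mul (Real.rpow_le_rpow hE hp (by norm_num)) (Real.rpow_le_rpow hE hq (by norm_num))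
        (Real.rpow_nonneg hE _) (Real.rpow_nonneg (hE.trans hp) _)

/-- the weight between two level sets, nested case -/
theorem two_sets (w : W → W → ℝ) (hw : ∀ u v, 0 ≤ w u v) (hs : ∀ u v, w u v = w v u)
    (vol A κ : ℝ) (hvol : 0 < vol) (hA : 1 ≤ A) (hκ : 0 < κ) (hκ1 : κ ≤ 1)
    (hSE : ∀ S : Finset W, ∑ u ∈ S, ∑ v ∈ S, w u v ≤
      A * ((∑ u ∈ S, ∑ z, w u z) / vol) ^ κ * ∑ u ∈ S, ∑ z, w u z)
    (S S' : Finset W) (h : S' ⊆ S) :
    ∑ u ∈ S, ∑ v ∈ S', w u v ≤ A ^ (1 / 4 : ℝ) * vol *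
      (((∑ u ∈ S, ∑ z, w u z) / vol) ^ (1 / 2 + κ / 8) *
        ((∑ u ∈ S', ∑ z, w u z) / vol) ^ (1 / 2 + κ / 8)) := by
  set X := (∑ u ∈ S, ∑ z, w u z) / vol with hX
  set Y := (∑ u ∈ S', ∑ z, w u z) / vol with hY
  have hm : ∀ u, 0 ≤ ∑ z, w u z := fun u => sum_nonneg fun z _ => hw u z
  have hX0 : 0 ≤ X := div_nonneg (sum_nonneg fun u _ => hm u) hvol.le
  have hY0 : 0 ≤ Y := div_nonneg (sum_nonneg fun u _ => hm u) hvol.le
  have hYX : Y ≤ X := div_le_div_of_nonneg_right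
    (sum_le_sum_of_subset_of_nonneg h fun u _ _ => hm u) hvol.le
  have hXv : ∑ u ∈ S, ∑ z, w u z = X * vol := by rw [hX]; field_simp
  have hYv : ∑ u ∈ S', ∑ z, w u z = Y * vol := by rw [hY]; field_simp
  have hE0 : 0 ≤ ∑ u ∈ S, ∑ v ∈ S', w u v :=
    sum_nonneg fun u _ => sum_nonneg fun v _ => hw u v
  have h1 : ∑ u ∈ S, ∑ v ∈ S', w u v ≤ A * X ^ κ * (X * vol) := by
    refine le_trans (sum_le_sum fun u _ => sum_le_sum_of_subset_of_nonneg h
      fun v _ _ => hw u v) ?_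
    have := hSE S
    rw [hXv] at this
    refine this.trans (le_of_eq ?_)
    rw [mul_div_assoc, div_self hvol.ne', mul_one]
  have h2 : ∑ u ∈ S, ∑ v ∈ S', w u v ≤ Y * vol := by
    rw [← hYv, sum_comm]
    refine sum_le_sum fun v _ => ?_
    have : ∑ u ∈ S, w u v = ∑ u ∈ S, w v u := sum_congr rfl fun u _ => hs u v
    rw [this]
    exact sum_le_sum_of_subset_of_nonneg (subset_univ _) fun z _ _ => hw v z
  refine (min_geo _ _ _ hE0 h1 h2).trans ?_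
  have hA0 : 0 ≤ A := by linarith
  have e1 : (A * X ^ κ * (X * vol)) ^ (1 / 4 : ℝ) =
      A ^ (1 / 4 : ℝ) * X ^ ((1 + κ) / 4) * vol ^ (1 / 4 : ℝ) := by
    have e0 : A * X ^ κ * (X * vol) = A * X ^ (1 + κ) * vol := by
      rw [Real.rpow_add_of_nonneg hX0 (by norm_num) hκ.le, Real.rpow_one]
      ring
    rw [e0, Real.mul_rpow (mul_nonneg hA0 (Real.rpow_nonneg hX0 _)) hvol.le,
      Real.mul_rpow hA0 (Real.rpow_nonneg hX0 _), ← Real.rpow_mul hX0]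
    congr 3
    ring
  have e2 : (Y * vol) ^ (3 / 4 : ℝ) = Y ^ (3 / 4 : ℝ) * vol ^ (3 / 4 : ℝ) :=
    Real.mul_rpow hY0 hvol.le
  have e3 : vol ^ (1 / 4 : ℝ) * vol ^ (3 / 4 : ℝ) = vol := by
    rw [← Real.rpow_add hvol]
    norm_num
  have e4 : Y ^ (3 / 4 : ℝ) ≤ X ^ (1 / 4 - κ / 8) * Y ^ (1 / 2 + κ / 8) := by
    have h3 : Y ^ (3 / 4 : ℝ) = Y ^ (1 / 4 - κ / 8) * Y ^ (1 / 2 + κ / 8) := by
      rw [← Real.rpow_add_of_nonneg hY0 (by linarith) (by linarith)]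
      congr 1
      ring
    rw [h3]
    exact mul_le_mul_of_nonneg_right (Real.rpow_le_rpow hY0 hYX (by linarith))
      (Real.rpow_nonneg hY0 _)
  have e5 : X ^ ((1 + κ) / 4) * X ^ (1 / 4 - κ / 8) = X ^ (1 / 2 + κ / 8) := by
    rw [← Real.rpow_add_of_nonneg hX0 (by linarith) (by linarith)]
    congr 1
    ring
  rw [e1, e2]
  calc A ^ (1 / 4 : ℝ) * X ^ ((1 + κ) / 4) * vol ^ (1 / 4 : ℝ) *
        (Y ^ (3 / 4 : ℝ) * vol ^ (3 / 4 : ℝ))
      = A ^ (1 / 4 : ℝ) * (vol ^ (1 / 4 : ℝ) * vol ^ (3 / 4 : ℝ)) *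
        (X ^ ((1 + κ) / 4) * Y ^ (3 / 4 : ℝ)) := by ring
    _ ≤ A ^ (1 / 4 : ℝ) * (vol ^ (1 / 4 : ℝ) * vol ^ (3 / 4 : ℝ)) *
        (X ^ ((1 + κ) / 4) * (X ^ (1 / 4 - κ / 8) * Y ^ (1 / 2 + κ / 8))) := by
          refine mul_le_mul_of_nonneg_left ?_ (by positivity)
          exact mul_le_mul_of_nonneg_left e4 (Real.rpow_nonneg hX0 _)
    _ = A ^ (1 / 4 : ℝ) * vol * (X ^ (1 / 2 + κ / 8) * Y ^ (1 / 2 + κ / 8)) := by
          rw [e3, ← e5]
          ring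

theorem filt2 (w : W → W → ℝ) (P Q : W → Prop) [DecidablePred P] [DecidablePred Q] :
    ∑ u, ∑ v, w u v * ((if P u then 1 else 0) * (if Q v then 1 else 0)) =
      ∑ u ∈ univ.filter P, ∑ v ∈ univ.filter Q, w u v := by
  rw [sum_filter]
  refine sum_congr rfl fun u _ => ?_
  by_cases hu : P u
  · rw [if_pos hu, if_pos hu, sum_filter]
    refine sum_congr rfl fun v _ => ?_
    split_ifs <;> ring
  · rw [if_neg hu, if_neg hu]
    exact sum_eq_zero fun v _ => by ring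

theorem Lv_filter (m g : W → ℝ) (vol a : ℝ) :
    Lv (fun u => m u / vol) g a = (∑ u ∈ univ.filter (fun u => a < g u), m u) / vol := by
  unfold Lv
  rw [sum_filter, sum_div]
  refine sum_congr rfl fun u _ => ?_
  split_ifs <;> ring

/-- the hypothesis of `bil_J` -/
theorem level_bound (w : W → W → ℝ) (hw : ∀ u v, 0 ≤ w u v) (hs : ∀ u v, w u v = w v u)
    (vol A κ : ℝ) (hvol : 0 < vol) (hA : 1 ≤ A) (hκ : 0 < κ) (hκ1 : κ ≤ 1)
    (hSE : ∀ S : Finset W, ∑ u ∈ S, ∑ v ∈ S, w u v ≤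
      A * ((∑ u ∈ S, ∑ z, w u z) / vol) ^ κ * ∑ u ∈ S, ∑ z, w u z) (g : W → ℝ) (a b : ℝ) :
    ∑ u, ∑ v, w u v * ((if a < g u then 1 else 0) * (if b < g v then 1 else 0)) ≤
      A ^ (1 / 4 : ℝ) * vol * (Lv (fun u => (∑ z, w u z) / vol) g a ^ (1 / 2 + κ / 8) *
        Lv (fun u => (∑ z, w u z) / vol) g b ^ (1 / 2 + κ / 8)) := by
  rw [filt2 w (fun u => a < g u) (fun v => b < g v), Lv_filter, Lv_filter]
  rcases le_total a b with h | h
  · refine two_sets w hw hs vol A κ hvol hA hκ hκ1 hSE _ _ ?_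
    intro u hu
    simp only [mem_filter, mem_univ, true_and] at hu ⊢
    exact h.trans_lt hu
  · rw [sum_comm, mul_comm ((_ : ℝ) ^ (1 / 2 + κ / 8))]
    have e : ∑ y ∈ univ.filter (fun u => b < g u), ∑ x ∈ univ.filter (fun u => a < g u), w x y =
        ∑ y ∈ univ.filter (fun u => b < g u), ∑ x ∈ univ.filter (fun u => a < g u), w y x :=
      sum_congr rfl fun y _ => sum_congr rfl fun x _ => hs x y
    rw [e]
    refine two_sets w hw hs vol A κ hvol hA hκ hκ1 hSE _ _ ?_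
    intro u hu
    simp only [mem_filter, mem_univ, true_and] at hu ⊢
    exact h.trans_lt hu

/-- Nash inequality from small-set expansion at all scales -/
theorem nash (w : W → W → ℝ) (hw : ∀ u v, 0 ≤ w u v) (hs : ∀ u v, w u v = w v u)
    (vol A κ : ℝ) (hvol : 0 < vol) (hA : 1 ≤ A) (hκ : 0 < κ) (hκ1 : κ ≤ 1)
    (hSE : ∀ S : Finset W, ∑ u ∈ S, ∑ v ∈ S, w u v ≤
      A * ((∑ u ∈ S, ∑ z, w u z) / vol) ^ κ * ∑ u ∈ S, ∑ z, w u z) (g : W → ℝ)
    (hg : ∀ u, 0 ≤ g u) (h2 : 0 < ∑ u, (∑ z, w u z) / vol * g u ^ 2) :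
    ∑ u, ∑ v, w u v * (g u * g v) ≤ A ^ (1 / 4 : ℝ) * vol * (49 / κ ^ 2) *
      ((∑ u, (∑ z, w u z) / vol * g u) ^ (κ / 2) *
        (∑ u, (∑ z, w u z) / vol * g u ^ 2) ^ (1 - κ / 4)) := by
  set μ : W → ℝ := fun u => (∑ z, w u z) / vol with hμd
  have hμ : ∀ u, 0 ≤ μ u := fun u => div_nonneg (sum_nonneg fun z _ => hw u z) hvol.le
  have h1 : 0 < ∑ u, μ u * g u := by
    by_contra hcon
    push Not at hcon
    have h0 : ∑ u, μ u * g u = 0 := le_antisymm hcon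
      (sum_nonneg fun u _ => mul_nonneg (hμ u) (hg u))
    have h3 := (sum_eq_zero_iff_of_nonneg fun u _ => mul_nonneg (hμ u) (hg u)).1 h0
    have h4 : ∑ u, μ u * g u ^ 2 = 0 := by
      refine sum_eq_zero fun u hu => ?_
      have := h3 u hu
      calc μ u * g u ^ 2 = μ u * g u * g u := by ring
        _ = 0 := by rw [this, zero_mul]
    have h5 : 0 < ∑ u, μ u * g u ^ 2 := h2
    rw [h4] at h5
    exact lt_irrefl _ h5
  obtain ⟨R, hR⟩ : ∃ R, R = (∑ u, g u) + (∑ u, μ u * g u ^ 2) / (∑ u, μ u * g u) := ⟨_, rfl⟩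
  have hq : 0 < (∑ u, μ u * g u ^ 2) / (∑ u, μ u * g u) := div_pos h2 h1
  have hsg : 0 ≤ ∑ u, g u := sum_nonneg fun u _ => hg u
  have hRg : ∀ u, g u ≤ R := fun u => by
    have := single_le_sum (f := g) (fun u _ => hg u) (mem_univ u)
    rw [hR]; linarith
  have hb := bil_J w μ g hμ hg R hRg (by rw [hR]; linarith) (A ^ (1 / 4 : ℝ) * vol) (1 / 2 + κ / 8)
    (by linarith) (level_bound w hw hs vol A κ hvol hA hκ hκ1 hSE g)
  have hJ := J_le μ g hμ hg (1 / 2 + κ / 8) (by linarith) (by linarith) h1 h2 R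
    (by rw [hR]; linarith)
  have hJ0 : 0 ≤ ∫ a in (0 : ℝ)..R, Lv μ g a ^ (1 / 2 + κ / 8) :=
    intervalIntegral.integral_nonneg (by rw [hR]; linarith)
      fun a _ => Real.rpow_nonneg (Lv_nonneg μ g hμ a) _
  refine hb.trans ?_
  have hc : 1 / (1 - (1 / 2 + κ / 8)) + 1 / (2 * (1 / 2 + κ / 8) - 1) ≤ 7 / κ := by
    have a1 : 1 / (1 - (1 / 2 + κ / 8)) ≤ 3 := by
      rw [div_le_iff₀ (by linarith)]
      linarith
    have a2 : 1 / (2 * (1 / 2 + κ / 8) - 1) = 4 / κ := by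
      rw [show 2 * (1 / 2 + κ / 8) - 1 = κ / 4 by ring]
      field_simp
    have a3 : (3 : ℝ) ≤ 3 / κ := by
      rw [le_div_iff₀ hκ]
      linarith
    rw [a2]
    calc 1 / (1 - (1 / 2 + κ / 8)) + 4 / κ ≤ 3 / κ + 4 / κ := by linarith
      _ = 7 / κ := by ring
  have hX0 : 0 ≤ (∑ u, μ u * g u) ^ (2 * (1 / 2 + κ / 8) - 1) *
      (∑ u, μ u * g u ^ 2) ^ (1 - (1 / 2 + κ / 8)) :=
    mul_nonneg (Real.rpow_nonneg h1.le _) (Real.rpow_nonneg h2.le _)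
  have hJ2 := hJ.trans (mul_le_mul_of_nonneg_right hc hX0)
  have hsq := pow_le_pow_left₀ hJ0 hJ2 2
  have hA0 : 0 ≤ A ^ (1 / 4 : ℝ) * vol := mul_nonneg (Real.rpow_nonneg (by linarith) _) hvol.le
  refine (mul_le_mul_of_nonneg_left hsq hA0).trans (le_of_eq ?_)
  have e1 : ((∑ u, μ u * g u) ^ (2 * (1 / 2 + κ / 8) - 1)) ^ 2 =
      (∑ u, μ u * g u) ^ (κ / 2) := by
    rw [← Real.rpow_natCast, ← Real.rpow_mul h1.le]
    congr 1
    push_cast
    ring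
  have e2 : ((∑ u, μ u * g u ^ 2) ^ (1 - (1 / 2 + κ / 8))) ^ 2 =
      (∑ u, μ u * g u ^ 2) ^ (1 - κ / 4) := by
    rw [← Real.rpow_natCast, ← Real.rpow_mul h2.le]
    congr 1
    push_cast
    ring
  rw [mul_pow, mul_pow, e1, e2, div_pow]
  ring

end

end Pool.Agent.Helper72.SA
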