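import Pool.Agent.Helper72.SA.Nash

/-!
Return probabilities of graphs with small-set expansion at all scales: the recursion.
-/

set_option autoImplicit false

namespace Pool.Agent.Helper72.SA

open Finset

section
variable {W : Type} [Fintype W] [DecidableEq W]

theorem Hd_next (w : W → W → ℝ) (hw : ∀ u v, 0 ≤ w u v) (t : ℕ) (u v : W) :
    ∑ z, w u z * Hd w t z v = (∑ z, w u z) * Hd w (t + 1) u v := by
  by_cases hu : ∑ z, w u z = 0
  · rw [hu, zero_mul]
    exact sum_eq_zero fun z _ => by rw [w_zero hw u hu z, zero_mul]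
  · unfold Hd
    show _ = (∑ z, w u z) * ((∑ z, w u z * wk w t z v) / (∑ z, w u z) / (∑ z, w v z))
    rw [div_div, mul_comm (∑ z, w u z) (∑ z, w v z), ← div_div, mul_div_cancel₀ _ hu, sum_div]
    exact sum_congr rfl fun z _ => by ring

theorem Hd_sub' (w : W → W → ℝ) (hw : ∀ u v, 0 ≤ w u v) (hs : ∀ u v, w u v = w v u) (s : ℕ)
    (v : W) : ∑ u, (∑ z, w u z) * Hd w s u v ≤ 1 := by
  refine le_trans (le_of_eq ?_) (Hd_sub hw s v)
  exact sum_congr rfl fun u _ => by rw [Hd_symm hw hs]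

/-- one step of the decay of the return probabilities -/
theorem F_step (w : W → W → ℝ) (hw : ∀ u v, 0 ≤ w u v) (hs : ∀ u v, w u v = w v u)
    (vol A κ : ℝ) (hvol : 0 < vol) (hA : 1 ≤ A) (hκ : 0 < κ) (hκ1 : κ ≤ 1)
    (hSE : ∀ S : Finset W, ∑ u ∈ S, ∑ v ∈ S, w u v ≤
      A * ((∑ u ∈ S, ∑ z, w u z) / vol) ^ κ * ∑ u ∈ S, ∑ z, w u z) (t : ℕ) (v : W) :
    vol * ∑ u, (∑ z, w u z) * Hd w (t + 1) u v ^ 2 ≤ 98 * A ^ (1 / 4 : ℝ) / κ ^ 2 *
      (vol * ∑ u, (∑ z, w u z) * Hd w t u v ^ 2) ^ (1 - κ / 4) := by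
  set m : W → ℝ := fun u => ∑ z, w u z with hm
  have hm0 : ∀ u, 0 ≤ m u := fun u => sum_nonneg fun z _ => hw u z
  set F0 := ∑ u, m u * Hd w t u v ^ 2 with hF0
  set F1 := ∑ u, m u * Hd w (t + 1) u v ^ 2 with hF1
  have hA4 : 0 < A ^ (1 / 4 : ℝ) := Real.rpow_pos_of_pos (by linarith) _
  have hF0n : 0 ≤ F0 := sum_nonneg fun u _ => mul_nonneg (hm0 u) (sq_nonneg _)
  have hF1n : 0 ≤ F1 := sum_nonneg fun u _ => mul_nonneg (hm0 u) (sq_nonneg _)
  have h10 : F1 ≤ F0 := Hd_sq_anti hw hs t v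
  rcases hF1n.eq_or_lt with h0 | h0
  · rw [← h0, mul_zero]
    have : 0 ≤ (vol * F0) ^ (1 - κ / 4) := Real.rpow_nonneg (by positivity) _
    positivity
  set g : W → ℝ := fun u => Hd w t u v + Hd w (t + 1) u v with hg
  have hg0 : ∀ u, 0 ≤ g u := fun u => add_nonneg (Hd_nonneg hw _ _ _) (Hd_nonneg hw _ _ _)
  have hG1 : ∑ u, m u / vol * g u ≤ 2 / vol := by
    have e : ∑ u, m u / vol * g u = (∑ u, m u * Hd w t u v + ∑ u, m u * Hd w (t + 1) u v) / vol := by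
      rw [← sum_add_distrib, sum_div]
      exact sum_congr rfl fun u _ => by simp only [hg]; ring
    rw [e]
    refine div_le_div_of_nonneg_right ?_ hvol.le
    have a1 := Hd_sub' w hw hs t v
    have a2 := Hd_sub' w hw hs (t + 1) v
    simp only [hm]
    linarith
  have hG2 : ∑ u, m u / vol * g u ^ 2 ≤ 4 * F0 / vol := by
    have e : ∑ u, m u / vol * g u ^ 2 ≤ (2 * F0 + 2 * F1) / vol := by
      rw [hF0, hF1, mul_sum, mul_sum, ← sum_add_distrib, sum_div]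
      refine sum_le_sum fun u _ => ?_
      rw [div_mul_eq_mul_div]
      refine div_le_div_of_nonneg_right ?_ hvol.le
      simp only [hg]
      have := mul_nonneg (hm0 u) (sq_nonneg (Hd w t u v - Hd w (t + 1) u v))
      nlinarith
    refine e.trans (div_le_div_of_nonneg_right (by linarith) hvol.le)
  have hG2p : 0 < ∑ u, m u / vol * g u ^ 2 := by
    have e : F1 / vol ≤ ∑ u, m u / vol * g u ^ 2 := by
      rw [hF1, sum_div]
      refine sum_le_sum fun u _ => ?_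
      rw [mul_div_right_comm]
      refine mul_le_mul_of_nonneg_left ?_ (div_nonneg (hm0 u) hvol.le)
      refine pow_le_pow_left₀ (Hd_nonneg hw _ _ _) ?_ 2
      simp only [hg]
      linarith [Hd_nonneg hw t u v]
    exact lt_of_lt_of_le (by positivity) e
  have hn := nash w hw hs vol A κ hvol hA hκ hκ1 hSE g hg0 hG2p
  have hlow : 2 * F1 ≤ ∑ u, ∑ z, w u z * (g u * g z) := by
    have e1 : ∑ u, ∑ z, w u z * (Hd w (t + 1) u v * Hd w t z v) = F1 := by
      rw [hF1]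
      refine sum_congr rfl fun u _ => ?_
      have : ∑ z, w u z * (Hd w (t + 1) u v * Hd w t z v) =
          Hd w (t + 1) u v * ∑ z, w u z * Hd w t z v := by
        rw [mul_sum]
        exact sum_congr rfl fun z _ => by ring
      rw [this, Hd_next w hw]
      simp only [hm]
      ring
    have e2 : ∑ u, ∑ z, w u z * (Hd w t u v * Hd w (t + 1) z v) = F1 := by
      rw [← e1, sum_comm]
      refine sum_congr rfl fun u _ => sum_congr rfl fun z _ => ?_
      rw [hs z u]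
      ring
    have e3 : 2 * F1 = ∑ u, ∑ z, w u z * (Hd w (t + 1) u v * Hd w t z v) +
        ∑ u, ∑ z, w u z * (Hd w t u v * Hd w (t + 1) z v) := by rw [e1, e2]; ring
    rw [e3, ← sum_add_distrib]
    refine sum_le_sum fun u _ => ?_
    rw [← sum_add_distrib]
    refine sum_le_sum fun z _ => ?_
    have a1 : 0 ≤ Hd w t u v := Hd_nonneg hw _ _ _
    have a2 : 0 ≤ Hd w t z v := Hd_nonneg hw _ _ _
    have a3 : 0 ≤ Hd w (t + 1) u v := Hd_nonneg hw _ _ _
    have a4 : 0 ≤ Hd w (t + 1) z v := Hd_nonneg hw _ _ _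
    rw [← mul_add]
    refine mul_le_mul_of_nonneg_left ?_ (hw u z)
    simp only [hg]
    nlinarith [mul_nonneg a1 a2, mul_nonneg a3 a4]
  have hy : 0 < vol * F0 := mul_pos hvol (lt_of_lt_of_le h0 h10)
  have hG1n : 0 ≤ ∑ u, m u / vol * g u :=
    sum_nonneg fun u _ => mul_nonneg (div_nonneg (hm0 u) hvol.le) (hg0 u)
  have hprod : (∑ u, m u / vol * g u) ^ (κ / 2) * (∑ u, m u / vol * g u ^ 2) ^ (1 - κ / 4) ≤
      4 / vol ^ 2 * (vol * F0) ^ (1 - κ / 4) := by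
    have h1 : (∑ u, m u / vol * g u) ^ (κ / 2) ≤ (2 / vol) ^ (κ / 2) :=
      Real.rpow_le_rpow hG1n hG1 (by linarith)
    have h2 : (∑ u, m u / vol * g u ^ 2) ^ (1 - κ / 4) ≤ (4 * F0 / vol) ^ (1 - κ / 4) :=
      Real.rpow_le_rpow hG2p.le hG2 (by linarith)
    have h3 : (4 * F0 / vol) ^ (1 - κ / 4) =
        (2 / vol) ^ (2 - κ / 2) * (vol * F0) ^ (1 - κ / 4) := by
      have e : 4 * F0 / vol = (2 / vol) ^ (2 : ℝ) * (vol * F0) := by
        rw [Real.rpow_two]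
        field_simp
        ring
      rw [e, Real.mul_rpow (Real.rpow_nonneg (by positivity) _) hy.le,
        ← Real.rpow_mul (by positivity)]
      congr 2
      ring
    have h4 : (2 / vol) ^ (κ / 2) * (2 / vol) ^ (2 - κ / 2) = 4 / vol ^ 2 := by
      rw [← Real.rpow_add (by positivity)]
      have : κ / 2 + (2 - κ / 2) = (2 : ℝ) := by ring
      rw [this, Real.rpow_two, div_pow]
      norm_num
    calc _ ≤ (2 / vol) ^ (κ / 2) * (4 * F0 / vol) ^ (1 - κ / 4) :=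
          mul_le_mul h1 h2 (Real.rpow_nonneg hG2p.le _) (Real.rpow_nonneg (by positivity) _)
      _ = (2 / vol) ^ (κ / 2) * (2 / vol) ^ (2 - κ / 2) * (vol * F0) ^ (1 - κ / 4) := by
          rw [h3]; ring
      _ = _ := by rw [h4]
  have hfin : 2 * F1 ≤ A ^ (1 / 4 : ℝ) * vol * (49 / κ ^ 2) *
      (4 / vol ^ 2 * (vol * F0) ^ (1 - κ / 4)) :=
    hlow.trans (hn.trans (mul_le_mul_of_nonneg_left hprod (by positivity)))
  calc vol * F1 = vol / 2 * (2 * F1) := by ring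
    _ ≤ vol / 2 * (A ^ (1 / 4 : ℝ) * vol * (49 / κ ^ 2) *
      (4 / vol ^ 2 * (vol * F0) ^ (1 - κ / 4))) := mul_le_mul_of_nonneg_left hfin (by positivity)
    _ = _ := by
      field_simp
      ring

/-- decay of the return probabilities -/
theorem F_iter (w : W → W → ℝ) (hw : ∀ u v, 0 ≤ w u v) (hs : ∀ u v, w u v = w v u)
    (vol A κ : ℝ) (hvol : 0 < vol) (hA : 1 ≤ A) (hκ : 0 < κ) (hκ1 : κ ≤ 1)
    (hSE : ∀ S : Finset W, ∑ u ∈ S, ∑ v ∈ S, w u v ≤
      A * ((∑ u ∈ S, ∑ z, w u z) / vol) ^ κ * ∑ u ∈ S, ∑ z, w u z) (v : W)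
    (hv : 0 < ∑ z, w v z) (hv1 : ∑ z, w v z ≤ vol) (t : ℕ) :
    vol * ∑ u, (∑ z, w u z) * Hd w t u v ^ 2 ≤ (98 * A ^ (1 / 4 : ℝ) / κ ^ 2) ^ (4 / κ) *
      (vol / ∑ z, w v z) ^ ((1 - κ / 4) ^ t : ℝ) := by
  set B := 98 * A ^ (1 / 4 : ℝ) / κ ^ 2 with hB
  have hA4 : 1 ≤ A ^ (1 / 4 : ℝ) := Real.one_le_rpow hA (by norm_num)
  have hB1 : 1 ≤ B := by
    rw [hB, le_div_iff₀ (by positivity)]
    have : κ ^ 2 ≤ 1 := pow_le_one₀ hκ.le hκ1
    linarith
  have hB0 : 0 < B := by linarith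
  have hBp : 1 ≤ B ^ (4 / κ) := Real.one_le_rpow hB1 (by positivity)
  have hr : 0 < vol / ∑ z, w v z := div_pos hvol hv
  induction t with
  | zero =>
    have e : ∑ u, (∑ z, w u z) * Hd w 0 u v ^ 2 = 1 / ∑ z, w v z := by
      rw [sum_eq_single v]
      · have h1 : Hd w 0 v v = 1 / ∑ z, w v z := by unfold Hd wk; rw [if_pos rfl]
        rw [h1]
        field_simp
      · intro u _ hu
        have h1 : Hd w 0 u v = 0 := by unfold Hd wk; rw [if_neg hu, zero_div]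
        rw [h1]
        ring
      · intro h; exact absurd (mem_univ v) h
    rw [e, pow_zero, Real.rpow_one, mul_one_div]
    exact le_mul_of_one_le_left hr.le hBp
  | succ t ih =>
    refine (F_step w hw hs vol A κ hvol hA hκ hκ1 hSE t v).trans ?_
    rw [← hB]
    have hF : 0 ≤ vol * ∑ u, (∑ z, w u z) * Hd w t u v ^ 2 :=
      mul_nonneg hvol.le (sum_nonneg fun u _ => mul_nonneg (sum_nonneg fun z _ => hw u z)
        (sq_nonneg _))
    have h1 := Real.rpow_le_rpow hF ih (by linarith : (0 : ℝ) ≤ 1 - κ / 4)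
    refine (mul_le_mul_of_nonneg_left h1 hB0.le).trans (le_of_eq ?_)
    rw [Real.mul_rpow (Real.rpow_nonneg hB0.le _) (Real.rpow_nonneg hr.le _),
      ← Real.rpow_mul hB0.le, ← Real.rpow_mul hr.le, ← pow_succ]
    have h2 : B * B ^ (4 / κ * (1 - κ / 4)) = B ^ (4 / κ) := by
      have e : B ^ (4 / κ) = B ^ (1 + 4 / κ * (1 - κ / 4)) := by
        congr 1
        field_simp
        ring
      rw [e, Real.rpow_add hB0, Real.rpow_one]
    rw [← mul_assoc, h2]

/-- a sum of powers -/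
theorem pow_sum (μ : W → ℝ) (hμ : ∀ u, 0 ≤ μ u) (h1 : ∑ u, μ u ≤ 1) (δ : ℝ) (hδ : 0 ≤ δ)
    (hδ1 : δ ≤ 1) (hW : 0 < Fintype.card W) :
    ∑ u, μ u ^ (1 - δ) ≤ (Fintype.card W : ℝ) ^ δ := by
  have hn : (0 : ℝ) < Fintype.card W := by exact_mod_cast hW
  have hc := (Real.concaveOn_rpow (p := 1 - δ) (by linarith) (by linarith)).le_map_sum
    (t := (univ : Finset W)) (w := fun _ => 1 / (Fintype.card W : ℝ)) (p := μ)
    (fun _ _ => by positivity) (by
      rw [sum_const, card_univ, nsmul_eq_mul]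
      field_simp) (fun u _ => hμ u)
  simp only [smul_eq_mul] at hc
  rw [← mul_sum, ← mul_sum] at hc
  have hS : 0 ≤ ∑ u, μ u := sum_nonneg fun u _ => hμ u
  have h2 : (1 / (Fintype.card W : ℝ) * ∑ u, μ u) ^ (1 - δ) ≤
      (1 / (Fintype.card W : ℝ)) ^ (1 - δ) :=
    Real.rpow_le_rpow (by positivity) (by
      have := mul_le_mul_of_nonneg_left h1 (by positivity : (0 : ℝ) ≤ 1 / (Fintype.card W : ℝ))
      linarith) (by linarith)
  have h3 := hc.trans h2
  have h4 := mul_le_mul_of_nonneg_left h3 hn.le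
  have e1 : (Fintype.card W : ℝ) * (1 / (Fintype.card W : ℝ) * ∑ u, μ u ^ (1 - δ)) =
      ∑ u, μ u ^ (1 - δ) := by field_simp
  have e2 : (Fintype.card W : ℝ) * (1 / (Fintype.card W : ℝ)) ^ (1 - δ) =
      (Fintype.card W : ℝ) ^ δ := by
    rw [one_div, Real.inv_rpow hn.le, ← Real.rpow_neg hn.le]
    nth_rewrite 1 [← Real.rpow_one (Fintype.card W : ℝ)]
    rw [← Real.rpow_add hn]
    congr 1
    ring
  rw [e1, e2] at h4
  exact h4

/-- the trace of a power of the walk -/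
theorem trace_le (w : W → W → ℝ) (hw : ∀ u v, 0 ≤ w u v) (hs : ∀ u v, w u v = w v u)
    (A κ : ℝ) (hA : 1 ≤ A) (hκ : 0 < κ) (hκ1 : κ ≤ 1)
    (hSE : ∀ S : Finset W, ∑ u ∈ S, ∑ v ∈ S, w u v ≤
      A * ((∑ u ∈ S, ∑ z, w u z) / ∑ u, ∑ z, w u z) ^ κ * ∑ u ∈ S, ∑ z, w u z) (T : ℕ)
    (hT : 1 ≤ T) (hvol : 0 < ∑ u, ∑ z, w u z) :
    ∑ u, wk w (2 * T) u u ≤ (98 * A ^ (1 / 4 : ℝ) / κ ^ 2) ^ (4 / κ) *
      (Fintype.card W : ℝ) ^ ((1 - κ / 4) ^ T : ℝ) := by
  set vol := ∑ u, ∑ z, w u z with hvold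
  set B := 98 * A ^ (1 / 4 : ℝ) / κ ^ 2 with hB
  have hm0 : ∀ u, 0 ≤ ∑ z, w u z := fun u => sum_nonneg fun z _ => hw u z
  have hA4 : 0 < A ^ (1 / 4 : ℝ) := Real.rpow_pos_of_pos (by linarith) _
  have hB0 : 0 ≤ B := by rw [hB]; positivity
  set δ : ℝ := (1 - κ / 4) ^ T with hδ
  have hδ0 : 0 ≤ δ := pow_nonneg (by linarith) _
  have hδ1 : δ ≤ 1 := pow_le_one₀ (by linarith) (by linarith)
  have hW : 0 < Fintype.card W := by
    rcases Nat.eq_zero_or_pos (Fintype.card W) with h | h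
    · rw [Fintype.card_eq_zero_iff] at h
      rw [hvold, Fintype.sum_empty] at hvol
      exact absurd hvol (lt_irrefl _)
    · exact h
  have hone : ∀ v, wk w (2 * T) v v ≤ B ^ (4 / κ) * ((∑ z, w v z) / vol) ^ (1 - δ) := by
    intro v
    have hR0 : 0 ≤ B ^ (4 / κ) * ((∑ z, w v z) / vol) ^ (1 - δ) :=
      mul_nonneg (Real.rpow_nonneg hB0 _) (Real.rpow_nonneg (div_nonneg (hm0 v) hvol.le) _)
    rcases (hm0 v).eq_or_lt with hv | hv
    · obtain ⟨j, hj⟩ : ∃ j, 2 * T = j + 1 := ⟨2 * T - 1, by omega⟩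
      have : wk w (2 * T) v v = 0 := by
        rw [hj]
        show (∑ z, w v z * wk w j z v) / ∑ z, w v z = 0
        rw [← hv, div_zero]
      rw [this]
      exact hR0
    · have hv1 : ∑ z, w v z ≤ vol :=
        single_le_sum (f := fun u => ∑ z, w u z) (fun u _ => hm0 u) (mem_univ v)
      have hF := F_iter w hw hs vol A κ hvol hA hκ hκ1 hSE v hv hv1 T
      rw [← hB, ← hδ] at hF
      have e1 : wk w (2 * T) v v = (∑ z, w v z) * ∑ u, (∑ z, w u z) * Hd w T u v ^ 2 := by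
        rw [two_mul, wk_add, mul_sum]
        refine sum_congr rfl fun u _ => ?_
        have e2 : (∑ z, w v z) * ((∑ z, w u z) * Hd w T u v ^ 2) =
            ((∑ z, w u z) * ((∑ z, w v z) * Hd w T u v)) * Hd w T u v := by ring
        rw [e2, mHd hw hs, wk_symm hw hs]
        unfold Hd
        have := hv.ne'
        field_simp
      rw [e1]
      have e3 : (∑ z, w v z) * ∑ u, (∑ z, w u z) * Hd w T u v ^ 2 =
          (∑ z, w v z) / vol * (vol * ∑ u, (∑ z, w u z) * Hd w T u v ^ 2) := by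
        field_simp
      rw [e3]
      have hμ : 0 < (∑ z, w v z) / vol := div_pos hv hvol
      refine (mul_le_mul_of_nonneg_left hF hμ.le).trans (le_of_eq ?_)
      have e4 : (vol / ∑ z, w v z) ^ δ = ((∑ z, w v z) / vol) ^ (-δ) := by
        rw [Real.rpow_neg hμ.le, ← Real.inv_rpow hμ.le, inv_div]
      rw [e4]
      have e5 : (∑ z, w v z) / vol * ((∑ z, w v z) / vol) ^ (-δ) =
          ((∑ z, w v z) / vol) ^ (1 - δ) := by
        nth_rewrite 1 [← Real.rpow_one ((∑ z, w v z) / vol)]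
        rw [← Real.rpow_add hμ]
        congr 1
      rw [← e5]
      ring
  refine (sum_le_sum fun v _ => hone v).trans ?_
  rw [← mul_sum]
  refine mul_le_mul_of_nonneg_left ?_ (Real.rpow_nonneg hB0 _)
  refine pow_sum (fun v => (∑ z, w v z) / vol) (fun v => div_nonneg (hm0 v) hvol.le) ?_ δ hδ0 hδ1 hW
  rw [← sum_div, ← hvold, div_self hvol.ne']

end

end Pool.Agent.Helper72.SA
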