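import Pool.Agent.Helper72.SA.Round
import Pool.Agent.N625.US.Conv

/-!
Rounding of the Sherali-Adams hierarchy for unique games: trade-off between completeness near one,
small soundness and the number of levels.
-/

set_option autoImplicit false

namespace Pool.Agent.Helper72.SA

open Finset Pool.Agent.H647R3.UG Pool.Agent.H573R3.SL Pool.Agent.TH522.UG Pool.Agent.TH522.US
  Pool.Agent.TH522.DG

section
variable {V A : Type} [Fintype V] [DecidableEq V] [Fintype A] [DecidableEq A]

omit [DecidableEq V] in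
/-- the triangle inequality for two constraints with a common target -/
theorem tri_SA {D : ℕ} (hD : 3 ≤ D) {L : ((V → A) → ℝ) →ₗ[ℝ] ℝ} (hL : SAh D L) : Tri L := by
  classical
  intro u u' v π π'
  set f : (V → A) → ℝ := fun x => (1 - sat u v π x) + (1 - sat u' v π' x) -
    (1 - sat u u' (π.trans π'.symm) x) with hf
  have hdep : Dep {u, u', v} f := by
    intro x y h
    simp only [hf]
    rw [Mx.dep_sat u v π {u, u', v} (by simp) (by simp) x y h,
      Mx.dep_sat u' v π' {u, u', v} (by simp) (by simp) x y h,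
      Mx.dep_sat u u' (π.trans π'.symm) {u, u', v} (by simp) (by simp) x y h]
  have hnn : ∀ x, 0 ≤ f x := by
    intro x
    simp only [hf]
    unfold sat
    by_cases h1 : π (x u) = x v
    · by_cases h2 : π' (x u') = x v
      · have h3 : (π.trans π'.symm) (x u) = x u' := by
          rw [Equiv.trans_apply, h1, ← h2, Equiv.symm_apply_apply]
        rw [if_pos h1, if_pos h2, if_pos h3]
        norm_num
      · rw [if_pos h1, if_neg h2]
        split_ifs <;> norm_num
    · rw [if_neg h1]
      split_ifs <;> norm_num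
  have h1 := hL.junta {u, u', v} (card_le_three.trans (by omega)) f hdep hnn
  have h2 : f = (2 : ℝ) • (fun _ => (1 : ℝ)) - sat u v π - sat u' v π' - (fun _ => (1 : ℝ)) +
      sat u u' (π.trans π'.symm) := by
    funext x
    simp only [hf, Pi.add_apply, Pi.sub_apply, Pi.smul_apply, smul_eq_mul]
    ring
  rw [h2, map_add, map_sub, map_sub, map_sub, map_smul, hL.one, smul_eq_mul] at h1
  linarith

end

/-- the number of conditioning steps -/
theorem numk (n : ℕ) (l τ q : ℝ) (hτ : 0 < τ) (hτ1 : τ ≤ 1 / 8) (hl : τ ≤ l)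
    (hln : l ≤ Real.log n) (hq : q = τ / l) (k : ℝ)
    (hk : 2 ^ 22 * (n : ℝ) ^ (25 * (q * Real.log (2 / q))) ≤ k) :
    2 ≤ k * ((1 / 32) ^ 2 / 64 * (1 / 4 * Real.exp (-(12 * τ * (Real.log (1 / q) /
      (l / (2 * Real.log n)) + 1))) * (n : ℝ) ^ (-q))) := by
  have hl0 : 0 < l := by linarith
  have hlog : 0 < Real.log n := by linarith
  have hn0 : (0 : ℝ) < n := by
    rcases Nat.eq_zero_or_pos n with h | h
    · rw [h] at hlog; simp at hlog
    · exact_mod_cast h
  have hq0 : 0 < q := by rw [hq]; positivity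
  have hq1 : q ≤ 1 := by rw [hq, div_le_one hl0]; exact hl
  have hql : q * l = τ := by rw [hq]; field_simp
  have hlogq : 0 ≤ Real.log (1 / q) := Real.log_nonneg (by rw [le_div_iff₀ hq0]; linarith)
  have hlog2 : Real.log (2 / q) = Real.log 2 + Real.log (1 / q) := by
    rw [← Real.log_mul (by norm_num) (by positivity)]
    congr 1
    ring
  have hl2 := Real.log_two_gt_d9
  have e3 : 12 * τ * (Real.log (1 / q) / (l / (2 * Real.log n)) + 1) =
      24 * (q * Real.log (1 / q)) * Real.log n + 12 * τ := by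
    rw [← hql]
    field_simp
    ring
  rw [e3, Real.rpow_def_of_pos hn0]
  rw [Real.rpow_def_of_pos hn0] at hk
  have hk0 : 0 ≤ k := le_trans (by positivity) hk
  have h1 : 2 ^ 22 * Real.exp (Real.log n * (25 * (q * Real.log (2 / q)))) *
      ((1 / 32) ^ 2 / 64 * (1 / 4 * Real.exp (-(24 * (q * Real.log (1 / q)) * Real.log n +
        12 * τ)) * Real.exp (Real.log n * -q))) ≤
      k * ((1 / 32) ^ 2 / 64 * (1 / 4 * Real.exp (-(24 * (q * Real.log (1 / q)) * Real.log n +
        12 * τ)) * Real.exp (Real.log n * -q))) :=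
    mul_le_mul_of_nonneg_right hk (by positivity)
  refine le_trans ?_ h1
  have h2 : 2 ^ 22 * Real.exp (Real.log n * (25 * (q * Real.log (2 / q)))) *
      ((1 / 32) ^ 2 / 64 * (1 / 4 * Real.exp (-(24 * (q * Real.log (1 / q)) * Real.log n +
        12 * τ)) * Real.exp (Real.log n * -q))) =
      16 * Real.exp (Real.log n * (25 * (q * Real.log (2 / q))) +
        (-(24 * (q * Real.log (1 / q)) * Real.log n + 12 * τ) + Real.log n * -q)) := by
    rw [Real.exp_add, Real.exp_add]
    ring
  rw [h2]
  have h5 : 0 ≤ q * Real.log n := by positivity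
  have h6 : 0 ≤ q * Real.log (1 / q) * Real.log n := by positivity
  have h7 : 17 * (q * Real.log n) ≤ 25 * Real.log 2 * (q * Real.log n) :=
    mul_le_mul_of_nonneg_right (by linarith) h5
  have h8 : -2 ≤ Real.log n * (25 * (q * Real.log (2 / q))) +
        (-(24 * (q * Real.log (1 / q)) * Real.log n + 12 * τ) + Real.log n * -q) := by
    rw [hlog2]
    nlinarith
  have h9 : Real.exp (-2) ≤ Real.exp (Real.log n * (25 * (q * Real.log (2 / q))) +
        (-(24 * (q * Real.log (1 / q)) * Real.log n + 12 * τ) + Real.log n * -q)) :=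
    Real.exp_le_exp.2 h8
  have h10 : (1 : ℝ) / 8 ≤ Real.exp (-2) := by
    have h11 : Real.exp (-2) = Real.exp (-1) ^ 2 := by
      rw [← Real.exp_nat_mul]; norm_num
    have h12 := Real.exp_neg_one_gt_d9
    have h13 : (0.3678794411 : ℝ) ^ 2 ≤ Real.exp (-1) ^ 2 :=
      pow_le_pow_left₀ (by norm_num) (by linarith) 2
    rw [h11]
    refine le_trans ?_ h13
    norm_num
  linarith

/-- the number of sampled vertices -/
theorem numM (n : ℕ) (l τ q : ℝ) (hτ : 0 < τ) (hτ1 : τ ≤ 1 / 8) (hl : τ ≤ l)
    (hln : l ≤ Real.log n) (hq : q = τ / l) (M : ℝ)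
    (hM : 128 * (n : ℝ) ^ (25 * (q * Real.log (2 / q))) ≤ M) :
    48 * Real.exp (6 * τ * (Real.log (1 / q) / (l / (2 * Real.log n)) + 1)) ≤ M := by
  have hl0 : 0 < l := by linarith
  have hlog : 0 < Real.log n := by linarith
  have hn0 : (0 : ℝ) < n := by
    rcases Nat.eq_zero_or_pos n with h | h
    · rw [h] at hlog; simp at hlog
    · exact_mod_cast h
  have hq0 : 0 < q := by rw [hq]; positivity
  have hq1 : q ≤ 1 := by rw [hq, div_le_one hl0]; exact hl
  have hql : q * l = τ := by rw [hq]; field_simp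
  have hlogq : 0 ≤ Real.log (1 / q) := Real.log_nonneg (by rw [le_div_iff₀ hq0]; linarith)
  have hlog2 : Real.log (2 / q) = Real.log 2 + Real.log (1 / q) := by
    rw [← Real.log_mul (by norm_num) (by positivity)]
    congr 1
    ring
  have hl2 := Real.log_two_gt_d9
  have e3 : 6 * τ * (Real.log (1 / q) / (l / (2 * Real.log n)) + 1) =
      12 * (q * Real.log (1 / q)) * Real.log n + 6 * τ := by
    rw [← hql]
    field_simp
    ring
  rw [e3, Real.exp_add]
  refine le_trans ?_ hM
  rw [Real.rpow_def_of_pos hn0]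
  have h1 : Real.exp (12 * (q * Real.log (1 / q)) * Real.log n) ≤
      Real.exp (Real.log n * (25 * (q * Real.log (2 / q)))) := by
    apply Real.exp_le_exp.2
    rw [hlog2]
    have h6 : 0 ≤ q * Real.log (1 / q) * Real.log n := by positivity
    have h7 : 0 ≤ q * Real.log 2 * Real.log n := by positivity
    nlinarith
  have h2 : Real.exp (6 * τ) ≤ 128 / 48 := by
    have h3 : Real.exp (6 * τ) ≤ Real.exp 1 := Real.exp_le_exp.2 (by linarith)
    have h4 : Real.exp (6 * τ) ≤ Real.exp (3 / 4) := Real.exp_le_exp.2 (by linarith)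
    refine h4.trans ?_
    have h5 : Real.exp (3 / 4) ^ 4 ≤ (128 / 48 : ℝ) ^ 4 := by
      rw [← Real.exp_nat_mul]
      have h6 : Real.exp (((4 : ℕ) : ℝ) * (3 / 4)) = Real.exp 1 ^ 3 := by
        rw [← Real.exp_nat_mul]
        norm_num
      rw [h6]
      have h7 := Real.exp_one_lt_d9
      calc Real.exp 1 ^ 3 ≤ (2.7182818286 : ℝ) ^ 3 :=
            pow_le_pow_left₀ (Real.exp_pos _).le h7.le 3
        _ ≤ _ := by norm_num
    exact le_of_pow_le_pow_left₀ (by norm_num) (by norm_num) h5
  calc 48 * (Real.exp (12 * (q * Real.log (1 / q)) * Real.log n) * Real.exp (6 * τ)) ≤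
        48 * (Real.exp (Real.log n * (25 * (q * Real.log (2 / q)))) * (128 / 48)) := by
        refine mul_le_mul_of_nonneg_left ?_ (by norm_num)
        exact mul_le_mul h1 h2 (Real.exp_pos _).le (Real.exp_pos _).le
    _ = _ := by ring

section
variable {U V E A : Type} [Fintype U] [Fintype V] [Fintype E] [Fintype A] [DecidableEq A]
  [DecidableEq U] [DecidableEq V]

/-- rounding for completeness near one -/
theorem core_near (s : E → U) (t : E → V) (π : E → Equiv.Perm A) (ε l q : ℝ) (hε : 0 < ε)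
    (hε1 : ε ≤ 1 / 196608) (hl : 24576 * ε ≤ l) (hln : l ≤ Real.log (Fintype.card U))
    (hq : q = 24576 * ε / l) (k M : ℕ)
    (hk : 2 ^ 22 * (Fintype.card U : ℝ) ^ (25 * (q * Real.log (2 / q))) ≤ k)
    (hM : 128 * (Fintype.card U : ℝ) ^ (25 * (q * Real.log (2 / q))) ≤ M)
    (hM' : 1 + 5 * Real.log (1 / (24576 * ε)) ≤ M)
    (L : ((U ⊕ V → A) → ℝ) →ₗ[ℝ] ℝ) (hL : SAh (k + (M + M)) L)
    (hval : (1 - ε) * (Fintype.card E : ℝ) ≤
      ∑ e, L (sat (Sum.inl (s e)) (Sum.inr (t e)) (π e))) :
    ∃ (x : U → A) (y : V → A), Real.exp (-l) / 2 ^ 13 * (Fintype.card E : ℝ) ≤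
      ((univ.filter fun e => π e (x (s e)) = y (t e)).card : ℝ) := by
  classical
  have hl0 : 0 < l := by linarith
  have hlog : 0 < Real.log (Fintype.card U) := by linarith
  have hn : 0 < Fintype.card U := by
    rcases Nat.eq_zero_or_pos (Fintype.card U) with h | h
    · rw [h] at hlog; simp at hlog
    · exact h
  have hn0 : (0 : ℝ) < Fintype.card U := by exact_mod_cast hn
  obtain ⟨u0⟩ : Nonempty U := Fintype.card_pos_iff.1 hn
  have hA : Nonempty A := by
    by_contra hne
    rw [not_nonempty_iff] at hne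
    have h1 := hL.one
    have h2 : (fun _ : U ⊕ V → A => (1 : ℝ)) = 0 := by
      funext x
      exact (hne.false (x (Sum.inl u0))).elim
    rw [h2, map_zero] at h1
    exact zero_ne_one h1
  obtain ⟨a0⟩ := hA
  have hA : Nonempty A := ⟨a0⟩
  rcases Nat.eq_zero_or_pos (Fintype.card E) with hE | hE
  · refine ⟨fun _ => a0, fun _ => a0, ?_⟩
    rw [hE]
    simp
  have hE0 : (0 : ℝ) < Fintype.card E := by exact_mod_cast hE
  set s' : E → U ⊕ V := fun e => Sum.inl (s e) with hs'
  set t' : E → U ⊕ V := fun e => Sum.inr (t e) with ht'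
  have hM3 : 3 ≤ M + M := by
    have hn1 : (1 : ℝ) ≤ Fintype.card U := by exact_mod_cast hn
    have hq0 : 0 < q := by rw [hq]; positivity
    have hq1 : q ≤ 1 := by rw [hq, div_le_one hl0]; exact hl
    have h1 : (1 : ℝ) ≤ (Fintype.card U : ℝ) ^ (25 * (q * Real.log (2 / q))) := by
      refine Real.one_le_rpow hn1 ?_
      have : 0 ≤ Real.log (2 / q) := Real.log_nonneg (by rw [le_div_iff₀ hq0]; linarith)
      positivity
    have h2 : (128 : ℝ) ≤ M := by linarith
    have h3 : 128 ≤ M := by exact_mod_cast h2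
    omega
  have hier := hierS (U ⊕ V) A (M + M) hM3
  have hfc := hier.fct k L hL
  have hsat1 : ∀ e, L (sat (s' e) (t' e) (π e)) ≤ 1 := fun e => hfc.sat1 _ _ _
  set G : E → Prop := fun e => 1 - L (sat (s' e) (t' e) (π e)) ≤ 2 * ε with hG
  set ω : E → ℝ := fun e => if G e then (1 : ℝ) else 0 with hωd
  have hω : ∀ e, 0 ≤ ω e := fun e => by simp only [hωd]; split_ifs <;> norm_num
  have hgood : (Fintype.card E : ℝ) / 2 ≤ ∑ e, ω e := by
    have h1 : ∀ e, 2 * ε * (1 - ω e) ≤ 1 - L (sat (s' e) (t' e) (π e)) := by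
      intro e
      simp only [hωd]
      by_cases h : G e
      · rw [if_pos h]
        have := hsat1 e
        linarith
      · rw [if_neg h]
        simp only [hG, not_le] at h
        linarith
    have h2 := sum_le_sum fun e (_ : e ∈ (univ : Finset E)) => h1 e
    rw [← mul_sum, sum_sub_distrib, sum_sub_distrib, sum_const, card_univ, nsmul_eq_mul,
      mul_one] at h2
    have h3 : 2 * ε * ((Fintype.card E : ℝ) - ∑ e, ω e) ≤ ε * Fintype.card E := by linarith
    have h4 : 2 * ((Fintype.card E : ℝ) - ∑ e, ω e) ≤ Fintype.card E := by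
      have h5 : ε * (2 * ((Fintype.card E : ℝ) - ∑ e, ω e)) ≤ ε * Fintype.card E := by linarith
      exact le_of_mul_le_mul_left h5 hε
    linarith
  have hD : 0 < ∑ e, ω e := lt_of_lt_of_le (by positivity) hgood
  have hκ0 : 0 < l / (2 * Real.log (Fintype.card U)) := by positivity
  have hκ1 : l / (2 * Real.log (Fintype.card U)) < 1 := by
    rw [div_lt_one (by positivity)]
    linarith
  have hβe : (Fintype.card U : ℝ) ^ (-(2 * (l / (2 * Real.log (Fintype.card U))))) =
      Real.exp (-l) := by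
    rw [Real.rpow_def_of_pos hn0]
    congr 1
    field_simp
  have hτ0 : 0 < 24576 * ε := by linarith
  have hq0 : 0 < q := by rw [hq]; positivity
  have hq1 : q ≤ 1 := by rw [hq, div_le_one hl0]; exact hl
  have hkr := numk (Fintype.card U) l (24576 * ε) q hτ0 (by linarith) hl hln hq k hk
  have hMr := numM (Fintype.card U) l (24576 * ε) q hτ0 (by linarith) hl hln hq M hM
  set W : Finset (U ⊕ V) := univ.map Function.Embedding.inl with hW
  have hWc : W.card = Fintype.card U := by rw [hW, card_map, card_univ]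
  have hsW : ∀ e, s' e ∈ W := fun e => by simp [hs', hW]
  have hpart : ∀ U0 : Finset (U ⊕ V), U0 ⊆ W → (∑ e, ω e) / 2 ≤
      bil (K2 s' t' ω) (fun v => if v ∈ U0 then 1 else 0) (fun v => if v ∈ U0 then 1 else 0) →
      ∃ (p : U ⊕ V → A → ℝ) (S : Finset (U ⊕ V)), IsP p ∧ S.Nonempty ∧ S ⊆ U0 ∧
        Real.exp (-l) / 1024 * ∑ u ∈ S, ds s' ω u ≤ gf s' t' (fun e a => π e a) ω p S := by
    intro U0 hU0 hb
    obtain ⟨x, S, hS, hSU, hSb⟩ := Pool.Agent.Helper72.SA.part_round M hier
      (fun k L hL => tri_SA (by omega) hL) s' t' π ω hω hD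
      (Fintype.card U) hn (l / (2 * Real.log (Fintype.card U))) q (2 * ε) (24576 * ε) hκ0 hκ1
      hq0 hq1 (by linarith) (by linarith) (by linarith) hMr hM' k hkr L hL
      (fun e he => by
        by_contra hcon
        have h1 : ω e = 0 := by
          simp only [hωd]
          rw [if_neg]
          exact hcon
        linarith)
      U0 (by rw [← hWc]; exact card_le_card hU0) hb
    rw [hβe] at hSb
    refine ⟨fun v a => if x v = a then 1 else 0, S,
      ⟨fun v a => by beta_reduce; split_ifs <;> norm_num, fun v => by simp⟩, hS, hSU,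
      hSb.trans (le_of_eq ?_)⟩
    unfold gf PS
    refine sum_congr rfl fun e _ => sum_congr rfl fun e' _ => ?_
    congr 1
    have h1 : rl (fun a => π e a) (fun a => π e' a)
        (fun a b => (if x (s' e) = a then (1 : ℝ) else 0) * (if x (s' e') = b then 1 else 0)) =
        if π e (x (s' e)) = π e' (x (s' e')) then 1 else 0 := by
      unfold rl
      rw [sum_eq_single (x (s' e))]
      · rw [sum_eq_single (x (s' e'))]
        · simp
        · intro b _ hb'
          simp [Ne.symm hb']
        · intro h; exact absurd (mem_univ _) h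
      · intro a _ ha
        refine sum_eq_zero fun b _ => ?_
        simp [Ne.symm ha]
      · intro h; exact absurd (mem_univ _) h
    beta_reduce
    rw [h1]
    by_cases h2 : s' e ∈ S ∧ s' e' ∈ S
    · rw [if_pos h2, one_mul]
      by_cases h3 : π e (x (s' e)) = π e' (x (s' e'))
      · rw [if_pos ⟨h2, h3⟩, if_pos h3]
      · rw [if_neg (fun h => h3 h.2), if_neg h3]
    · rw [if_neg h2, if_neg (fun h => h2 h.1), zero_mul]
  obtain ⟨X, Y, hXY⟩ := two_sided s' t' (fun e a => π e a) ω hω (Real.exp (-l) / 1024)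
    (by positivity) W hsW hpart (fun _ a => if a = a0 then 1 else 0)
    ⟨fun _ a => by beta_reduce; split_ifs <;> norm_num, fun _ => by simp⟩
  refine ⟨fun w' => X (Sum.inl w'), fun v' => Y (Sum.inr v'), ?_⟩
  have h1 : ∑ e, ω e * (if π e (X (s' e)) = Y (t' e) then 1 else 0) ≤
      ((univ.filter fun e => π e (X (Sum.inl (s e))) = Y (Sum.inr (t e))).card : ℝ) := by
    rw [card_filter]
    push_cast
    refine sum_le_sum fun e _ => ?_
    simp only [hωd, hs', ht']
    split_ifs <;> norm_num
  refine le_trans ?_ (hXY.trans h1)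
  have h2 : Real.exp (-l) / 1024 * (Fintype.card E / 2 : ℝ) ≤
      Real.exp (-l) / 1024 * ∑ e, ω e :=
    mul_le_mul_of_nonneg_left hgood (by positivity)
  have h3 : Real.exp (-l) / 2 ^ 13 * (Fintype.card E : ℝ) =
      Real.exp (-l) / 1024 * (Fintype.card E / 2 : ℝ) / 4 := by
    ring
  rw [h3]
  linarith

end

end Pool.Agent.Helper72.SA
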