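import Pool.Agent.Helper72.SA.CutK
import Pool.Agent.TH522.UG.Node

/-!
The recursive rounding for the Sherali-Adams hierarchy.
-/

set_option autoImplicit false

namespace Pool.Agent.Helper72.SA

open Finset Pool.Agent.H647R3.UG Pool.Agent.H573R3.SL Pool.Agent.TH522.UG

section
variable {V A E : Type} [Fintype V] [DecidableEq V] [Fintype A] [DecidableEq A] [Fintype E]

/-- lower bound of the size of the steps -/
theorem stk_ge (l c0 τ q N : ℝ) (n : ℕ) (hq : 0 < q) (hq1 : q ≤ 1) (hN : 0 < N) (hτ : 0 < τ)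
    (hl : l = 48 * τ * Real.log (2 / q) / (q * N)) (hc : 1 / 256 ≤ c0) :
    1 / 1073741824 * (Real.exp (-(q * N)) * (n : ℝ) ^ (-q)) ≤ stk l c0 τ q n := by
  have hΛ : 0 < Real.log (2 / q) := Real.log_pos (by rw [lt_div_iff₀ hq]; linarith)
  have h1 : 48 * (τ / l) * Real.log (1 / q) ≤ q * N := by
    have h2 : 48 * (τ / l) = q * N / Real.log (2 / q) := by
      rw [hl]
      field_simp
    have h3 : Real.log (1 / q) ≤ Real.log (2 / q) :=
      Real.log_le_log (by positivity) (by gcongr; norm_num)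
    rw [h2, div_mul_eq_mul_div, div_le_iff₀ hΛ]
    exact mul_le_mul_of_nonneg_left h3 (by positivity)
  have h4 : Real.exp (-(q * N)) ≤ Real.exp (-(48 * (τ / l) * Real.log (1 / q))) :=
    Real.exp_le_exp.2 (by linarith)
  have h5 : 0 ≤ (n : ℝ) ^ (-q) := Real.rpow_nonneg (Nat.cast_nonneg n) _
  have h6 : (1 / 256 : ℝ) ^ 2 ≤ c0 ^ 2 := pow_le_pow_left₀ (by norm_num) hc 2
  have h7 : Real.exp (-(q * N)) * (n : ℝ) ^ (-q) ≤
      Real.exp (-(48 * (τ / l) * Real.log (1 / q))) * (n : ℝ) ^ (-q) :=
    mul_le_mul_of_nonneg_right h4 h5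
  have h8 : 0 ≤ Real.exp (-(q * N)) * (n : ℝ) ^ (-q) := mul_nonneg (Real.exp_pos _).le h5
  unfold stk
  calc 1 / 1073741824 * (Real.exp (-(q * N)) * (n : ℝ) ^ (-q)) =
        (1 / 256) ^ 2 / 64 * (1 / 256 * (Real.exp (-(q * N)) * (n : ℝ) ^ (-q))) := by ring
    _ ≤ c0 ^ 2 / 64 * (1 / 256 * (Real.exp (-(48 * (τ / l) * Real.log (1 / q))) *
          (n : ℝ) ^ (-q))) := by
        refine mul_le_mul (by linarith) ?_ (by positivity) (by positivity)
        exact mul_le_mul_of_nonneg_left h7 (by norm_num)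
    _ = _ := by ring

variable {Q : ℕ → (((V → A) → ℝ) →ₗ[ℝ] ℝ) → Prop}

/-- one part of the soft partition -/
theorem partk (M : ℕ) (hQ : HierS (M + M) Q) (s t : E → V) (π : E → Equiv.Perm A) (x0 : V → A)
    (q N : ℝ) (hq : 0 < q) (hq1 : q ≤ 1) (hN : 0 < N) (k : ℕ)
    (hk : 2 ≤ k * (1 / 1073741824 * (Real.exp (-(q * N)) * (Fintype.card V : ℝ) ^ (-q))))
    (B X : ℝ) (hB : 8 ≤ B) (hM1 : 96 * Real.exp (q * N / 2) ≤ M)
    (hM2 : 1 + 5 * (2 * Real.log B + X) ≤ M)
    (T : ℕ) (μ : ℝ)
    (IH : ∀ (h : V → ℝ) (L : ((V → A) → ℝ) →ₗ[ℝ] ℝ) (E0 : ℝ), (∀ v, 0 ≤ h v) → (∀ v, h v ≤ 1) →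
      0 < E0 → ((Fintype.card V : ℝ) + 1) ^ T * ∑ v, dgr s t v ≤ B * E0 →
      Q (T * k) L → ErrL s t π h L ≤ E0 →
      Ach s t π (fun v => h v ^ 2) (G μ T E0 (volL s t h)))
    (f : V → ℝ) (hf : ∀ v, 0 ≤ f v) (hf1 : ∀ v, f v ≤ 1) (L : ((V → A) → ℝ) →ₗ[ℝ] ℝ)
    (hL : Q ((T + 1) * k) L)
    (e τ l κ0 : ℝ) (he : 0 < e) (hτ : 0 < τ) (hτ1 : τ ≤ 1) (hτe : τ = 98304 * e)
    (hl : l = 48 * τ * Real.log (2 / q) / (q * N)) (hlX : Real.log (1 + l) ≤ X)
    (hτB : 1 / B ≤ τ) (hκ0 : 0 < κ0)
    (hκB : ((Fintype.card V : ℝ) + 1) ^ T * ∑ v, dgr s t v ≤ B * (2 * κ0))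
    (hLS : LSob (cf (wt s t) f) (fun v => dgr s t v * f v ^ 2) l) :
    ∃ v' : ℝ, 0 ≤ v' ∧ v' ≤ 3072 * (ErrL s t π f L + e / 2 * volL s t f + κ0) / τ ∧
      Ach s t π (fun v => f v ^ 2) (18 * (2 * (ErrL s t π f L + e / 2 * volL s t f + κ0))
        + G μ T (2 * (ErrL s t π f L + e / 2 * volL s t f + κ0)) v') := by
  have hfc := hQ.fct _ _ hL
  have hE0 : 0 ≤ ErrL s t π f L := err_nonneg s t π f hf hfc
  have hvol0 := volL_nonneg s t f
  obtain ⟨σ, hσ⟩ : ∃ σ, σ = ErrL s t π f L + e / 2 * volL s t f + κ0 := ⟨_, rfl⟩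
  rw [← hσ]
  have hσκ : κ0 ≤ σ := by
    rw [hσ]
    have : 0 ≤ e / 2 * volL s t f := by positivity
    linarith
  have hσ0 : 0 < σ := lt_of_lt_of_le hκ0 hσκ
  have hB0 : 0 < B := by linarith
  have hD0 : 0 ≤ ∑ v, dgr s t v := sum_nonneg fun v _ => S2L.dgr_nonneg s t v
  rcases hvol0.eq_or_lt with h0 | hpos
  · refine ⟨0, le_rfl, by positivity, ?_⟩
    apply triv_le s t π x0
    rw [← h0, zero_div]
    have := G_nonneg μ T (2 * σ) 0 (by positivity) le_rfl
    linarith
  · set v := volL s t f with hv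
    set ε0 : ℝ := σ / v with hε0
    have hε0p : 0 < ε0 := by positivity
    have hε0v : ε0 * v = σ := by
      rw [hε0, div_mul_cancel₀ _ hpos.ne']
    set c0 : ℝ := 768 * ε0 / τ with hc0
    have hc0p : 0 < c0 := by positivity
    have hc0τ : 768 * ε0 / c0 = τ := by
      rw [hc0]
      field_simp
    have hc0l : 1 / 256 ≤ c0 := by
      have h1 : e / 2 ≤ ε0 := by
        rw [hε0, le_div_iff₀ hpos, hσ]
        linarith
      rw [hc0, hτe, le_div_iff₀ (by positivity)]
      linarith
    have hΛ : 0 < Real.log (2 / q) := Real.log_pos (by rw [lt_div_iff₀ hq]; linarith)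
    have hlp : 0 < l := by rw [hl]; positivity
    have hk2 : 2 ≤ k * stk l c0 (768 * ε0 / c0) q (Fintype.card V) := by
      rw [hc0τ]
      refine hk.trans (mul_le_mul_of_nonneg_left ?_ (Nat.cast_nonneg k))
      exact stk_ge l c0 τ q N _ hq hq1 hN hτ hl hc0l
    have hL2 : Q (T * k + k) L := by
      have : (T + 1) * k = T * k + k := by ring
      rwa [this] at hL
    -- the number of samples
    have hMs : 96 * Real.exp (24 * (768 * ε0 / c0 / l) * Real.log (1 / q)) ≤ M := by
      refine le_trans (mul_le_mul_of_nonneg_left ?_ (by norm_num)) hM1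
      apply Real.exp_le_exp.2
      rw [hc0τ]
      have h2 : 24 * (τ / l) = q * N / 2 / Real.log (2 / q) := by
        rw [hl]
        field_simp
        ring
      have h3 : Real.log (1 / q) ≤ Real.log (2 / q) :=
        Real.log_le_log (by positivity) (by gcongr; norm_num)
      rw [h2, div_mul_eq_mul_div, div_le_iff₀ hΛ]
      exact mul_le_mul_of_nonneg_left h3 (by positivity)
    have hMs' : 1 + 5 * Real.log (1 / (1 / B / (1 + l) * (768 * ε0 / c0))) ≤ M := by
      refine le_trans ?_ hM2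
      rw [hc0τ]
      have h1 : Real.log (1 / (1 / B / (1 + l) * τ)) = Real.log B + Real.log (1 + l) +
          Real.log (1 / τ) := by
        rw [← Real.log_mul hB0.ne' (by linarith), ← Real.log_mul (by positivity) (by positivity)]
        congr 1
        field_simp
      have h2 : Real.log (1 / τ) ≤ Real.log B := by
        refine Real.log_le_log (by positivity) ?_
        rw [div_le_iff₀ hτ]
        rw [div_le_iff₀ hB0] at hτB
        linarith
      rw [h1]
      linarith
    have hβ : 2 * (1 / B * ∑ v, dgr s t v) ≤ 48 * (ε0 * v) := by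
      have h1 : ∑ v, dgr s t v ≤ ((Fintype.card V : ℝ) + 1) ^ T * ∑ v, dgr s t v := by
        refine le_mul_of_one_le_left hD0 (one_le_pow₀ ?_)
        have : (0 : ℝ) ≤ Fintype.card V := Nat.cast_nonneg _
        linarith
      have h2 : 1 / B * ∑ v, dgr s t v ≤ 2 * κ0 := by
        rw [one_div, inv_mul_le_iff₀ hB0]
        exact h1.trans hκB
      rw [hε0v]
      linarith
    obtain ⟨L', hL', hPhi, hErr⟩ := s2k M hQ s t π f l c0 ε0 q (1 / B) k hf hf1 hpos hlp hLS hc0p
      hε0p (by rw [hc0τ]; exact hτ1) hq hq1 (by positivity)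
      (by rw [div_le_div_iff₀ hB0 (by norm_num)]; linarith) hMs hMs' hβ hk2 (T * k) L hL2
      (by
        rw [← hv, hε0v, hσ]
        have : 0 ≤ e / 2 * v := by positivity
        linarith)
    rw [← hv] at hPhi hErr
    have hfc' := hQ.fct _ _ hL'
    -- the child
    set h' : V → ℝ := fun v => f v * Real.sqrt (phi L' v) with hh'
    have hh'0 : ∀ v, 0 ≤ h' v := fun v => mul_nonneg (hf v) (Real.sqrt_nonneg _)
    have hh'sq : ∀ v, h' v ^ 2 = f v ^ 2 * phi L' v := fun v => by
      simp only [hh']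
      rw [mul_pow, Real.sq_sqrt (phi_nonneg L' v)]
    have hvol' : volL s t h' ≤ 4 * PhiL s t f L' := by
      unfold volL PhiL
      rw [mul_sum]
      refine sum_le_sum fun v _ => ?_
      rw [hh'sq]
      have h1 := phi_le hfc' v
      have h2 : 0 ≤ dgr s t v * f v ^ 2 := mul_nonneg (S2L.dgr_nonneg s t v) (sq_nonneg _)
      calc dgr s t v * (f v ^ 2 * phi L' v) = (dgr s t v * f v ^ 2) * phi L' v := by ring
        _ ≤ (dgr s t v * f v ^ 2) * (4 * vr L' v) := mul_le_mul_of_nonneg_left h1 h2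
        _ = _ := by ring
    have hh'f : ∀ v, h' v ≤ f v := fun v => by
      simp only [hh']
      refine mul_le_of_le_one_right (hf v) ?_
      rw [Real.sqrt_le_one]
      exact phi_le_one L' v
    have herr' : ErrL s t π h' L' ≤ ErrL s t π f L' := by
      unfold ErrL
      refine sum_le_sum fun e _ => ?_
      refine mul_le_mul_of_nonneg_right ?_ (by linarith [hfc'.sat1 (s e) (t e) (π e)])
      exact mul_le_mul (hh'f _) (hh'f _) (hh'0 _) (hf _)
    have hE'2 : 2 * ε0 * v = 2 * σ := by rw [mul_assoc, hε0v]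
    rw [hE'2] at hErr
    have h1 := IH h' L' (2 * σ) hh'0 (fun v => (hh'f v).trans (hf1 v)) (by positivity)
      (hκB.trans (mul_le_mul_of_nonneg_left (by linarith) hB0.le)) hL' (herr'.trans hErr)
    refine ⟨volL s t h', volL_nonneg s t h', ?_, ?_⟩
    · refine hvol'.trans ((mul_le_mul_of_nonneg_left hPhi (by norm_num)).trans (le_of_eq ?_))
      have h2 : c0 * v = 768 * σ / τ := by
        rw [hc0, ← hε0v]
        ring
      rw [h2]
      ring
    · have h2 := ach_part hfc' f hf _ (h1.congr hh'sq)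
      refine h2.mono ?_
      linarith

/-- the recursive rounding -/
theorem nodek (M : ℕ) (hQ : HierS (M + M) Q) (s t : E → V) (π : E → Equiv.Perm A) (x0 : V → A)
    (q N : ℝ)
    (hq : 0 < q) (hq1 : q ≤ 1) (hN : 0 < N) (hN1 : Real.log (Fintype.card V) ≤ N) (k : ℕ)
    (hk : 2 ≤ k * (1 / 1073741824 * (Real.exp (-(q * N)) * (Fintype.card V : ℝ) ^ (-q))))
    (B X : ℝ) (hB : 8 ≤ B) (hM1 : 96 * Real.exp (q * N / 2) ≤ M)
    (hM2 : 1 + 5 * (2 * Real.log B + X) ≤ M)
    (hX : Real.log (1 + 48 * Real.log (2 / q) / (q * N)) ≤ X)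
    (T : ℕ) : ∀ (h : V → ℝ) (L : ((V → A) → ℝ) →ₗ[ℝ] ℝ) (E0 : ℝ), (∀ v, 0 ≤ h v) →
      (∀ v, h v ≤ 1) → 0 < E0 → ((Fintype.card V : ℝ) + 1) ^ T * ∑ v, dgr s t v ≤ B * E0 →
      Q (T * k) L → ErrL s t π h L ≤ E0 →
      Ach s t π (fun v => h v ^ 2)
        (G (2359296 * (Real.log (2 / q) / q)) T E0 (volL s t h)) := by
  have hΛ2 : Real.log 2 ≤ Real.log (2 / q) :=
    Real.log_le_log (by norm_num) (by rw [le_div_iff₀ hq]; linarith)
  have hl2 := Real.log_two_gt_d9
  have hΛ : 0 < Real.log (2 / q) := by linarith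
  have hLq : 1 / 2 ≤ Real.log (2 / q) / q := by
    rw [le_div_iff₀ hq]
    nlinarith
  set μ : ℝ := 2359296 * (Real.log (2 / q) / q) with hμ
  have hμ0 : 0 ≤ μ := by positivity
  induction T with
  | zero =>
    intro h L E0 hh hh1 hE0 hBE hL hErr
    apply triv_le s t π x0
    unfold G
    have := Real.sqrt_nonneg (μ * (E0 * volL s t h))
    simp only [pow_zero, sub_self, mul_zero, zero_mul, add_zero, mul_one]
    linarith
  | succ T IH =>
    intro h L E0 hh hh1 hE0 hBE hL hErr
    have hfc := hQ.fct _ _ hL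
    rcases (volL_nonneg s t h).eq_or_lt with h0 | hpos
    · apply triv_le s t π x0
      rw [← h0, zero_div]
      exact G_nonneg μ (T + 1) E0 0 hE0.le le_rfl
    rcases lt_or_ge (volL s t h) (98304 * E0) with hbig | hbig
    · -- large error: trivial bound
      apply triv_le s t π x0
      have h1 : volL s t h / 2 ≤ Real.sqrt (μ * (E0 * volL s t h)) := by
        apply Real.le_sqrt_of_sq_le
        have h2 : volL s t h / 4 ≤ μ * E0 := by
          have h3 : 1179648 ≤ μ := by rw [hμ]; linarith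
          nlinarith
        have h3 := mul_le_mul_of_nonneg_right h2 hpos.le
        nlinarith
      have h2 : (1 : ℝ) ≤ 4 ^ (T + 1) := one_le_pow₀ (by norm_num)
      have h3 : 0 ≤ 24 * ((4 : ℝ) ^ (T + 1) - 1) * E0 :=
        mul_nonneg (mul_nonneg (by norm_num) (by linarith)) hE0.le
      have h4 : 0 ≤ 1 / 2 * (1 / 16 : ℝ) ^ (T + 1) * volL s t h := by positivity
      unfold G
      have h5 := Real.sqrt_nonneg (μ * (E0 * volL s t h))
      linarith
    · set v := volL s t h with hv
      set e : ℝ := E0 / v with he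
      have hep : 0 < e := by positivity
      set τ : ℝ := 98304 * e with hτ
      have hτp : 0 < τ := by positivity
      have hτ1 : τ ≤ 1 := by
        rw [hτ, he, ← mul_div_assoc, div_le_one hpos]
        exact hbig
      obtain ⟨l, hl⟩ : ∃ l : ℝ, l = 48 * τ * Real.log (2 / q) / (q * N) := ⟨_, rfl⟩
      have hlp : 0 < l := by rw [hl]; positivity
      have hn0 : (0 : ℝ) ≤ Fintype.card V := Nat.cast_nonneg _
      have hn1 : (0 : ℝ) < (Fintype.card V : ℝ) + 1 := by linarith
      have hB0 : 0 < B := by linarith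
      have hD0 : 0 ≤ ∑ v, dgr s t v := sum_nonneg fun v _ => S2L.dgr_nonneg s t v
      have hlX : Real.log (1 + l) ≤ X := by
        refine le_trans (Real.log_le_log (by linarith) ?_) hX
        have h1 : l ≤ 48 * Real.log (2 / q) / (q * N) := by
          rw [hl]
          refine div_le_div_of_nonneg_right ?_ (by positivity)
          have := mul_le_mul_of_nonneg_right hτ1 hΛ.le
          linarith
        linarith
      have hvD : v ≤ ∑ v, dgr s t v := by
        rw [hv]
        unfold volL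
        refine sum_le_sum fun u _ => ?_
        refine mul_le_of_le_one_right (S2L.dgr_nonneg s t u) ?_
        exact pow_le_one₀ (hh u) (hh1 u)
      have hDB : ∑ v, dgr s t v ≤ B * E0 := by
        refine le_trans (le_mul_of_one_le_left hD0 (one_le_pow₀ ?_)) hBE
        linarith
      have hτB : 1 / B ≤ τ := by
        rw [hτ, he, div_le_iff₀ hB0]
        have h1 : 1 ≤ E0 / v * B := by
          rw [div_mul_eq_mul_div, le_div_iff₀ hpos]
          linarith
        linarith
      obtain ⟨κ0, hκ0⟩ : ∃ κ0 : ℝ, κ0 = E0 / (2 * ((Fintype.card V : ℝ) + 1)) := ⟨_, rfl⟩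
      have hκ0p : 0 < κ0 := by rw [hκ0]; positivity
      have hκB : ((Fintype.card V : ℝ) + 1) ^ T * ∑ v, dgr s t v ≤ B * (2 * κ0) := by
        have h1 : B * (2 * κ0) = B * E0 / ((Fintype.card V : ℝ) + 1) := by
          rw [hκ0]
          field_simp
        rw [h1, le_div_iff₀ hn1]
        refine le_trans (le_of_eq ?_) hBE
        rw [pow_succ]
        ring
      obtain ⟨hw0, hws, hwd, hwC, hwsum, hwend, hwF, hwh, hwins⟩ := T_WT V E s t
      have hcf0 : ∀ u v, 0 ≤ cf (wt s t) h u v := fun u v =>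
        mul_nonneg (hw0 u v) (mul_nonneg (hh u) (hh v))
      obtain ⟨g, hg, hgL, hgE⟩ := softpart (cf (wt s t) h) (fun v => dgr s t v * h v ^ 2) l
        hcf0 (fun u v => by unfold cf; rw [hws u v, mul_comm (h u)])
        (fun v => mul_nonneg (S2L.dgr_nonneg s t v) (sq_nonneg _))
        (by
          intro u hu v
          unfold cf
          rcases mul_eq_zero.1 hu with h1 | h1
          · have h2 : ∑ v, wt s t u v = 0 := by rw [hwd, h1]
            have h3 := (sum_eq_zero_iff_of_nonneg (fun v _ => hw0 u v)).1 h2 v (mem_univ v)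
            rw [h3, zero_mul]
          · have h2 : h u = 0 := pow_eq_zero_iff (two_ne_zero) |>.1 h1
            rw [h2, zero_mul, mul_zero])
        hlp.le
      have hgE2 : ∑ i, en (cf (wt s t) h) (g i) ≤ l * (v * N) := by
        refine hgE.trans (mul_le_mul_of_nonneg_left ?_ hlp.le)
        exact mul_le_mul_of_nonneg_left hN1 hpos.le
      have hcost := split_cost s t h hh g hg _ hgE2
      have hcost2 : volL s t h / 2 * (l * (v * N)) = μ * (E0 * v) := by
        have h1 : e * v = E0 := by rw [he, div_mul_cancel₀ _ hpos.ne']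
        rw [← hv, hl, hμ, hτ, ← h1]
        field_simp
        ring
      rw [hcost2] at hcost
      -- the parts
      set f : Fin (Fintype.card V + 1) → V → ℝ := fun j v => h v * g j v with hf
      have hf0 : ∀ j v, 0 ≤ f j v := fun j v => mul_nonneg (hh v) (hg.1 j v)
      have hLS : ∀ j, LSob (cf (wt s t) (f j)) (fun v => dgr s t v * f j v ^ 2) l := by
        intro j
        have h1 := hgL j
        have h2 : cf (cf (wt s t) h) (g j) = cf (wt s t) (f j) := by
          funext u v
          simp only [cf, hf]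
          ring
        have h3 : (fun v => dgr s t v * h v ^ 2 * g j v ^ 2) =
            fun v => dgr s t v * f j v ^ 2 := by
          funext v
          simp only [hf]
          ring
        rwa [h2, h3] at h1
      have hg1 : ∀ j v, g j v ≤ 1 := by
        intro j v
        have h1 : g j v ^ 2 ≤ 1 := by
          rw [← hg.2 v]
          exact single_le_sum (f := fun j => g j v ^ 2) (fun j _ => sq_nonneg _) (mem_univ j)
        have h2 := hg.1 j v
        nlinarith
      have hf1 : ∀ j v, f j v ≤ 1 := fun j v =>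
        mul_le_one₀ (hh1 v) (hg.1 j v) (hg1 j v)
      have hparts := fun j => partk M hQ s t π x0 q N hq hq1 hN k hk B X hB hM1 hM2 T μ IH (f j)
        (hf0 j) (hf1 j) L hL e τ l κ0 hep hτp hτ1 hτ hl hlX hτB hκ0p hκB (hLS j)
      choose v' hv'0 hv'1 hv'A using hparts
      have hsum := ach_split (s := s) (t := t) (π := π) (fun v => h v ^ 2)
        (fun j v => f j v ^ 2) _ (fun v => by
          simp only [hf, mul_pow]
          rw [← mul_sum, hg.2 v, mul_one]) hv'A
      refine hsum.mono ?_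
      -- sums of the parameters
      have hsE : ∑ j, ErrL s t π (f j) L ≤ ErrL s t π h L := by
        unfold ErrL
        rw [sum_comm]
        refine sum_le_sum fun e _ => ?_
        rw [← sum_mul]
        refine mul_le_mul_of_nonneg_right ?_ (by linarith [hfc.sat1 (s e) (t e) (π e)])
        have h1 : ∑ j, f j (s e) * f j (t e) = h (s e) * h (t e) * ∑ j, g j (s e) * g j (t e) := by
          rw [mul_sum]
          refine sum_congr rfl fun j _ => ?_
          simp only [hf]
          ring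
        have h2 : ∑ j, g j (s e) * g j (t e) ≤ 1 := by
          calc ∑ j, g j (s e) * g j (t e) ≤ ∑ j, (g j (s e) ^ 2 + g j (t e) ^ 2) / 2 :=
                sum_le_sum fun j _ => by nlinarith [sq_nonneg (g j (s e) - g j (t e))]
            _ = 1 := by rw [← sum_div, sum_add_distrib, hg.2, hg.2]; norm_num
        rw [h1]
        exact mul_le_of_le_one_right (mul_nonneg (hh _) (hh _)) h2
      have hsv : ∑ j, volL s t (f j) = v := by
        rw [hv]
        unfold volL
        rw [sum_comm]
        refine sum_congr rfl fun v _ => ?_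
        simp only [hf, mul_pow]
        rw [← mul_sum, ← mul_sum, hg.2 v, mul_one]
      have hev : e * v = E0 := by rw [he, div_mul_cancel₀ _ hpos.ne']
      have hκs : ∑ _j : Fin (Fintype.card V + 1), κ0 = E0 / 2 := by
        rw [sum_const, card_univ, Fintype.card_fin, nsmul_eq_mul, hκ0]
        push_cast
        field_simp
      have hs1 : ∑ j, (ErrL s t π (f j) L + e / 2 * volL s t (f j) + κ0) ≤ 2 * E0 := by
        rw [sum_add_distrib, sum_add_distrib, ← mul_sum, hsv, hκs]
        linarith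
      have hs2 : ∑ j, 2 * (ErrL s t π (f j) L + e / 2 * volL s t (f j) + κ0) ≤ 4 * E0 := by
        rw [← mul_sum]
        linarith
      have hs3 : ∑ j, v' j ≤ v / 16 := by
        calc ∑ j, v' j ≤ ∑ j, 3072 * (ErrL s t π (f j) L + e / 2 * volL s t (f j) + κ0) / τ :=
              sum_le_sum fun j _ => hv'1 j
          _ = 3072 / τ * ∑ j, (ErrL s t π (f j) L + e / 2 * volL s t (f j) + κ0) := by
              rw [mul_sum]
              exact sum_congr rfl fun j _ => by ring
          _ ≤ 3072 / τ * (2 * E0) := mul_le_mul_of_nonneg_left hs1 (by positivity)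
          _ = v / 16 := by
              rw [hτ, he]
              field_simp
              ring
      have hG := G_rec μ T E0 v
        (fun j => 2 * (ErrL s t π (f j) L + e / 2 * volL s t (f j) + κ0)) v' hμ0
        (fun j => mul_nonneg (by norm_num) (add_nonneg (add_nonneg
          (err_nonneg s t π (f j) (hf0 j) hfc)
          (mul_nonneg (by positivity) (volL_nonneg s t (f j)))) hκ0p.le)) hv'0 hs2 hs3
      exact (add_le_add hcost le_rfl).trans hG

end

end Pool.Agent.Helper72.SA
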