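import Pool.Agent.Helper72SE.Ch2

/-!
Return probabilities and small-set expansion close to 1 at one scale.
-/

set_option autoImplicit false

namespace Pool.Agent.Helper72.SA

open Finset

/-- local Cheeger inequality for expansion close to 1, general kernel -/
theorem ch2s_gen {V : Type} [Fintype V] [DecidableEq V] (K : V → V → ℝ) (M : V → ℝ) (φ κ : ℝ)
    (hκ0 : 0 < κ) (hκ2 : κ ≤ 2) (hκφ : 1 - φ ≤ κ ^ 2 / 2) (hM0 : ∀ u, 0 ≤ M u)
    (hK : ∀ u v, 0 ≤ K u v) (hsy : ∀ u v, K u v = K v u)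
    (hM : ∀ u, ∑ v, K u v ≤ M u) (g : V → ℝ) (hg : ∀ u, 0 ≤ g u)
    (hS : ∀ S : Finset V, S ⊆ (univ.filter fun u => 0 < g u) →
      ∑ u ∈ S, ∑ v ∈ S, K u v ≤ (1 - φ) * ∑ u ∈ S, M u) :
    ∑ u, ∑ v, K u v * (g u * g v) ≤ κ * ∑ u, M u * g u ^ 2 := by
  have hsup : (univ.filter fun u => 0 < g u ^ 2) = univ.filter fun u => 0 < g u := by
    ext u
    simp only [mem_filter, mem_univ, true_and]
    constructor
    · intro h
      rcases (hg u).lt_or_eq with h2 | h2
      · exact h2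
      · rw [← h2] at h
        simp at h
    · intro h
      positivity
  have key := Ch2.lay K M φ _ hS _ (fun u => g u ^ 2) (fun u => sq_nonneg _)
    (by rw [hsup]) le_rfl
  set A := ∑ u, M u * g u ^ 2 with hA
  set x := ∑ u, ∑ v, K u v * min (g u ^ 2) (g v ^ 2) with hx
  set F := ∑ u, ∑ v, K u v * (g u * g v) with hF
  have hA0 : 0 ≤ A := sum_nonneg fun u _ => mul_nonneg (hM0 u) (sq_nonneg _)
  have r1 : ∑ u, ∑ v, K u v * g u ^ 2 ≤ A := by
    refine sum_le_sum fun u _ => ?_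
    rw [← sum_mul]
    exact mul_le_mul_of_nonneg_right (hM u) (sq_nonneg _)
  have r2 : ∑ u, ∑ v, K u v * g v ^ 2 ≤ A := by
    rw [sum_comm]
    refine sum_le_sum fun u _ => ?_
    rw [← sum_mul]
    have : ∑ i, K i u = ∑ i, K u i := sum_congr rfl fun i _ => hsy i u
    rw [this]
    exact mul_le_mul_of_nonneg_right (hM u) (sq_nonneg _)
  have r3 : ∑ u, ∑ v, K u v * max (g u ^ 2) (g v ^ 2) ≤ 2 * A - x := by
    have e : ∀ u v, K u v * max (g u ^ 2) (g v ^ 2) = K u v * g u ^ 2 + K u v * g v ^ 2 -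
        K u v * min (g u ^ 2) (g v ^ 2) := by
      intro u v
      have := min_add_max (g u ^ 2) (g v ^ 2)
      rw [← mul_add, ← mul_sub, ← this]
      ring
    simp only [e, sum_sub_distrib, sum_add_distrib]
    rw [← hx]
    linarith
  have r4 : 4 * κ * F ≤ 4 * x + κ ^ 2 * ∑ u, ∑ v, K u v * max (g u ^ 2) (g v ^ 2) := by
    rw [hF, hx, mul_sum, mul_sum, mul_sum, ← sum_add_distrib]
    refine sum_le_sum fun u _ => ?_
    rw [mul_sum, mul_sum, mul_sum, ← sum_add_distrib]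
    refine sum_le_sum fun v _ => ?_
    have hp := hK u v
    have h3 : 4 * κ * (g u * g v) ≤ 4 * min (g u ^ 2) (g v ^ 2) +
        κ ^ 2 * max (g u ^ 2) (g v ^ 2) := by
      rcases le_total (g u) (g v) with hle | hle
      · have h4 : g u ^ 2 ≤ g v ^ 2 := pow_le_pow_left₀ (hg u) hle 2
        rw [min_eq_left h4, max_eq_right h4]
        nlinarith [sq_nonneg (2 * g u - κ * g v)]
      · have h4 : g v ^ 2 ≤ g u ^ 2 := pow_le_pow_left₀ (hg v) hle 2
        rw [min_eq_right h4, max_eq_left h4]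
        nlinarith [sq_nonneg (2 * g v - κ * g u)]
    have h5 := mul_le_mul_of_nonneg_left h3 hp
    nlinarith
  have hκ2' : 0 < κ ^ 2 := by positivity
  have hκ4 : κ ^ 2 ≤ 4 := by nlinarith
  have r5 : 4 * κ * F ≤ 2 * κ ^ 2 * A + (4 - κ ^ 2) * x := by
    have := mul_le_mul_of_nonneg_left r3 hκ2'.le
    nlinarith
  have r6 : (4 - κ ^ 2) * x ≤ (4 - κ ^ 2) * (κ ^ 2 / 2 * A) :=
    mul_le_mul_of_nonneg_left (key.trans (mul_le_mul_of_nonneg_right hκφ hA0)) (by linarith)
  have r7 : 4 * κ * F ≤ 4 * κ * (κ * A) := by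
    have : 0 ≤ κ ^ 2 * (κ ^ 2 * A) := by positivity
    nlinarith
  exact le_of_mul_le_mul_left r7 (by linarith)

/-- local Cheeger inequality for two functions -/
theorem ch2s {W : Type} [Fintype W] [DecidableEq W] (w : W → W → ℝ)
    (hw : ∀ u v, 0 ≤ w u v) (hs : ∀ u v, w u v = w v u) (B φ κ : ℝ) (hκ0 : 0 < κ) (hκ2 : κ ≤ 2)
    (hκφ : 1 - φ ≤ κ ^ 2 / 2) (hB : SE1 w B φ) (f g : W → ℝ) (hf : ∀ u, 0 ≤ f u)
    (hg : ∀ u, 0 ≤ g u)
    (hsupp : ∑ u ∈ univ.filter (fun u => 0 < f u ∨ 0 < g u), ∑ z, w u z ≤ B) :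
    2 * ∑ u, ∑ v, w u v * (g u * f v) ≤
      κ * ∑ u, (∑ z, w u z) * (f u ^ 2 + g u ^ 2) := by
  set m : W → ℝ := fun u => ∑ z, w u z with hm
  have hm0 : ∀ u, 0 ≤ m u := fun u => sum_nonneg fun z _ => hw u z
  have key := ch2s_gen (V := W ⊕ W) (Ch2.K w) (Sum.elim m m) φ κ hκ0 hκ2 hκφ ?_ ?_ ?_ ?_
    (Sum.elim f g) ?_ ?_
  · rw [Fintype.sum_sum_type, Fintype.sum_sum_type] at key
    simp only [Fintype.sum_sum_type, Sum.elim_inl, Sum.elim_inr, Ch2.K, zero_mul,
      sum_const_zero, zero_add, add_zero] at key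
    have e1 : ∑ u, ∑ v, w u v * (f u * g v) = ∑ u, ∑ v, w u v * (g u * f v) := by
      rw [sum_comm]
      refine sum_congr rfl fun u _ => sum_congr rfl fun v _ => ?_
      rw [hs v u]
      ring
    rw [e1] at key
    have e2 : ∑ u, m u * (f u ^ 2 + g u ^ 2) = ∑ u, m u * f u ^ 2 + ∑ u, m u * g u ^ 2 := by
      rw [← sum_add_distrib]
      exact sum_congr rfl fun u _ => by ring
    rw [e2]
    linarith
  · rintro (u | u)
    · exact hm0 u
    · exact hm0 u
  · rintro (u | u) (v | v) <;> simp only [Ch2.K]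
    · exact le_rfl
    · exact hw u v
    · exact hw u v
    · exact le_rfl
  · rintro (u | u) (v | v) <;> simp only [Ch2.K]
    · exact hs u v
    · exact hs u v
  · rintro (u | u)
    · rw [Fintype.sum_sum_type]; simp [Ch2.K, hm]
    · rw [Fintype.sum_sum_type]; simp [Ch2.K, hm]
  · rintro (u | u)
    · exact hf u
    · exact hg u
  · intro S hS
    rw [← Finset.toLeft_disjSum_toRight (u := S)]
    simp only [Finset.sum_disjSum, Ch2.K, Sum.elim_inl, Sum.elim_inr, sum_const_zero, zero_add,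
      add_zero]
    have hA : S.toLeft ∪ S.toRight ⊆ univ.filter (fun u => 0 < f u ∨ 0 < g u) := by
      intro u hu
      rw [mem_filter]
      refine ⟨mem_univ _, ?_⟩
      rw [mem_union, Finset.mem_toLeft, Finset.mem_toRight] at hu
      rcases hu with hu | hu
      · left
        have := hS hu
        rw [mem_filter] at this
        exact this.2
      · right
        have := hS hu
        rw [mem_filter] at this
        exact this.2
    have h2 := Ch2.two w hw hs B φ hB S.toLeft S.toRight (le_trans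
      (sum_le_sum_of_subset_of_nonneg hA fun u _ _ => sum_nonneg fun z _ => hw u z) hsupp)
    have hsw : ∑ u ∈ S.toRight, ∑ v ∈ S.toLeft, w u v = ∑ u ∈ S.toLeft, ∑ v ∈ S.toRight, w u v := by
      rw [sum_comm]
      exact sum_congr rfl fun u _ => sum_congr rfl fun v _ => hs v u
    rw [hsw, ← two_mul]
    exact h2

/-- decay of the densities in one step -/
theorem dec_s {W : Type} [Fintype W] [DecidableEq W] (w : W → W → ℝ)
    (hw : ∀ u v, 0 ≤ w u v) (hs : ∀ u v, w u v = w v u) (B φ κ : ℝ) (hBp : 0 < B) (hκ0 : 0 < κ)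
    (hκ2 : κ ≤ 2) (hκφ : 1 - φ ≤ κ ^ 2 / 2) (hB : SE1 w B φ) (t : ℕ) (v : W) :
    ∑ u, (∑ z, w u z) * Hd w (t + 1) u v ^ 2 ≤
      κ ^ 2 * ∑ u, (∑ z, w u z) * Hd w t u v ^ 2 + 8 / B := by
  have ha := Hd_next w hw t
  have hf0 : ∀ u, 0 ≤ Hd w t u v := fun u => Hd_nonneg hw t u v
  have hg0 : ∀ u, 0 ≤ Hd w (t + 1) u v := fun u => Hd_nonneg hw (t + 1) u v
  have hfs := Hd_sub' w hw hs t v
  have hgs := Hd_sub' w hw hs (t + 1) v
  have ha' : ∀ u, ∑ z, w u z * Hd w t z v = (∑ z, w u z) * Hd w (t + 1) u v := fun u => ha u v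
  generalize hf : (fun u => Hd w t u v) = f at *
  generalize hg : (fun u => Hd w (t + 1) u v) = g at *
  have ef : ∀ u, Hd w t u v = f u := fun u => congrFun hf u
  have eg : ∀ u, Hd w (t + 1) u v = g u := fun u => congrFun hg u
  simp only [ef, eg] at *
  set m : W → ℝ := fun u => ∑ z, w u z with hm
  have hm0 : ∀ u, 0 ≤ m u := fun u => sum_nonneg fun z _ => hw u z
  change ∑ u, m u * g u ^ 2 ≤ κ ^ 2 * ∑ u, m u * f u ^ 2 + 8 / B
  change ∑ u, m u * f u ≤ 1 at hfs
  change ∑ u, m u * g u ≤ 1 at hgs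
  obtain ⟨b, hb⟩ : ∃ b, b = 2 / B := ⟨_, rfl⟩
  have hb0 : 0 < b := by rw [hb]; positivity
  set f1 : W → ℝ := fun u => max (f u - b) 0 with hf1
  set g1 : W → ℝ := fun u => max (g u - b) 0 with hg1
  have hsupp : ∑ u ∈ univ.filter (fun u => 0 < f1 u ∨ 0 < g1 u), m u ≤ B := by
    have h1 : ∀ u ∈ univ.filter (fun u => 0 < f1 u ∨ 0 < g1 u),
        m u ≤ (m u * f u + m u * g u) / b := by
      intro u hu
      rw [le_div_iff₀ hb0, ← mul_add]
      refine mul_le_mul_of_nonneg_left ?_ (hm0 u)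
      rcases (mem_filter.mp hu).2 with h | h
      · have h2 : b < f u := by
          by_contra hc
          push Not at hc
          have : f1 u = 0 := max_eq_right (by linarith)
          linarith
        linarith [hg0 u]
      · have h2 : b < g u := by
          by_contra hc
          push Not at hc
          have : g1 u = 0 := max_eq_right (by linarith)
          linarith
        linarith [hf0 u]
    calc ∑ u ∈ univ.filter (fun u => 0 < f1 u ∨ 0 < g1 u), m u
        ≤ ∑ u ∈ univ.filter (fun u => 0 < f1 u ∨ 0 < g1 u), (m u * f u + m u * g u) / b :=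
          sum_le_sum h1
      _ ≤ ∑ u, (m u * f u + m u * g u) / b := by
          refine sum_le_sum_of_subset_of_nonneg (filter_subset _ _) fun u _ _ => ?_
          have := mul_nonneg (hm0 u) (hf0 u)
          have := mul_nonneg (hm0 u) (hg0 u)
          positivity
      _ = (∑ u, m u * f u + ∑ u, m u * g u) / b := by rw [← sum_div, sum_add_distrib]
      _ ≤ 2 / b := by
          refine div_le_div_of_nonneg_right (by linarith) hb0.le
      _ = B := by
          rw [hb]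
          field_simp
  obtain ⟨r, hr⟩ : ∃ r, r = Real.sqrt κ := ⟨_, rfl⟩
  have hr0 : 0 < r := by rw [hr]; exact Real.sqrt_pos.2 hκ0
  have hr2 : r ^ 2 = κ := by rw [hr]; exact Real.sq_sqrt hκ0.le
  have hf10 : ∀ u, 0 ≤ f1 u := fun u => le_max_right _ _
  have hg10 : ∀ u, 0 ≤ g1 u := fun u => le_max_right _ _
  have hCH := ch2s w hw hs B φ κ hκ0 hκ2 hκφ hB (fun u => r * f1 u) (fun u => g1 u / r)
    (fun u => mul_nonneg hr0.le (hf10 u)) (fun u => div_nonneg (hg10 u) hr0.le) (by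
      refine le_trans (le_of_eq ?_) hsupp
      refine sum_congr ?_ fun _ _ => rfl
      ext u
      simp only [mem_filter, mem_univ, true_and]
      rw [mul_pos_iff_of_pos_left hr0, div_pos_iff_of_pos_right hr0])
  have e1 : ∀ u v, w u v * (g1 u / r * (r * f1 v)) = w u v * (g1 u * f1 v) := by
    intro u v
    field_simp
  have e2 : ∀ u, (∑ z, w u z) * ((r * f1 u) ^ 2 + (g1 u / r) ^ 2) =
      κ * (m u * f1 u ^ 2) + κ⁻¹ * (m u * g1 u ^ 2) := by
    intro u
    rw [mul_pow, div_pow, hr2]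
    show m u * (κ * f1 u ^ 2 + g1 u ^ 2 / κ) = _
    field_simp
  simp only [e1, e2, sum_add_distrib, ← mul_sum] at hCH
  have e3 : κ * (κ * ∑ u, m u * f1 u ^ 2 + κ⁻¹ * ∑ u, m u * g1 u ^ 2) =
      κ ^ 2 * ∑ u, m u * f1 u ^ 2 + ∑ u, m u * g1 u ^ 2 := by
    field_simp
  rw [e3] at hCH
  have hf1s : ∑ u, m u * f1 u ^ 2 ≤ ∑ u, m u * f u ^ 2 :=
    sum_le_sum fun u _ => mul_le_mul_of_nonneg_left (pow_le_pow_left₀ (hf10 u)
      (max_le (by linarith) (hf0 u)) 2) (hm0 u)
  have hg1s : ∑ u, m u * g1 u ^ 2 ≤ ∑ u, m u * g u ^ 2 :=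
    sum_le_sum fun u _ => mul_le_mul_of_nonneg_left (pow_le_pow_left₀ (hg10 u)
      (max_le (by linarith) (hg0 u)) 2) (hm0 u)
  have hY : ∑ u, m u * g u ^ 2 = ∑ u, ∑ z, w u z * (g u * f z) := by
    refine sum_congr rfl fun u _ => ?_
    have : ∑ z, w u z * (g u * f z) = g u * ∑ z, w u z * f z := by
      rw [mul_sum]; exact sum_congr rfl fun z _ => by ring
    rw [this, ha' u]; ring
  have hsplit : ∑ u, ∑ z, w u z * (g u * f z) ≤ ∑ u, ∑ z, w u z * (g1 u * f1 z) +
      b * (∑ u, m u * g u + ∑ u, m u * f u) := by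
    have e4 : ∑ u, m u * g u = ∑ u, ∑ z, w u z * g u := by
      refine sum_congr rfl fun u _ => ?_
      rw [hm, sum_mul]
    have e5 : ∑ u, m u * f u = ∑ u, ∑ z, w u z * f z := by
      rw [sum_comm]
      refine sum_congr rfl fun u _ => ?_
      rw [hm, sum_mul]
      exact sum_congr rfl fun z _ => by rw [hs]
    rw [e4, e5, ← sum_add_distrib, mul_sum, ← sum_add_distrib]
    refine sum_le_sum fun u _ => ?_
    rw [← sum_add_distrib, mul_sum, ← sum_add_distrib]
    refine sum_le_sum fun z _ => ?_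
    have h1 : g u ≤ g1 u + b := by
      have : g u - b ≤ g1 u := le_max_left _ _
      linarith
    have h2 : f z ≤ f1 z + b := by
      have : f z - b ≤ f1 z := le_max_left _ _
      linarith
    have h3 : g1 u ≤ g u := max_le (by linarith) (hg0 u)
    have h4 : g u * f z ≤ g1 u * f1 z + b * (g u + f z) := by
      nlinarith [hf0 z, hg10 u, hf10 z, hg0 u, mul_nonneg (hg10 u) (sub_nonneg.2 h2),
        mul_nonneg (hf0 z) (sub_nonneg.2 h1), mul_nonneg hb0.le (sub_nonneg.2 h3)]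
    have h5 := mul_le_mul_of_nonneg_left h4 (hw u z)
    linarith
  have h6 : b * (∑ u, m u * g u + ∑ u, m u * f u) ≤ 2 * b := by nlinarith
  have h7 : 8 / B = 4 * b := by rw [hb]; ring
  have h8 := mul_le_mul_of_nonneg_left hf1s (sq_nonneg κ)
  rw [h7]
  linarith

/-- the densities at one vertex -/
theorem F_s {W : Type} [Fintype W] [DecidableEq W] (w : W → W → ℝ)
    (hw : ∀ u v, 0 ≤ w u v) (hs : ∀ u v, w u v = w v u) (B φ κ : ℝ) (hBp : 0 < B) (hκ0 : 0 < κ)
    (hκ2 : κ ^ 2 ≤ 1 / 2) (hκφ : 1 - φ ≤ κ ^ 2 / 2) (hB : SE1 w B φ) (v : W)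
    (hv : 0 < ∑ z, w v z) (t : ℕ) :
    ∑ u, (∑ z, w u z) * Hd w t u v ^ 2 ≤ 16 / B + (κ ^ 2) ^ t / ∑ z, w v z := by
  have h8 : 0 < 8 / B := by positivity
  have h16 : 16 / B = 2 * (8 / B) := by ring
  induction t with
  | zero =>
    have e : ∑ u, (∑ z, w u z) * Hd w 0 u v ^ 2 = 1 / ∑ z, w v z := by
      rw [sum_eq_single v]
      · have h1 : Hd w 0 v v = 1 / ∑ z, w v z := by unfold Hd wk; rw [if_pos rfl]
        rw [h1]
        field_simp
      · intro u _ hu
        have h1 : Hd w 0 u v = 0 := by unfold Hd wk; rw [if_neg hu, zero_div]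
        rw [h1]
        ring
      · intro h; exact absurd (mem_univ v) h
    rw [e, pow_zero]
    linarith
  | succ t ih =>
    have h1 := dec_s w hw hs B φ κ hBp hκ0 (by nlinarith) hκφ hB t v
    have h2 := mul_le_mul_of_nonneg_left ih (sq_nonneg κ)
    have h3 : κ ^ 2 * (16 / B + (κ ^ 2) ^ t / ∑ z, w v z) =
        κ ^ 2 * (16 / B) + (κ ^ 2) ^ (t + 1) / ∑ z, w v z := by
      rw [pow_succ]; ring
    rw [h3] at h2
    have h4 : κ ^ 2 * (16 / B) ≤ 1 / 2 * (16 / B) :=
      mul_le_mul_of_nonneg_right hκ2 (by positivity)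
    linarith

/-- the trace of a power of the walk -/
theorem tr_s {W : Type} [Fintype W] [DecidableEq W] (w : W → W → ℝ)
    (hw : ∀ u v, 0 ≤ w u v) (hs : ∀ u v, w u v = w v u) (B φ κ : ℝ) (hBp : 0 < B) (hκ0 : 0 < κ)
    (hκ2 : κ ^ 2 ≤ 1 / 2) (hκφ : 1 - φ ≤ κ ^ 2 / 2) (hB : SE1 w B φ) (T : ℕ) (hT : 1 ≤ T) :
    ∑ u, wk w (2 * T) u u ≤ 16 * (∑ u, ∑ z, w u z) / B + Fintype.card W * (κ ^ 2) ^ T := by
  have hm0 : ∀ u, 0 ≤ ∑ z, w u z := fun u => sum_nonneg fun z _ => hw u z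
  have hone : ∀ v, wk w (2 * T) v v ≤ 16 * (∑ z, w v z) / B + (κ ^ 2) ^ T := by
    intro v
    have hR0 : 0 ≤ 16 * (∑ z, w v z) / B + (κ ^ 2) ^ T := by
      have := hm0 v
      positivity
    rcases (hm0 v).eq_or_lt with hv | hv
    · obtain ⟨j, hj⟩ : ∃ j, 2 * T = j + 1 := ⟨2 * T - 1, by omega⟩
      have : wk w (2 * T) v v = 0 := by
        rw [hj]
        show (∑ z, w v z * wk w j z v) / ∑ z, w v z = 0
        rw [← hv, div_zero]
      rw [this]
      exact hR0
    · have hF := F_s w hw hs B φ κ hBp hκ0 hκ2 hκφ hB v hv T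
      have e1 : wk w (2 * T) v v = (∑ z, w v z) * ∑ u, (∑ z, w u z) * Hd w T u v ^ 2 := by
        rw [two_mul, wk_add, mul_sum]
        refine sum_congr rfl fun u _ => ?_
        have e2 : (∑ z, w v z) * ((∑ z, w u z) * Hd w T u v ^ 2) =
            ((∑ z, w u z) * ((∑ z, w v z) * Hd w T u v)) * Hd w T u v := by ring
        rw [e2, mHd hw hs, wk_symm hw hs]
        unfold Hd
        have := hv.ne'
        field_simp
      rw [e1]
      refine (mul_le_mul_of_nonneg_left hF hv.le).trans (le_of_eq ?_)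
      have := hv.ne'
      field_simp
  refine (sum_le_sum fun v _ => hone v).trans ?_
  rw [sum_add_distrib, ← sum_div, ← mul_sum, sum_const, card_univ, nsmul_eq_mul]

end Pool.Agent.Helper72.SA
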