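import Pool.Agent.Helper72.SA.TopD

/-!
The random walk on the constraint graph, in terms of the edges.
-/

set_option autoImplicit false

namespace Pool.Agent.Helper72.SA

open Finset Pool.Agent.H647R3.UG Pool.Agent.H573R3.SL Pool.Agent.TH522.UG

section
variable {V E : Type} [Fintype V] [DecidableEq V] [Fintype E]

theorem wt_sum (s t : E → V) (u : V) (f : V → ℝ) :
    ∑ z, wt s t u z * f z = ∑ e, ((if s e = u then f (t e) else 0) +
      (if t e = u then f (s e) else 0)) := by
  have h1 : ∀ z, wt s t u z * f z = ∑ e : E, ((if s e = u ∧ t e = z then f z else 0) +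
      (if s e = z ∧ t e = u then f z else 0)) := by
    intro z
    unfold wt
    rw [Finset.sum_add_distrib, add_mul]
    congr 1
    · rw [← Finset.sum_boole, Finset.sum_mul]
      refine Finset.sum_congr rfl fun e _ => ?_
      split_ifs <;> simp
    · rw [← Finset.sum_boole, Finset.sum_mul]
      refine Finset.sum_congr rfl fun e _ => ?_
      split_ifs <;> simp
  rw [Finset.sum_congr rfl fun z _ => h1 z, Finset.sum_comm]
  refine Finset.sum_congr rfl fun e _ => ?_
  rw [Finset.sum_add_distrib]
  congr 1
  · by_cases h : s e = u
    · simp only [h, true_and, if_true]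
      rw [Finset.sum_ite_eq univ (t e), if_pos (mem_univ _)]
    · simp [h]
  · by_cases h : t e = u
    · simp only [h, and_true, if_true]
      rw [Finset.sum_ite_eq univ (s e), if_pos (mem_univ _)]
    · simp [h]

end

end Pool.Agent.Helper72.SA
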