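import Pool.Agent.Helper72.SA.TopG
import Pool.Agent.Helper72.SA.WalkD
import Pool.Agent.Helper72.SA.OneS

/-!
Games with two sides: rounding with the trace of the walk, and rounding or a small set from which
the walk hardly escapes.
-/

set_option autoImplicit false

namespace Pool.Agent.Helper72.SA

open Finset Pool.Agent.H647R3.UG Pool.Agent.H573R3.SL Pool.Agent.TH522.UG Pool.Agent.TH522.US
  Pool.Agent.TH522.DG

section
variable {V W A B E : Type} [Fintype V] [DecidableEq V] [Fintype W] [DecidableEq W]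
  [Fintype A] [Fintype B] [Fintype E]

/-- rounding for games with two sides, in terms of the return probabilities -/
theorem coreP (v : E → V) (w : E → W) (f : E → A → B → ℝ) (d₁ d₂ : ℝ)
    (hf0 : ∀ e a b, 0 ≤ f e a b) (hf1 : ∀ e a b, f e a b ≤ 1)
    (h1 : ∀ e a, ∑ b, f e a b ≤ d₁) (h2 : ∀ e b, ∑ a, f e a b ≤ d₂) (hd₁ : 0 ≤ d₁) (hd₂ : 0 ≤ d₂)
    (hd : 1 ≤ d₁ * d₂) (c δ P : ℝ) (hδ : 0 < δ) (hδ1 : δ ≤ 1) (T D : ℕ) (hP1 : 1 ≤ P)
    (hP : ∑ u, wk (wt (fun e => (Sum.inl (w e) : W ⊕ V)) (fun e => (Sum.inr (v e) : W ⊕ V)))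
      (2 * T) u u ≤ P)
    (hD : 2 * P * (8 * Real.sqrt (d₁ * d₂) / δ ^ 2) ^ (2 * T + 4) / δ ≤ D)
    (L : ((W → A) × (V → B) → ℝ) →ₗ[ℝ] ℝ) (hL1 : L (fun _ => 1) = 1)
    (hL2 : ∀ (S : Finset W) (T : Finset V), S.card + T.card ≤ D →
      ∀ f : (W → A) × (V → B) → ℝ, Dep2 S T f → (∀ z, 0 ≤ f z) → 0 ≤ L f)
    (hS : c * (Fintype.card E : ℝ) ≤ ∑ e, L (fun z => f e (z.1 (w e)) (z.2 (v e)))) :
    ∃ (x : W → A) (y : V → B), (c - δ) * (Fintype.card E : ℝ) ≤
      ∑ e, f e (x (w e)) (y (v e)) := by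
  classical
  have hne : Nonempty ((W → A) × (V → B)) := by
    by_contra hcon
    rw [not_nonempty_iff] at hcon
    have h2 : (fun _ : (W → A) × (V → B) => (1 : ℝ)) = 0 := Subsingleton.elim _ _
    rw [h2, map_zero] at hL1
    exact zero_ne_one hL1
  obtain ⟨x0, y0⟩ := hne
  rcases isEmpty_or_nonempty E with hE | ⟨⟨e0⟩⟩
  · refine ⟨x0, y0, ?_⟩
    simp
  have hA : Nonempty A := ⟨x0 (w e0)⟩
  have hB : Nonempty B := ⟨y0 (v e0)⟩
  obtain ⟨s, hs⟩ : ∃ s : E → W ⊕ V, s = fun e => Sum.inl (w e) := ⟨_, rfl⟩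
  obtain ⟨t, ht⟩ : ∃ t : E → W ⊕ V, t = fun e => Sum.inr (v e) := ⟨_, rfl⟩
  obtain ⟨q, hq⟩ : ∃ q : E → A ⊕ B → A ⊕ B → ℝ, q = fun e => ext2 (f e) := ⟨_, rfl⟩
  rw [← hs, ← ht] at hP
  have hval : c * (Fintype.card E : ℝ) ≤ SatG s t q (Lemb L) := by
    refine hS.trans (le_of_eq ?_)
    unfold SatG
    refine sum_congr rfl fun e _ => ?_
    simp only [hq]
    rw [py_ext2]
    have e1 : ∀ a b, f e a b * pr2 (Lemb L) (s e) (t e) (Sum.inl a) (Sum.inr b) =
        L (fun z => f e a b * ((if z.1 (w e) = a then 1 else 0) *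
          (if z.2 (v e) = b then 1 else 0))) := by
      intro a b
      have e2 : (fun z : (W → A) × (V → B) => f e a b * ((if z.1 (w e) = a then (1 : ℝ) else 0) *
          (if z.2 (v e) = b then 1 else 0))) = f e a b • fun z : (W → A) × (V → B) =>
          ((if z.1 (w e) = a then (1 : ℝ) else 0) * (if z.2 (v e) = b then 1 else 0)) := rfl
      rw [e2, map_smul, smul_eq_mul, hs, ht]
      congr 1
      show L (fun z => (if emb z (Sum.inl (w e)) = Sum.inl a then (1 : ℝ) else 0) *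
        (if emb z (Sum.inr (v e)) = Sum.inr b then 1 else 0)) = _
      congr 1
      funext z
      show (if (Sum.inl (z.1 (w e)) : A ⊕ B) = Sum.inl a then (1 : ℝ) else 0) *
        (if (Sum.inr (z.2 (v e)) : A ⊕ B) = Sum.inr b then 1 else 0) = _
      simp only [Sum.inl.injEq, Sum.inr.injEq]
    simp only [e1, ← map_sum]
    congr 1
    funext z
    simp only [Finset.sum_apply]
    rw [sum_eq_single (z.1 (w e))]
    · rw [sum_eq_single (z.2 (v e))]
      · simp
      · intro b _ hb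
        simp [Ne.symm hb]
      · intro h; exact absurd (mem_univ _) h
    · intro a _ ha
      refine sum_eq_zero fun b _ => ?_
      simp [Ne.symm ha]
    · intro h; exact absurd (mem_univ _) h
  obtain ⟨L', hL', hI⟩ := partG s t q d₁ d₂ (Real.sqrt (d₁ * d₂))
    (by rw [hq]; exact fun e => ext2_pay hd₁ hd₂ (f e) (hf0 e) (hf1 e) (h1 e) (h2 e)) rfl
    (by rw [Real.one_le_sqrt]; exact hd) c δ P hδ hδ1 T D hP1 hP hD (Lemb L)
    (Lemb_SA D L hL1 hL2) hval
  have hfc : FctS 3 L' := Sx.fct (D := 3) (by omega) (by omega) hL'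
  have hle : ∀ z, ∑ x, pr L' z x = 1 := fun z => (hfc.law z z).one
  obtain ⟨x, y, hxy⟩ := round_two v w f hf0 (fun u a => pr L' (Sum.inl u) (Sum.inl a))
    (fun u a => hfc.nn _ _) (fun u => by
      rw [← hle (Sum.inl u), Fintype.sum_sum_type]
      have : 0 ≤ ∑ b : B, pr L' (Sum.inl u) (Sum.inr b) := sum_nonneg fun b _ => hfc.nn _ _
      linarith) (fun u b => pr L' (Sum.inr u) (Sum.inr b)) (fun u b => hfc.nn _ _) (fun u => by
      rw [← hle (Sum.inr u), Fintype.sum_sum_type]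
      have : 0 ≤ ∑ a : A, pr L' (Sum.inr u) (Sum.inl a) := sum_nonneg fun b _ => hfc.nn _ _
      linarith) hA hB
  refine ⟨x, y, le_trans (hI.trans (le_of_eq ?_)) hxy⟩
  unfold IndG
  refine sum_congr rfl fun e _ => ?_
  simp only [hq, hs, ht]
  rw [py_ext2]

omit [Fintype A] [Fintype B] in
/-- trace of the walk if all small sets have expansion close to 1 -/
theorem trace_two (v : E → V) (w : E → W) (η μ : ℝ) (hη : 0 < η) (hη4 : η ≤ 1 / 4) (hμ : 0 < μ)
    (hμ1 : μ ≤ 1) (hE : 0 < Fintype.card E) (hn : 2 ≤ Fintype.card V + Fintype.card W) (T : ℕ)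
    (hT : T = ⌈Real.log ((Fintype.card V : ℝ) + Fintype.card W) / Real.log (1 / (2 * η))⌉₊)
    (hSE : ∀ (S : Finset V) (S' : Finset W),
      0 < ((univ.filter fun e => v e ∈ S).card : ℝ) + ((univ.filter fun e => w e ∈ S').card : ℝ) →
      ((univ.filter fun e => v e ∈ S).card : ℝ) + ((univ.filter fun e => w e ∈ S').card : ℝ) ≤
        μ * (2 * Fintype.card E) →
      2 * ((univ.filter fun e => v e ∈ S ∧ w e ∈ S').card : ℝ) ≤
      η * (((univ.filter fun e => v e ∈ S).card : ℝ) +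
        ((univ.filter fun e => w e ∈ S').card : ℝ))) :
    ∑ u, wk (wt (fun e => (Sum.inl (w e) : W ⊕ V)) (fun e => (Sum.inr (v e) : W ⊕ V)))
      (2 * T) u u ≤ 17 / μ := by
  classical
  obtain ⟨s, hs⟩ : ∃ s : E → W ⊕ V, s = fun e => Sum.inl (w e) := ⟨_, rfl⟩
  obtain ⟨t, ht⟩ : ∃ t : E → W ⊕ V, t = fun e => Sum.inr (v e) := ⟨_, rfl⟩
  rw [← hs, ← ht]
  obtain ⟨hw0, hws, hwd, hwC, hwsum, hwend, hwF, hwh, hwins⟩ := T_WT (W ⊕ V) E s t
  have hE0 : (0 : ℝ) < Fintype.card E := by exact_mod_cast hE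
  have hcard : (Fintype.card (W ⊕ V) : ℝ) = (Fintype.card V : ℝ) + Fintype.card W := by
    rw [Fintype.card_sum]
    push_cast
    ring
  have hn2 : (2 : ℝ) ≤ (Fintype.card V : ℝ) + Fintype.card W := by exact_mod_cast hn
  obtain ⟨n, hnn⟩ : ∃ n : ℝ, n = (Fintype.card V : ℝ) + Fintype.card W := ⟨_, rfl⟩
  rw [← hnn] at hT hcard hn2
  have hn0 : 0 < n := by linarith
  have h2η : 0 < 2 * η := by linarith
  have hlη : 0 < Real.log (1 / (2 * η)) := by
    refine Real.log_pos ?_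
    rw [lt_div_iff₀ h2η]
    linarith
  have hlogn : 0 < Real.log n := Real.log_pos (by linarith)
  have hTl : Real.log n / Real.log (1 / (2 * η)) ≤ T := by rw [hT]; exact Nat.le_ceil _
  have hT0 : (0 : ℝ) < T := lt_of_lt_of_le (by positivity) hTl
  have hT1 : 1 ≤ T := by
    have : 0 < T := by exact_mod_cast hT0
    omega
  have hsq : Real.sqrt (2 * η) ^ 2 = 2 * η := Real.sq_sqrt h2η.le
  have hSE1 : SE1 (wt s t) (μ * (2 * Fintype.card E)) (1 - η) := by
    intro S hSv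
    rw [sub_sub_cancel]
    have hsub : ∑ u ∈ S, ∑ v ∈ S, wt s t u v ≤ ∑ u ∈ S, ∑ z, wt s t u z :=
      sum_le_sum fun u _ => sum_le_sum_of_subset_of_nonneg (subset_univ _) fun z _ _ => hw0 u z
    have hnn0 : 0 ≤ ∑ u ∈ S, ∑ z, wt s t u z :=
      sum_nonneg fun u _ => sum_nonneg fun z _ => hw0 u z
    rcases hnn0.eq_or_lt with h0 | h0
    · rw [← h0] at hsub ⊢
      linarith
    · simp only [hwd] at hSv h0 ⊢
      have e1 : ∑ z ∈ S, dgr s t z = ((univ.filter fun e => v e ∈ S.toRight).card : ℝ) +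
          ((univ.filter fun e => w e ∈ S.toLeft).card : ℝ) := by
        have e2 : ∀ z, dgr s t z = ∑ e, ((if t e = z then (1 : ℝ) else 0) +
            (if s e = z then 1 else 0)) := by
          intro z
          unfold dgr
          rw [sum_add_distrib, card_filter, card_filter]
          push_cast
          ring
        simp only [e2]
        rw [sum_comm, card_filter, card_filter]
        push_cast
        rw [← sum_add_distrib]
        refine sum_congr rfl fun e _ => ?_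
        rw [sum_add_distrib, sum_ite_eq, sum_ite_eq]
        simp only [hs, ht, mem_toRight, mem_toLeft]
      have e3 : (univ.filter fun e => s e ∈ S ∧ t e ∈ S) =
          univ.filter fun e => v e ∈ S.toRight ∧ w e ∈ S.toLeft := by
        ext e
        simp only [mem_filter, mem_univ, true_and, hs, ht, mem_toRight, mem_toLeft]
        exact and_comm
      have e4 := hwF S (fun _ _ => 1) (fun _ _ => rfl)
      simp only [mul_one, sum_const, nsmul_eq_mul] at e4
      have e5 : ∑ u ∈ S, ∑ v ∈ S, wt s t u v =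
          2 * ((univ.filter fun e => s e ∈ S ∧ t e ∈ S).card : ℝ) := e4
      rw [e5, e3]
      rw [e1] at hSv h0 ⊢
      exact hSE _ _ h0 hSv
  have htr := tr_s (wt s t) hw0 hws (μ * (2 * Fintype.card E)) (1 - η) (Real.sqrt (2 * η))
    (by positivity) (Real.sqrt_pos.2 h2η) (by rw [hsq]; linarith) (by rw [hsq]; linarith) hSE1 T hT1
  have hvol : ∑ u, ∑ z, wt s t u z = 2 * Fintype.card E := by
    simp only [hwd]
    exact hwsum
  rw [hvol, hsq, hcard] at htr
  have h1 : 16 * (2 * (Fintype.card E : ℝ)) / (μ * (2 * Fintype.card E)) = 16 / μ := by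
    field_simp
  rw [h1] at htr
  have h2 : n * (2 * η) ^ T ≤ 1 := by
    have h3 : Real.log n ≤ T * Real.log (1 / (2 * η)) := by
      rw [div_le_iff₀ hlη] at hTl
      exact hTl
    have h4 : n ≤ (1 / (2 * η)) ^ T := by
      rw [← Real.exp_log hn0, ← Real.exp_log (show 0 < 1 / (2 * η) by positivity),
        ← Real.exp_nat_mul]
      exact Real.exp_le_exp.2 h3
    calc n * (2 * η) ^ T ≤ (1 / (2 * η)) ^ T * (2 * η) ^ T :=
          mul_le_mul_of_nonneg_right h4 (by positivity)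
      _ = 1 := by
          rw [← mul_pow, one_div, inv_mul_cancel₀ h2η.ne', one_pow]
  have h3 : 1 ≤ 1 / μ := by rw [le_div_iff₀ hμ]; linarith
  have h4 : 17 / μ = 16 / μ + 1 / μ := by ring
  linarith

/-- rounding for games with two sides, or a small set from which the walk hardly escapes -/
theorem coreQ (v : E → V) (w : E → W) (f : E → A → B → ℝ) (d₁ d₂ : ℝ)
    (hf0 : ∀ e a b, 0 ≤ f e a b) (hf1 : ∀ e a b, f e a b ≤ 1)
    (h1 : ∀ e a, ∑ b, f e a b ≤ d₁) (h2 : ∀ e b, ∑ a, f e a b ≤ d₂) (hd₁ : 0 ≤ d₁) (hd₂ : 0 ≤ d₂)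
    (hd : 1 ≤ d₁ * d₂) (c δ η μ : ℝ) (hδ : 0 < δ) (hδ1 : δ ≤ 1) (hη : 0 < η) (hη4 : η ≤ 1 / 4)
    (hμ : 0 < μ) (hμ1 : μ ≤ 1) (hn : 2 ≤ Fintype.card V + Fintype.card W) (D : ℕ)
    (hD : 34 * (8 * Real.sqrt (d₁ * d₂) / δ ^ 2) ^ 6 *
      ((Fintype.card V : ℝ) + Fintype.card W) ^
        (2 * Real.log (8 * Real.sqrt (d₁ * d₂) / δ ^ 2) / Real.log (1 / (2 * η))) / (μ * δ) ≤ D)
    (L : ((W → A) × (V → B) → ℝ) →ₗ[ℝ] ℝ) (hL1 : L (fun _ => 1) = 1)
    (hL2 : ∀ (S : Finset W) (T : Finset V), S.card + T.card ≤ D →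
      ∀ f : (W → A) × (V → B) → ℝ, Dep2 S T f → (∀ z, 0 ≤ f z) → 0 ≤ L f)
    (hS : c * (Fintype.card E : ℝ) ≤ ∑ e, L (fun z => f e (z.1 (w e)) (z.2 (v e)))) :
    (∃ (x : W → A) (y : V → B), (c - δ) * (Fintype.card E : ℝ) ≤
      ∑ e, f e (x (w e)) (y (v e))) ∨
    ∃ (S : Finset V) (S' : Finset W),
      0 < ((univ.filter fun e => v e ∈ S).card : ℝ) + ((univ.filter fun e => w e ∈ S').card : ℝ) ∧
      ((univ.filter fun e => v e ∈ S).card : ℝ) + ((univ.filter fun e => w e ∈ S').card : ℝ) ≤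
        μ * (2 * Fintype.card E) ∧
      η * (((univ.filter fun e => v e ∈ S).card : ℝ) +
        ((univ.filter fun e => w e ∈ S').card : ℝ)) <
      2 * ((univ.filter fun e => v e ∈ S ∧ w e ∈ S').card : ℝ) := by
  classical
  by_cases hX : ∃ (S : Finset V) (S' : Finset W),
      0 < ((univ.filter fun e => v e ∈ S).card : ℝ) + ((univ.filter fun e => w e ∈ S').card : ℝ) ∧
      ((univ.filter fun e => v e ∈ S).card : ℝ) + ((univ.filter fun e => w e ∈ S').card : ℝ) ≤
        μ * (2 * Fintype.card E) ∧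
      η * (((univ.filter fun e => v e ∈ S).card : ℝ) +
        ((univ.filter fun e => w e ∈ S').card : ℝ)) <
      2 * ((univ.filter fun e => v e ∈ S ∧ w e ∈ S').card : ℝ)
  · exact Or.inr hX
  left
  rcases Nat.eq_zero_or_pos (Fintype.card E) with hE | hE
  · have hne : Nonempty ((W → A) × (V → B)) := by
      by_contra hcon
      rw [not_nonempty_iff] at hcon
      have h2 : (fun _ : (W → A) × (V → B) => (1 : ℝ)) = 0 := Subsingleton.elim _ _
      rw [h2, map_zero] at hL1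
      exact zero_ne_one hL1
    obtain ⟨x0, y0⟩ := hne
    refine ⟨x0, y0, ?_⟩
    rw [hE]
    have : 0 ≤ ∑ e, f e (x0 (w e)) (y0 (v e)) := sum_nonneg fun e _ => hf0 e _ _
    simpa using this
  obtain ⟨T, hT⟩ : ∃ T : ℕ, T =
      ⌈Real.log ((Fintype.card V : ℝ) + Fintype.card W) / Real.log (1 / (2 * η))⌉₊ := ⟨_, rfl⟩
  have htr := trace_two v w η μ hη hη4 hμ hμ1 hE hn T hT (by
    intro S S' ha hb
    by_contra hc
    exact hX ⟨S, S', ha, hb, not_le.1 hc⟩)
  refine coreP v w f d₁ d₂ hf0 hf1 h1 h2 hd₁ hd₂ hd c δ (17 / μ) hδ hδ1 T D (by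
    rw [le_div_iff₀ hμ]; linarith) htr ?_ L hL1 hL2 hS
  have hδ2 : δ ^ 2 ≤ 1 := pow_le_one₀ hδ.le hδ1
  have hβ : 1 ≤ Real.sqrt (d₁ * d₂) := by rw [Real.one_le_sqrt]; exact hd
  obtain ⟨R, hR⟩ : ∃ R, R = 8 * Real.sqrt (d₁ * d₂) / δ ^ 2 := ⟨_, rfl⟩
  rw [← hR] at hD ⊢
  have hR8 : 8 ≤ R := by
    rw [hR, le_div_iff₀ (by positivity)]
    nlinarith
  have hR0 : 0 < R := by linarith
  have hn2 : (2 : ℝ) ≤ (Fintype.card V : ℝ) + Fintype.card W := by exact_mod_cast hn
  obtain ⟨n, hnn⟩ : ∃ n : ℝ, n = (Fintype.card V : ℝ) + Fintype.card W := ⟨_, rfl⟩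
  rw [← hnn] at hT hD hn2
  have hn0 : 0 < n := by linarith
  have h2η : 0 < 2 * η := by linarith
  have hlη : 0 < Real.log (1 / (2 * η)) := by
    refine Real.log_pos ?_
    rw [lt_div_iff₀ h2η]
    linarith
  have hlogn : 0 < Real.log n := Real.log_pos (by linarith)
  have hTu : (T : ℝ) < Real.log n / Real.log (1 / (2 * η)) + 1 := by
    rw [hT]; exact Nat.ceil_lt_add_one (by positivity)
  have hlR : 0 < Real.log R := Real.log_pos (by linarith)
  have hpow : R ^ (2 * T + 4) ≤ R ^ 6 * n ^ (2 * Real.log R / Real.log (1 / (2 * η))) := by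
    have e1 : R ^ (2 * T + 4) = Real.exp (Real.log R * (2 * T + 4)) := by
      rw [← Real.rpow_def_of_pos hR0, ← Real.rpow_natCast]
      push_cast
      rfl
    have e2 : R ^ 6 * n ^ (2 * Real.log R / Real.log (1 / (2 * η))) =
        Real.exp (Real.log R * 6 + Real.log n * (2 * Real.log R / Real.log (1 / (2 * η)))) := by
      rw [Real.exp_add, ← Real.rpow_def_of_pos hn0, ← Real.rpow_def_of_pos hR0,
        ← Real.rpow_natCast]
      push_cast
      rfl
    rw [e1, e2]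
    refine Real.exp_le_exp.2 ?_
    have h3 : Real.log n * (2 * Real.log R / Real.log (1 / (2 * η))) =
        Real.log R * (2 * (Real.log n / Real.log (1 / (2 * η)))) := by ring
    rw [h3, ← mul_add]
    refine mul_le_mul_of_nonneg_left ?_ hlR.le
    linarith
  refine le_trans ?_ hD
  have h3 : 2 * (17 / μ) * R ^ (2 * T + 4) / δ = 34 * R ^ (2 * T + 4) / (μ * δ) := by
    field_simp
    ring
  rw [h3]
  refine div_le_div_of_nonneg_right ?_ (by positivity)
  rw [mul_assoc]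
  exact mul_le_mul_of_nonneg_left hpow (by norm_num)

end

end Pool.Agent.Helper72.SA
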