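import Pool.Agent.Helper72.SA.CondD
import Pool.Agent.TH522.DG.Hier

/-!
The Sherali-Adams hierarchy for games with two sides, and the correlation of the pairs of edges.
-/

set_option autoImplicit false

namespace Pool.Agent.Helper72.SA

open Finset Pool.Agent.H647R3.UG Pool.Agent.H573R3.SL Pool.Agent.TH522.UG Pool.Agent.TH522.US
  Pool.Agent.TH522.DG

/-- the Sherali-Adams linear program for sets of at most `D` vertices, two kinds of vertices -/
structure SA2 {V W A B : Type} [Fintype V] [Fintype W] (D : ℕ)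
    (L : ((W → A) × (V → B) → ℝ) →ₗ[ℝ] ℝ) : Prop where
  one : L (fun _ => 1) = 1
  junta : ∀ (S : Finset W) (T : Finset V), S.card + T.card ≤ D →
    ∀ f : (W → A) × (V → B) → ℝ, Dep2 S T f → (∀ z, 0 ≤ f z) → 0 ≤ L f

section
variable {V W A B E : Type} [Fintype V] [Fintype W]

theorem pj_SA (a0 : A) (D : ℕ) (L : ((W → A) × (V → B) → ℝ) →ₗ[ℝ] ℝ) (hL : SA2 D L) :
    SAh D (pj a0 L) := by
  refine ⟨hL.one, fun S hS f hf hf0 => ?_⟩
  refine hL.junta S.toLeft ∅ ?_ _ ?_ fun z => hf0 _
  · have := S.card_toLeft_add_card_toRight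
    rw [card_empty]
    omega
  · intro z z' h1 _
    refine hf _ _ fun v hv => ?_
    rcases v with v | v
    · simp only [Sum.elim_inl]
      exact h1 v (mem_toLeft.2 hv)
    · simp only [Sum.elim_inr]

variable [Fintype E] [Fintype A] [DecidableEq A] [Fintype B] [DecidableEq B] [DecidableEq V]
  [DecidableEq W]

/-- the functions of one constraint at a left vertex, and of its label -/
def cf1 (w : E → W) (π : E → A → B) (v0 : V) (b : B) : Option E → (W → A) × (V → B) → ℝ
  | none, z => if z.2 v0 = b then 1 else 0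
  | some e, z => if π e (z.1 (w e)) = b then 1 else 0

/-- the kernel of the constraints at a left vertex -/
noncomputable def ck (L : ((W → A) × (V → B) → ℝ) →ₗ[ℝ] ℝ) (w : E → W) (π : E → A → B) (v0 : V)
    (x y : Option E) : ℝ := ∑ b, L (fun z => cf1 w π v0 b x z * cf1 w π v0 b y z)

omit [Fintype E] [Fintype A] [DecidableEq A] in
theorem ck_LP {D N : ℕ} (hN : N + 1 ≤ D) (L : ((W → A) × (V → B) → ℝ) →ₗ[ℝ] ℝ) (hL : SA2 D L)
    (w : E → W) (π : E → A → B) (v0 : V) : LP N (ck L w π v0) := by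
  intro x c
  obtain ⟨wo, hwo⟩ : ∃ wo : Option E → Finset W, ∀ o, wo o = o.elim ∅ fun e => {w e} :=
    ⟨_, fun _ => rfl⟩
  have hcard : ((univ : Finset (Fin N)).biUnion fun i => wo (x i)).card + ({v0} : Finset V).card ≤
      D := by
    have h1 : ((univ : Finset (Fin N)).biUnion fun i => wo (x i)).card ≤ N := by
      refine card_biUnion_le.trans ?_
      calc ∑ i : Fin N, (wo (x i)).card ≤ ∑ _i : Fin N, 1 := by
            refine sum_le_sum fun i _ => ?_
            rw [hwo]
            cases x i <;> simp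
        _ = N := by simp
    rw [card_singleton]
    omega
  have hdep : ∀ b i, Dep2 ((univ : Finset (Fin N)).biUnion fun i => wo (x i)) {v0}
      (cf1 w π v0 b (x i)) := by
    intro b i z z' h1 h2
    have h3 : ∀ w' ∈ wo (x i), z.1 w' = z'.1 w' := fun w' hw' =>
      h1 w' (mem_biUnion.2 ⟨i, mem_univ _, hw'⟩)
    rw [hwo] at h3
    cases hx : x i with
    | none => show (if _ then _ else _) = _; rw [h2 v0 (mem_singleton_self _)]; rfl
    | some e =>
      rw [hx] at h3
      show (if _ then _ else _) = _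
      rw [h3 (w e) (by simp)]
      rfl
  have h1 : ∀ b, 0 ≤ L (fun z => (∑ i, c i * cf1 w π v0 b (x i) z) ^ 2) := fun b =>
    hL.junta _ _ hcard _ (fun z z' h1 h2 => by
      have : ∀ i, cf1 w π v0 b (x i) z = cf1 w π v0 b (x i) z' := fun i => hdep b i z z' h1 h2
      simp only [this]) fun z => sq_nonneg _
  have h2 : ∀ b, L (fun z => (∑ i, c i * cf1 w π v0 b (x i) z) ^ 2) =
      ∑ i, ∑ j, c i * c j * L (fun z => cf1 w π v0 b (x i) z * cf1 w π v0 b (x j) z) := by
    intro b
    have e1 : (fun z : (W → A) × (V → B) => (∑ i, c i * cf1 w π v0 b (x i) z) ^ 2) =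
        ∑ i, ∑ j, (c i * c j) • fun z : (W → A) × (V → B) =>
          cf1 w π v0 b (x i) z * cf1 w π v0 b (x j) z := by
      funext z
      simp only [Finset.sum_apply, Pi.smul_apply, smul_eq_mul]
      rw [sq, sum_mul_sum]
      refine sum_congr rfl fun i _ => sum_congr rfl fun j _ => by ring
    rw [e1]
    simp only [map_sum, map_smul, smul_eq_mul]
  have h3 : ∑ i, ∑ j, c i * c j * ck L w π v0 (x i) (x j) =
      ∑ b, L (fun z => (∑ i, c i * cf1 w π v0 b (x i) z) ^ 2) := by
    simp only [h2]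
    unfold ck
    simp only [mul_sum]
    rw [sum_comm' (s := univ) (t := fun _ => univ) (t' := univ) (s' := fun _ => univ) (by simp)]
    rw [sum_comm]
    have e2 : ∀ i, ∑ j, ∑ b, c i * c j * L (fun z => cf1 w π v0 b (x i) z *
        cf1 w π v0 b (x j) z) = ∑ b, ∑ j, c i * c j * L (fun z => cf1 w π v0 b (x i) z *
        cf1 w π v0 b (x j) z) := fun i => sum_comm
    simp only [e2]
    rw [sum_comm]
  rw [h3]
  exact sum_nonneg fun b _ => h1 b

omit [Fintype W] [Fintype V] [Fintype A] [DecidableEq A] [Fintype E] [DecidableEq W] in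
theorem ck_self (L : ((W → A) × (V → B) → ℝ) →ₗ[ℝ] ℝ) (h1 : L (fun _ => 1) = 1)
    (w : E → W) (π : E → A → B) (v0 : V) (x : Option E) : ck L w π v0 x x = 1 := by
  unfold ck
  rw [← map_sum, ← h1]
  congr 1
  funext z
  rw [Finset.sum_apply]
  cases x with
  | none =>
    show ∑ b, (if z.2 v0 = b then (1 : ℝ) else 0) * (if z.2 v0 = b then 1 else 0) = 1
    simp
  | some e =>
    show ∑ b, (if π e (z.1 (w e)) = b then (1 : ℝ) else 0) *
      (if π e (z.1 (w e)) = b then 1 else 0) = 1
    simp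

omit [Fintype W] [Fintype V] [Fintype A] [DecidableEq A] [Fintype E] [DecidableEq W] in
theorem ck_symm (L : ((W → A) × (V → B) → ℝ) →ₗ[ℝ] ℝ) (w : E → W) (π : E → A → B) (v0 : V)
    (x y : Option E) : ck L w π v0 x y = ck L w π v0 y x := by
  unfold ck
  refine sum_congr rfl fun b _ => ?_
  congr 1
  funext z
  ring

omit [Fintype W] [Fintype V] [Fintype A] [DecidableEq A] [Fintype E] [DecidableEq W] in
theorem ck_none (L : ((W → A) × (V → B) → ℝ) →ₗ[ℝ] ℝ) (v : E → V)
    (w : E → W) (π : E → A → B) (v0 : V) (e : E) (he : v e = v0) :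
    ck L w π v0 (some e) none = L (satE v w π e) := by
  unfold ck
  rw [← map_sum]
  congr 1
  funext z
  rw [Finset.sum_apply]
  show ∑ b, (if π e (z.1 (w e)) = b then (1 : ℝ) else 0) * (if z.2 v0 = b then 1 else 0) =
    if π e (z.1 (w e)) = z.2 (v e) then 1 else 0
  rw [he, sum_eq_single (z.2 v0)]
  · rw [if_pos rfl, mul_one]
  · intro b _ hb
    rw [if_neg hb.symm, mul_zero]
  · intro h; exact absurd (mem_univ _) h

/-- correlation at one left vertex -/
theorem vertex_corrS {D M : ℕ} (hM : 0 < M) (hD : M + M + 1 ≤ D)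
    (L : ((W → A) × (V → B) → ℝ) →ₗ[ℝ] ℝ) (hL : SA2 D L)
    (v : E → V) (w : E → W) (π : E → A → B) (v0 : V) (y : E → ℝ) (hy : ∀ e, 0 ≤ y e)
    (hy0 : ∀ e, v e ≠ v0 → y e = 0) (c1 : ℝ) (hc1 : 0 ≤ c1)
    (hsat : ∀ e, 0 < y e → c1 ≤ L (satE v w π e))
    (hnn : ∀ e e', 0 ≤ ck L w π v0 (some e) (some e')) :
    (c1 ^ 2 - 1 / (M : ℝ)) * (∑ e, y e) ^ 2 ≤
      ∑ e, ∑ e', y e * y e' * ck L w π v0 (some e) (some e') := by
  have hM0 : (0 : ℝ) < M := by exact_mod_cast hM
  obtain ⟨Y, hY⟩ : ∃ Y, Y = ∑ e, y e := ⟨_, rfl⟩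
  have hY0 : 0 ≤ Y := by rw [hY]; exact sum_nonneg fun e _ => hy e
  rw [← hY]
  rcases hY0.eq_or_lt with h0 | hpos
  · rw [← h0]
    have : 0 ≤ ∑ e, ∑ e', y e * y e' * ck L w π v0 (some e) (some e') :=
      sum_nonneg fun e _ => sum_nonneg fun e' _ => mul_nonneg (mul_nonneg (hy _) (hy _)) (hnn _ _)
    simpa using this
  classical
  obtain ⟨p, hps, hpn⟩ : ∃ p : Option E → ℝ, (∀ e, p (some e) = y e / Y) ∧ p none = 0 :=
    ⟨fun o => o.elim 0 fun e => y e / Y, fun _ => rfl, rfl⟩
  obtain ⟨q, hqs, hqn⟩ : ∃ q : Option E → ℝ, (∀ e, q (some e) = 0) ∧ q none = 1 :=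
    ⟨fun o => o.elim 1 fun _ => 0, fun _ => rfl, rfl⟩
  obtain ⟨X, hX⟩ : ∃ X, X = ∑ e, y e / Y * L (satE v w π e) := ⟨_, rfl⟩
  have hXc : c1 ≤ X := by
    have h1 : ∑ e, y e / Y * c1 ≤ X := by
      rw [hX]
      refine sum_le_sum fun e _ => ?_
      rcases (hy e).eq_or_lt with h | h
      · rw [← h]; simp
      · exact mul_le_mul_of_nonneg_left (hsat e h) (div_nonneg h.le hY0)
    rw [← sum_mul, ← sum_div, ← hY, div_self hpos.ne', one_mul] at h1
    exact h1
  have hs := samp2 M hM (ck L w π v0) (ck_symm L w π v0) (ck_LP (by omega) L hL w π v0) p q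
    (fun o => by cases o with
      | none => rw [hpn]
      | some e => rw [hps]; exact div_nonneg (hy e) hY0)
    (fun o => by cases o with
      | none => rw [hqn]; norm_num
      | some e => rw [hqs])
    (by rw [Fintype.sum_option, hpn, zero_add]
        simp only [hps]
        rw [← sum_div, ← hY, div_self hpos.ne'])
    (by rw [Fintype.sum_option, hqn]
        simp [hqs]) 1 (-X)
  have e1 : ∑ a, ∑ b, p a * p b * ck L w π v0 a b =
      (∑ e, ∑ e', y e * y e' * ck L w π v0 (some e) (some e')) / Y ^ 2 := by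
    rw [Fintype.sum_option, hpn]
    simp only [zero_mul, sum_const_zero, zero_add]
    rw [sum_div]
    refine sum_congr rfl fun e _ => ?_
    rw [Fintype.sum_option, hpn, mul_zero, zero_mul, zero_add, sum_div]
    refine sum_congr rfl fun e' _ => ?_
    rw [hps, hps]
    field_simp
  have e2 : ∑ a, p a * ck L w π v0 a a = 1 := by
    simp only [ck_self L hL.one, mul_one]
    rw [Fintype.sum_option, hpn, zero_add]
    simp only [hps]
    rw [← sum_div, ← hY, div_self hpos.ne']
  have e3 : ∑ a, ∑ b, p a * q b * ck L w π v0 a b = X := by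
    rw [Fintype.sum_option, hpn]
    simp only [zero_mul, sum_const_zero, zero_add]
    rw [hX]
    refine sum_congr rfl fun e _ => ?_
    rw [Fintype.sum_option, hqn]
    simp only [hqs, mul_zero, zero_mul, sum_const_zero, add_zero, mul_one]
    rw [hps]
    by_cases he : v e = v0
    · rw [ck_none L v w π v0 e he]
    · rw [hy0 e he]; simp
  have e4 : ∑ a, ∑ b, q a * q b * ck L w π v0 a b = 1 := by
    rw [Fintype.sum_option, hqn]
    simp only [hqs, zero_mul, sum_const_zero, add_zero]
    rw [Fintype.sum_option, hqn]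
    simp only [hqs, mul_zero, zero_mul, sum_const_zero, add_zero, mul_one, one_mul]
    exact ck_self L hL.one w π v0 none
  have e5 : ∑ a, q a * ck L w π v0 a a = 1 := by
    simp only [ck_self L hL.one, mul_one]
    rw [Fintype.sum_option, hqn]
    simp [hqs]
  rw [e1, e2, e3, e4, e5] at hs
  have h6 : X ^ 2 - 1 / (M : ℝ) ≤ (1 - 1 / (M : ℝ)) *
      ((∑ e, ∑ e', y e * y e' * ck L w π v0 (some e) (some e')) / Y ^ 2) := by nlinarith
  have h7 : 0 ≤ (∑ e, ∑ e', y e * y e' * ck L w π v0 (some e) (some e')) / Y ^ 2 :=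
    div_nonneg (sum_nonneg fun e _ => sum_nonneg fun e' _ =>
      mul_nonneg (mul_nonneg (hy _) (hy _)) (hnn _ _)) (by positivity)
  have h8 : 0 ≤ 1 / (M : ℝ) := by positivity
  have h9 : X ^ 2 - 1 / (M : ℝ) ≤
      (∑ e, ∑ e', y e * y e' * ck L w π v0 (some e) (some e')) / Y ^ 2 := by nlinarith
  have h10 : c1 ^ 2 ≤ X ^ 2 := pow_le_pow_left₀ hc1 hXc 2
  have h11 : c1 ^ 2 - 1 / (M : ℝ) ≤
      (∑ e, ∑ e', y e * y e' * ck L w π v0 (some e) (some e')) / Y ^ 2 := by linarith
  rwa [le_div_iff₀ (by positivity)] at h11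

/-- correlation of the pairs of edges -/
theorem pair_corrS {D M : ℕ} (hM : 0 < M) (hD : M + M + 1 ≤ D)
    (L : ((W → A) × (V → B) → ℝ) →ₗ[ℝ] ℝ) (hL : SA2 D L)
    (a0 : A) (v : E → V) (w : E → W) (π : E → A → B) (ω : E → ℝ) (hω : ∀ e, 0 ≤ ω e) (c1 : ℝ)
    (hc1 : 0 ≤ c1) (hsat : ∀ e, 0 < ω e → c1 ≤ L (satE v w π e)) (F : W ⊕ V → ℝ)
    (hF : ∀ z, 0 ≤ F z) :
    (c1 ^ 2 - 1 / (M : ℝ)) *
      bil (K2 (fun e => (Sum.inl (w e) : W ⊕ V)) (fun e => Sum.inr (v e)) ω) F F ≤
      SatF (fun e => (Sum.inl (w e) : W ⊕ V)) (fun e => Sum.inr (v e)) π ω F (pj a0 L) := by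
  set s : E → W ⊕ V := fun e => Sum.inl (w e) with hs
  set t : E → W ⊕ V := fun e => Sum.inr (v e) with ht
  -- the pair terms
  have h1 : ∀ v0 e e', rl (π e) (π e') (pr2 (pj a0 L) (s e) (s e')) =
      ck L w π v0 (some e) (some e') := by
    intro v0 e e'
    unfold rl ck
    have h2 : ∀ a a', (if π e a = π e' a' then pr2 (pj a0 L) (s e) (s e') a a' else 0) =
        L (fun z => if π e a = π e' a' then (if z.1 (w e) = a then 1 else 0) *
          (if z.1 (w e') = a' then 1 else 0) else 0) := by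
      intro a a'
      by_cases h : π e a = π e' a'
      · simp only [if_pos h]
        rfl
      · simp only [if_neg h]
        exact (map_zero L).symm
    simp only [h2, ← map_sum]
    congr 1
    funext z
    simp only [Finset.sum_apply]
    show _ = ∑ b, (if π e (z.1 (w e)) = b then (1 : ℝ) else 0) *
      (if π e' (z.1 (w e')) = b then 1 else 0)
    rw [sum_eq_single (z.1 (w e))]
    · rw [sum_eq_single (z.1 (w e'))]
      · rw [sum_eq_single (π e (z.1 (w e)))]
        · by_cases h : π e (z.1 (w e)) = π e' (z.1 (w e'))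
          · simp [h]
          · have h' : ¬ π e' (z.1 (w e')) = π e (z.1 (w e)) := fun h'' => h h''.symm
            simp [h, h']
        · intro b _ hb
          simp [Ne.symm hb]
        · intro h; exact absurd (mem_univ _) h
      · intro a' _ ha'
        simp [Ne.symm ha']
      · intro h; exact absurd (mem_univ _) h
    · intro a _ ha
      refine sum_eq_zero fun a' _ => ?_
      simp [Ne.symm ha]
    · intro h; exact absurd (mem_univ _) h
  have hnn : ∀ v0 e e', 0 ≤ ck L w π v0 (some e) (some e') := by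
    intro v0 e e'
    refine sum_nonneg fun b _ => ?_
    refine hL.junta {w e, w e'} ∅ ?_ _ (fun z z' h1 _ => ?_) fun z => ?_
    · rw [card_empty]
      exact le_trans card_le_two (by omega)
    · show (if π e (z.1 (w e)) = b then (1 : ℝ) else 0) * (if π e' (z.1 (w e')) = b then 1 else 0) =
        (if π e (z'.1 (w e)) = b then (1 : ℝ) else 0) * (if π e' (z'.1 (w e')) = b then 1 else 0)
      rw [h1 (w e) (by simp), h1 (w e') (by simp)]
    · show 0 ≤ (if π e (z.1 (w e)) = b then (1 : ℝ) else 0) *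
        (if π e' (z.1 (w e')) = b then 1 else 0)
      split_ifs <;> norm_num
  -- the sum over the left vertices
  have hPS : ∀ Z : E → E → ℝ, PS t ω Z = ∑ τ, (∑ e, ∑ e', (if t e = τ then ω e else 0) *
      (if t e' = τ then ω e' else 0) * Z e e') / bd t ω τ := by
    intro Z
    unfold PS pw
    have e1 : ∀ e e', (if t e = t e' then ω e * ω e' / bd t ω (t e) else 0) * Z e e' =
        ∑ τ, (if t e = τ then ω e else 0) * (if t e' = τ then ω e' else 0) * Z e e' /
          bd t ω τ := by
      intro e e'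
      rw [sum_eq_single (t e)]
      · rw [if_pos rfl]
        by_cases h : t e = t e'
        · rw [if_pos h, if_pos h.symm]
          ring
        · rw [if_neg h, if_neg (Ne.symm h)]
          ring
      · intro τ _ hτ
        rw [if_neg (Ne.symm hτ)]
        ring
      · intro h; exact absurd (mem_univ _) h
    simp only [e1]
    simp only [sum_div]
    rw [sum_comm]
    rw [sum_comm]
    have e2 : ∀ e : E, ∑ e', ∑ τ, (if t e = τ then ω e else 0) * (if t e' = τ then ω e' else 0) *
        Z e e' / bd t ω τ = ∑ τ, ∑ e', (if t e = τ then ω e else 0) *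
        (if t e' = τ then ω e' else 0) * Z e e' / bd t ω τ := fun e => sum_comm
    simp only [e2]
    rw [sum_comm]
  have h2 : SatF s t π ω F (pj a0 L) = ∑ τ, (∑ e, ∑ e', (if t e = τ then ω e * F (s e) else 0) *
      (if t e' = τ then ω e' * F (s e') else 0) *
      rl (π e) (π e') (pr2 (pj a0 L) (s e) (s e'))) / bd t ω τ := by
    unfold SatF
    rw [hPS]
    refine sum_congr rfl fun τ _ => ?_
    congr 1
    refine sum_congr rfl fun e _ => sum_congr rfl fun e' _ => ?_
    split_ifs <;> ring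
  rw [h2, bil_K2, PS_sq t ω fun e => F (s e), mul_sum]
  refine sum_le_sum fun τ _ => ?_
  rw [← mul_div_assoc]
  refine div_le_div_of_nonneg_right ?_ (bd_nonneg t ω hω τ)
  rcases τ with w' | v0
  · have h3 : ∀ e, t e ≠ Sum.inl w' := fun e => by simp [ht]
    simp only [h3, if_false, sum_const_zero, zero_mul]
    norm_num
  · have h4 : ∀ e, (t e = Sum.inr v0) = (v e = v0) := fun e => by simp [ht]
    simp only [h4]
    have h3 := vertex_corrS hM hD L hL v w π v0 (fun e => if v e = v0 then ω e * F (s e) else 0)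
      (fun e => by
        split_ifs
        · exact mul_nonneg (hω e) (hF _)
        · exact le_rfl) (fun e he => if_neg he) c1 hc1 (fun e he => by
        refine hsat e ?_
        by_cases h5 : v e = v0
        · rw [if_pos h5] at he
          by_contra hcon
          have h6 : ω e = 0 := le_antisymm (not_lt.1 hcon) (hω e)
          rw [h6, zero_mul] at he
          exact lt_irrefl _ he
        · rw [if_neg h5] at he
          exact absurd he (lt_irrefl _)) (hnn v0)
    refine h3.trans (le_of_eq ?_)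
    refine sum_congr rfl fun e _ => sum_congr rfl fun e' _ => ?_
    rw [h1 v0 e e']

end

end Pool.Agent.Helper72.SA
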