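import Pool.Agent.Helper72.SA.NashT
import Pool.Agent.Helper72.SA.CondD

/-!
Two-variable constraints with bounded degrees: correlation of the labels, global correlation from
return probabilities, one conditioning step.
-/

set_option autoImplicit false

namespace Pool.Agent.Helper72.SA

open Finset Pool.Agent.H647R3.UG Pool.Agent.H573R3.SL Pool.Agent.TH522.UG Pool.Agent.TH522.US
  Pool.Agent.TH522.DG

/-- the payoff under a law of two labels -/
def py {A : Type} [Fintype A] (q : A → A → ℝ) (P : A → A → ℝ) : ℝ := ∑ a, ∑ b, q a b * P a b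

/-- payoffs between 0 and 1 with row and column sums at most `d₁` and `d₂` -/
structure Pay {A : Type} [Fintype A] (d₁ d₂ : ℝ) (q : A → A → ℝ) : Prop where
  nonneg : ∀ a b, 0 ≤ q a b
  le_one : ∀ a b, q a b ≤ 1
  row : ∀ a, ∑ b, q a b ≤ d₁
  col : ∀ b, ∑ a, q a b ≤ d₂

section
variable {A : Type} [Fintype A]

theorem py_sub (q P Q : A → A → ℝ) : py q (fun a b => P a b - Q a b) = py q P - py q Q := by
  unfold py
  rw [← sum_sub_distrib]
  refine sum_congr rfl fun a _ => ?_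
  rw [← sum_sub_distrib]
  exact sum_congr rfl fun b _ => by ring

theorem py_le_one {d₁ d₂ : ℝ} {q : A → A → ℝ} (hq : Pay d₁ d₂ q) {r : A → A → ℝ} {x y : A → ℝ}
    (h : IsLaw r x y) : py q r ≤ 1 := by
  have h1 : py q r ≤ ∑ a, ∑ b, r a b :=
    sum_le_sum fun a _ => sum_le_sum fun b _ =>
      mul_le_of_le_one_left (h.nonneg a b) (hq.le_one a b)
  refine h1.trans (le_of_eq ?_)
  rw [sum_congr rfl fun a _ => h.left a, h.one]

/-- the kernel of two correlated labels is large -/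
theorem py_ker {d₁ d₂ : ℝ} {q : A → A → ℝ} (hq : Pay d₁ d₂ q) {r : A → A → ℝ} {x y : A → ℝ}
    (h : IsLaw r x y) :
    (py q r - py q (fun a b => x a * y b)) ^ 2 ≤ Real.sqrt (d₁ * d₂) * ker r x y := by
  have hx0 : ∀ a, 0 ≤ x a := fun a => by rw [← h.left]; exact sum_nonneg fun b _ => h.nonneg a b
  have hy0 : ∀ b, 0 ≤ y b := fun b => by rw [← h.right]; exact sum_nonneg fun a _ => h.nonneg a b
  have hy1 : ∑ b, y b = 1 := by
    rw [← h.one]
    simp only [← h.left, ← h.right]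
    exact sum_comm
  have hrx : ∀ a b, r a b ≤ x a := fun a b => by
    rw [← h.left]; exact single_le_sum (fun b _ => h.nonneg a b) (mem_univ b)
  have hry : ∀ a b, r a b ≤ y b := fun a b => by
    rw [← h.right]
    exact single_le_sum (f := fun a => r a b) (fun a _ => h.nonneg a b) (mem_univ a)
  set R : A × A → ℝ := fun i => q i.1 i.2 * (r i.1 i.2 - x i.1 * y i.2) with hR
  set f : A × A → ℝ := fun i => (r i.1 i.2 - x i.1 * y i.2) ^ 2 / Real.sqrt (x i.1 * y i.2) with hf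
  set g : A × A → ℝ := fun i => q i.1 i.2 ^ 2 * Real.sqrt (x i.1 * y i.2) with hg
  have h1 : py q r - py q (fun a b => x a * y b) = ∑ i : A × A, R i := by
    rw [← py_sub, Fintype.sum_prod_type]
    rfl
  have h2 : ker r x y = ∑ i : A × A, f i := by
    rw [Fintype.sum_prod_type]
    rfl
  have hf0 : ∀ i, 0 ≤ f i := fun i => div_nonneg (sq_nonneg _) (Real.sqrt_nonneg _)
  have hg0 : ∀ i, 0 ≤ g i := fun i => mul_nonneg (sq_nonneg _) (Real.sqrt_nonneg _)
  have h3 : (∑ i : A × A, R i) ^ 2 ≤ (∑ i : A × A, f i) * ∑ i : A × A, g i := by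
    refine sum_sq_le_sum_mul_sum_of_sq_le_mul _ (fun i _ => hf0 i) (fun i _ => hg0 i)
      fun i _ => ?_
    simp only [hR, hf, hg]
    rcases (Real.sqrt_nonneg (x i.1 * y i.2)).eq_or_lt with h4 | h4
    · have h5 : x i.1 * y i.2 = 0 :=
        (Real.sqrt_eq_zero (mul_nonneg (hx0 _) (hy0 _))).1 h4.symm
      have h6 : r i.1 i.2 = 0 := by
        refine le_antisymm ?_ (h.nonneg _ _)
        rcases mul_eq_zero.1 h5 with h7 | h7
        · rw [← h7]; exact hrx _ _
        · rw [← h7]; exact hry _ _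
      rw [h6, h5]
      simp
    · apply le_of_eq
      field_simp
  have h4 : ∑ i : A × A, g i ≤ Real.sqrt (d₁ * d₂) := by
    have hd1 : 0 ≤ ∑ i : A × A, q i.1 i.2 * x i.1 :=
      sum_nonneg fun i _ => mul_nonneg (hq.nonneg _ _) (hx0 _)
    have hd2 : 0 ≤ ∑ i : A × A, q i.1 i.2 * y i.2 :=
      sum_nonneg fun i _ => mul_nonneg (hq.nonneg _ _) (hy0 _)
    have e1 : ∑ i : A × A, q i.1 i.2 * x i.1 ≤ d₁ := by
      rw [Fintype.sum_prod_type]
      calc ∑ a, ∑ b, q a b * x a ≤ ∑ a, d₁ * x a := by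
            refine sum_le_sum fun a _ => ?_
            rw [← sum_mul]
            exact mul_le_mul_of_nonneg_right (hq.row a) (hx0 a)
        _ = d₁ := by rw [← mul_sum, h.one, mul_one]
    have e2 : ∑ i : A × A, q i.1 i.2 * y i.2 ≤ d₂ := by
      rw [Fintype.sum_prod_type_right]
      calc ∑ b, ∑ a, q a b * y b ≤ ∑ b, d₂ * y b := by
            refine sum_le_sum fun b _ => ?_
            rw [← sum_mul]
            exact mul_le_mul_of_nonneg_right (hq.col b) (hy0 b)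
        _ = d₂ := by rw [← mul_sum, hy1, mul_one]
    refine Real.le_sqrt_of_sq_le ?_
    refine le_trans ?_ (mul_le_mul e1 e2 hd2 (hd1.trans e1))
    refine sum_sq_le_sum_mul_sum_of_sq_le_mul _ (fun i _ => mul_nonneg (hq.nonneg _ _) (hx0 _))
      (fun i _ => mul_nonneg (hq.nonneg _ _) (hy0 _)) fun i _ => ?_
    simp only [hg]
    have h6 := Real.sq_sqrt (mul_nonneg (hx0 i.1) (hy0 i.2))
    have h7 : q i.1 i.2 ^ 2 ≤ q i.1 i.2 := by
      rw [sq]
      exact mul_le_of_le_one_left (hq.nonneg _ _) (hq.le_one _ _)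
    have h8 : (q i.1 i.2 ^ 2) ^ 2 ≤ q i.1 i.2 ^ 2 := pow_le_pow_left₀ (sq_nonneg _) h7 2
    calc (q i.1 i.2 ^ 2 * Real.sqrt (x i.1 * y i.2)) ^ 2
        = (q i.1 i.2 ^ 2) ^ 2 * (x i.1 * y i.2) := by rw [mul_pow, h6]
      _ ≤ q i.1 i.2 ^ 2 * (x i.1 * y i.2) :=
          mul_le_mul_of_nonneg_right h8 (mul_nonneg (hx0 _) (hy0 _))
      _ = _ := by ring
  rw [h1, h2]
  refine h3.trans ?_
  rw [mul_comm]
  exact mul_le_mul_of_nonneg_right h4 (sum_nonneg fun i _ => hf0 i)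

end

section
variable {W : Type} [Fintype W] [DecidableEq W] {w : W → W → ℝ}

/-- global correlation from return probabilities -/
theorem gcretR (hw : ∀ u v, 0 ≤ w u v) (hs : ∀ u v, w u v = w v u) (T : ℕ) (N r : ℝ)
    (hN0 : 0 < N) (hN : ∑ u, wk w (2 * T) u u ≤ N) (hr : 0 < r) (hr1 : r ≤ 1) (M : ℕ)
    (hM : 4 * (2 / r) ^ (T + 3) ≤ M) :
    GCR w (fun u => ∑ z, w u z) r ((r / 2) ^ (2 * (T + 1)) / N) (M + M) := by
  intro k hsy hk ha hen
  have hQ1 : (1 : ℝ) ≤ 2 / r := by rw [le_div_iff₀ hr]; linarith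
  have hMpos : (0 : ℝ) < M := lt_of_lt_of_le (by positivity) hM
  have hM0 : 0 < M := by exact_mod_cast hMpos
  have hm : ∀ u, 0 ≤ ∑ z, w u z := fun u => sum_nonneg fun z _ => hw u z
  have hAC : AC (fR w k) M := ac_of_semigroup (fun u => ∑ z, w u z) (Hd w) hm
    (Hd_nonneg hw) (Hd_symm hw hs) (Hd_add hw) (Hd_sub hw) k hsy M hM0 hk (fR w k)
    (fun t => rfl) (fR_zero hw hs k)
  have hf0 := fR_zero hw hs k
  obtain ⟨t, ht, hft⟩ := ac_lowerR hAC (by rw [hf0]; exact ha) r hr hr1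
    (by rw [hf0, fR_one hw hs]; exact hen) T hM
  have l2 : (fR w k t) ^ 2 ≤ (∑ u, ∑ v, (∑ z, w u z) * (∑ z, w v z) * Hd w t u v ^ 2) *
      ∑ u, ∑ v, (∑ z, w u z) * (∑ z, w v z) * k u v ^ 2 := by
    have h1 := Finset.sum_sq_le_sum_mul_sum_of_sq_le_mul ((univ : Finset W) ×ˢ (univ : Finset W))
      (r := fun p => (∑ z, w p.1 z) * (∑ z, w p.2 z) * Hd w t p.1 p.2 * k p.1 p.2)
      (f := fun p => (∑ z, w p.1 z) * (∑ z, w p.2 z) * Hd w t p.1 p.2 ^ 2)
      (g := fun p => (∑ z, w p.1 z) * (∑ z, w p.2 z) * k p.1 p.2 ^ 2)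
      (fun p _ => mul_nonneg (mul_nonneg (hm _) (hm _)) (sq_nonneg _))
      (fun p _ => mul_nonneg (mul_nonneg (hm _) (hm _)) (sq_nonneg _))
      (fun p _ => le_of_eq (by ring))
    rwa [sum_product, sum_product, sum_product] at h1
  have l3 := (Hd_sq_le hw hs T t ht).trans hN
  set Q : ℝ := ∑ u, ∑ v, (∑ z, w u z) * (∑ z, w v z) * k u v ^ 2 with hQ
  have hQ0 : 0 ≤ Q := sum_nonneg fun u _ => sum_nonneg fun v _ =>
    mul_nonneg (mul_nonneg (hm _) (hm _)) (sq_nonneg _)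
  rw [hf0] at hft
  have h5 : ((r / 2) ^ (T + 1) * ∑ u, (∑ z, w u z) * k u u) ^ 2 ≤ N * Q :=
    (pow_le_pow_left₀ (by positivity) hft 2).trans (l2.trans (mul_le_mul_of_nonneg_right l3 hQ0))
  have h6 : ((r / 2) ^ (T + 1) * ∑ u, (∑ z, w u z) * k u u) ^ 2 =
      (∑ u, (∑ z, w u z) * k u u) ^ 2 * (r / 2) ^ (2 * (T + 1)) := by
    rw [mul_pow, ← pow_mul]
    ring
  rw [h6] at h5
  show (∑ u, (∑ z, w u z) * k u u) ^ 2 * ((r / 2) ^ (2 * (T + 1)) / N) ≤ Q
  rw [← mul_div_assoc, div_le_iff₀ hN0]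
  linarith

end

section
variable {Z A : Type} [Fintype Z] [DecidableEq Z] [Fintype A] [DecidableEq A] {N : ℕ}

/-- one conditioning step, from correlation along the kernel -/
theorem s1core (K : Z → Z → ℝ) (hK0 : ∀ u v, 0 ≤ K u v) (hKs : ∀ u v, K u v = K v u)
    (L : ((Z → A) → ℝ) →ₗ[ℝ] ℝ) (hN : 2 ≤ N) (hL : FctS N L) (m : Z → ℝ)
    (hrow : ∀ u, ∑ v, K u v = m u) (r g : ℝ) (hr0 : 0 < r) (hg : 0 ≤ g)
    (hM : 0 < ∑ v, m v) (hGC : GCR K m r g N)
    (hlow : r * ∑ v, m v ≤ ∑ u, ∑ v, K u v * kr L u v) :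
    ∃ u, r ^ 2 * g * ∑ v, m v ≤ PhiM m L - ∑ a, pr L u a * PhiM m (cnd L u a) := by
  have hm0 : ∀ u, 0 ≤ m u := fun u => by
    rw [← hrow]; exact sum_nonneg fun v _ => hK0 u v
  set M : ℝ := ∑ v, m v with hMd
  have hTM : ∑ u, m u * kr L u u ≤ M := by
    refine sum_le_sum fun u _ => ?_
    have := mul_le_mul_of_nonneg_left (kr_le_oneS hL u u) (hm0 u)
    linarith
  have hbi : ∑ u, ∑ v, K u v * kr L u v ≤ ∑ u, m u * kr L u u := by
    have h1 : ∑ u, ∑ v, K u v * kr L u v ≤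
        ∑ u, ∑ v, (K u v * (kr L u u / 2) + K u v * (kr L v v / 2)) :=
      sum_le_sum fun u _ => sum_le_sum fun v _ => by
        have h2 := hL.psd.two hN hL.ksym u v
        have h3 := mul_le_mul_of_nonneg_left
          (by linarith : kr L u v ≤ kr L u u / 2 + kr L v v / 2) (hK0 u v)
        linarith
    refine h1.trans (le_of_eq ?_)
    have e1 : ∑ u, ∑ v, K u v * (kr L u u / 2) = (∑ u, m u * kr L u u) / 2 := by
      rw [sum_div]
      refine sum_congr rfl fun u _ => ?_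
      rw [← sum_mul, hrow]
      ring
    have e2 : ∑ u, ∑ v, K u v * (kr L v v / 2) = (∑ u, m u * kr L u u) / 2 := by
      rw [← e1, sum_comm]
      refine sum_congr rfl fun u _ => sum_congr rfl fun v _ => ?_
      rw [hKs v u]
    simp only [sum_add_distrib]
    rw [e1, e2]
    ring
  have hT2 : r * M ≤ ∑ u, m u * kr L u u := hlow.trans hbi
  have hT0 : 0 < ∑ u, m u * kr L u u := lt_of_lt_of_le (by positivity) hT2
  have hgc := hGC (kr L) hL.ksym hL.psd hT0
    (le_trans (mul_le_mul_of_nonneg_left hTM hr0.le) hlow)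
  have hlow2 : r ^ 2 * g * M ^ 2 ≤ ∑ u, ∑ v, m u * m v * (kr L u v) ^ 2 := by
    refine le_trans ?_ hgc
    have h1 : (r * M) ^ 2 ≤ (∑ u, m u * kr L u u) ^ 2 :=
      pow_le_pow_left₀ (by positivity) hT2 2
    have h2 : r ^ 2 * g * M ^ 2 = (r * M) ^ 2 * g := by ring
    rw [h2]
    exact mul_le_mul_of_nonneg_right h1 hg
  have hdec : ∀ u v, (kr L u v) ^ 2 ≤ (dec L u v + dec L v u) / 2 := by
    intro u v
    obtain ⟨h1, h2, h3, h4⟩ := T_RD A (pr2 L u v) (pr L u) (pr L v) (hL.law u v)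
    have e1 : (∑ a, ∑ b, (pr2 L u v a b - pr L u a * pr L v b) ^ 2 / pr L u a) = dec L u v := rfl
    have e2 : (∑ a, ∑ b, (pr2 L u v a b - pr L u a * pr L v b) ^ 2 / pr L v b) = dec L v u := by
      unfold dec
      rw [sum_comm]
      refine sum_congr rfl fun b _ => sum_congr rfl fun a _ => ?_
      rw [hL.symm u v a b, mul_comm (pr L u a)]
    rw [e1] at h2 h3
    rw [e2] at h2 h4
    have h5 : kr L u v = ker (pr2 L u v) (pr L u) (pr L v) := rfl
    rw [← h5] at h1 h2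
    have h6 : kr L u v ≤ 1 := by linarith
    nlinarith
  have hup : ∑ u, ∑ v, m u * m v * (kr L u v) ^ 2 ≤ ∑ u, m u * ∑ v, m v * dec L u v := by
    have h1 : ∑ u, ∑ v, m u * m v * (kr L u v) ^ 2
        ≤ ∑ u, ∑ v, m u * m v * ((dec L u v + dec L v u) / 2) :=
      sum_le_sum fun u hu => sum_le_sum fun v hv =>
        mul_le_mul_of_nonneg_left (hdec u v) (mul_nonneg (hm0 u) (hm0 v))
    refine h1.trans (le_of_eq ?_)
    have h2 : ∑ u, ∑ v, m u * m v * ((dec L u v + dec L v u) / 2)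
        = (∑ u, ∑ v, m u * m v * dec L u v
          + ∑ u, ∑ v, m u * m v * dec L v u) / 2 := by
      rw [← sum_add_distrib, sum_div]
      refine sum_congr rfl fun u _ => ?_
      rw [← sum_add_distrib, sum_div]
      refine sum_congr rfl fun v _ => ?_
      ring
    have h3 : ∑ u, ∑ v, m u * m v * dec L v u
        = ∑ u, ∑ v, m u * m v * dec L u v := by
      rw [sum_comm]
      refine sum_congr rfl fun u _ => sum_congr rfl fun v _ => ?_
      ring
    rw [h2, h3]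
    have h4 : ∑ u, ∑ v, m u * m v * dec L u v = ∑ u, m u * ∑ v, m v * dec L u v := by
      refine sum_congr rfl fun u _ => ?_
      rw [mul_sum]
      exact sum_congr rfl fun v _ => by ring
    rw [h4]
    ring
  have hex : ∃ u, r ^ 2 * g * M ≤ ∑ v, m v * dec L u v := by
    by_contra hcon
    push Not at hcon
    obtain ⟨u0, -, hu0⟩ : ∃ u ∈ (univ : Finset Z), 0 < m u := by
      apply exists_lt_of_sum_lt (f := fun _ => (0 : ℝ))
      rw [sum_const_zero]
      exact hM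
    have h1 : ∑ u, m u * ∑ v, m v * dec L u v < ∑ u, m u * (r ^ 2 * g * M) :=
      sum_lt_sum (fun u _ => mul_le_mul_of_nonneg_left (hcon u).le (hm0 u))
        ⟨u0, mem_univ _, mul_lt_mul_of_pos_left (hcon u0) hu0⟩
    rw [← sum_mul, ← hMd] at h1
    have h2 := hlow2.trans hup
    nlinarith
  obtain ⟨u, hle⟩ := hex
  refine ⟨u, hle.trans (le_of_eq ?_)⟩
  unfold PhiM
  have h2 : ∑ a, pr L u a * ∑ v, m v * vr (cnd L u a) v
      = ∑ v, m v * ∑ a, pr L u a * vr (cnd L u a) v := by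
    simp_rw [mul_sum]
    rw [sum_comm]
    refine sum_congr rfl fun v _ => sum_congr rfl fun a _ => ?_
    ring
  rw [h2, ← sum_sub_distrib]
  refine sum_congr rfl fun v _ => ?_
  rw [hL.fd u v]
  ring

end

end Pool.Agent.Helper72.SA
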