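import Pool.Agent.Helper72.SA.Semi

/-!
Global correlation of a locally positive semidefinite kernel, from the return probabilities of the
random walk.
-/

set_option autoImplicit false

namespace Pool.Agent.Helper72.SA

open Finset

section
variable {W : Type} [Fintype W] [DecidableEq W] (w : W → W → ℝ)

/-- transition probabilities of the random walk with the weights `w` -/
noncomputable def wk : ℕ → W → W → ℝ
  | 0, u, v => if u = v then 1 else 0
  | k + 1, u, v => (∑ z, w u z * wk k z v) / ∑ z, w u z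

/-- transition densities -/
noncomputable def Hd (t : ℕ) (u v : W) : ℝ := wk w t u v / ∑ z, w v z

variable {w}

theorem wk_nonneg (hw : ∀ u v, 0 ≤ w u v) (t : ℕ) (u v : W) : 0 ≤ wk w t u v := by
  induction t generalizing u with
  | zero => unfold wk; split_ifs <;> norm_num
  | succ t ih =>
    unfold wk
    exact div_nonneg (sum_nonneg fun z _ => mul_nonneg (hw u z) (ih z))
      (sum_nonneg fun z _ => hw u z)

theorem w_zero (hw : ∀ u v, 0 ≤ w u v) (u : W) (h : ∑ z, w u z = 0) (v : W) : w u v = 0 :=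
  (sum_eq_zero_iff_of_nonneg fun z _ => hw u z).1 h v (mem_univ v)

/-- Chapman-Kolmogorov -/
theorem wk_add (a b : ℕ) (u v : W) : wk w (a + b) u v = ∑ z, wk w a u z * wk w b z v := by
  induction a generalizing u with
  | zero =>
    rw [zero_add, sum_eq_single u]
    · simp [wk]
    · intro z _ hz
      simp [wk, hz.symm]
    · intro h; exact absurd (mem_univ u) h
  | succ a ih =>
    have e : a + 1 + b = (a + b) + 1 := by omega
    rw [e]
    show (∑ z, w u z * wk w (a + b) z v) / ∑ z, w u z = ∑ z, (∑ y, w u y * wk w a y z) /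
      (∑ y, w u y) * wk w b z v
    have h1 : ∑ z, w u z * wk w (a + b) z v = ∑ z, (∑ y, w u y * wk w a y z) * wk w b z v := by
      simp only [ih, mul_sum, sum_mul]
      rw [sum_comm]
      exact sum_congr rfl fun z _ => sum_congr rfl fun y _ => by ring
    rw [h1, sum_div]
    exact sum_congr rfl fun z _ => by ring

theorem wk_one (hw : ∀ u v, 0 ≤ w u v) (u v : W) : (∑ z, w u z) * wk w 1 u v = w u v := by
  have h1 : wk w 1 u v = w u v / ∑ z, w u z := by
    show (∑ z, w u z * wk w 0 z v) / ∑ z, w u z = w u v / ∑ z, w u z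
    congr 1
    rw [sum_eq_single v]
    · simp [wk]
    · intro z _ hz
      simp [wk, hz]
    · intro h; exact absurd (mem_univ v) h
  rw [h1]
  by_cases h : ∑ z, w u z = 0
  · rw [h, zero_mul, w_zero hw u h v]
  · exact mul_div_cancel₀ _ h

theorem wk_symm (hw : ∀ u v, 0 ≤ w u v) (hs : ∀ u v, w u v = w v u) (t : ℕ) (u v : W) :
    (∑ z, w u z) * wk w t u v = (∑ z, w v z) * wk w t v u := by
  induction t generalizing u v with
  | zero =>
    by_cases h : u = v
    · rw [h]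
    · have h' : v ≠ u := fun e => h e.symm
      simp [wk, h, h']
  | succ t ih =>
    have e1 : (∑ z, w u z) * wk w (t + 1) u v =
        ∑ z, ((∑ y, w u y) * wk w 1 u z) * wk w t z v := by
      rw [add_comm, wk_add, mul_sum]
      exact sum_congr rfl fun z _ => by ring
    have e2 : (∑ z, w v z) * wk w (t + 1) v u =
        ∑ z, ((∑ y, w v y) * wk w t v z) * wk w 1 z u := by
      rw [wk_add, mul_sum]
      exact sum_congr rfl fun z _ => by ring
    rw [e1, e2]
    refine sum_congr rfl fun z _ => ?_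
    rw [wk_one hw, ← ih z v, hs u z, ← wk_one hw z u]
    ring

theorem wk_row (hw : ∀ u v, 0 ≤ w u v) (t : ℕ) (u : W) : ∑ v, wk w t u v ≤ 1 := by
  induction t generalizing u with
  | zero => simp [wk]
  | succ t ih =>
    have e : ∑ v, wk w (t + 1) u v = (∑ z, w u z * ∑ v, wk w t z v) / ∑ z, w u z := by
      show ∑ v, (∑ z, w u z * wk w t z v) / ∑ z, w u z = _
      rw [← sum_div, sum_comm]
      congr 1
      exact sum_congr rfl fun z _ => by rw [mul_sum]
    rw [e]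
    have h0 : 0 ≤ ∑ z, w u z := sum_nonneg fun z _ => hw u z
    refine div_le_one_of_le₀ ?_ h0
    exact sum_le_sum fun z _ => mul_le_of_le_one_right (hw u z) (ih z)

theorem Hd_nonneg (hw : ∀ u v, 0 ≤ w u v) (t : ℕ) (u v : W) : 0 ≤ Hd w t u v :=
  div_nonneg (wk_nonneg hw t u v) (sum_nonneg fun z _ => hw v z)

theorem Hd_zero (hw : ∀ u v, 0 ≤ w u v) (t : ℕ) (u v : W) (h : ∑ z, w u z = 0) :
    Hd w t u v = 0 := by
  unfold Hd
  cases t with
  | zero =>
    by_cases huv : u = v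
    · rw [← huv, h, div_zero]
    · simp [wk, huv]
  | succ t =>
    have : wk w (t + 1) u v = 0 := by
      show (∑ z, w u z * wk w t z v) / ∑ z, w u z = 0
      rw [h, div_zero]
    rw [this, zero_div]

theorem Hd_symm (hw : ∀ u v, 0 ≤ w u v) (hs : ∀ u v, w u v = w v u) (t : ℕ) (u v : W) :
    Hd w t u v = Hd w t v u := by
  by_cases hu : ∑ z, w u z = 0
  · rw [Hd_zero hw t u v hu]
    unfold Hd
    rw [hu, div_zero]
  · by_cases hv : ∑ z, w v z = 0
    · rw [Hd_zero hw t v u hv]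
      unfold Hd
      rw [hv, div_zero]
    · unfold Hd
      rw [div_eq_div_iff hv hu]
      have := wk_symm hw hs t u v
      linarith

theorem mHd (hw : ∀ u v, 0 ≤ w u v) (hs : ∀ u v, w u v = w v u) (t : ℕ) (u v : W) :
    (∑ z, w u z) * ((∑ z, w v z) * Hd w t u v) = (∑ z, w u z) * wk w t u v := by
  by_cases hv : ∑ z, w v z = 0
  · rw [hv, zero_mul, mul_zero, wk_symm hw hs, hv, zero_mul]
  · unfold Hd
    rw [mul_div_cancel₀ _ hv]

theorem Hd_add (hw : ∀ u v, 0 ≤ w u v) (s s' : ℕ) (u v : W) :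
    ∑ z, (∑ y, w z y) * Hd w s u z * Hd w s' z v = Hd w (s + s') u v := by
  have e : Hd w (s + s') u v = ∑ z, wk w s u z * Hd w s' z v := by
    unfold Hd
    rw [wk_add, sum_div]
    exact sum_congr rfl fun z _ => by ring
  rw [e]
  refine sum_congr rfl fun z _ => ?_
  by_cases hz : ∑ y, w z y = 0
  · rw [hz, zero_mul, zero_mul, Hd_zero hw s' z v hz, mul_zero]
  · unfold Hd
    field_simp

theorem Hd_sub (hw : ∀ u v, 0 ≤ w u v) (s : ℕ) (u : W) :
    ∑ v, (∑ z, w v z) * Hd w s u v ≤ 1 := by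
  refine le_trans (sum_le_sum fun v _ => ?_) (wk_row hw s u)
  by_cases hv : ∑ z, w v z = 0
  · rw [hv, zero_mul]
    exact wk_nonneg hw s u v
  · unfold Hd
    rw [mul_div_cancel₀ _ hv]

/-- the total of the squares of the densities is nonincreasing -/
theorem Hd_sq_anti (hw : ∀ u v, 0 ≤ w u v) (hs : ∀ u v, w u v = w v u) (t : ℕ) (v : W) :
    ∑ u, (∑ z, w u z) * Hd w (t + 1) u v ^ 2 ≤ ∑ u, (∑ z, w u z) * Hd w t u v ^ 2 := by
  have h1 : ∀ u, (∑ z, w u z) * Hd w (t + 1) u v ^ 2 ≤ ∑ z, w u z * Hd w t z v ^ 2 := by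
    intro u
    by_cases hu : ∑ z, w u z = 0
    · rw [hu, zero_mul]
      exact sum_nonneg fun z _ => mul_nonneg (hw u z) (sq_nonneg _)
    · have hu0 : 0 < ∑ z, w u z := lt_of_le_of_ne (sum_nonneg fun z _ => hw u z) (Ne.symm hu)
      have e : (∑ z, w u z) * Hd w (t + 1) u v = ∑ z, w u z * Hd w t z v := by
        unfold Hd
        show (∑ z, w u z) * ((∑ z, w u z * wk w t z v) / (∑ z, w u z) / (∑ z, w v z)) = _
        rw [div_div, mul_comm (∑ z, w u z) (∑ z, w v z), ← div_div, mul_div_cancel₀ _ hu, sum_div]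
        exact sum_congr rfl fun z _ => by ring
      have h2 : (∑ z, w u z * Hd w t z v) ^ 2 ≤ (∑ z, w u z) * ∑ z, w u z * Hd w t z v ^ 2 := by
        refine Finset.sum_sq_le_sum_mul_sum_of_sq_le_mul _ (fun z _ => hw u z)
          (fun z _ => mul_nonneg (hw u z) (sq_nonneg _)) fun z _ => le_of_eq (by ring)
      refine le_of_mul_le_mul_left ?_ hu0
      calc (∑ z, w u z) * ((∑ z, w u z) * Hd w (t + 1) u v ^ 2)
          = ((∑ z, w u z) * Hd w (t + 1) u v) ^ 2 := by ring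
        _ = (∑ z, w u z * Hd w t z v) ^ 2 := by rw [e]
        _ ≤ _ := h2
  refine (sum_le_sum fun u _ => h1 u).trans (le_of_eq ?_)
  rw [sum_comm]
  refine sum_congr rfl fun z _ => ?_
  rw [← sum_mul]
  congr 1
  exact sum_congr rfl fun u _ => hs u z

theorem Hd_sq_anti' (hw : ∀ u v, 0 ≤ w u v) (hs : ∀ u v, w u v = w v u) (T t : ℕ) (h : T ≤ t)
    (v : W) : ∑ u, (∑ z, w u z) * Hd w t u v ^ 2 ≤ ∑ u, (∑ z, w u z) * Hd w T u v ^ 2 := by
  induction t, h using Nat.le_induction with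
  | base => exact le_rfl
  | succ t _ ih => exact (Hd_sq_anti hw hs t v).trans ih

/-- the total of the squares of the densities and the return probabilities -/
theorem Hd_sq_le (hw : ∀ u v, 0 ≤ w u v) (hs : ∀ u v, w u v = w v u) (T t : ℕ) (h : T ≤ t) :
    ∑ u, ∑ v, (∑ z, w u z) * (∑ z, w v z) * Hd w t u v ^ 2 ≤ ∑ u, wk w (2 * T) u u := by
  have h1 : ∑ u, ∑ v, (∑ z, w u z) * (∑ z, w v z) * Hd w t u v ^ 2 =
      ∑ v, (∑ z, w v z) * ∑ u, (∑ z, w u z) * Hd w t u v ^ 2 := by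
    rw [sum_comm]
    refine sum_congr rfl fun v _ => ?_
    rw [mul_sum]
    exact sum_congr rfl fun u _ => by ring
  rw [h1]
  refine (sum_le_sum fun v _ => mul_le_mul_of_nonneg_left (Hd_sq_anti' hw hs T t h v)
    (sum_nonneg fun z _ => hw v z)).trans ?_
  refine sum_le_sum fun v _ => ?_
  rw [two_mul, wk_add, mul_sum]
  refine sum_le_sum fun u _ => ?_
  by_cases hv : ∑ z, w v z = 0
  · rw [hv, zero_mul]
    exact mul_nonneg (wk_nonneg hw _ _ _) (wk_nonneg hw _ _ _)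
  · have e1 : (∑ z, w v z) * ((∑ z, w u z) * Hd w T u v ^ 2) =
        ((∑ z, w u z) * ((∑ z, w v z) * Hd w T u v)) * Hd w T u v := by ring
    rw [e1, mHd hw hs, wk_symm hw hs]
    unfold Hd
    apply le_of_eq
    field_simp

/-- the autocorrelation along the walk -/
noncomputable def fR (w : W → W → ℝ) (k : W → W → ℝ) (t : ℕ) : ℝ :=
  ∑ u, ∑ v, (∑ z, w u z) * (∑ z, w v z) * Hd w t u v * k u v

theorem fR_eq (hw : ∀ u v, 0 ≤ w u v) (hs : ∀ u v, w u v = w v u) (k : W → W → ℝ) (t : ℕ) :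
    fR w k t = ∑ u, ∑ v, (∑ z, w u z) * wk w t u v * k u v := by
  unfold fR
  refine sum_congr rfl fun u _ => sum_congr rfl fun v _ => ?_
  rw [← mHd hw hs t u v]
  ring

theorem fR_zero (hw : ∀ u v, 0 ≤ w u v) (hs : ∀ u v, w u v = w v u) (k : W → W → ℝ) :
    fR w k 0 = ∑ u, (∑ z, w u z) * k u u := by
  rw [fR_eq hw hs]
  refine sum_congr rfl fun u _ => ?_
  rw [sum_eq_single u]
  · simp [wk]
  · intro v _ hv
    simp [wk, hv.symm]
  · intro h; exact absurd (mem_univ u) h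

theorem fR_one (hw : ∀ u v, 0 ≤ w u v) (hs : ∀ u v, w u v = w v u) (k : W → W → ℝ) :
    fR w k 1 = ∑ u, ∑ v, w u v * k u v := by
  rw [fR_eq hw hs]
  refine sum_congr rfl fun u _ => sum_congr rfl fun v _ => ?_
  rw [wk_one hw]

/-- global correlation -/
theorem gcret (hw : ∀ u v, 0 ≤ w u v) (hs : ∀ u v, w u v = w v u) (k : W → W → ℝ)
    (hsy : ∀ u v, k u v = k v u) (T : ℕ) (N τ : ℝ) (hN : ∑ u, wk w (2 * T) u u ≤ N)
    (hτ : 0 < τ) (hτ1 : τ ≤ 1 / 8) (M : ℕ) (hM : 48 * (2 : ℝ) ^ (8 * τ * T) ≤ M)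
    (hM' : 1 + 5 * Real.log (1 / τ) ≤ M) (hk : LP (M + M) k)
    (ha : 0 < ∑ u, (∑ z, w u z) * k u u)
    (hen : (1 / 2) * ∑ u, ∑ v, w u v * (k u u + k v v - 2 * k u v) ≤
      τ * ∑ u, (∑ z, w u z) * k u u) :
    (1 / 4) * (2 : ℝ) ^ (-(16 * τ * T)) * (∑ u, (∑ z, w u z) * k u u) ^ 2 ≤
      N * ∑ u, ∑ v, (∑ z, w u z) * (∑ z, w v z) * k u v ^ 2 := by
  have hMpos : (0 : ℝ) < M := lt_of_lt_of_le (by positivity) hM
  have hM0 : 0 < M := by exact_mod_cast hMpos
  have hm : ∀ u, 0 ≤ ∑ z, w u z := fun u => sum_nonneg fun z _ => hw u z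
  have hAC : AC (fR w k) M := ac_of_semigroup (fun u => ∑ z, w u z) (Hd w) hm
    (Hd_nonneg hw) (Hd_symm hw hs) (Hd_add hw) (Hd_sub hw) k hsy M hM0 hk (fR w k)
    (fun t => rfl) (fR_zero hw hs k)
  have hf0 := fR_zero hw hs k
  have hsl : (1 - τ) * fR w k 0 ≤ fR w k 1 := by
    have h1 : (1 / 2) * ∑ u, ∑ v, w u v * (k u u + k v v - 2 * k u v) =
        ∑ u, (∑ z, w u z) * k u u - ∑ u, ∑ v, w u v * k u v := by
      have e1 : ∑ u, ∑ v, w u v * k v v = ∑ u, ∑ v, w u v * k u u := by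
        rw [sum_comm]
        exact sum_congr rfl fun u _ => sum_congr rfl fun v _ => by rw [hs]
      have e2 : ∑ u, ∑ v, w u v * k u u = ∑ u, (∑ z, w u z) * k u u :=
        sum_congr rfl fun u _ => by rw [sum_mul]
      have e3 : ∑ u, ∑ v, w u v * (k u u + k v v - 2 * k u v) =
          ∑ u, ∑ v, w u v * k u u + ∑ u, ∑ v, w u v * k v v - 2 * ∑ u, ∑ v, w u v * k u v := by
        rw [mul_sum, ← sum_add_distrib, ← sum_sub_distrib]
        refine sum_congr rfl fun u _ => ?_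
        rw [mul_sum, ← sum_add_distrib, ← sum_sub_distrib]
        exact sum_congr rfl fun v _ => by ring
      rw [e3, e1, e2]
      ring
    rw [h1] at hen
    rw [fR_zero hw hs, fR_one hw hs]
    linarith
  obtain ⟨t, ht, hft⟩ := ac_lower hAC (by rw [hf0]; exact ha) τ hτ hτ1 hsl T hM hM'
  have l2 : (fR w k t) ^ 2 ≤ (∑ u, ∑ v, (∑ z, w u z) * (∑ z, w v z) * Hd w t u v ^ 2) *
      ∑ u, ∑ v, (∑ z, w u z) * (∑ z, w v z) * k u v ^ 2 := by
    have h1 := Finset.sum_sq_le_sum_mul_sum_of_sq_le_mul ((univ : Finset W) ×ˢ (univ : Finset W))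
      (r := fun p => (∑ z, w p.1 z) * (∑ z, w p.2 z) * Hd w t p.1 p.2 * k p.1 p.2)
      (f := fun p => (∑ z, w p.1 z) * (∑ z, w p.2 z) * Hd w t p.1 p.2 ^ 2)
      (g := fun p => (∑ z, w p.1 z) * (∑ z, w p.2 z) * k p.1 p.2 ^ 2)
      (fun p _ => mul_nonneg (mul_nonneg (hm _) (hm _)) (sq_nonneg _))
      (fun p _ => mul_nonneg (mul_nonneg (hm _) (hm _)) (sq_nonneg _))
      (fun p _ => le_of_eq (by ring))
    rwa [sum_product, sum_product, sum_product] at h1
  have l3 := (Hd_sq_le hw hs T t ht).trans hN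
  set Q : ℝ := ∑ u, ∑ v, (∑ z, w u z) * (∑ z, w v z) * k u v ^ 2 with hQ
  have hQ0 : 0 ≤ Q := sum_nonneg fun u _ => sum_nonneg fun v _ =>
    mul_nonneg (mul_nonneg (hm _) (hm _)) (sq_nonneg _)
  rw [hf0] at hft
  have e4 : (2 : ℝ) ^ (-(16 * τ * T)) = ((2 : ℝ) ^ (-(8 * τ * T))) ^ 2 := by
    rw [← Real.rpow_natCast, ← Real.rpow_mul (by norm_num)]
    congr 1
    push_cast
    ring
  calc (1 / 4) * (2 : ℝ) ^ (-(16 * τ * T)) * (∑ u, (∑ z, w u z) * k u u) ^ 2
      = ((1 / 2) * (2 : ℝ) ^ (-(8 * τ * T)) * ∑ u, (∑ z, w u z) * k u u) ^ 2 := by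
        rw [e4]; ring
    _ ≤ (fR w k t) ^ 2 := pow_le_pow_left₀ (by positivity) hft 2
    _ ≤ _ := l2
    _ ≤ N * Q := mul_le_mul_of_nonneg_right l3 hQ0

end

end Pool.Agent.Helper72.SA
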