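import Mathlib

/-!
Kernels which are positive semidefinite on few points: sampling, and the decay of the
autocorrelation of a reversible chain.
-/

set_option autoImplicit false

namespace Pool.Agent.Helper72.SA

open Finset

/-- the kernel `k` is positive semidefinite on any `N` points -/
def LP {W : Type} (N : ℕ) (k : W → W → ℝ) : Prop :=
  ∀ (x : Fin N → W) (c : Fin N → ℝ), 0 ≤ ∑ i, ∑ j, c i * c j * k (x i) (x j)

section
variable {W ι : Type} [Fintype W] [DecidableEq W] [Fintype ι] [DecidableEq ι]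

theorem ex1 (P : ι → W → ℝ) (h1 : ∀ i, ∑ w, P i w = 1) (i : ι) (g : W → ℝ) :
    ∑ ω : ι → W, (∏ l, P l (ω l)) * g (ω i) = ∑ a, P i a * g a := by
  have h := Finset.prod_univ_sum (fun _ : ι => (univ : Finset W))
    (fun l w => P l w * if l = i then g w else 1)
  have e1 : ∀ ω : ι → W, (∏ l, P l (ω l)) * g (ω i) =
      ∏ l, (P l (ω l) * if l = i then g (ω l) else 1) := by
    intro ω
    rw [Finset.prod_mul_distrib, Finset.prod_ite_eq' univ i, if_pos (mem_univ _)]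
  simp only [e1]
  rw [Fintype.piFinset_univ] at h
  rw [← h, Finset.prod_eq_single i]
  · exact sum_congr rfl fun a _ => by rw [if_pos rfl]
  · intro l _ hl
    exact (sum_congr rfl fun a _ => by rw [if_neg hl, mul_one]).trans (h1 l)
  · intro h; exact absurd (mem_univ _) h

theorem ex2 (P : ι → W → ℝ) (h1 : ∀ i, ∑ w, P i w = 1) (i j : ι) (hij : i ≠ j)
    (g : W → W → ℝ) :
    ∑ ω : ι → W, (∏ l, P l (ω l)) * g (ω i) (ω j) = ∑ a, ∑ b, P i a * P j b * g a b := by
  have key : ∀ a, ∑ ω : ι → W, (∏ l, P l (ω l)) * ((if ω i = a then 1 else 0) * g a (ω j)) =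
      ∑ b, P i a * P j b * g a b := by
    intro a
    have h := Finset.prod_univ_sum (fun _ : ι => (univ : Finset W))
      (fun l w => P l w * ((if l = i then (if w = a then 1 else 0) else 1) *
        (if l = j then g a w else 1)))
    have e1 : ∀ ω : ι → W, (∏ l, P l (ω l)) * ((if ω i = a then 1 else 0) * g a (ω j)) =
        ∏ l, (P l (ω l) * ((if l = i then (if ω l = a then 1 else 0) else 1) *
          (if l = j then g a (ω l) else 1))) := by
      intro ω
      rw [Finset.prod_mul_distrib, Finset.prod_mul_distrib, Finset.prod_ite_eq' univ i,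
        if_pos (mem_univ _), Finset.prod_ite_eq' univ j, if_pos (mem_univ _)]
    simp only [e1]
    rw [Fintype.piFinset_univ] at h
    rw [← h, ← Finset.mul_prod_erase univ _ (mem_univ i),
      ← Finset.mul_prod_erase (univ.erase i) _ (mem_erase.2 ⟨hij.symm, mem_univ j⟩)]
    have e2 : ∑ w, P i w * ((if i = i then (if w = a then 1 else 0) else 1) *
        (if i = j then g a w else 1)) = P i a := by
      rw [sum_eq_single a]
      · simp [hij]
      · intro b _ hb; simp [hb]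
      · intro h; exact absurd (mem_univ _) h
    have e3 : ∑ w, P j w * ((if j = i then (if w = a then 1 else 0) else 1) *
        (if j = j then g a w else 1)) = ∑ b, P j b * g a b := by
      refine sum_congr rfl fun b _ => ?_
      rw [if_neg hij.symm, if_pos rfl, one_mul]
    have e4 : ∏ l ∈ (univ.erase i).erase j, ∑ w, P l w *
        ((if l = i then (if w = a then 1 else 0) else 1) * (if l = j then g a w else 1)) = 1 := by
      refine prod_eq_one fun l hl => ?_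
      have hlj := (mem_erase.1 hl).1
      have hli := (mem_erase.1 (mem_erase.1 hl).2).1
      exact (sum_congr rfl fun b _ => by rw [if_neg hli, if_neg hlj, mul_one, mul_one]).trans
        (h1 l)
    rw [e2, e3, e4, mul_one, mul_sum]
    exact sum_congr rfl fun b _ => by ring
  rw [← sum_congr rfl fun a _ => key a, sum_comm]
  refine sum_congr rfl fun ω _ => ?_
  rw [← mul_sum]
  congr 1
  rw [sum_eq_single (ω i)]
  · simp
  · intro b _ hb; simp [Ne.symm hb]
  · intro h; exact absurd (mem_univ _) h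

/-- sampling the points -/
theorem samp (k : W → W → ℝ) (hk : ∀ (x : ι → W) (c : ι → ℝ),
      0 ≤ ∑ i, ∑ j, c i * c j * k (x i) (x j))
    (P : ι → W → ℝ) (h0 : ∀ i w, 0 ≤ P i w) (h1 : ∀ i, ∑ w, P i w = 1) (c : ι → ℝ) :
    0 ≤ ∑ i, ∑ j, c i * c j * (if i = j then ∑ a, P i a * k a a else
      ∑ a, ∑ b, P i a * P j b * k a b) := by
  have h : 0 ≤ ∑ ω : ι → W, (∏ l, P l (ω l)) * ∑ i, ∑ j, c i * c j * k (ω i) (ω j) :=
    sum_nonneg fun ω _ => mul_nonneg (prod_nonneg fun l _ => h0 l _) (hk ω c)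
  refine h.trans (le_of_eq ?_)
  simp only [mul_sum]
  rw [sum_comm]
  refine sum_congr rfl fun i _ => ?_
  rw [sum_comm]
  refine sum_congr rfl fun j _ => ?_
  have e1 : ∀ ω : ι → W, (∏ l, P l (ω l)) * (c i * c j * k (ω i) (ω j)) =
      c i * c j * ((∏ l, P l (ω l)) * k (ω i) (ω j)) := fun ω => by ring
  rw [sum_congr rfl fun ω _ => e1 ω, ← mul_sum]
  congr 1
  by_cases hij : i = j
  · subst hij
    rw [if_pos rfl]
    exact ex1 P h1 i fun w => k w w
  · rw [if_neg hij]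
    exact ex2 P h1 i j hij k

end

section
variable {W : Type} [Fintype W] [DecidableEq W]

/-- two groups of independent samples -/
theorem samp2 (M : ℕ) (hM : 0 < M) (k : W → W → ℝ) (hsy : ∀ u v, k u v = k v u)
    (hk : LP (M + M) k) (p q : W → ℝ)
    (hp0 : ∀ w, 0 ≤ p w) (hq0 : ∀ w, 0 ≤ q w) (hp1 : ∑ w, p w = 1) (hq1 : ∑ w, q w = 1)
    (α β : ℝ) :
    0 ≤ α ^ 2 * ((1 - 1 / (M : ℝ)) * (∑ a, ∑ b, p a * p b * k a b) +
        1 / (M : ℝ) * ∑ a, p a * k a a) +
      2 * (α * β) * (∑ a, ∑ b, p a * q b * k a b) +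
      β ^ 2 * ((1 - 1 / (M : ℝ)) * (∑ a, ∑ b, q a * q b * k a b) +
        1 / (M : ℝ) * ∑ a, q a * k a a) := by
  have hM0 : (0 : ℝ) < M := by exact_mod_cast hM
  set P : Fin M ⊕ Fin M → W → ℝ := Sum.elim (fun _ => p) (fun _ => q) with hP
  set c : Fin M ⊕ Fin M → ℝ := Sum.elim (fun _ => α / M) (fun _ => β / M) with hc
  have h := samp (ι := Fin M ⊕ Fin M) k (fun x c => by
      have h1 := hk (fun i => x (finSumFinEquiv.symm i)) (fun i => c (finSumFinEquiv.symm i))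
      rw [Equiv.sum_comp finSumFinEquiv.symm (fun i => ∑ j : Fin (M + M),
        c i * c (finSumFinEquiv.symm j) * k (x i) (x (finSumFinEquiv.symm j)))] at h1
      refine h1.trans (le_of_eq (sum_congr rfl fun i _ => ?_))
      exact Equiv.sum_comp finSumFinEquiv.symm (fun j => c i * c j * k (x i) (x j)))
    P (by
      rintro (i | i) w
      · exact hp0 w
      · exact hq0 w) (by
      rintro (i | i)
      · exact hp1
      · exact hq1) c
  rw [Fintype.sum_sum_type] at h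
  simp only [Fintype.sum_sum_type, hP, hc, Sum.elim_inl, Sum.elim_inr, reduceCtorEq, if_false,
    Sum.inl.injEq, Sum.inr.injEq] at h
  have hqp : ∑ a, ∑ b, q a * p b * k a b = ∑ a, ∑ b, p a * q b * k a b := by
    rw [sum_comm]
    refine sum_congr rfl fun a _ => sum_congr rfl fun b _ => ?_
    rw [hsy b a]; ring
  rw [hqp] at h
  set Bpp := ∑ a, ∑ b, p a * p b * k a b
  set Bpq := ∑ a, ∑ b, p a * q b * k a b
  set Bqq := ∑ a, ∑ b, q a * q b * k a b
  set Dp := ∑ a, p a * k a a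
  set Dq := ∑ a, q a * k a a
  have e1 : ∀ (x D B : ℝ), ∑ i : Fin M, ∑ j : Fin M, x * (if i = j then D else B) =
      x * ((M : ℝ) * D + ((M : ℝ) * M - M) * B) := by
    intro x D B
    have e : ∀ i : Fin M, ∑ j : Fin M, x * (if i = j then D else B) =
        x * (D + ((M : ℝ) - 1) * B) := by
      intro i
      rw [← mul_sum]
      congr 1
      have : ∀ j : Fin M, (if i = j then D else B) = B + (if i = j then D - B else 0) := by
        intro j; split_ifs <;> ring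
      rw [sum_congr rfl fun j _ => this j, sum_add_distrib, sum_const, sum_ite_eq,
        if_pos (mem_univ _), card_univ, Fintype.card_fin, nsmul_eq_mul]
      ring
    rw [sum_congr rfl fun i _ => e i, sum_const, card_univ, Fintype.card_fin, nsmul_eq_mul]
    ring
  simp only [sum_add_distrib] at h
  rw [e1, e1] at h
  simp only [sum_const, card_univ, Fintype.card_fin, nsmul_eq_mul] at h
  refine h.trans (le_of_eq ?_)
  field_simp
  ring

end

/-- the inequality satisfied by an autocorrelation -/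
def AC (f : ℕ → ℝ) (M : ℕ) : Prop :=
  ∀ (s s' : ℕ) (α β : ℝ), 0 ≤ α ^ 2 * ((1 - 1 / (M : ℝ)) * f (2 * s) + 1 / (M : ℝ) * f 0) +
    2 * (α * β) * f (s + s') + β ^ 2 * ((1 - 1 / (M : ℝ)) * f (2 * s') + 1 / (M : ℝ) * f 0)

section
variable {f : ℕ → ℝ} {M : ℕ}

/-- doubling -/
theorem doubling (h : AC f M) (hM : 2 ≤ M) (hh : ℕ) :
    f 0 - f (2 * hh) ≤ 2 * (1 + 1 / ((M : ℝ) - 1)) * (f 0 - f hh) := by
  have hM0 : (2 : ℝ) ≤ M := by exact_mod_cast hM
  have h1 := h 0 hh 1 (-1)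
  rw [mul_zero, zero_add] at h1
  have h2 : (1 - 1 / (M : ℝ)) * (f 0 - f (2 * hh)) ≤ 2 * (f 0 - f hh) := by nlinarith
  have h3 : 1 + 1 / ((M : ℝ) - 1) = (1 - 1 / (M : ℝ))⁻¹ := by
    have h4 : (M : ℝ) - 1 ≠ 0 := by linarith
    have h5 : (M : ℝ) ≠ 0 := by linarith
    field_simp
    ring
  have h6 : 0 < 1 - 1 / (M : ℝ) := by
    rw [sub_pos, div_lt_one (by linarith)]
    linarith
  have h7 : (1 - 1 / (M : ℝ))⁻¹ * ((1 - 1 / (M : ℝ)) * (f 0 - f (2 * hh))) ≤
      (1 - 1 / (M : ℝ))⁻¹ * (2 * (f 0 - f hh)) := mul_le_mul_of_nonneg_left h2 (by positivity)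
  rw [← mul_assoc, inv_mul_cancel₀ h6.ne', one_mul] at h7
  rw [h3]
  linarith

/-- many doublings -/
theorem doublings (h : AC f M) (hM : 2 ≤ M) (j : ℕ) :
    f 0 - f (2 ^ j) ≤ 2 ^ j * (1 + 1 / ((M : ℝ) - 1)) ^ j * (f 0 - f 1) := by
  have hM0 : (2 : ℝ) ≤ M := by exact_mod_cast hM
  have hp : 0 ≤ 1 + 1 / ((M : ℝ) - 1) := by
    have : 0 ≤ 1 / ((M : ℝ) - 1) := div_nonneg (by norm_num) (by linarith)
    linarith
  induction j with
  | zero => simp
  | succ j ih =>
    have h1 := doubling h hM (2 ^ j)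
    rw [pow_succ' 2 j]
    refine h1.trans ?_
    calc 2 * (1 + 1 / ((M : ℝ) - 1)) * (f 0 - f (2 ^ j)) ≤
          2 * (1 + 1 / ((M : ℝ) - 1)) * (2 ^ j * (1 + 1 / ((M : ℝ) - 1)) ^ j * (f 0 - f 1)) :=
          mul_le_mul_of_nonneg_left ih (by positivity)
      _ = _ := by ring

/-- one step of the recursion -/
theorem geo_step {a F0 F1 F2 t x0 m b : ℝ} (ha : 0 < a) (hm : 0 < m) (hm1 : m ≤ 1)
    (hb : b = m * a) (hF0 : 0 < F0) (hF1 : 0 < F1) (ht : 1 / 2 ≤ t) (ht1 : t ≤ 1)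
    (hx : 0 < x0) (hx1 : x0 ≤ 1 / 24) (hr : t * F0 ≤ F1) (hb0 : b ≤ x0 * F0)
    (hb1 : b ≤ 2 * x0 * F1)
    (hd : F1 ^ 2 ≤ ((1 - m) * F0 + m * a) * ((1 - m) * F2 + m * a)) :
    (t - 3 * x0) * F1 ≤ F2 := by
  obtain ⟨G0, hG0⟩ : ∃ G0, G0 = (1 - m) * F0 + m * a := ⟨_, rfl⟩
  obtain ⟨G2, hG2⟩ : ∃ G2, G2 = (1 - m) * F2 + m * a := ⟨_, rfl⟩
  rw [← hG0, ← hG2] at hd
  have hG0pos : 0 < G0 := by
    rw [hG0]
    have h7 : 0 ≤ (1 - m) * F0 := mul_nonneg (by linarith) hF0.le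
    have h8 : 0 < m * a := by positivity
    linarith
  have hG0le : G0 ≤ F0 + b := by
    rw [hG0, hb]
    have h4 : 0 ≤ m * F0 := by positivity
    linarith
  have hG2pos : 0 < G2 := by
    by_contra hcon
    push Not at hcon
    have : G0 * G2 ≤ 0 := mul_nonpos_of_nonneg_of_nonpos hG0pos.le hcon
    have h9 : 0 < F1 ^ 2 := by positivity
    linarith
  have hG2low : t * (1 - x0) * F1 ≤ G2 := by
    have h14 : F1 * F1 ≤ (1 + x0) * F0 * G2 := by
      calc F1 * F1 = F1 ^ 2 := by ring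
        _ ≤ G0 * G2 := hd
        _ ≤ (F0 + b) * G2 := mul_le_mul_of_nonneg_right hG0le hG2pos.le
        _ ≤ (1 + x0) * F0 * G2 := mul_le_mul_of_nonneg_right (by linarith) hG2pos.le
    have h15 : t * F0 * F1 ≤ F1 * F1 := mul_le_mul_of_nonneg_right hr hF1.le
    have h16 : F0 * (t * F1) ≤ F0 * ((1 + x0) * G2) := by linarith
    have h17 : t * F1 ≤ (1 + x0) * G2 := le_of_mul_le_mul_left h16 hF0
    have h20 := mul_le_mul_of_nonneg_left h17 (by linarith : 0 ≤ 1 - x0)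
    have h21 : (1 - x0) * ((1 + x0) * G2) = G2 - x0 ^ 2 * G2 := by ring
    have h22 : 0 ≤ x0 ^ 2 * G2 := by positivity
    linarith
  have hF2 : 0 ≤ F2 := by
    by_contra h23
    push Not at h23
    have h24 : G2 ≤ b := by
      rw [hG2, hb]
      have h4 : (1 - m) * F2 ≤ 0 := mul_nonpos_of_nonneg_of_nonpos (by linarith) h23.le
      linarith
    have h25 : t * (1 - x0) * F1 ≤ 2 * x0 * F1 := by linarith
    have h26 : t * (1 - x0) ≤ 2 * x0 := le_of_mul_le_mul_right h25 hF1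
    have h27 : 1 / 2 * (1 - x0) ≤ t * (1 - x0) := mul_le_mul_of_nonneg_right ht (by linarith)
    linarith
  have h32 : G2 ≤ F2 + b := by
    rw [hG2, hb]
    have h4 : 0 ≤ m * F2 := mul_nonneg hm.le hF2
    linarith
  have h30 : t * (x0 * F1) ≤ 1 * (x0 * F1) := mul_le_mul_of_nonneg_right ht1 (by positivity)
  have h33 : t * (1 - x0) * F1 = t * F1 - t * (x0 * F1) := by ring
  have h34 : (t - 3 * x0) * F1 = t * F1 - 3 * (x0 * F1) := by ring
  rw [h34]
  rw [h33] at hG2low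
  linarith

/-- geometric lower bound -/
theorem geo (h : AC f M) (ha : 0 < f 0) (hh I : ℕ) (hM : 24 * 2 ^ I ≤ (M : ℝ))
    (h1 : 5 / 8 * f 0 ≤ f (2 * hh)) : ∀ i, i ≤ I → (1 / 2) ^ i * f 0 ≤ f (2 * (i * hh)) := by
  have hI1 : (1 : ℝ) ≤ 2 ^ I := one_le_pow₀ (by norm_num)
  have hM0 : (0 : ℝ) < M := by linarith
  have hthalf : ∀ i, i < I → ∀ t : ℝ, 5 / 8 - 3 * (2 ^ i - 1) / M ≤ t → 1 / 2 ≤ t := by
    intro i hi t ht
    have hiI : (2 : ℝ) ^ (i + 1) ≤ 2 ^ I := pow_le_pow_right₀ (by norm_num) (by omega)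
    have hi2 : (2 : ℝ) ^ (i + 1) = 2 * 2 ^ i := pow_succ' 2 i
    refine le_trans ?_ ht
    have h2 : 3 * (2 ^ i - 1) / (M : ℝ) ≤ 1 / 8 := by
      rw [div_le_iff₀ hM0]
      linarith
    linarith
  have key : ∀ i, i < I → ∃ t : ℝ, 5 / 8 - 3 * (2 ^ i - 1) / M ≤ t ∧ t ≤ 1 ∧
      0 < f (2 * (i * hh)) ∧ (1 / 2) ^ i * f 0 ≤ f (2 * (i * hh)) ∧
      t * f (2 * (i * hh)) ≤ f (2 * ((i + 1) * hh)) := by
    intro i
    induction i with
    | zero =>
      intro _
      refine ⟨5 / 8, by norm_num, by norm_num, ?_, ?_, ?_⟩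
      · rw [zero_mul, mul_zero]; exact ha
      · rw [zero_mul, mul_zero, pow_zero, one_mul]
      · rw [zero_mul, mul_zero, zero_add, one_mul]; exact h1
    | succ i ih =>
      intro hi
      obtain ⟨t, ht, ht1, hF0, hF, hF1⟩ := ih (by omega)
      have hiI : (2 : ℝ) ^ (i + 1) ≤ 2 ^ I := pow_le_pow_right₀ (by norm_num) (by omega)
      have hi2 : (2 : ℝ) ^ (i + 1) = 2 * 2 ^ i := pow_succ' 2 i
      have hip : (0 : ℝ) < 2 ^ i := by positivity
      have hth := hthalf i (by omega) t ht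
      have hF1pos : 0 < f (2 * ((i + 1) * hh)) := lt_of_lt_of_le (by positivity) hF1
      have hF1' : (1 / 2) ^ (i + 1) * f 0 ≤ f (2 * ((i + 1) * hh)) := by
        calc (1 / 2) ^ (i + 1) * f 0 = 1 / 2 * ((1 / 2) ^ i * f 0) := by ring
          _ ≤ 1 / 2 * f (2 * (i * hh)) := mul_le_mul_of_nonneg_left hF (by norm_num)
          _ ≤ t * f (2 * (i * hh)) := mul_le_mul_of_nonneg_right hth hF0.le
          _ ≤ _ := hF1
      have hdisc : ∀ x : ℝ, 0 ≤ ((1 - 1 / (M : ℝ)) * f (2 * ((i + 1 + 1) * hh)) +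
          1 / (M : ℝ) * f 0) * (x * x) + (2 * f (2 * ((i + 1) * hh))) * x +
          ((1 - 1 / (M : ℝ)) * f (2 * (i * hh)) + 1 / (M : ℝ) * f 0) := by
        intro x
        have h3 := h (i * hh) ((i + 1 + 1) * hh) 1 x
        have e : i * hh + (i + 1 + 1) * hh = 2 * ((i + 1) * hh) := by ring
        rw [e] at h3
        refine h3.trans (le_of_eq ?_)
        ring
      have hd := discrim_le_zero hdisc
      unfold discrim at hd
      have hbF0 : 1 / (M : ℝ) * f 0 ≤ 2 ^ i / M * f (2 * (i * hh)) := by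
        have h10 : f 0 ≤ 2 ^ i * f (2 * (i * hh)) := by
          have h11 := mul_le_mul_of_nonneg_left hF hip.le
          have h12 : (2 : ℝ) ^ i * ((1 / 2) ^ i * f 0) = f 0 := by
            rw [← mul_assoc, ← mul_pow]
            norm_num
          linarith
        calc 1 / (M : ℝ) * f 0 ≤ 1 / (M : ℝ) * (2 ^ i * f (2 * (i * hh))) :=
              mul_le_mul_of_nonneg_left h10 (by positivity)
          _ = _ := by ring
      have hbF1 : 1 / (M : ℝ) * f 0 ≤ 2 * (2 ^ i / M) * f (2 * ((i + 1) * hh)) := by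
        have h10 : f 0 ≤ 2 ^ (i + 1) * f (2 * ((i + 1) * hh)) := by
          have h11 := mul_le_mul_of_nonneg_left hF1' (by positivity : (0 : ℝ) ≤ 2 ^ (i + 1))
          have h12 : (2 : ℝ) ^ (i + 1) * ((1 / 2) ^ (i + 1) * f 0) = f 0 := by
            rw [← mul_assoc, ← mul_pow]
            norm_num
          linarith
        rw [hi2] at h10
        calc 1 / (M : ℝ) * f 0 ≤ 1 / (M : ℝ) * (2 * 2 ^ i * f (2 * ((i + 1) * hh))) :=
              mul_le_mul_of_nonneg_left h10 (by positivity)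
          _ = _ := by ring
      refine ⟨t - 3 * (2 ^ i / M), ?_, ?_, hF1pos, hF1', ?_⟩
      · have : 5 / 8 - 3 * (2 ^ (i + 1) - 1) / (M : ℝ) =
            5 / 8 - 3 * (2 ^ i - 1) / M - 3 * (2 ^ i / M) := by
          rw [hi2]; ring
        rw [this]
        linarith
      · have : 0 < 2 ^ i / (M : ℝ) := by positivity
        linarith
      · refine geo_step (a := f 0) (m := 1 / (M : ℝ)) (b := 1 / (M : ℝ) * f 0) ha
          (by positivity) ?_ rfl hF0 hF1pos hth ht1 (by positivity) ?_ hF1 hbF0 hbF1 ?_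
        · rw [div_le_one hM0]
          linarith
        · rw [div_le_iff₀ hM0]
          linarith
        · nlinarith
  intro i hi
  rcases Nat.lt_or_ge i I with h2 | h2
  · obtain ⟨t, -, -, -, hF, -⟩ := key i h2
    exact hF
  · have hiI : i = I := le_antisymm hi h2
    rcases Nat.eq_zero_or_pos i with h0 | h0
    · rw [h0, zero_mul, mul_zero, pow_zero, one_mul]
    · obtain ⟨i', rfl⟩ : ∃ i', i = i' + 1 := ⟨i - 1, by omega⟩
      obtain ⟨t, ht, -, hF0, hF, hF1⟩ := key i' (by omega)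
      have hth := hthalf i' (by omega) t ht
      calc (1 / 2) ^ (i' + 1) * f 0 = 1 / 2 * ((1 / 2) ^ i' * f 0) := by ring
        _ ≤ 1 / 2 * f (2 * (i' * hh)) := mul_le_mul_of_nonneg_left hF (by norm_num)
        _ ≤ t * f (2 * (i' * hh)) := mul_le_mul_of_nonneg_right hth hF0.le
        _ ≤ _ := hF1

/-- lower bound of an autocorrelation of small initial slope at some time beyond `T` -/
theorem ac_lower (h : AC f M) (ha : 0 < f 0) (τ : ℝ) (hτ : 0 < τ) (hτ1 : τ ≤ 1 / 8)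
    (h1 : (1 - τ) * f 0 ≤ f 1) (T : ℕ)
    (hM : 48 * (2 : ℝ) ^ (8 * τ * T) ≤ M) (hM' : 1 + 5 * Real.log (1 / τ) ≤ M) :
    ∃ t : ℕ, T ≤ t ∧ (1 / 2) * (2 : ℝ) ^ (-(8 * τ * T)) * f 0 ≤ f t := by
  -- the scale
  obtain ⟨j, hj1, hj2, hj3⟩ : ∃ j : ℕ, 1 ≤ j ∧ (2 : ℝ) ^ j * τ ≤ 1 / 4 ∧ 1 / 8 < (2 : ℝ) ^ j * τ := by
    have hex : ∃ j : ℕ, 1 / 8 < (2 : ℝ) ^ j * τ := by
      obtain ⟨j, hj⟩ := pow_unbounded_of_one_lt (1 / (8 * τ)) (by norm_num : (1 : ℝ) < 2)
      refine ⟨j, ?_⟩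
      rw [div_lt_iff₀ (by positivity)] at hj
      linarith
    classical
    have hj := Nat.find_spec hex
    have hmin := fun m hm => Nat.find_min hex (m := m) hm
    set j := Nat.find hex with hjd
    have hj1 : 1 ≤ j := by
      by_contra hcon
      have h0 : j = 0 := by omega
      rw [h0, pow_zero, one_mul] at hj
      linarith
    refine ⟨j, hj1, ?_, hj⟩
    have h2 := hmin (j - 1) (by omega)
    push Not at h2
    obtain ⟨j', hj'⟩ : ∃ j', j = j' + 1 := ⟨j - 1, by omega⟩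
    rw [hj'] at h2 ⊢
    rw [Nat.add_sub_cancel] at h2
    rw [pow_succ']
    linarith
  obtain ⟨j', rfl⟩ : ∃ j', j = j' + 1 := ⟨j - 1, by omega⟩
  have hlog2 := Real.log_two_gt_d9
  have hM2 : (2 : ℝ) ≤ M := by
    have h2 : (1 : ℝ) ≤ (2 : ℝ) ^ (8 * τ * T) := Real.one_le_rpow (by norm_num) (by positivity)
    linarith
  have hM2' : 2 ≤ M := by exact_mod_cast hM2
  -- number of doublings
  have hjlog : ((j' + 1 : ℕ) : ℝ) * Real.log 2 ≤ Real.log (1 / τ) - Real.log 4 := by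
    have h2 : (2 : ℝ) ^ (j' + 1) ≤ 1 / τ / 4 := by
      rw [div_div, le_div_iff₀ (by positivity)]
      linarith
    have h3 := Real.log_le_log (by positivity) h2
    rw [Real.log_pow, Real.log_div (by positivity) (by norm_num)] at h3
    exact h3
  have hlog4 : 0 < Real.log 4 := Real.log_pos (by norm_num)
  have h3j : 3 * ((j' + 1 : ℕ) : ℝ) ≤ (M : ℝ) - 1 := by
    have h2 : ((j' + 1 : ℕ) : ℝ) * (3 / 5) ≤ ((j' + 1 : ℕ) : ℝ) * Real.log 2 :=
      mul_le_mul_of_nonneg_left (by linarith) (Nat.cast_nonneg _)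
    linarith
  have hgrow : (1 + 1 / ((M : ℝ) - 1)) ^ (j' + 1) ≤ 3 / 2 := by
    have h2 : 1 + 1 / ((M : ℝ) - 1) ≤ Real.exp (1 / ((M : ℝ) - 1)) := by
      have := Real.add_one_le_exp (1 / ((M : ℝ) - 1))
      linarith
    have h0 : (0 : ℝ) < (M : ℝ) - 1 := by linarith
    have h3 : (1 + 1 / ((M : ℝ) - 1)) ^ (j' + 1) ≤ Real.exp (1 / 3) := by
      calc (1 + 1 / ((M : ℝ) - 1)) ^ (j' + 1) ≤ Real.exp (1 / ((M : ℝ) - 1)) ^ (j' + 1) :=
            pow_le_pow_left₀ (by positivity) h2 _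
        _ = Real.exp (((j' + 1 : ℕ) : ℝ) * (1 / ((M : ℝ) - 1))) := by rw [← Real.exp_nat_mul]
        _ ≤ Real.exp (1 / 3) := by
            apply Real.exp_le_exp.2
            rw [mul_one_div, div_le_div_iff₀ h0 (by norm_num)]
            linarith
    refine h3.trans ?_
    have h4 : Real.exp (1 / 3) ^ 3 ≤ (3 / 2 : ℝ) ^ 3 := by
      rw [← Real.exp_nat_mul]
      norm_num
      have := Real.exp_one_lt_d9
      linarith
    exact le_of_pow_le_pow_left₀ (by norm_num) (by norm_num) h4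
  have hD : f 0 - f 1 ≤ τ * f 0 := by linarith
  have hstart : 5 / 8 * f 0 ≤ f (2 * 2 ^ j') := by
    have h2 := doublings h hM2' (j' + 1)
    rw [← pow_succ' 2 j']
    have hp : 0 ≤ (2 : ℝ) ^ (j' + 1) * (1 + 1 / ((M : ℝ) - 1)) ^ (j' + 1) := by
      have h0 : (0 : ℝ) < (M : ℝ) - 1 := by linarith
      positivity
    have h3 : (2 : ℝ) ^ (j' + 1) * (1 + 1 / ((M : ℝ) - 1)) ^ (j' + 1) * (f 0 - f 1) ≤
        3 / 8 * f 0 := by
      calc (2 : ℝ) ^ (j' + 1) * (1 + 1 / ((M : ℝ) - 1)) ^ (j' + 1) * (f 0 - f 1) ≤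
            (2 : ℝ) ^ (j' + 1) * (1 + 1 / ((M : ℝ) - 1)) ^ (j' + 1) * (τ * f 0) :=
            mul_le_mul_of_nonneg_left hD hp
        _ = (2 ^ (j' + 1) * τ) * (1 + 1 / ((M : ℝ) - 1)) ^ (j' + 1) * f 0 := by ring
        _ ≤ 1 / 4 * (3 / 2) * f 0 := by
            refine mul_le_mul_of_nonneg_right ?_ ha.le
            refine mul_le_mul hj2 hgrow ?_ (by norm_num)
            have h0 : (0 : ℝ) < (M : ℝ) - 1 := by linarith
            positivity
        _ = _ := by ring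
    linarith
  -- number of blocks
  set I : ℕ := ⌈8 * τ * T⌉₊ with hI
  have hI1 : 8 * τ * T ≤ I := Nat.le_ceil _
  have hI2 : (I : ℝ) < 8 * τ * T + 1 := Nat.ceil_lt_add_one (by positivity)
  have h2I : (2 : ℝ) ^ I ≤ 2 * (2 : ℝ) ^ (8 * τ * T) := by
    rw [← Real.rpow_natCast]
    calc (2 : ℝ) ^ (I : ℝ) ≤ (2 : ℝ) ^ (8 * τ * T + 1) :=
          Real.rpow_le_rpow_of_exponent_le (by norm_num) hI2.le
      _ = _ := by rw [Real.rpow_add (by norm_num), Real.rpow_one, mul_comm]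
  have hgeo := geo h ha (2 ^ j') I (by linarith) hstart I le_rfl
  refine ⟨2 * (I * 2 ^ j'), ?_, ?_⟩
  · have h2 : (T : ℝ) ≤ 2 * (I * 2 ^ j') := by
      have h3 : (2 : ℝ) ^ (j' + 1) = 2 * 2 ^ j' := pow_succ' 2 j'
      rw [h3] at hj3
      have h4 : 0 ≤ (T : ℝ) := Nat.cast_nonneg T
      have h5 : 8 * τ * T * (2 * 2 ^ j') ≤ I * (2 * 2 ^ j') :=
        mul_le_mul_of_nonneg_right hI1 (by positivity)
      nlinarith
    exact_mod_cast h2
  · refine le_trans ?_ hgeo
    refine mul_le_mul_of_nonneg_right ?_ ha.le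
    rw [Real.rpow_neg (by norm_num), one_div_pow, ← one_div, div_mul_div_comm, one_mul]
    exact one_div_le_one_div_of_le (by positivity) h2I

end

end Pool.Agent.Helper72.SA
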