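import Pool.Agent.Helper72.SA.Samp

/-!
The autocorrelation of a kernel which is positive semidefinite on few points, along a symmetric
sub-Markov semigroup.
-/

set_option autoImplicit false

namespace Pool.Agent.Helper72.SA

open Finset

section
variable {W : Type} [Fintype W] [DecidableEq W]

/-- two groups of independent samples, subprobability version -/
theorem samp3 (M : ℕ) (hM : 0 < M) (k : W → W → ℝ) (hsy : ∀ u v, k u v = k v u)
    (hk : LP (M + M) k) (p q : W → ℝ)
    (hp0 : ∀ w, 0 ≤ p w) (hq0 : ∀ w, 0 ≤ q w) (hp1 : ∑ w, p w ≤ 1) (hq1 : ∑ w, q w ≤ 1)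
    (α β : ℝ) :
    0 ≤ α ^ 2 * ((1 - 1 / (M : ℝ)) * (∑ a, ∑ b, p a * p b * k a b) +
        1 / (M : ℝ) * ∑ a, p a * k a a) +
      2 * (α * β) * (∑ a, ∑ b, p a * q b * k a b) +
      β ^ 2 * ((1 - 1 / (M : ℝ)) * (∑ a, ∑ b, q a * q b * k a b) +
        1 / (M : ℝ) * ∑ a, q a * k a a) := by
  rcases isEmpty_or_nonempty W with hW | ⟨⟨w0⟩⟩
  · simp
  obtain ⟨k', hk1, hk2, hk3⟩ : ∃ k' : Option W → Option W → ℝ,
      (∀ a b, k' (some a) (some b) = k a b) ∧ (∀ y, k' none y = 0) ∧ (∀ x, k' x none = 0) :=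
    ⟨fun x y => x.elim 0 fun a => y.elim 0 fun b => k a b, fun _ _ => rfl, fun _ => rfl,
      fun x => by cases x <;> rfl⟩
  obtain ⟨P, hPs, hPn⟩ : ∃ P : (W → ℝ) → Option W → ℝ, (∀ p a, P p (some a) = p a) ∧
      ∀ p, P p none = 1 - ∑ a, p a :=
    ⟨fun p x => x.elim (1 - ∑ a, p a) p, fun _ _ => rfl, fun _ => rfl⟩
  have hP0 : ∀ p : W → ℝ, (∀ a, 0 ≤ p a) → ∑ a, p a ≤ 1 → ∀ x, 0 ≤ P p x := by
    intro p h0 h1 x
    cases x with
    | some a => rw [hPs]; exact h0 a
    | none => rw [hPn]; linarith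
  have hP1 : ∀ p : W → ℝ, ∑ x, P p x = 1 := by
    intro p
    rw [Fintype.sum_option, hPn]
    simp only [hPs]
    ring
  have hLP : LP (M + M) k' := by
    intro x c
    have h := hk (fun i => (x i).getD w0) (fun i => if x i = none then 0 else c i)
    refine h.trans (le_of_eq (sum_congr rfl fun i _ => sum_congr rfl fun j _ => ?_))
    cases hi : x i with
    | none => simp [hk2]
    | some a =>
      cases hj : x j with
      | none => simp [hk3]
      | some b => simp [hk1]
  have h := samp2 M hM k' (fun u v => by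
    cases u with
    | none => rw [hk2 v, hk3 v]
    | some a =>
      cases v with
      | none => rw [hk2 (some a), hk3 (some a)]
      | some b => rw [hk1, hk1, hsy]) hLP (P p) (P q) (hP0 p hp0 hp1) (hP0 q hq0 hq1) (hP1 p) (hP1 q)
      α β
  have e1 : ∀ p q : W → ℝ, ∑ a, ∑ b, P p a * P q b * k' a b = ∑ a, ∑ b, p a * q b * k a b := by
    intro p q
    rw [Fintype.sum_option]
    simp only [hk2, mul_zero, sum_const_zero, zero_add]
    refine sum_congr rfl fun a _ => ?_
    rw [Fintype.sum_option, hk3 (some a), mul_zero, zero_add]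
    exact sum_congr rfl fun b _ => by rw [hPs, hPs, hk1]
  have e2 : ∀ p : W → ℝ, ∑ a, P p a * k' a a = ∑ a, p a * k a a := by
    intro p
    rw [Fintype.sum_option, hk2 none, mul_zero, zero_add]
    exact sum_congr rfl fun b _ => by rw [hPs, hk1]
  rw [e1, e1, e1, e2, e2] at h
  exact h

omit [Fintype W] [DecidableEq W] in
theorem LP.diag {N : ℕ} {k : W → W → ℝ} (hk : LP N k) (hN : 0 < N) (u : W) : 0 ≤ k u u := by
  classical
  have h := hk (fun _ => u) (fun i => if i = ⟨0, hN⟩ then 1 else 0)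
  simpa using h

/-- the autocorrelation along a symmetric sub-Markov semigroup -/
theorem ac_of_semigroup (m : W → ℝ) (H : ℕ → W → W → ℝ) (hm : ∀ u, 0 ≤ m u)
    (H0 : ∀ s u v, 0 ≤ H s u v) (Hsy : ∀ s u v, H s u v = H s v u)
    (Hadd : ∀ s s' u v, ∑ z, m z * H s u z * H s' z v = H (s + s') u v)
    (Hsub : ∀ s u, ∑ v, m v * H s u v ≤ 1) (k : W → W → ℝ) (hsy : ∀ u v, k u v = k v u) (M : ℕ)
    (hM : 0 < M) (hk : LP (M + M) k) (f : ℕ → ℝ)
    (hf : ∀ t, f t = ∑ u, ∑ v, m u * m v * H t u v * k u v) (hf0 : f 0 = ∑ u, m u * k u u) :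
    AC f M := by
  intro s s' α β
  have hM0 : (0 : ℝ) < M := by exact_mod_cast hM
  have hkd : ∀ u, 0 ≤ k u u := fun u => hk.diag (by omega) u
  have hz : ∀ z, 0 ≤ m z * (α ^ 2 * ((1 - 1 / (M : ℝ)) *
        (∑ a, ∑ b, (m a * H s z a) * (m b * H s z b) * k a b) +
        1 / (M : ℝ) * ∑ a, (m a * H s z a) * k a a) +
      2 * (α * β) * (∑ a, ∑ b, (m a * H s z a) * (m b * H s' z b) * k a b) +
      β ^ 2 * ((1 - 1 / (M : ℝ)) * (∑ a, ∑ b, (m a * H s' z a) * (m b * H s' z b) * k a b) +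
        1 / (M : ℝ) * ∑ a, (m a * H s' z a) * k a a)) := fun z =>
    mul_nonneg (hm z) (samp3 M hM k hsy hk _ _ (fun a => mul_nonneg (hm a) (H0 _ _ _))
      (fun a => mul_nonneg (hm a) (H0 _ _ _)) (Hsub s z) (Hsub s' z) α β)
  have hsum := sum_nonneg fun z (_ : z ∈ (univ : Finset W)) => hz z
  have eB : ∀ s s', ∑ z, m z * ∑ a, ∑ b, (m a * H s z a) * (m b * H s' z b) * k a b =
      f (s + s') := by
    intro s s'
    rw [hf]
    have e1 : ∀ a b, m a * m b * H (s + s') a b * k a b =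
        ∑ z, m z * ((m a * H s z a) * (m b * H s' z b) * k a b) := by
      intro a b
      rw [← Hadd s s' a b, mul_sum, sum_mul]
      refine sum_congr rfl fun z _ => ?_
      rw [Hsy s a z]
      ring
    simp only [e1, mul_sum]
    rw [sum_comm]
    refine sum_congr rfl fun a _ => ?_
    rw [sum_comm]
  have eD : ∀ s, ∑ z, m z * ∑ a, (m a * H s z a) * k a a ≤ f 0 := by
    intro s
    rw [hf0]
    have e1 : ∑ z, m z * ∑ a, (m a * H s z a) * k a a =
        ∑ a, m a * k a a * ∑ z, m z * H s a z := by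
      simp only [mul_sum]
      rw [sum_comm]
      refine sum_congr rfl fun a _ => sum_congr rfl fun z _ => ?_
      rw [Hsy s a z]
      ring
    rw [e1]
    refine sum_le_sum fun a _ => ?_
    exact mul_le_of_le_one_right (mul_nonneg (hm a) (hkd a)) (Hsub s a)
  have e3 : ∑ z, m z * (α ^ 2 * ((1 - 1 / (M : ℝ)) *
        (∑ a, ∑ b, (m a * H s z a) * (m b * H s z b) * k a b) +
        1 / (M : ℝ) * ∑ a, (m a * H s z a) * k a a) +
      2 * (α * β) * (∑ a, ∑ b, (m a * H s z a) * (m b * H s' z b) * k a b) +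
      β ^ 2 * ((1 - 1 / (M : ℝ)) * (∑ a, ∑ b, (m a * H s' z a) * (m b * H s' z b) * k a b) +
        1 / (M : ℝ) * ∑ a, (m a * H s' z a) * k a a)) =
      α ^ 2 * ((1 - 1 / (M : ℝ)) * f (s + s) + 1 / (M : ℝ) *
        ∑ z, m z * ∑ a, (m a * H s z a) * k a a) + 2 * (α * β) * f (s + s') +
      β ^ 2 * ((1 - 1 / (M : ℝ)) * f (s' + s') + 1 / (M : ℝ) *
        ∑ z, m z * ∑ a, (m a * H s' z a) * k a a) := by
    rw [← eB s s, ← eB s s', ← eB s' s']
    simp only [mul_add, mul_sum, sum_add_distrib]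
    congr 1
    · congr 1
      · congr 1
        · refine sum_congr rfl fun z _ => sum_congr rfl fun a _ => sum_congr rfl fun b _ => ?_
          ring
        · refine sum_congr rfl fun z _ => sum_congr rfl fun a _ => ?_
          ring
      · refine sum_congr rfl fun z _ => sum_congr rfl fun a _ => sum_congr rfl fun b _ => ?_
        ring
    · congr 1
      · refine sum_congr rfl fun z _ => sum_congr rfl fun a _ => sum_congr rfl fun b _ => ?_
        ring
      · refine sum_congr rfl fun z _ => sum_congr rfl fun a _ => ?_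
        ring
  rw [e3] at hsum
  refine hsum.trans ?_
  have h1M : 0 ≤ 1 / (M : ℝ) := by positivity
  have i1 := mul_le_mul_of_nonneg_left (mul_le_mul_of_nonneg_left (eD s) h1M) (sq_nonneg α)
  have i2 := mul_le_mul_of_nonneg_left (mul_le_mul_of_nonneg_left (eD s') h1M) (sq_nonneg β)
  rw [show 2 * s = s + s by ring, show 2 * s' = s' + s' by ring]
  linarith

end

end Pool.Agent.Helper72.SA
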