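import Pool.Agent.Helper72.SA.NashT

/-!
Return probabilities and small-set expansion at one scale: statements of the pieces.
-/

set_option autoImplicit false

namespace Pool.Agent.Helper72.SA

open Finset

/-- small-set expansion at one scale: sets of volume at most `B` have expansion at least `φ` -/
def SE1 {W : Type} [Fintype W] (w : W → W → ℝ) (B φ : ℝ) : Prop :=
  ∀ S : Finset W, ∑ u ∈ S, ∑ z, w u z ≤ B →
    ∑ u ∈ S, ∑ v ∈ S, w u v ≤ (1 - φ) * ∑ u ∈ S, ∑ z, w u z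

/-- local Cheeger inequality for two functions -/
def S_CH2 : Prop := ∀ (W : Type) [Fintype W] [DecidableEq W] (w : W → W → ℝ),
  (∀ u v, 0 ≤ w u v) → (∀ u v, w u v = w v u) → ∀ (B φ : ℝ), 0 ≤ φ → φ ≤ 1 → SE1 w B φ →
  ∀ f g : W → ℝ, (∀ u, 0 ≤ f u) → (∀ u, 0 ≤ g u) →
    ∑ u ∈ univ.filter (fun u => 0 < f u ∨ 0 < g u), ∑ z, w u z ≤ B →
    2 * ∑ u, ∑ v, w u v * (g u * f v) ≤
      (1 - φ ^ 2 / 2) * ∑ u, (∑ z, w u z) * (f u ^ 2 + g u ^ 2)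

/-- decay of the densities in one step -/
def S_DEC : Prop := ∀ (W : Type) [Fintype W] [DecidableEq W] (w : W → W → ℝ),
  (∀ u v, 0 ≤ w u v) → (∀ u v, w u v = w v u) → ∀ (B φ : ℝ), 0 < B → 0 < φ → φ ≤ 1 →
  SE1 w B φ → ∀ (t : ℕ) (v : W), 8 ≤ B * ∑ u, (∑ z, w u z) * Hd w t u v ^ 2 →
    ∑ u, (∑ z, w u z) * Hd w (t + 1) u v ^ 2 ≤
      (1 - φ ^ 2 / 4) * ∑ u, (∑ z, w u z) * Hd w t u v ^ 2

/-- trace of a power of the walk -/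
def S_TR1 : Prop := ∀ (W : Type) [Fintype W] [DecidableEq W] (w : W → W → ℝ),
  (∀ u v, 0 ≤ w u v) → (∀ u v, w u v = w v u) → ∀ (B φ : ℝ), 0 < B → 0 < φ → φ ≤ 1 →
  SE1 w B φ → ∀ T : ℕ, 1 ≤ T → 4 / φ ^ 2 * Real.log (Fintype.card W) ≤ T →
    ∑ u, wk w (2 * T) u u ≤ 8 * (∑ u, ∑ z, w u z) / B + 1

end Pool.Agent.Helper72.SA
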