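import Pool.Agent.Helper72.SA.Corr

/-!
Symmetric sub-Markov operators: heat kernel decay and correlation.
-/

set_option autoImplicit false

namespace Pool.Agent.Helper72.SA

open Finset Pool.Agent.H647R3.UG Pool.Agent.H573R3.SL Pool.Agent.TH522.US

/-- a self-adjoint, positive, sub-Markov operator with spectrum in `[0, 1]` -/
structure IsSub {W : Type} [Fintype W] (m : W → ℝ) (T : (W → ℝ) → (W → ℝ)) : Prop where
  pos : ∀ u, 0 < m u
  sym : ∀ f g : W → ℝ, ip m (T f) g = ip m f (T g)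
  tot : ∀ f : W → ℝ, (∀ u, 0 ≤ f u) → ∑ u, m u * T f u ≤ ∑ u, m u * f u
  nn : ∀ f : W → ℝ, (∀ u, 0 ≤ f u) → ∀ u, 0 ≤ T f u
  sq : ∀ f : W → ℝ, ip m (T f) (T f) ≤ ip m f (T f)
  le : ∀ f : W → ℝ, ip m f (T f) ≤ ip m f f
  lin : ∀ (f g : W → ℝ) (c : ℝ), T (fun u => f u + c * g u) = fun u => T f u + c * T g u

namespace IsSub

section
variable {W : Type} [Fintype W] {m : W → ℝ} {T : (W → ℝ) → (W → ℝ)}

theorem move (h : IsSub m T) (f g : W → ℝ) (s : ℕ) :
    ip m (T^[s] f) g = ip m f (T^[s] g) := by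
  induction s generalizing f g with
  | zero => rfl
  | succ s ih =>
    rw [Function.iterate_succ_apply, ih, h.sym, Function.iterate_succ_apply']

variable [DecidableEq W]

omit [DecidableEq W] in
theorem op_zero (h : IsSub m T) : T (fun _ => 0) = fun _ => 0 := by
  have h1 := h.lin (fun _ => 0) (fun _ => 0) (-1)
  funext u
  have h2 := congrFun h1 u
  simp only [mul_zero, add_zero] at h2
  linarith

omit [DecidableEq W] in
theorem op_sum (h : IsSub m T) {ι : Type} [DecidableEq ι] (S : Finset ι) (c : ι → ℝ)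
    (g : ι → W → ℝ) :
    T (fun u => ∑ i ∈ S, c i * g i u) = fun u => ∑ i ∈ S, c i * T (g i) u := by
  induction S using Finset.induction_on with
  | empty => simp only [sum_empty]; exact op_zero h
  | insert a S ha ih =>
    have e : (fun u => ∑ i ∈ insert a S, c i * g i u) =
        fun u => (fun u => ∑ i ∈ S, c i * g i u) u + c a * g a u := by
      funext u
      rw [sum_insert ha]
      ring
    rw [e, h.lin, ih]
    funext u
    rw [sum_insert ha]
    ring

omit [DecidableEq W] in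
theorem it_sum (h : IsSub m T) {ι : Type} [DecidableEq ι] (S : Finset ι) (c : ι → ℝ)
    (g : ι → W → ℝ) (s : ℕ) : T^[s] (fun u => ∑ i ∈ S, c i * g i u) =
      fun u => ∑ i ∈ S, c i * (T^[s] (g i)) u := by
  induction s with
  | zero => rfl
  | succ s ih =>
    rw [Function.iterate_succ_apply', ih, op_sum h]
    funext u
    apply sum_congr rfl
    intro i _
    rw [Function.iterate_succ_apply']

theorem it_kernel (h : IsSub m T) (f : W → ℝ) (s : ℕ) (u : W) :
    (T^[s] f) u = ∑ v, m v * f v * (T^[s] (dl m v)) u := by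
  have e : f = fun u => ∑ v, (m v * f v) * dl m v u := by
    funext u
    rw [sum_eq_single u]
    · unfold dl
      rw [if_pos rfl]
      have := (h.pos u).ne'
      field_simp
    · intro v _ hv
      unfold dl
      rw [if_neg hv.symm, mul_zero]
    · intro h; exact absurd (mem_univ u) h
  conv_lhs => rw [e]
  rw [it_sum h]

theorem it_symm (h : IsSub m T) (s : ℕ) (u v : W) :
    (T^[s] (dl m v)) u = (T^[s] (dl m u)) v := by
  rw [← ip_dl h.pos (T^[s] (dl m v)) u, move h, OPX.ip_comm, ip_dl h.pos]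

omit [DecidableEq W] in
theorem it_nonneg (h : IsSub m T) (f : W → ℝ) (hf : ∀ u, 0 ≤ f u) (s : ℕ) :
    ∀ u, 0 ≤ (T^[s] f) u := by
  induction s with
  | zero => exact hf
  | succ s ih => intro u; rw [Function.iterate_succ_apply']; exact h.nn _ ih u

omit [DecidableEq W] in
theorem it_tot (h : IsSub m T) (f : W → ℝ) (hf : ∀ u, 0 ≤ f u) (s : ℕ) :
    ∑ u, m u * (T^[s] f) u ≤ ∑ u, m u * f u := by
  induction s with
  | zero => exact le_rfl
  | succ s ih =>
    rw [Function.iterate_succ_apply']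
    exact (h.tot _ (it_nonneg h f hf s)).trans ih

theorem it_add (h : IsSub m T) (s s' : ℕ) (u v : W) :
    ∑ z, m z * (T^[s] (dl m z)) u * (T^[s'] (dl m v)) z = (T^[s + s'] (dl m v)) u := by
  rw [Function.iterate_add_apply, it_kernel h (T^[s'] (dl m v)) s u]
  exact sum_congr rfl fun z _ => by ring

/-- the autocorrelation along a chain -/
theorem ac (h : IsSub m T) (k : W → W → ℝ) (hsy : ∀ u v, k u v = k v u) (M : ℕ)
    (hM : 0 < M) (hk : LP (M + M) k) :
    AC (fun t => ∑ u, ∑ v, m u * m v * (T^[t] (dl m v)) u * k u v) M ∧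
      (∑ u, ∑ v, m u * m v * (T^[0] (dl m v)) u * k u v) = ∑ u, m u * k u u := by
  have h0 : (∑ u, ∑ v, m u * m v * (T^[0] (dl m v)) u * k u v) = ∑ u, m u * k u u := by
    refine sum_congr rfl fun u _ => ?_
    rw [sum_eq_single u]
    · show m u * m u * dl m u u * k u u = _
      unfold dl
      rw [if_pos rfl]
      have := (h.pos u).ne'
      field_simp
    · intro v _ hv
      show m u * m v * dl m v u * k u v = _
      unfold dl
      rw [if_neg hv.symm, mul_zero, zero_mul]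
    · intro h; exact absurd (mem_univ u) h
  refine ⟨?_, h0⟩
  refine ac_of_semigroup m (fun s u v => (T^[s] (dl m v)) u) (fun u => (h.pos u).le)
    (fun s u v => it_nonneg h _ (dl_nonneg h.pos v) s u) (fun s u v => it_symm h s u v)
    (fun s s' u v => it_add h s s' u v) (fun s u => ?_) k hsy M hM hk _ (fun t => rfl) h0
  have e : ∀ v, m v * (T^[s] (dl m v)) u = m v * (T^[s] (dl m u)) v := fun v => by
    rw [it_symm h]
  show ∑ v, m v * (T^[s] (dl m v)) u ≤ 1
  rw [sum_congr rfl fun v _ => e v, ← dl_tot h.pos u]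
  exact it_tot h _ (dl_nonneg h.pos u) s

/-- heat kernel decay -/
theorem decay (h : IsSub m T) (M0 l : ℝ) (hM0 : ∀ v, m v ≤ M0) (hl : 0 < l) (hl1 : l ≤ 1)
    (hFK : ∀ f : W → ℝ, (∀ u, 0 ≤ f u) → ∑ u, m u * f u ≤ 1 → 1 ≤ M0 * ip m f f / 4 →
      ip m f (T f) ≤ ip m f f * (1 - l / 4 * Real.log (M0 * ip m f f / 4))) (v : W) (s : ℕ) :
    ip m (T^[s] (dl m v)) (T^[s] (dl m v)) ≤ 4 / M0 * (M0 / m v) ^ ((1 - l / 4) ^ s : ℝ) := by
  have hv := h.pos v
  have hMp : 0 < M0 := lt_of_lt_of_le hv (hM0 v)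
  have hB : 1 ≤ M0 / m v := by rw [le_div_iff₀ hv, one_mul]; exact hM0 v
  have hdl := dl_nonneg h.pos v
  set F : ℕ → ℝ := fun s => ip m (T^[s] (dl m v)) (T^[s] (dl m v)) with hF
  have hF0 : ∀ s, 0 ≤ F s := fun s => LCX.ip_self_nonneg h.pos _
  have hmain : ∀ s, M0 * F s / 4 ≤ (M0 / m v) ^ ((1 - l / 4) ^ s : ℝ) := by
    intro s
    induction s with
    | zero =>
      have h1 : F 0 = 1 / m v := by
        change ip m (dl m v) (dl m v) = _
        unfold ip dl
        rw [sum_eq_single v]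
        · rw [if_pos rfl]
          field_simp
        · intro u _ hu; rw [if_neg hu, mul_zero]
        · intro h; exact absurd (mem_univ v) h
      rw [pow_zero, Real.rpow_one, h1]
      have : M0 * (1 / m v) / 4 = M0 / m v / 4 := by ring
      rw [this]
      linarith
    | succ s ih =>
      have hle : F (s + 1) ≤ F s := by
        simp only [hF, Function.iterate_succ_apply']
        exact (h.sq _).trans (h.le _)
      have hexp0 : (0 : ℝ) ≤ (1 - l / 4) ^ (s + 1) := pow_nonneg (by linarith) _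
      rcases lt_or_ge (M0 * F s / 4) 1 with hlt | hge
      · have h1 : M0 * F (s + 1) / 4 ≤ M0 * F s / 4 := by
          have := mul_le_mul_of_nonneg_left hle hMp.le
          linarith
        exact (h1.trans hlt.le).trans (Real.one_le_rpow hB hexp0)
      · have hpos : 0 < M0 * F s / 4 := by linarith
        have h2 := hFK (T^[s] (dl m v)) (it_nonneg h _ hdl s)
          ((it_tot h _ hdl s).trans (dl_tot h.pos v).le) hge
        have h3 : F (s + 1) ≤ F s * (1 - l / 4 * Real.log (M0 * F s / 4)) := by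
          simp only [hF, Function.iterate_succ_apply']
          exact (h.sq _).trans h2
        have h4 : 1 - l / 4 * Real.log (M0 * F s / 4) ≤
            Real.exp (-(l / 4 * Real.log (M0 * F s / 4))) := by
          have := Real.add_one_le_exp (-(l / 4 * Real.log (M0 * F s / 4)))
          linarith
        have h5 : M0 * F (s + 1) / 4 ≤ (M0 * F s / 4) ^ (1 - l / 4) := by
          calc M0 * F (s + 1) / 4 ≤ M0 * (F s * (1 - l / 4 * Real.log (M0 * F s / 4))) / 4 := by
                have := mul_le_mul_of_nonneg_left h3 hMp.le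
                linarith
            _ = (M0 * F s / 4) * (1 - l / 4 * Real.log (M0 * F s / 4)) := by ring
            _ ≤ (M0 * F s / 4) * Real.exp (-(l / 4 * Real.log (M0 * F s / 4))) :=
                mul_le_mul_of_nonneg_left h4 hpos.le
            _ = Real.exp (Real.log (M0 * F s / 4)) *
                Real.exp (-(l / 4 * Real.log (M0 * F s / 4))) := by rw [Real.exp_log hpos]
            _ = (M0 * F s / 4) ^ (1 - l / 4) := by
                rw [Real.rpow_def_of_pos hpos, ← Real.exp_add]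
                congr 1
                ring
        refine h5.trans ((Real.rpow_le_rpow hpos.le ih (by linarith)).trans (le_of_eq ?_))
        rw [← Real.rpow_mul (by positivity), pow_succ]
  have h1 := hmain s
  change F s ≤ _
  rw [div_mul_eq_mul_div, le_div_iff₀ hMp]
  linarith

/-- the total of the squares of the transition densities -/
theorem sq_total [Nonempty W] (h : IsSub m T) (M0 l : ℝ) (hM0 : vol m univ ≤ M0) (hl : 0 < l)
    (hl1 : l ≤ 1)
    (hFK : ∀ f : W → ℝ, (∀ u, 0 ≤ f u) → ∑ u, m u * f u ≤ 1 → 1 ≤ M0 * ip m f f / 4 →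
      ip m f (T f) ≤ ip m f f * (1 - l / 4 * Real.log (M0 * ip m f f / 4))) (q : ℝ) (hq1 : q ≤ 1)
    (s : ℕ) (hs : (1 - l / 4) ^ s ≤ q) :
    ∑ u, ∑ v, m u * m v * (T^[s] (dl m v)) u ^ 2 ≤ 4 * (Fintype.card W : ℝ) ^ q := by
  have hn : (1 : ℝ) ≤ (Fintype.card W : ℝ) := by
    exact_mod_cast Fintype.card_pos
  have hV : 0 < vol m univ := sum_pos (fun u _ => h.pos u) univ_nonempty
  have hmv : ∀ v, m v ≤ M0 := fun v =>
    (single_le_sum (f := m) (fun u _ => (h.pos u).le) (mem_univ v)).trans hM0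
  set δ : ℝ := (1 - l / 4) ^ s with hδ
  have hδ0 : 0 ≤ δ := pow_nonneg (by linarith) _
  rw [sum_comm]
  have h1 : ∀ v ∈ (univ : Finset W), ∑ u, m u * m v * (T^[s] (dl m v)) u ^ 2 ≤
      m v * (4 / vol m univ * (vol m univ / m v) ^ δ) := by
    intro v _
    have e : ∑ u, m u * m v * (T^[s] (dl m v)) u ^ 2 =
        m v * ip m (T^[s] (dl m v)) (T^[s] (dl m v)) := by
      unfold ip
      rw [mul_sum]
      apply sum_congr rfl
      intro u _
      ring
    rw [e]
    refine mul_le_mul_of_nonneg_left ?_ (h.pos v).le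
    refine (decay h M0 l hmv hl hl1 hFK v s).trans ?_
    have hv := h.pos v
    have hMp : 0 < M0 := lt_of_lt_of_le hV hM0
    have e1 : ∀ x : ℝ, 0 < x → 4 / x * (x / m v) ^ δ = 4 * x ^ (δ - 1) / m v ^ δ := by
      intro x hx
      rw [Real.div_rpow hx.le hv.le, Real.rpow_sub hx, Real.rpow_one]
      ring
    rw [e1 M0 hMp, e1 _ hV]
    refine div_le_div_of_nonneg_right ?_ (Real.rpow_nonneg hv.le _)
    refine mul_le_mul_of_nonneg_left ?_ (by norm_num)
    exact Real.rpow_le_rpow_of_nonpos hV hM0 (by linarith)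
  refine (sum_le_sum h1).trans ?_
  refine (T_SQ W m δ h.pos hδ0 (hs.trans hq1)).trans ?_
  exact mul_le_mul_of_nonneg_left (Real.rpow_le_rpow_of_exponent_le hn hs) (by norm_num)

/-- global correlation -/
theorem corr (h : IsSub m T) (M0 l : ℝ) (hM0 : vol m univ ≤ M0) (hl : 0 < l)
    (hl1 : l ≤ 1)
    (hFK : ∀ f : W → ℝ, (∀ u, 0 ≤ f u) → ∑ u, m u * f u ≤ 1 → 1 ≤ M0 * ip m f f / 4 →
      ip m f (T f) ≤ ip m f f * (1 - l / 4 * Real.log (M0 * ip m f f / 4)))
    (τ q : ℝ) (hτ : 0 < τ) (hτ1 : τ ≤ 1 / 8) (hq : 0 < q) (hq1 : q ≤ 1)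
    (hW : Nonempty W) (k : W → W → ℝ) (hsy : ∀ u v, k u v = k v u) (M : ℕ)
    (hM : 96 * Real.exp (24 * (τ / l) * Real.log (1 / q)) ≤ M)
    (hM' : 1 + 5 * Real.log (1 / τ) ≤ M) (hk : LP (M + M) k)
    (ha : 0 < ∑ u, m u * k u u)
    (hen : (1 - τ) * ∑ u, m u * k u u ≤ ∑ u, ∑ v, m u * m v * (T (dl m v)) u * k u v) :
    (∑ u, m u * k u u) ^ 2 * (1 / 64 * Real.exp (-(48 * (τ / l) * Real.log (1 / q)))
        * (Fintype.card W : ℝ) ^ (-q)) ≤ ∑ u, ∑ v, m u * m v * k u v ^ 2 := by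
  set a : ℝ := ∑ u, m u * k u u with had
  have hlogq : 0 ≤ Real.log (1 / q) := Real.log_nonneg (by rw [le_div_iff₀ hq]; linarith)
  set Λ : ℝ := τ / l * Real.log (1 / q) with hΛ
  have hΛ0 : 0 ≤ Λ := by rw [hΛ]; positivity
  have e24 : 24 * (τ / l) * Real.log (1 / q) = 24 * Λ := by rw [hΛ]; ring
  have e48 : 48 * (τ / l) * Real.log (1 / q) = 48 * Λ := by rw [hΛ]; ring
  rw [e24] at hM
  rw [e48]
  have hMpos : (0 : ℝ) < M := lt_of_lt_of_le (by positivity) hM
  have hMn : 0 < M := by exact_mod_cast hMpos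
  obtain ⟨hAC, h0⟩ := ac h k hsy M hMn hk
  obtain ⟨T0, hT0⟩ : ∃ T0 : ℕ, T0 = ⌈4 / l * Real.log (1 / q)⌉₊ := ⟨_, rfl⟩
  have hT1 : 4 / l * Real.log (1 / q) ≤ T0 := by rw [hT0]; exact Nat.le_ceil _
  have hT2 : (T0 : ℝ) ≤ 4 / l * Real.log (1 / q) + 1 := by
    rw [hT0]; exact (Nat.ceil_lt_add_one (by positivity)).le
  have hlog2 := Real.log_two_lt_d9
  have hlog2' := Real.log_two_gt_d9
  have hpow : (2 : ℝ) ^ (8 * τ * T0) ≤ 2 * Real.exp (24 * Λ) := by
    have h2 : 8 * τ * T0 ≤ 32 * Λ + 1 := by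
      calc 8 * τ * T0 ≤ 8 * τ * (4 / l * Real.log (1 / q) + 1) :=
            mul_le_mul_of_nonneg_left hT2 (by positivity)
        _ = 32 * Λ + 8 * τ := by rw [hΛ]; ring
        _ ≤ _ := by linarith
    calc (2 : ℝ) ^ (8 * τ * T0) ≤ (2 : ℝ) ^ (32 * Λ + 1) :=
          Real.rpow_le_rpow_of_exponent_le (by norm_num) h2
      _ = 2 * (2 : ℝ) ^ (32 * Λ) := by
          rw [Real.rpow_add (by norm_num), Real.rpow_one, mul_comm]
      _ ≤ 2 * Real.exp (24 * Λ) := by
          refine mul_le_mul_of_nonneg_left ?_ (by norm_num)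
          rw [Real.rpow_def_of_pos (by norm_num)]
          apply Real.exp_le_exp.2
          have h3 : Real.log 2 * (32 * Λ) ≤ 3 / 4 * (32 * Λ) :=
            mul_le_mul_of_nonneg_right (by linarith) (by positivity)
          linarith
  obtain ⟨t, ht, hft⟩ := ac_lower hAC (by show 0 < ∑ u, ∑ v, _; rw [h0]; exact ha) τ hτ hτ1
    (by show (1 - τ) * (∑ u, ∑ v, m u * m v * (T^[0] (dl m v)) u * k u v) ≤ _
        rw [h0]; exact hen) T0 (by linarith) hM'
  have hft' : 1 / 4 * Real.exp (-(24 * Λ)) * a ≤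
      ∑ u, ∑ v, m u * m v * (T^[t] (dl m v)) u * k u v := by
    refine le_trans ?_ hft
    show _ ≤ 1 / 2 * (2 : ℝ) ^ (-(8 * τ * T0)) *
      (∑ u, ∑ v, m u * m v * (T^[0] (dl m v)) u * k u v)
    rw [h0]
    refine mul_le_mul_of_nonneg_right ?_ ha.le
    have h2 : 1 / 2 * Real.exp (-(24 * Λ)) ≤ (2 : ℝ) ^ (-(8 * τ * T0)) := by
      rw [Real.rpow_neg (by norm_num), Real.exp_neg]
      calc 1 / 2 * (Real.exp (24 * Λ))⁻¹ = (2 * Real.exp (24 * Λ))⁻¹ := by
            rw [mul_inv]; ring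
        _ ≤ _ := inv_anti₀ (by positivity) hpow
    linarith
  have hdec : (1 - l / 4) ^ t ≤ q := by
    have a1 : 1 - l / 4 ≤ Real.exp (-(l / 4)) := by
      have := Real.add_one_le_exp (-(l / 4))
      linarith
    calc (1 - l / 4) ^ t ≤ Real.exp (-(l / 4)) ^ t := pow_le_pow_left₀ (by linarith) a1 t
      _ = Real.exp (t * -(l / 4)) := by rw [← Real.exp_nat_mul]
      _ ≤ Real.exp (-Real.log (1 / q)) := by
          apply Real.exp_le_exp.2
          have h3 : (T0 : ℝ) ≤ t := by exact_mod_cast ht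
          have h4 : 4 / l * Real.log (1 / q) * (l / 4) ≤ t * (l / 4) :=
            mul_le_mul_of_nonneg_right (hT1.trans h3) (by positivity)
          have h5 : 4 / l * Real.log (1 / q) * (l / 4) = Real.log (1 / q) := by field_simp
          linarith
      _ = q := by rw [← Real.log_inv, one_div, inv_inv, Real.exp_log hq]
  set H : W → W → ℝ := fun u v => (T^[t] (dl m v)) u with hH'
  have l2 : (∑ u, ∑ v, m u * m v * H u v * k u v) ^ 2 ≤
      (∑ u, ∑ v, m u * m v * H u v ^ 2) * ∑ u, ∑ v, m u * m v * k u v ^ 2 := by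
    have h1 := Finset.sum_sq_le_sum_mul_sum_of_sq_le_mul ((univ : Finset W) ×ˢ (univ : Finset W))
      (r := fun p => m p.1 * m p.2 * H p.1 p.2 * k p.1 p.2)
      (f := fun p => m p.1 * m p.2 * H p.1 p.2 ^ 2) (g := fun p => m p.1 * m p.2 * k p.1 p.2 ^ 2)
      (fun p _ => mul_nonneg (mul_nonneg (h.pos _).le (h.pos _).le) (sq_nonneg _))
      (fun p _ => mul_nonneg (mul_nonneg (h.pos _).le (h.pos _).le) (sq_nonneg _))
      (fun p _ => le_of_eq (by ring))
    rwa [sum_product, sum_product, sum_product] at h1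
  have l3 : ∑ u, ∑ v, m u * m v * H u v ^ 2 ≤ 4 * (Fintype.card W : ℝ) ^ q :=
    sq_total h M0 l hM0 hl hl1 hFK q hq1 t hdec
  have hn : (1 : ℝ) ≤ (Fintype.card W : ℝ) := by
    exact_mod_cast Fintype.card_pos
  set Q : ℝ := ∑ u, ∑ v, m u * m v * k u v ^ 2 with hQ
  have hQ0 : 0 ≤ Q := sum_nonneg fun u _ => sum_nonneg fun v _ =>
    mul_nonneg (mul_nonneg (h.pos _).le (h.pos _).le) (sq_nonneg _)
  have hc0 : 0 ≤ 1 / 4 * Real.exp (-(24 * Λ)) * a := by positivity
  have l4 : (1 / 4 * Real.exp (-(24 * Λ)) * a) ^ 2 ≤ 4 * (Fintype.card W : ℝ) ^ q * Q :=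
    (pow_le_pow_left₀ hc0 hft' 2).trans (l2.trans (mul_le_mul_of_nonneg_right l3 hQ0))
  have hp : 0 < (Fintype.card W : ℝ) ^ q := Real.rpow_pos_of_pos (by linarith) _
  have hpn : (Fintype.card W : ℝ) ^ (-q) * (Fintype.card W : ℝ) ^ q = 1 := by
    rw [← Real.rpow_add (by linarith), neg_add_cancel, Real.rpow_zero]
  refine le_of_mul_le_mul_right ?_ hp
  have e1 : Real.exp (-(48 * Λ)) = Real.exp (-(24 * Λ)) ^ 2 := by
    rw [← Real.exp_nat_mul]
    congr 1
    push_cast
    ring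
  calc a ^ 2 * (1 / 64 * Real.exp (-(48 * Λ)) * (Fintype.card W : ℝ) ^ (-q)) *
        (Fintype.card W : ℝ) ^ q
      = (1 / 4 * Real.exp (-(24 * Λ)) * a) ^ 2 / 4 *
        ((Fintype.card W : ℝ) ^ (-q) * (Fintype.card W : ℝ) ^ q) := by rw [e1]; ring
    _ = (1 / 4 * Real.exp (-(24 * Λ)) * a) ^ 2 / 4 := by rw [hpn, mul_one]
    _ ≤ (4 * (Fintype.card W : ℝ) ^ q * Q) / 4 := by linarith
    _ = Q * (Fintype.card W : ℝ) ^ q := by ring

end

end IsSub

end Pool.Agent.Helper72.SA
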