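import Pool.Agent.Helper72.SA.TopR
import Pool.Agent.Helper72.SA.StmD

/-!
Unique games: rounding or a small set of small expansion.
-/

set_option autoImplicit false

namespace Pool.Agent.Helper72.SA

open Finset Pool.Agent.H647R3.UG Pool.Agent.H573R3.SL Pool.Agent.TH522.UG

section
variable {V A E : Type} [Fintype V] [DecidableEq V] [Fintype A] [DecidableEq A] [Fintype E]

/-- the volume of a set of vertices -/
theorem vol_split (s t : E → V) (S : Finset V) :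
    ∑ v ∈ S, dgr s t v = 2 * ((univ.filter fun e => s e ∈ S ∧ t e ∈ S).card : ℝ) +
      ((univ.filter fun e => ¬ (s e ∈ S ↔ t e ∈ S)).card : ℝ) := by
  have h1 : ∀ r : E → V, ∑ v ∈ S, ((univ.filter fun e => r e = v).card : ℝ) =
      ∑ e : E, (if r e ∈ S then (1 : ℝ) else 0) := by
    intro r
    have e1 : ∀ v ∈ S, ((univ.filter fun e => r e = v).card : ℝ) =
        ∑ e : E, (if r e = v then (1 : ℝ) else 0) := by
      intro v _
      rw [Finset.sum_boole]
    rw [Finset.sum_congr rfl e1, Finset.sum_comm]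
    refine Finset.sum_congr rfl fun e _ => ?_
    rw [Finset.sum_ite_eq]
  unfold dgr
  rw [Finset.sum_add_distrib, h1 s, h1 t, ← Finset.sum_boole, ← Finset.sum_boole, Finset.mul_sum,
    ← Finset.sum_add_distrib, ← Finset.sum_add_distrib]
  refine Finset.sum_congr rfl fun e _ => ?_
  by_cases hs : s e ∈ S <;> by_cases ht : t e ∈ S <;> simp [hs, ht]
  norm_num

theorem partC (hTR : S_TR1) (s t : E → V) (π : E → Equiv.Perm A) (c ε φ δ : ℝ) (D : ℕ)
    (hc : 0 < c) (hc1 : c ≤ 1) (hε : 0 ≤ ε) (hεc : ε ≤ c / 32768) (hφ : 0 < φ) (hφ1 : φ ≤ 1)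
    (hδ : 0 < δ) (hδ1 : δ ≤ 1) (hn : 2 ≤ Fintype.card V)
    (hD : 2 ^ 26 * (Fintype.card V : ℝ) ^ (2 ^ 18 * ε / (c * φ ^ 2)) / (δ * c ^ 2) +
      10 * Real.log (8 * Real.log (Fintype.card V) / φ ^ 2) ≤ D)
    (L : ((V → A) → ℝ) →ₗ[ℝ] ℝ) (hL : SAh D L)
    (hval : (1 - ε) * (Fintype.card E : ℝ) ≤ ∑ e, L (sat (s e) (t e) (π e))) :
    (∃ x : V → A, (1 - c) * (Fintype.card E : ℝ) ≤
      ((univ.filter fun e => π e (x (s e)) = x (t e)).card : ℝ)) ∨
    ∃ S : Finset V, 0 < ∑ v ∈ S, dgr s t v ∧ ∑ v ∈ S, dgr s t v ≤ δ * (2 * Fintype.card E) ∧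
      ((univ.filter fun e => ¬ (s e ∈ S ↔ t e ∈ S)).card : ℝ) < φ * ∑ v ∈ S, dgr s t v := by
  obtain ⟨hw0, hws, hwd, hwC, hwsum, hwend, hwF, hwh, hwins⟩ := T_WT V E s t
  by_cases hS : ∃ S : Finset V, 0 < ∑ v ∈ S, dgr s t v ∧
      ∑ v ∈ S, dgr s t v ≤ δ * (2 * Fintype.card E) ∧
      ((univ.filter fun e => ¬ (s e ∈ S ↔ t e ∈ S)).card : ℝ) < φ * ∑ v ∈ S, dgr s t v
  · exact Or.inr hS
  left
  have hS' : ∀ S : Finset V, 0 < ∑ v ∈ S, dgr s t v →
      ∑ v ∈ S, dgr s t v ≤ δ * (2 * Fintype.card E) → φ * ∑ v ∈ S, dgr s t v ≤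
      ((univ.filter fun e => ¬ (s e ∈ S ↔ t e ∈ S)).card : ℝ) := by
    intro S h1 h2
    by_contra h3
    exact hS ⟨S, h1, h2, not_le.1 h3⟩
  have hn2 : (2 : ℝ) ≤ Fintype.card V := by exact_mod_cast hn
  have hn0 : (0 : ℝ) < Fintype.card V := by linarith
  have hlog2 := Real.log_two_gt_d9
  have hlogn : 0.69 < Real.log (Fintype.card V) :=
    lt_of_lt_of_le (by linarith) (Real.log_le_log (by norm_num) hn2)
  rcases Nat.eq_zero_or_pos (Fintype.card E) with hE | hE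
  · rcases isEmpty_or_nonempty (V → A) with hVA | ⟨⟨x⟩⟩
    · have h1 := hL.one
      have h2 : (fun _ : V → A => (1 : ℝ)) = 0 := Subsingleton.elim _ _
      rw [h2, map_zero] at h1
      exact absurd h1 zero_ne_one
    · refine ⟨x, ?_⟩
      rw [hE]
      simp
  have hE0 : (0 : ℝ) < Fintype.card E := by exact_mod_cast hE
  have hφ2 : φ ^ 2 ≤ 1 := pow_le_one₀ hφ.le hφ1
  have hφ20 : 0 < φ ^ 2 := by positivity
  obtain ⟨T, hT⟩ : ∃ T : ℕ, T = ⌈4 / φ ^ 2 * Real.log (Fintype.card V)⌉₊ := ⟨_, rfl⟩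
  have hTl : 4 / φ ^ 2 * Real.log (Fintype.card V) ≤ T := by rw [hT]; exact Nat.le_ceil _
  have hTu : (T : ℝ) < 4 / φ ^ 2 * Real.log (Fintype.card V) + 1 := by
    rw [hT]; exact Nat.ceil_lt_add_one (by positivity)
  have hT0 : (0 : ℝ) < T := lt_of_lt_of_le (by positivity) hTl
  have hT1 : 1 ≤ T := by
    have : 0 < T := by exact_mod_cast hT0
    omega
  have hSE : SE1 (wt s t) (δ * (2 * Fintype.card E)) φ := by
    intro S hSv
    simp only [hwd] at hSv ⊢
    have h1 := hwF S (fun _ _ => 1) (fun _ _ => rfl)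
    simp only [mul_one, sum_const, nsmul_eq_mul] at h1
    have h2 : ∑ u ∈ S, ∑ v ∈ S, wt s t u v =
        2 * ((univ.filter fun e => s e ∈ S ∧ t e ∈ S).card : ℝ) := h1
    have h3 := vol_split s t S
    have h0 : (0 : ℝ) ≤ ((univ.filter fun e => ¬ (s e ∈ S ↔ t e ∈ S)).card : ℝ) :=
      Nat.cast_nonneg _
    have h0' : (0 : ℝ) ≤ ((univ.filter fun e => s e ∈ S ∧ t e ∈ S).card : ℝ) :=
      Nat.cast_nonneg _
    rcases (by linarith : (0 : ℝ) ≤ ∑ v ∈ S, dgr s t v).eq_or_lt with h4 | h4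
    · rw [h2, ← h4]
      linarith
    · have h5 := hS' S h4 hSv
      rw [h2]
      linarith
  have hvol : ∑ u, ∑ z, wt s t u z = 2 * Fintype.card E := by
    simp only [hwd]
    exact hwsum
  have hN : ∑ u, wk (wt s t) (2 * T) u u ≤ 9 / δ := by
    refine (hTR V (wt s t) hw0 hws (δ * (2 * Fintype.card E)) φ (by positivity) hφ hφ1 hSE T hT1
      hTl).trans ?_
    rw [hvol]
    have h1 : 8 * (2 * (Fintype.card E : ℝ)) / (δ * (2 * Fintype.card E)) = 8 / δ := by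
      field_simp
    rw [h1]
    have h2 : 1 ≤ 1 / δ := by rw [le_div_iff₀ hδ]; linarith
    have h3 : 9 / δ = 8 / δ + 1 / δ := by ring
    linarith
  refine partA s t π c ε (9 / δ) T D hc hc1 hε hεc (by
    rw [le_div_iff₀ hδ]; linarith) hT1 hN ?_ L hL hval
  obtain ⟨X, hX⟩ : ∃ X, X = (Fintype.card V : ℝ) ^ (2 ^ 18 * ε / (c * φ ^ 2)) := ⟨_, rfl⟩
  rw [← hX] at hD
  have hX0 : 0 < X := by rw [hX]; positivity
  have hexpT : Real.exp (2 ^ 16 * ε * T / c) ≤ 8 * X := by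
    have h1 : 2 ^ 16 * ε * T / c ≤ 2 + Real.log (Fintype.card V) *
        (2 ^ 18 * ε / (c * φ ^ 2)) := by
      have h2 : 2 ^ 16 * ε * T / c = 2 ^ 16 * (ε / c) * T := by ring
      have h3 : ε / c ≤ 1 / 32768 := by
        rw [div_le_iff₀ hc]; linarith
      have h4 : 0 ≤ ε / c := by positivity
      rw [h2]
      calc 2 ^ 16 * (ε / c) * T ≤ 2 ^ 16 * (ε / c) *
            (4 / φ ^ 2 * Real.log (Fintype.card V) + 1) :=
            mul_le_mul_of_nonneg_left hTu.le (by positivity)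
        _ = 2 ^ 16 * (ε / c) + Real.log (Fintype.card V) * (2 ^ 18 * ε / (c * φ ^ 2)) := by
            field_simp
            ring
        _ ≤ _ := by
            have : 2 ^ 16 * (ε / c) ≤ 2 := by linarith
            linarith
    have h5 : Real.exp 2 ≤ 8 := by
      have h6 : Real.exp 2 = Real.exp 1 ^ 2 := by rw [← Real.exp_nat_mul]; norm_num
      rw [h6]
      have := Real.exp_one_lt_d9
      have h7 := Real.exp_pos 1
      nlinarith
    calc Real.exp (2 ^ 16 * ε * T / c) ≤ Real.exp (2 + Real.log (Fintype.card V) *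
        (2 ^ 18 * ε / (c * φ ^ 2))) := Real.exp_le_exp.2 h1
      _ = Real.exp 2 * X := by
          rw [Real.exp_add, hX, Real.rpow_def_of_pos hn0]
      _ ≤ 8 * X := mul_le_mul_of_nonneg_right h5 hX0.le
  have hlogT : Real.log T ≤ Real.log (8 * Real.log (Fintype.card V) / φ ^ 2) := by
    refine Real.log_le_log hT0 ?_
    have h1 : 1 ≤ 4 / φ ^ 2 * Real.log (Fintype.card V) := by
      have h2 : 4 ≤ 4 / φ ^ 2 := by rw [le_div_iff₀ hφ20]; linarith
      nlinarith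
    have h3 : 8 * Real.log (Fintype.card V) / φ ^ 2 =
        4 / φ ^ 2 * Real.log (Fintype.card V) + 4 / φ ^ 2 * Real.log (Fintype.card V) := by ring
    rw [h3]
    linarith
  have hc2 : 0 < c ^ 2 := by positivity
  have h1 : 2 ^ 19 * (9 / δ * Real.exp (2 ^ 16 * ε * T / c)) / c ^ 2 ≤
      2 ^ 26 * X / (δ * c ^ 2) := by
    have h2 : 2 ^ 19 * (9 / δ * Real.exp (2 ^ 16 * ε * T / c)) / c ^ 2 ≤
        2 ^ 19 * (9 / δ * (8 * X)) / c ^ 2 := by
      refine div_le_div_of_nonneg_right ?_ hc2.le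
      refine mul_le_mul_of_nonneg_left ?_ (by norm_num)
      exact mul_le_mul_of_nonneg_left hexpT (by positivity)
    refine h2.trans ?_
    have h3 : 2 ^ 19 * (9 / δ * (8 * X)) / c ^ 2 = 37748736 * (X / (δ * c ^ 2)) := by
      field_simp
      ring
    have h4 : 2 ^ 26 * X / (δ * c ^ 2) = 67108864 * (X / (δ * c ^ 2)) := by ring
    rw [h3, h4]
    have : 0 ≤ X / (δ * c ^ 2) := by positivity
    nlinarith
  linarith

end

end Pool.Agent.Helper72.SA
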