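import Pool.Agent.Helper72.SA.CondG
import Pool.Agent.TH522.DG.Hier

/-!
Two-variable constraints on graphs with small-set expansion: rounding for games with two sides.
-/

set_option autoImplicit false

namespace Pool.Agent.Helper72.SA

open Finset Pool.Agent.H647R3.UG Pool.Agent.H573R3.SL Pool.Agent.TH522.UG Pool.Agent.TH522.US
  Pool.Agent.TH522.DG

section
variable {Z : Type} [Fintype Z] [DecidableEq Z]

/-- after a time of the order `log log n` the return probabilities are small -/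
theorem sse_time (w : Z → Z → ℝ) (hw : ∀ u v, 0 ≤ w u v) (hs : ∀ u v, w u v = w v u) (a κ : ℝ)
    (ha : 1 ≤ a) (hκ : 0 < κ) (hκ1 : κ ≤ 1) (hn : 3 ≤ Fintype.card Z)
    (hSE : ∀ S : Finset Z, ∑ u ∈ S, ∑ v ∈ S, w u v ≤
      a * ((∑ u ∈ S, ∑ z, w u z) / ∑ u, ∑ z, w u z) ^ κ * ∑ u ∈ S, ∑ z, w u z)
    (hvol : 0 < ∑ u, ∑ z, w u z) :
    ∃ T : ℕ, (T : ℝ) ≤ 4 / κ * Real.log (Real.log (Fintype.card Z)) + 1 ∧
      ∑ u, wk w (2 * T) u u ≤ 3 * (98 * a ^ (1 / 4 : ℝ) / κ ^ 2) ^ (4 / κ) := by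
  have hn3 : (3 : ℝ) ≤ Fintype.card Z := by exact_mod_cast hn
  have hn0 : (0 : ℝ) < Fintype.card Z := by linarith
  have hlogn : 1 < Real.log (Fintype.card Z) := by
    rw [Real.lt_log_iff_exp_lt hn0]
    have := Real.exp_one_lt_d9
    linarith
  have hll : 0 < Real.log (Real.log (Fintype.card Z)) := Real.log_pos hlogn
  have ha4 : 1 ≤ a ^ (1 / 4 : ℝ) := Real.one_le_rpow ha (by norm_num)
  obtain ⟨B, hB⟩ : ∃ B, B = 98 * a ^ (1 / 4 : ℝ) / κ ^ 2 := ⟨_, rfl⟩
  have hB0 : 0 < B := by rw [hB]; positivity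
  obtain ⟨T, hT⟩ : ∃ T : ℕ, T = ⌈4 / κ * Real.log (Real.log (Fintype.card Z))⌉₊ := ⟨_, rfl⟩
  have hTl : 4 / κ * Real.log (Real.log (Fintype.card Z)) ≤ T := by rw [hT]; exact Nat.le_ceil _
  have hTu : (T : ℝ) < 4 / κ * Real.log (Real.log (Fintype.card Z)) + 1 := by
    rw [hT]; exact Nat.ceil_lt_add_one (by positivity)
  have hT0 : (0 : ℝ) < T := lt_of_lt_of_le (by positivity) hTl
  have hT1 : 1 ≤ T := by
    have : 0 < T := by exact_mod_cast hT0
    omega
  have htr := trace_le w hw hs a κ ha hκ hκ1 hSE T hT1 hvol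
  have hδ : (Fintype.card Z : ℝ) ^ ((1 - κ / 4) ^ T : ℝ) ≤ 3 := by
    have h1 : ((1 - κ / 4) ^ T : ℝ) ≤ 1 / Real.log (Fintype.card Z) := by
      have a1 : 1 - κ / 4 ≤ Real.exp (-(κ / 4)) := by
        have := Real.add_one_le_exp (-(κ / 4))
        linarith
      calc (1 - κ / 4) ^ T ≤ Real.exp (-(κ / 4)) ^ T := pow_le_pow_left₀ (by linarith) a1 T
        _ = Real.exp (T * -(κ / 4)) := by rw [← Real.exp_nat_mul]
        _ ≤ Real.exp (-Real.log (Real.log (Fintype.card Z))) := by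
            apply Real.exp_le_exp.2
            have h3 := mul_le_mul_of_nonneg_right hTl (by positivity : 0 ≤ κ / 4)
            have h4 : 4 / κ * Real.log (Real.log (Fintype.card Z)) * (κ / 4) =
                Real.log (Real.log (Fintype.card Z)) := by field_simp
            rw [h4] at h3
            linarith
        _ = 1 / Real.log (Fintype.card Z) := by
            rw [Real.exp_neg, Real.exp_log (by linarith), one_div]
    rw [Real.rpow_def_of_pos hn0]
    have h2 : Real.log (Fintype.card Z) * ((1 - κ / 4) ^ T : ℝ) ≤ 1 := by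
      rw [le_div_iff₀ (by linarith)] at h1
      linarith
    refine (Real.exp_le_exp.2 h2).trans ?_
    have := Real.exp_one_lt_d9
    linarith
  refine ⟨T, hTu.le, ?_⟩
  rw [← hB] at htr ⊢
  refine htr.trans ?_
  have := mul_le_mul_of_nonneg_left hδ (by positivity : 0 ≤ B ^ (4 / κ))
  linarith

variable {A E : Type} [Fintype A] [DecidableEq A] [Fintype E]

/-- the conditioned functional, for small-set expansion -/
theorem topG (s t : E → Z) (q : E → A → A → ℝ) (d₁ d₂ β : ℝ) (hq : ∀ e, Pay d₁ d₂ (q e))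
    (hβ : β = Real.sqrt (d₁ * d₂)) (hβ1 : 1 ≤ β) (c δ a κ : ℝ) (hδ : 0 < δ) (hδ1 : δ ≤ 1)
    (ha : 1 ≤ a) (hκ : 0 < κ) (hκ1 : κ ≤ 1) (hn : 3 ≤ Fintype.card Z) (D : ℕ)
    (hSE : ∀ S : Finset Z, 2 * ((univ.filter fun e => s e ∈ S ∧ t e ∈ S).card : ℝ) ≤
      a * ((∑ v ∈ S, dgr s t v) / (2 * Fintype.card E)) ^ κ * ∑ v ∈ S, dgr s t v)
    (hD : 6 * (98 * a ^ (1 / 4 : ℝ) / κ ^ 2) ^ (4 / κ) * (8 * β / δ ^ 2) ^ 6 *
      Real.log (Fintype.card Z) ^ (8 / κ * Real.log (8 * β / δ ^ 2)) / δ ≤ D)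
    (L : ((Z → A) → ℝ) →ₗ[ℝ] ℝ) (hL : SAh D L)
    (hS : c * (Fintype.card E : ℝ) ≤ SatG s t q L) :
    ∃ L' : ((Z → A) → ℝ) →ₗ[ℝ] ℝ, SAh 3 L' ∧
      (c - δ) * (Fintype.card E : ℝ) ≤ IndG s t q (pr L') := by
  obtain ⟨hw0, hws, hwd, hwC, hwsum, hwend, hwF, hwh, hwins⟩ := T_WT Z E s t
  have hβ0 : 0 < β := by linarith
  have hn3 : (3 : ℝ) ≤ Fintype.card Z := by exact_mod_cast hn
  have hn0 : (0 : ℝ) < Fintype.card Z := by linarith
  have hlogn : 1 < Real.log (Fintype.card Z) := by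
    rw [Real.lt_log_iff_exp_lt hn0]
    have := Real.exp_one_lt_d9
    linarith
  have hll : 0 < Real.log (Real.log (Fintype.card Z)) := Real.log_pos hlogn
  have ha4 : 1 ≤ a ^ (1 / 4 : ℝ) := Real.one_le_rpow ha (by norm_num)
  have hδ2 : δ ^ 2 ≤ 1 := pow_le_one₀ hδ.le hδ1
  obtain ⟨R, hR⟩ : ∃ R, R = 8 * β / δ ^ 2 := ⟨_, rfl⟩
  have hR8 : 8 ≤ R := by
    rw [hR, le_div_iff₀ (by positivity)]
    nlinarith
  have hR0 : 0 < R := by linarith
  have hlR : 0 < Real.log R := Real.log_pos (by linarith)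
  obtain ⟨B, hB⟩ : ∃ B, B = 98 * a ^ (1 / 4 : ℝ) / κ ^ 2 := ⟨_, rfl⟩
  have hκ2 : κ ^ 2 ≤ 1 := pow_le_one₀ hκ.le hκ1
  have hB1 : 1 ≤ B := by
    rw [hB, le_div_iff₀ (by positivity)]
    linarith
  have hBp : 1 ≤ B ^ (4 / κ) := Real.one_le_rpow hB1 (by positivity)
  obtain ⟨Q, hQ⟩ : ∃ Q, Q = Real.log (Fintype.card Z) ^ (8 / κ * Real.log R) := ⟨_, rfl⟩
  have hQ1 : 1 ≤ Q := by
    rw [hQ]
    exact Real.one_le_rpow hlogn.le (by positivity)
  rw [← hR, ← hB, ← hQ] at hD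
  have hD6 : 3 ≤ D := by
    have h1 : (3 : ℝ) ≤ D := by
      refine le_trans ?_ hD
      rw [le_div_iff₀ hδ]
      have h2 : 1 ≤ R ^ 6 := one_le_pow₀ (by linarith)
      have h3 : 1 ≤ B ^ (4 / κ) * R ^ 6 := one_le_mul_of_one_le_of_one_le hBp h2
      have h4 : 1 ≤ B ^ (4 / κ) * R ^ 6 * Q := one_le_mul_of_one_le_of_one_le h3 hQ1
      linarith
    exact_mod_cast h1
  rcases Nat.eq_zero_or_pos (Fintype.card E) with hE | hE
  · have hfc : FctS 3 L := Sx.fct (D := D) (by omega) (by omega) hL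
    have hind : 0 ≤ IndG s t q (pr L) := sum_nonneg fun e _ => sum_nonneg fun a _ =>
      sum_nonneg fun b _ => mul_nonneg ((hq e).nonneg a b) (mul_nonneg (hfc.nn _ _) (hfc.nn _ _))
    refine ⟨L, Sx.mono hD6 hL, ?_⟩
    rw [hE]
    simpa using hind
  have hE0 : (0 : ℝ) < Fintype.card E := by exact_mod_cast hE
  obtain ⟨T, hT1, hT2⟩ := sse_time (wt s t) hw0 hws a κ ha hκ hκ1 hn (by
    intro S
    simp only [hwd]
    rw [hwsum]
    refine le_trans (le_of_eq ?_) (hSE S)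
    have h1 := hwF S (fun _ _ => 1) (fun _ _ => rfl)
    simp only [mul_one, sum_const, nsmul_eq_mul] at h1
    rw [h1]
    rfl) (by simp only [hwd]; rw [hwsum]; positivity)
  rw [← hB] at hT2
  refine partG s t q d₁ d₂ β hq hβ hβ1 c δ (3 * B ^ (4 / κ)) hδ hδ1 T D (by linarith) hT2 ?_ L hL hS
  rw [← hR]
  refine le_trans ?_ hD
  refine div_le_div_of_nonneg_right ?_ hδ.le
  have hRT : R ^ (2 * T + 4) ≤ R ^ 6 * Q := by
    have e1 : R ^ (2 * T + 4) = Real.exp ((2 * T + 4) * Real.log R) := by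
      have h2 : ((2 * T + 4 : ℕ) : ℝ) = 2 * T + 4 := by push_cast; ring
      rw [← Real.exp_log (pow_pos hR0 (2 * T + 4)), Real.log_pow, h2]
    have e2 : R ^ 6 * Q = Real.exp (6 * Real.log R +
        Real.log (Real.log (Fintype.card Z)) * (8 / κ * Real.log R)) := by
      rw [Real.exp_add, hQ, Real.rpow_def_of_pos (by linarith)]
      congr 1
      rw [← Real.exp_log (pow_pos hR0 6), Real.log_pow]
      norm_num
    rw [e1, e2]
    apply Real.exp_le_exp.2
    have h1 : (2 * (T : ℝ) + 4) ≤ 8 / κ * Real.log (Real.log (Fintype.card Z)) + 6 := by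
      have : 8 / κ * Real.log (Real.log (Fintype.card Z)) =
          2 * (4 / κ * Real.log (Real.log (Fintype.card Z))) := by ring
      linarith
    calc (2 * (T : ℝ) + 4) * Real.log R ≤
        (8 / κ * Real.log (Real.log (Fintype.card Z)) + 6) * Real.log R :=
          mul_le_mul_of_nonneg_right h1 hlR.le
      _ = _ := by ring
  calc 2 * (3 * B ^ (4 / κ)) * R ^ (2 * T + 4) ≤ 2 * (3 * B ^ (4 / κ)) * (R ^ 6 * Q) :=
        mul_le_mul_of_nonneg_left hRT (by positivity)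
    _ = 6 * B ^ (4 / κ) * R ^ 6 * Q := by ring

end

section
variable {V W A B E : Type} [Fintype V] [Fintype W] [Fintype A] [Fintype B] [Fintype E]
  [DecidableEq V] [DecidableEq W]

/-- labelings at least as good as independent labels -/
theorem round_two (v : E → V) (w : E → W) (f : E → A → B → ℝ) (hf : ∀ e a b, 0 ≤ f e a b)
    (p : W → A → ℝ) (hp : ∀ u a, 0 ≤ p u a) (hp1 : ∀ u, ∑ a, p u a ≤ 1)
    (r : V → B → ℝ) (hr : ∀ u b, 0 ≤ r u b) (hr1 : ∀ u, ∑ b, r u b ≤ 1)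
    (hA : Nonempty A) (hB : Nonempty B) :
    ∃ (x : W → A) (y : V → B), ∑ e, ∑ a, ∑ b, f e a b * (p (w e) a * r (v e) b) ≤
      ∑ e, f e (x (w e)) (y (v e)) := by
  set F : W → A → ℝ := fun u a => ∑ e, if w e = u then ∑ b, f e a b * r (v e) b else 0 with hF
  have hF0 : ∀ u a, 0 ≤ F u a := fun u a => sum_nonneg fun e _ => by
    split_ifs
    · exact sum_nonneg fun b _ => mul_nonneg (hf _ _ _) (hr _ _)
    · exact le_rfl
  have hmax : ∀ u, ∃ a, ∀ a', F u a' ≤ F u a := fun u => Finite.exists_max (F u)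
  choose x hx using hmax
  set G : V → B → ℝ := fun u b => ∑ e, if v e = u then f e (x (w e)) b else 0 with hG
  have hG0 : ∀ u b, 0 ≤ G u b := fun u a => sum_nonneg fun e _ => by
    split_ifs
    · exact hf _ _ _
    · exact le_rfl
  have hmax2 : ∀ u, ∃ b, ∀ b', G u b' ≤ G u b := fun u => Finite.exists_max (G u)
  choose y hy using hmax2
  refine ⟨x, y, ?_⟩
  have h1 : ∑ e, ∑ a, ∑ b, f e a b * (p (w e) a * r (v e) b) = ∑ u, ∑ a, p u a * F u a := by
    have e1 : ∀ u, ∑ a, p u a * F u a =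
        ∑ e, if w e = u then ∑ a, ∑ b, f e a b * (p (w e) a * r (v e) b) else 0 := by
      intro u
      simp only [hF, mul_sum]
      rw [sum_comm]
      refine sum_congr rfl fun e _ => ?_
      by_cases h : w e = u
      · simp only [if_pos h]
        refine sum_congr rfl fun a _ => ?_
        rw [mul_sum, h]
        exact sum_congr rfl fun b _ => by ring
      · simp [h]
    have e2 : ∑ u, ∑ e, (if w e = u then ∑ a, ∑ b, f e a b * (p (w e) a * r (v e) b) else 0) =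
        ∑ e, ∑ a, ∑ b, f e a b * (p (w e) a * r (v e) b) := by
      rw [sum_comm]
      refine sum_congr rfl fun e _ => ?_
      rw [sum_ite_eq, if_pos (mem_univ _)]
    rw [sum_congr rfl fun u _ => e1 u, e2]
  have h2 : ∑ u, ∑ a, p u a * F u a ≤ ∑ u, F u (x u) := by
    refine sum_le_sum fun u _ => ?_
    calc ∑ a, p u a * F u a ≤ ∑ a, p u a * F u (x u) :=
          sum_le_sum fun a _ => mul_le_mul_of_nonneg_left (hx u a) (hp u a)
      _ = (∑ a, p u a) * F u (x u) := by rw [sum_mul]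
      _ ≤ F u (x u) := mul_le_of_le_one_left (hF0 _ _) (hp1 u)
  have h3 : ∑ u, F u (x u) = ∑ u, ∑ b, r u b * G u b := by
    have e1 : ∑ u, F u (x u) = ∑ e, ∑ b, f e (x (w e)) b * r (v e) b := by
      simp only [hF]
      rw [sum_comm]
      refine sum_congr rfl fun e _ => ?_
      rw [sum_ite_eq, if_pos (mem_univ _)]
    have e2 : ∀ u, ∑ b, r u b * G u b =
        ∑ e, if v e = u then ∑ b, f e (x (w e)) b * r (v e) b else 0 := by
      intro u
      simp only [hG, mul_sum]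
      rw [sum_comm]
      refine sum_congr rfl fun e _ => ?_
      by_cases h : v e = u
      · simp only [if_pos h]
        refine sum_congr rfl fun b _ => ?_
        rw [h]
        ring
      · simp [h]
    have e3 : ∑ u, ∑ e, (if v e = u then ∑ b, f e (x (w e)) b * r (v e) b else 0) =
        ∑ e, ∑ b, f e (x (w e)) b * r (v e) b := by
      rw [sum_comm]
      refine sum_congr rfl fun e _ => ?_
      rw [sum_ite_eq, if_pos (mem_univ _)]
    rw [e1, sum_congr rfl fun u _ => e2 u, e3]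
  have h4 : ∑ u, ∑ b, r u b * G u b ≤ ∑ u, G u (y u) := by
    refine sum_le_sum fun u _ => ?_
    calc ∑ b, r u b * G u b ≤ ∑ b, r u b * G u (y u) :=
          sum_le_sum fun b _ => mul_le_mul_of_nonneg_left (hy u b) (hr u b)
      _ = (∑ b, r u b) * G u (y u) := by rw [sum_mul]
      _ ≤ G u (y u) := mul_le_of_le_one_left (hG0 _ _) (hr1 u)
  have h5 : ∑ u, G u (y u) = ∑ e, f e (x (w e)) (y (v e)) := by
    simp only [hG]
    rw [sum_comm]
    refine sum_congr rfl fun e _ => ?_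
    rw [sum_ite_eq, if_pos (mem_univ _)]
  rw [h1]
  exact h2.trans (h3.le.trans (h4.trans h5.le))

/-- the labeling of both sides as one labeling -/
def emb (z : (W → A) × (V → B)) : W ⊕ V → A ⊕ B :=
  Sum.elim (fun u => Sum.inl (z.1 u)) fun u => Sum.inr (z.2 u)

/-- the functional on the labelings of all vertices -/
def Lemb (L : ((W → A) × (V → B) → ℝ) →ₗ[ℝ] ℝ) : ((W ⊕ V → A ⊕ B) → ℝ) →ₗ[ℝ] ℝ where
  toFun f := L fun z => f (emb z)
  map_add' f g := by
    rw [← map_add]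
    rfl
  map_smul' c f := by
    rw [← map_smul]
    rfl

omit [Fintype A] [Fintype B] [Fintype V] [Fintype W] [DecidableEq V] [DecidableEq W] in
theorem Lemb_SA (D : ℕ) (L : ((W → A) × (V → B) → ℝ) →ₗ[ℝ] ℝ) (h1 : L (fun _ => 1) = 1)
    (h2 : ∀ (S : Finset W) (T : Finset V), S.card + T.card ≤ D →
      ∀ f : (W → A) × (V → B) → ℝ, Dep2 S T f → (∀ z, 0 ≤ f z) → 0 ≤ L f) :
    SAh D (Lemb L) := by
  refine ⟨h1, fun S hS f hf hf0 => ?_⟩
  refine h2 S.toLeft S.toRight ?_ _ ?_ fun z => hf0 _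
  · rw [S.card_toLeft_add_card_toRight]
    exact hS
  · intro z z' h3 h4
    refine hf _ _ fun v hv => ?_
    rcases v with v | v
    · show (Sum.inl (z.1 v) : A ⊕ B) = Sum.inl (z'.1 v)
      rw [h3 v (mem_toLeft.2 hv)]
    · show (Sum.inr (z.2 v) : A ⊕ B) = Sum.inr (z'.2 v)
      rw [h4 v (mem_toRight.2 hv)]

/-- the payoffs on the union of the two sets of labels -/
def ext2 (f : A → B → ℝ) : A ⊕ B → A ⊕ B → ℝ
  | Sum.inl a, Sum.inr b => f a b
  | _, _ => 0

omit [Fintype V] [Fintype W] [Fintype E] [DecidableEq V] [DecidableEq W] in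
theorem ext2_pay {d₁ d₂ : ℝ} (hd₁ : 0 ≤ d₁) (hd₂ : 0 ≤ d₂) (f : A → B → ℝ)
    (hf0 : ∀ a b, 0 ≤ f a b) (hf1 : ∀ a b, f a b ≤ 1) (h1 : ∀ a, ∑ b, f a b ≤ d₁)
    (h2 : ∀ b, ∑ a, f a b ≤ d₂) : Pay d₁ d₂ (ext2 f) := by
  refine ⟨fun x y => ?_, fun x y => ?_, fun x => ?_, fun y => ?_⟩
  · rcases x with a | b <;> rcases y with a' | b'
    · exact le_rfl
    · exact hf0 _ _
    · exact le_rfl
    · exact le_rfl
  · rcases x with a | b <;> rcases y with a' | b'
    · exact zero_le_one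
    · exact hf1 _ _
    · exact zero_le_one
    · exact zero_le_one
  · rw [Fintype.sum_sum_type]
    rcases x with a | b
    · have e1 : ∑ x, ext2 f (Sum.inl a) (Sum.inl x) = 0 := sum_eq_zero fun _ _ => rfl
      rw [e1, zero_add]
      exact h1 a
    · have e1 : ∑ x, ext2 f (Sum.inr b) (Sum.inl x) = 0 := sum_eq_zero fun _ _ => rfl
      have e2 : ∑ x, ext2 f (Sum.inr b) (Sum.inr x) = 0 := sum_eq_zero fun _ _ => rfl
      rw [e1, e2, add_zero]
      exact hd₁
  · rw [Fintype.sum_sum_type]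
    rcases y with a | b
    · have e1 : ∑ x, ext2 f (Sum.inl x) (Sum.inl a) = 0 := sum_eq_zero fun _ _ => rfl
      have e2 : ∑ x, ext2 f (Sum.inr x) (Sum.inl a) = 0 := sum_eq_zero fun _ _ => rfl
      rw [e1, e2, add_zero]
      exact hd₂
    · have e1 : ∑ x, ext2 f (Sum.inr x) (Sum.inr b) = 0 := sum_eq_zero fun _ _ => rfl
      rw [e1, add_zero]
      exact h2 b

omit [Fintype V] [Fintype W] [Fintype E] [DecidableEq V] [DecidableEq W] in
theorem py_ext2 (f : A → B → ℝ) (P : A ⊕ B → A ⊕ B → ℝ) :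
    py (ext2 f) P = ∑ a, ∑ b, f a b * P (Sum.inl a) (Sum.inr b) := by
  unfold py
  rw [Fintype.sum_sum_type]
  have e2 : ∑ x : B, ∑ y, ext2 f (Sum.inr x) y * P (Sum.inr x) y = 0 := by
    refine sum_eq_zero fun x _ => sum_eq_zero fun y _ => ?_
    rcases y with y | y
    · exact zero_mul _
    · exact zero_mul _
  rw [e2, add_zero]
  refine sum_congr rfl fun a _ => ?_
  rw [Fintype.sum_sum_type]
  have e1 : ∑ x : A, ext2 f (Sum.inl a) (Sum.inl x) * P (Sum.inl a) (Sum.inl x) = 0 :=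
    sum_eq_zero fun x _ => zero_mul _
  rw [e1, zero_add]
  rfl

/-- rounding for games with two sides -/
theorem coreG2 (v : E → V) (w : E → W) (f : E → A → B → ℝ) (d₁ d₂ : ℝ)
    (hf0 : ∀ e a b, 0 ≤ f e a b) (hf1 : ∀ e a b, f e a b ≤ 1)
    (h1 : ∀ e a, ∑ b, f e a b ≤ d₁) (h2 : ∀ e b, ∑ a, f e a b ≤ d₂) (hd₁ : 0 ≤ d₁) (hd₂ : 0 ≤ d₂)
    (hd : 1 ≤ d₁ * d₂) (c δ a κ : ℝ) (hδ : 0 < δ) (hδ1 : δ ≤ 1)
    (ha : 1 ≤ a) (hκ : 0 < κ) (hκ1 : κ ≤ 1) (hn : 3 ≤ Fintype.card V + Fintype.card W) (D : ℕ)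
    (hSE : ∀ (S : Finset V) (S' : Finset W),
      2 * ((univ.filter fun e => v e ∈ S ∧ w e ∈ S').card : ℝ) ≤
      a * ((((univ.filter fun e => v e ∈ S).card : ℝ) +
        ((univ.filter fun e => w e ∈ S').card : ℝ)) / (2 * Fintype.card E)) ^ κ *
        (((univ.filter fun e => v e ∈ S).card : ℝ) + ((univ.filter fun e => w e ∈ S').card : ℝ)))
    (hD : 6 * (98 * a ^ (1 / 4 : ℝ) / κ ^ 2) ^ (4 / κ) *
      (8 * Real.sqrt (d₁ * d₂) / δ ^ 2) ^ 6 *
      Real.log ((Fintype.card V : ℝ) + Fintype.card W) ^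
        (8 / κ * Real.log (8 * Real.sqrt (d₁ * d₂) / δ ^ 2)) / δ ≤ D)
    (L : ((W → A) × (V → B) → ℝ) →ₗ[ℝ] ℝ) (hL1 : L (fun _ => 1) = 1)
    (hL2 : ∀ (S : Finset W) (T : Finset V), S.card + T.card ≤ D →
      ∀ f : (W → A) × (V → B) → ℝ, Dep2 S T f → (∀ z, 0 ≤ f z) → 0 ≤ L f)
    (hS : c * (Fintype.card E : ℝ) ≤ ∑ e, L (fun z => f e (z.1 (w e)) (z.2 (v e)))) :
    ∃ (x : W → A) (y : V → B), (c - δ) * (Fintype.card E : ℝ) ≤
      ∑ e, f e (x (w e)) (y (v e)) := by
  classical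
  have hne : Nonempty ((W → A) × (V → B)) := by
    by_contra hcon
    rw [not_nonempty_iff] at hcon
    have h2 : (fun _ : (W → A) × (V → B) => (1 : ℝ)) = 0 := Subsingleton.elim _ _
    rw [h2, map_zero] at hL1
    exact zero_ne_one hL1
  obtain ⟨x0, y0⟩ := hne
  rcases isEmpty_or_nonempty E with hE | ⟨⟨e0⟩⟩
  · refine ⟨x0, y0, ?_⟩
    simp
  have hA : Nonempty A := ⟨x0 (w e0)⟩
  have hB : Nonempty B := ⟨y0 (v e0)⟩
  set s : E → W ⊕ V := fun e => Sum.inl (w e) with hs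
  set t : E → W ⊕ V := fun e => Sum.inr (v e) with ht
  set q : E → A ⊕ B → A ⊕ B → ℝ := fun e => ext2 (f e) with hq
  have hcard : Fintype.card (W ⊕ V) = Fintype.card V + Fintype.card W := by
    rw [Fintype.card_sum, add_comm]
  have hval : c * (Fintype.card E : ℝ) ≤ SatG s t q (Lemb L) := by
    refine hS.trans (le_of_eq ?_)
    unfold SatG
    refine sum_congr rfl fun e _ => ?_
    simp only [hq]
    rw [py_ext2]
    have e1 : ∀ a b, f e a b * pr2 (Lemb L) (s e) (t e) (Sum.inl a) (Sum.inr b) =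
        L (fun z => f e a b * ((if z.1 (w e) = a then 1 else 0) *
          (if z.2 (v e) = b then 1 else 0))) := by
      intro a b
      have e2 : (fun z : (W → A) × (V → B) => f e a b * ((if z.1 (w e) = a then (1 : ℝ) else 0) *
          (if z.2 (v e) = b then 1 else 0))) = f e a b • fun z : (W → A) × (V → B) =>
          ((if z.1 (w e) = a then (1 : ℝ) else 0) * (if z.2 (v e) = b then 1 else 0)) := rfl
      rw [e2, map_smul, smul_eq_mul]
      congr 1
      show L (fun z => (if emb z (Sum.inl (w e)) = Sum.inl a then (1 : ℝ) else 0) *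
        (if emb z (Sum.inr (v e)) = Sum.inr b then 1 else 0)) = _
      congr 1
      funext z
      show (if (Sum.inl (z.1 (w e)) : A ⊕ B) = Sum.inl a then (1 : ℝ) else 0) *
        (if (Sum.inr (z.2 (v e)) : A ⊕ B) = Sum.inr b then 1 else 0) = _
      simp only [Sum.inl.injEq, Sum.inr.injEq]
    simp only [e1, ← map_sum]
    congr 1
    funext z
    simp only [Finset.sum_apply]
    rw [sum_eq_single (z.1 (w e))]
    · rw [sum_eq_single (z.2 (v e))]
      · simp
      · intro b _ hb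
        simp [Ne.symm hb]
      · intro h; exact absurd (mem_univ _) h
    · intro a _ ha
      refine sum_eq_zero fun b _ => ?_
      simp [Ne.symm ha]
    · intro h; exact absurd (mem_univ _) h
  obtain ⟨L', hL', hI⟩ := topG s t q d₁ d₂ (Real.sqrt (d₁ * d₂))
    (fun e => ext2_pay hd₁ hd₂ (f e) (hf0 e) (hf1 e) (h1 e) (h2 e)) rfl
    (by rw [Real.one_le_sqrt]; exact hd) c δ a κ hδ hδ1 ha hκ hκ1 (by rw [hcard]; exact hn) D
    (by
      intro S
      have e1 : ∑ z ∈ S, dgr s t z = ((univ.filter fun e => v e ∈ S.toRight).card : ℝ) +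
          ((univ.filter fun e => w e ∈ S.toLeft).card : ℝ) := by
        have e2 : ∀ z, dgr s t z = ∑ e, ((if t e = z then (1 : ℝ) else 0) +
            (if s e = z then 1 else 0)) := by
          intro z
          unfold dgr
          rw [sum_add_distrib, card_filter, card_filter]
          push_cast
          ring
        simp only [e2]
        rw [sum_comm, card_filter, card_filter]
        push_cast
        rw [← sum_add_distrib]
        refine sum_congr rfl fun e _ => ?_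
        rw [sum_add_distrib, sum_ite_eq, sum_ite_eq]
        simp only [hs, ht, mem_toRight, mem_toLeft]
      have e3 : (univ.filter fun e => s e ∈ S ∧ t e ∈ S) =
          univ.filter fun e => v e ∈ S.toRight ∧ w e ∈ S.toLeft := by
        ext e
        simp only [mem_filter, mem_univ, true_and, hs, ht, mem_toRight, mem_toLeft]
        exact and_comm
      rw [e1, e3]
      exact hSE _ _) (by
      rw [hcard]
      push_cast
      exact hD) (Lemb L) (Lemb_SA D L hL1 hL2) hval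
  have hfc : FctS 3 L' := Sx.fct (D := 3) (by omega) (by omega) hL'
  have hle : ∀ z, ∑ x, pr L' z x = 1 := fun z => (hfc.law z z).one
  obtain ⟨x, y, hxy⟩ := round_two v w f hf0 (fun u a => pr L' (Sum.inl u) (Sum.inl a))
    (fun u a => hfc.nn _ _) (fun u => by
      rw [← hle (Sum.inl u), Fintype.sum_sum_type]
      have : 0 ≤ ∑ b : B, pr L' (Sum.inl u) (Sum.inr b) := sum_nonneg fun b _ => hfc.nn _ _
      linarith) (fun u b => pr L' (Sum.inr u) (Sum.inr b)) (fun u b => hfc.nn _ _) (fun u => by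
      rw [← hle (Sum.inr u), Fintype.sum_sum_type]
      have : 0 ≤ ∑ a : A, pr L' (Sum.inr u) (Sum.inl a) := sum_nonneg fun b _ => hfc.nn _ _
      linarith) hA hB
  refine ⟨x, y, le_trans (hI.trans (le_of_eq ?_)) hxy⟩
  unfold IndG
  refine sum_congr rfl fun e _ => ?_
  simp only [hq]
  rw [py_ext2]

end

end Pool.Agent.Helper72.SA
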