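import Pool.Agent.Helper72.SA.MainR
import Pool.Agent.Helper72.SA.NashT

/-!
The rounding theorems in terms of return probabilities and of small-set expansion.
-/

set_option autoImplicit false

namespace Pool.Agent.Helper72.SA

open Finset Pool.Agent.H647R3.UG Pool.Agent.H573R3.SL Pool.Agent.TH522.UG

section
variable {V A E : Type} [Fintype V] [DecidableEq V] [Fintype A] [DecidableEq A] [Fintype E]

/-- return probabilities -/
theorem partA (s t : E → V) (π : E → Equiv.Perm A) (c ε N : ℝ) (T D : ℕ) (hc : 0 < c)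
    (hc1 : c ≤ 1) (hε : 0 ≤ ε) (hεc : ε ≤ c / 32768) (hN1 : 1 ≤ N) (hT : 1 ≤ T)
    (hN : ∑ u, wk (wt s t) (2 * T) u u ≤ N)
    (hD : 2 ^ 19 * (N * Real.exp (2 ^ 16 * ε * T / c)) / c ^ 2 + 10 * Real.log T ≤ D)
    (L : ((V → A) → ℝ) →ₗ[ℝ] ℝ) (hL : SAh D L)
    (hval : (1 - ε) * (Fintype.card E : ℝ) ≤ ∑ e, L (sat (s e) (t e) (π e))) :
    ∃ x : V → A, (1 - c) * (Fintype.card E : ℝ) ≤
      ((univ.filter fun e => π e (x (s e)) = x (t e)).card : ℝ) := by
  have hT1 : (1 : ℝ) ≤ T := by exact_mod_cast hT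
  have hT0 : (0 : ℝ) < T := by linarith
  obtain ⟨ε', hε'⟩ : ∃ ε', ε' = max ε (c / (65536 * T)) := ⟨_, rfl⟩
  have h1 : ε ≤ ε' := by rw [hε']; exact le_max_left _ _
  have h2 : c / (65536 * T) ≤ ε' := by rw [hε']; exact le_max_right _ _
  have hq : 0 < c / (65536 * T) := by positivity
  have hε'0 : 0 < ε' := lt_of_lt_of_le hq h2
  have h3 : ε' ≤ ε + c / (65536 * T) := by
    rw [hε']
    exact max_le (by linarith) (by linarith)
  have h4 : ε' ≤ c / 32768 := by
    rw [hε']
    refine max_le hεc ?_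
    refine div_le_div_of_nonneg_left hc.le (by norm_num) (by linarith)
  have h5 : ε' * T / c ≤ ε * T / c + 1 / 65536 := by
    rw [div_add' _ _ _ hc.ne']
    refine div_le_div_of_nonneg_right ?_ hc.le
    calc ε' * T ≤ (ε + c / (65536 * T)) * T := mul_le_mul_of_nonneg_right h3 hT0.le
      _ = ε * T + 1 / 65536 * c := by field_simp
  have hy0 : 0 ≤ ε * T / c := by positivity
  set y := ε * T / c with hy
  obtain ⟨X, hX⟩ : ∃ X, X = N * Real.exp (2 ^ 16 * ε * T / c) := ⟨_, rfl⟩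
  have hexp : Real.exp (2 ^ 16 * ε * T / c) = Real.exp (65536 * y) := by
    congr 1
    rw [hy]
    ring
  have hlog2 := Real.log_two_lt_d9
  have hexp1 : ∀ a b : ℝ, a ≤ 49152 → a * (ε' * T / c) ≤ a * y + b → 0 ≤ a → b ≤ 1 →
      (2 : ℝ) ^ (a * ε' / c * T) ≤ 2 * Real.exp (2 ^ 16 * ε * T / c) := by
    intro a b ha hab ha0 hb
    have e1 : a * ε' / c * T = a * (ε' * T / c) := by ring
    have e2 : (2 : ℝ) * Real.exp (2 ^ 16 * ε * T / c) =
        Real.exp (Real.log 2 + 65536 * y) := by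
      rw [Real.exp_add, Real.exp_log (by norm_num), hexp]
    rw [e1, Real.rpow_def_of_pos (by norm_num), e2]
    apply Real.exp_le_exp.2
    have hl0 : 0 ≤ Real.log 2 := Real.log_nonneg (by norm_num)
    calc Real.log 2 * (a * (ε' * T / c)) ≤ Real.log 2 * (a * y + b) :=
          mul_le_mul_of_nonneg_left hab hl0
      _ = Real.log 2 * b + (Real.log 2 * a) * y := by ring
      _ ≤ Real.log 2 * 1 + 65536 * y := by
          refine add_le_add (mul_le_mul_of_nonneg_left hb hl0) ?_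
          refine mul_le_mul_of_nonneg_right ?_ hy0
          nlinarith
      _ = _ := by ring
  have hk1 := hexp1 49152 (3 / 4) le_rfl (by linarith) (by norm_num) (by norm_num)
  have hm1 := hexp1 24576 (3 / 8) (by norm_num) (by linarith) (by norm_num) (by norm_num)
  have hexpone : 1 ≤ Real.exp (2 ^ 16 * ε * T / c) := by
    rw [hexp]
    exact Real.one_le_exp (by positivity)
  have hX1 : 1 ≤ X := by
    rw [hX]
    exact one_le_mul_of_one_le_of_one_le hN1 hexpone
  have hXe : Real.exp (2 ^ 16 * ε * T / c) ≤ X := by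
    rw [hX]
    exact le_mul_of_one_le_left (by linarith) hN1
  have hlogT : 0 ≤ Real.log T := Real.log_nonneg hT1
  have hc2 : 0 < c ^ 2 := by positivity
  have hc21 : c ^ 2 ≤ 1 := pow_le_one₀ hc.le hc1
  obtain ⟨k, hk⟩ : ∃ k : ℕ, k = ⌈131072 * N * (2 : ℝ) ^ (49152 * ε' / c * T) / c ^ 2⌉₊ := ⟨_, rfl⟩
  obtain ⟨M, hM⟩ : ∃ M : ℕ, M = ⌈96 * X + 19 + 5 * Real.log T⌉₊ := ⟨_, rfl⟩
  have hkl : 131072 * N * (2 : ℝ) ^ (49152 * ε' / c * T) / c ^ 2 ≤ k := by
    rw [hk]; exact Nat.le_ceil _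
  have hN0 : 0 < N := by linarith
  have hku : (k : ℝ) ≤ 262144 * X / c ^ 2 + 1 := by
    have a1 : (k : ℝ) < 131072 * N * (2 : ℝ) ^ (49152 * ε' / c * T) / c ^ 2 + 1 := by
      rw [hk]; exact Nat.ceil_lt_add_one (by positivity)
    have a2 : 131072 * N * (2 : ℝ) ^ (49152 * ε' / c * T) / c ^ 2 ≤ 262144 * X / c ^ 2 := by
      refine div_le_div_of_nonneg_right ?_ hc2.le
      rw [hX]
      have := mul_le_mul_of_nonneg_left hk1 (by positivity : 0 ≤ 131072 * N)
      linarith
    linarith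
  have hMl : 96 * X + 19 + 5 * Real.log T ≤ M := by rw [hM]; exact Nat.le_ceil _
  have hMu : (M : ℝ) < 96 * X + 19 + 5 * Real.log T + 1 := by
    rw [hM]; exact Nat.ceil_lt_add_one (by positivity)
  have hkD : k + (M + M) ≤ D := by
    have h : ((k + (M + M) : ℕ) : ℝ) ≤ D := by
      push_cast
      rw [← hX] at hD
      have a3 : X ≤ X / c ^ 2 := by
        rw [le_div_iff₀ hc2]
        exact mul_le_of_le_one_right (by linarith) hc21
      have a4 : 2 ^ 19 * X / c ^ 2 = 524288 * (X / c ^ 2) := by ring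
      have a5 : 262144 * X / c ^ 2 = 262144 * (X / c ^ 2) := by ring
      rw [a4] at hD
      rw [a5] at hku
      linarith
    exact_mod_cast h
  have hL' : SAh (k + (M + M)) L := Sx.mono hkD hL
  refine coreT s t π c ε' N T hc hε'0 h4 hN0 hN k M hkl ?_ ?_ L hL' ?_
  · refine le_trans ?_ hMl
    linarith
  · have a6 : c / (3072 * ε') ≤ 64 / 3 * T := by
      rw [div_le_iff₀ (by positivity)]
      rw [div_le_iff₀ (by positivity)] at h2
      linarith
    have a7 : Real.log (c / (3072 * ε')) ≤ 5 * Real.log 2 + Real.log T := by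
      have a8 : Real.log (c / (3072 * ε')) ≤ Real.log (2 ^ 5 * T) := by
        refine Real.log_le_log (by positivity) (a6.trans ?_)
        refine mul_le_mul_of_nonneg_right (by norm_num) hT0.le
      rw [Real.log_mul (by norm_num) hT0.ne', Real.log_pow] at a8
      push_cast at a8
      exact a8
    refine le_trans ?_ hMl
    linarith
  · refine le_trans ?_ hval
    exact mul_le_mul_of_nonneg_right (by linarith) (Nat.cast_nonneg _)

/-- small-set expansion -/
theorem partB (s t : E → V) (π : E → Equiv.Perm A) (c ε a κ : ℝ) (D : ℕ) (hc : 0 < c)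
    (hc1 : c ≤ 1) (hε : 0 ≤ ε) (hεc : ε ≤ c / 32768) (ha : 1 ≤ a) (hκ : 0 < κ) (hκ1 : κ ≤ 1)
    (hn : 3 ≤ Fintype.card V)
    (hSE : ∀ S : Finset V, 2 * ((univ.filter fun e => s e ∈ S ∧ t e ∈ S).card : ℝ) ≤
      a * ((∑ v ∈ S, dgr s t v) / (2 * Fintype.card E)) ^ κ * ∑ v ∈ S, dgr s t v)
    (hD : 2 ^ 24 * ((98 * a ^ (1 / 4 : ℝ) / κ ^ 2) ^ (4 / κ) *
      Real.log (Fintype.card V) ^ (2 ^ 18 * ε / (κ * c))) / c ^ 2 +
      10 * Real.log (Real.log (Fintype.card V)) ≤ D)
    (L : ((V → A) → ℝ) →ₗ[ℝ] ℝ) (hL : SAh D L)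
    (hval : (1 - ε) * (Fintype.card E : ℝ) ≤ ∑ e, L (sat (s e) (t e) (π e))) :
    ∃ x : V → A, (1 - c) * (Fintype.card E : ℝ) ≤
      ((univ.filter fun e => π e (x (s e)) = x (t e)).card : ℝ) := by
  obtain ⟨hw0, hws, hwd, hwC, hwsum, hwend, hwF, hwh, hwins⟩ := T_WT V E s t
  have hn3 : (3 : ℝ) ≤ Fintype.card V := by exact_mod_cast hn
  have hn0 : (0 : ℝ) < Fintype.card V := by linarith
  have hlogn : 1 < Real.log (Fintype.card V) := by
    rw [Real.lt_log_iff_exp_lt hn0]
    have := Real.exp_one_lt_d9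
    linarith
  have hll : 0 < Real.log (Real.log (Fintype.card V)) := Real.log_pos hlogn
  have ha4 : 1 ≤ a ^ (1 / 4 : ℝ) := Real.one_le_rpow ha (by norm_num)
  obtain ⟨B, hB⟩ : ∃ B, B = 98 * a ^ (1 / 4 : ℝ) / κ ^ 2 := ⟨_, rfl⟩
  rw [← hB] at hD
  have hκ2 : κ ^ 2 ≤ 1 := pow_le_one₀ hκ.le hκ1
  have hB1 : 98 / κ ^ 2 ≤ B := by
    rw [hB]
    exact div_le_div_of_nonneg_right (by linarith) (by positivity)
  have hB98 : 98 ≤ 98 / κ ^ 2 := by rw [le_div_iff₀ (by positivity)]; linarith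
  have hB0 : 0 < B := by linarith
  have hBp : B ≤ B ^ (4 / κ) := by
    nth_rewrite 1 [← Real.rpow_one B]
    refine Real.rpow_le_rpow_of_exponent_le (by linarith) ?_
    rw [le_div_iff₀ hκ]
    linarith
  obtain ⟨T, hT⟩ : ∃ T : ℕ, T = ⌈4 / κ * Real.log (Real.log (Fintype.card V))⌉₊ := ⟨_, rfl⟩
  have hTl : 4 / κ * Real.log (Real.log (Fintype.card V)) ≤ T := by rw [hT]; exact Nat.le_ceil _
  have hTu : (T : ℝ) < 4 / κ * Real.log (Real.log (Fintype.card V)) + 1 := by
    rw [hT]; exact Nat.ceil_lt_add_one (by positivity)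
  have hT0 : (0 : ℝ) < T := lt_of_lt_of_le (by positivity) hTl
  have hT1 : 1 ≤ T := by
    have : 0 < T := by exact_mod_cast hT0
    omega
  rcases Nat.eq_zero_or_pos (Fintype.card E) with hE | hE
  · rcases isEmpty_or_nonempty (V → A) with hVA | ⟨⟨x⟩⟩
    · have h1 := hL.one
      have h2 : (fun _ : V → A => (1 : ℝ)) = 0 := Subsingleton.elim _ _
      rw [h2, map_zero] at h1
      exact absurd h1 zero_ne_one
    · refine ⟨x, ?_⟩
      rw [hE]
      simp
  have hE0 : (0 : ℝ) < Fintype.card E := by exact_mod_cast hE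
  have htr := trace_le (wt s t) hw0 hws a κ ha hκ hκ1 (by
    intro S
    simp only [hwd]
    rw [hwsum]
    refine le_trans (le_of_eq ?_) (hSE S)
    have h1 := hwF S (fun _ _ => 1) (fun _ _ => rfl)
    simp only [mul_one, sum_const, nsmul_eq_mul] at h1
    rw [h1]
    rfl) T hT1 (by simp only [hwd]; rw [hwsum]; positivity)
  have hδ : (Fintype.card V : ℝ) ^ ((1 - κ / 4) ^ T : ℝ) ≤ 3 := by
    have h1 : ((1 - κ / 4) ^ T : ℝ) ≤ 1 / Real.log (Fintype.card V) := by
      have a1 : 1 - κ / 4 ≤ Real.exp (-(κ / 4)) := by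
        have := Real.add_one_le_exp (-(κ / 4))
        linarith
      calc (1 - κ / 4) ^ T ≤ Real.exp (-(κ / 4)) ^ T := pow_le_pow_left₀ (by linarith) a1 T
        _ = Real.exp (T * -(κ / 4)) := by rw [← Real.exp_nat_mul]
        _ ≤ Real.exp (-Real.log (Real.log (Fintype.card V))) := by
            apply Real.exp_le_exp.2
            have h3 := mul_le_mul_of_nonneg_right hTl (by positivity : 0 ≤ κ / 4)
            have h4 : 4 / κ * Real.log (Real.log (Fintype.card V)) * (κ / 4) =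
                Real.log (Real.log (Fintype.card V)) := by field_simp
            rw [h4] at h3
            linarith
        _ = 1 / Real.log (Fintype.card V) := by
            rw [Real.exp_neg, Real.exp_log (by linarith), one_div]
    rw [Real.rpow_def_of_pos hn0]
    have h2 : Real.log (Fintype.card V) * ((1 - κ / 4) ^ T : ℝ) ≤ 1 := by
      rw [le_div_iff₀ (by linarith)] at h1
      linarith
    refine (Real.exp_le_exp.2 h2).trans ?_
    have := Real.exp_one_lt_d9
    linarith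
  have hN : ∑ u, wk (wt s t) (2 * T) u u ≤ 3 * B ^ (4 / κ) := by
    rw [← hB] at htr
    refine htr.trans ?_
    have := mul_le_mul_of_nonneg_left hδ (by positivity : 0 ≤ B ^ (4 / κ))
    linarith
  refine partA s t π c ε (3 * B ^ (4 / κ)) T D hc hc1 hε hεc (by linarith) hT1 hN ?_ L hL hval
  obtain ⟨Z, hZ⟩ : ∃ Z, Z = Real.log (Fintype.card V) ^ (2 ^ 18 * ε / (κ * c)) := ⟨_, rfl⟩
  rw [← hZ] at hD
  have hZ1 : 1 ≤ Z := by
    rw [hZ]
    exact Real.one_le_rpow hlogn.le (by positivity)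
  have hexpT : Real.exp (2 ^ 16 * ε * T / c) ≤ 9 * Z := by
    have h1 : 2 ^ 16 * ε * T / c ≤ 2 + Real.log (Real.log (Fintype.card V)) *
        (2 ^ 18 * ε / (κ * c)) := by
      have h2 : 2 ^ 16 * ε * T / c = 2 ^ 16 * (ε / c) * T := by ring
      have h3 : ε / c ≤ 1 / 32768 := by
        rw [div_le_iff₀ hc]; linarith
      have h4 : 0 ≤ ε / c := by positivity
      rw [h2]
      calc 2 ^ 16 * (ε / c) * T ≤ 2 ^ 16 * (ε / c) *
            (4 / κ * Real.log (Real.log (Fintype.card V)) + 1) :=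
            mul_le_mul_of_nonneg_left hTu.le (by positivity)
        _ = 2 ^ 16 * (ε / c) + Real.log (Real.log (Fintype.card V)) *
            (2 ^ 18 * ε / (κ * c)) := by
            field_simp
            ring
        _ ≤ _ := by
            have : 2 ^ 16 * (ε / c) ≤ 2 := by linarith
            linarith
    have h5 : Real.exp 2 ≤ 9 := by
      have h6 : Real.exp 2 = Real.exp 1 ^ 2 := by rw [← Real.exp_nat_mul]; norm_num
      rw [h6]
      have := Real.exp_one_lt_d9
      have h7 := Real.exp_pos 1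
      nlinarith
    calc Real.exp (2 ^ 16 * ε * T / c) ≤ Real.exp (2 + Real.log (Real.log (Fintype.card V)) *
        (2 ^ 18 * ε / (κ * c))) := Real.exp_le_exp.2 h1
      _ = Real.exp 2 * Z := by
          rw [Real.exp_add, hZ, Real.rpow_def_of_pos (by linarith)]
      _ ≤ 9 * Z := mul_le_mul_of_nonneg_right h5 (by linarith)
  have hlogT : Real.log T ≤ B ^ (4 / κ) + Real.log (Real.log (Fintype.card V)) := by
    have h1 : (T : ℝ) ≤ 4 / κ * (Real.log (Real.log (Fintype.card V)) + 1) := by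
      have : 1 ≤ 4 / κ := by rw [le_div_iff₀ hκ]; linarith
      nlinarith
    have h2 : Real.log T ≤ Real.log (4 / κ) + Real.log (Real.log (Real.log (Fintype.card V)) + 1) := by
      rw [← Real.log_mul (by positivity) (by positivity)]
      exact Real.log_le_log hT0 h1
    have h3 : Real.log (Real.log (Real.log (Fintype.card V)) + 1) ≤
        Real.log (Real.log (Fintype.card V)) := by
      have := Real.log_le_sub_one_of_pos (by positivity :
        0 < Real.log (Real.log (Fintype.card V)) + 1)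
      linarith
    have h4 : Real.log (4 / κ) ≤ B ^ (4 / κ) := by
      have h5 := Real.log_le_sub_one_of_pos (by positivity : 0 < 4 / κ)
      have h6 : 4 / κ ≤ 98 / κ ^ 2 := by
        rw [div_le_div_iff₀ hκ (by positivity)]
        nlinarith
      linarith
    linarith
  have hc2 : 0 < c ^ 2 := by positivity
  have hc21 : c ^ 2 ≤ 1 := pow_le_one₀ hc.le hc1
  have hBp0 : 0 < B ^ (4 / κ) := by positivity
  have hXZ : B ^ (4 / κ) ≤ B ^ (4 / κ) * Z / c ^ 2 := by
    rw [le_div_iff₀ hc2]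
    exact mul_le_mul (by nlinarith) hc21 hc2.le (by positivity) |>.trans (le_of_eq (by ring)) |> fun h => by
      nlinarith
  have hmain : 2 ^ 19 * (3 * B ^ (4 / κ) * Real.exp (2 ^ 16 * ε * T / c)) / c ^ 2 ≤
      14155776 * (B ^ (4 / κ) * Z / c ^ 2) := by
    have h1 : 2 ^ 19 * (3 * B ^ (4 / κ) * Real.exp (2 ^ 16 * ε * T / c)) / c ^ 2 ≤
        2 ^ 19 * (3 * B ^ (4 / κ) * (9 * Z)) / c ^ 2 := by
      refine div_le_div_of_nonneg_right ?_ hc2.le
      refine mul_le_mul_of_nonneg_left ?_ (by norm_num)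
      exact mul_le_mul_of_nonneg_left hexpT (by positivity)
    refine h1.trans (le_of_eq ?_)
    ring
  have hDD : 2 ^ 24 * (B ^ (4 / κ) * Z) / c ^ 2 = 16777216 * (B ^ (4 / κ) * Z / c ^ 2) := by ring
  rw [hDD] at hD
  linarith

end

end Pool.Agent.Helper72.SA
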