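import Pool.Agent.Helper72.SA.Cond

/-!
Energy and rounding of a soft part, for the Sherali-Adams hierarchy.
-/

set_option autoImplicit false

namespace Pool.Agent.Helper72.SA

open Finset Pool.Agent.H647R3.UG Pool.Agent.H573R3.SL Pool.Agent.TH522.UG Pool.Agent.TH522.US

section
variable {V E : Type} [Fintype E] [DecidableEq V] [Fintype V]
variable {A : Type} [Fintype A] [DecidableEq A] {N : ℕ}

/-- energy bound -/
theorem eng_le (s t : E → V) (π : E → Equiv.Perm A) (ω : E → ℝ) (hω : ∀ e, 0 ≤ ω e)
    (F : V → ℝ) (hF : ∀ v, 0 ≤ F v) (L : ((V → A) → ℝ) →ₗ[ℝ] ℝ) (hL : FctS N L) (hT : Tri L) :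
    Eng (kf (K2 s t ω) F) L ≤ 24 * ErrW s t π (al s t ω F) L := by
  have h1 : Eng (kf (K2 s t ω) F) L = (1 / 2) * PS t ω (fun e e' => F (s e) * F (s e') *
      (kr L (s e) (s e) + kr L (s e') (s e') - 2 * kr L (s e) (s e'))) := by
    unfold Eng kf
    congr 1
    rw [← K2_sum s t ω fun u v => F u * F v * (kr L u u + kr L v v - 2 * kr L u v)]
    exact sum_congr rfl fun u _ => sum_congr rfl fun v _ => by ring
  have hkk : ∀ u, kr L u u = ker (dg (pr L u)) (pr L u) (pr L u) := fun u => by
    unfold kr; rw [hL.diag]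
  have h2 : PS t ω (fun e e' => F (s e) * F (s e') *
      (kr L (s e) (s e) + kr L (s e') (s e') - 2 * kr L (s e) (s e'))) ≤
      PS t ω (fun e e' => 24 * (F (s e) * F (s e') * (1 - L (sat (s e) (t e) (π e))) +
        F (s e') * F (s e) * (1 - L (sat (s e') (t e') (π e'))))) := by
    refine PS_mono t ω hω _ _ fun e e' he => ?_
    have h3 : kr L (s e) (s e) + kr L (s e') (s e') - 2 * kr L (s e) (s e') ≤
        24 * (1 - L (sat (s e) (s e') ((π e).trans (π e').symm))) := by
      rw [hkk, hkk, hL.sat]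
      exact T_RA A _ _ _ _ (hL.law (s e) (s e'))
    have h4 := hT (s e) (s e') (t e) (π e) (π e')
    rw [he] at h4
    have h5 := mul_nonneg (hF (s e)) (hF (s e'))
    have h6 := mul_le_mul_of_nonneg_left (h3.trans (mul_le_mul_of_nonneg_left h4 (by norm_num :
      (0 : ℝ) ≤ 24))) h5
    rw [← he] at h6
    rw [← he]
    linarith
  rw [h1]
  rw [PS_smul, PS_add] at h2
  have h7 : PS t ω (fun e e' => F (s e') * F (s e) * (1 - L (sat (s e') (t e') (π e')))) =
      PS t ω (fun e e' => F (s e) * F (s e') * (1 - L (sat (s e) (t e) (π e)))) :=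
    PS_comm t ω fun e e' => F (s e) * F (s e') * (1 - L (sat (s e) (t e) (π e)))
  rw [h7] at h2
  have h8 : ErrW s t π (al s t ω F) L =
      PS t ω (fun e e' => F (s e) * F (s e') * (1 - L (sat (s e) (t e) (π e)))) :=
    al_sum s t ω F fun e => 1 - L (sat (s e) (t e) (π e))
  rw [h8]
  linarith

/-- rounding of a soft part by the most likely labels -/
theorem viol_le (s t : E → V) (π : E → Equiv.Perm A) (ω : E → ℝ) (hω : ∀ e, 0 ≤ ω e)
    (F : V → ℝ) (hF : ∀ v, 0 ≤ F v) (L : ((V → A) → ℝ) →ₗ[ℝ] ℝ) (hL : FctS N L) (hT : Tri L)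
    (x : V → A) (hx : ∀ v, 1 - vr L v ≤ pr L v (x v)) :
    PS t ω (fun e e' => F (s e) * F (s e') *
      (if π e (x (s e)) = π e' (x (s e')) then 0 else 1)) ≤
      4 * ErrW s t π (al s t ω F) L + 8 * PhiM (fun u => ∑ v, kf (K2 s t ω) F u v) L := by
  have h2 : PS t ω (fun e e' => F (s e) * F (s e') *
      (if π e (x (s e)) = π e' (x (s e')) then 0 else 1)) ≤
      PS t ω (fun e e' => (2 * (F (s e) * F (s e') * (1 - L (sat (s e) (t e) (π e)))) +
        2 * (F (s e') * F (s e) * (1 - L (sat (s e') (t e') (π e'))))) +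
        (4 * (F (s e) * F (s e') * vr L (s e)) + 4 * (F (s e') * F (s e) * vr L (s e')))) := by
    refine PS_mono t ω hω _ _ fun e e' he => ?_
    have h5 := mul_nonneg (hF (s e)) (hF (s e'))
    have v1 := (vr_bounds hL (s e)).1
    have v2 := (vr_bounds hL (s e')).1
    have r1 : 0 ≤ 1 - L (sat (s e) (t e) (π e)) := by linarith [hL.sat1 (s e) (t e) (π e)]
    have r2 : 0 ≤ 1 - L (sat (s e') (t e') (π e')) := by
      linarith [hL.sat1 (s e') (t e') (π e')]
    have key : (if π e (x (s e)) = π e' (x (s e')) then (0 : ℝ) else 1) ≤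
        2 * (1 - L (sat (s e) (t e) (π e))) + 2 * (1 - L (sat (s e') (t e') (π e'))) +
        (4 * vr L (s e) + 4 * vr L (s e')) := by
      split_ifs with h
      · linarith
      · by_cases h1 : vr L (s e) < 1 / 4
        · by_cases h3 : vr L (s e') < 1 / 4
          · have h4 := argmax_edge hL x hx (s e) (s e') ((π e).trans (π e').symm) h1 h3 (by
              intro h6
              apply h
              have h7 : (π e').symm (π e (x (s e))) = x (s e') := h6
              rw [← h7, Equiv.apply_symm_apply])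
            have h6 := hT (s e) (s e') (t e) (π e) (π e')
            rw [he] at h6
            rw [← he] at h6 ⊢
            linarith
          · push Not at h3
            linarith
        · push Not at h1
          linarith
    have h6 := mul_le_mul_of_nonneg_left key h5
    linarith
  rw [PS_add, PS_add, PS_add, PS_smul, PS_smul, PS_smul, PS_smul] at h2
  have h7 : PS t ω (fun e e' => F (s e') * F (s e) * (1 - L (sat (s e') (t e') (π e')))) =
      PS t ω (fun e e' => F (s e) * F (s e') * (1 - L (sat (s e) (t e) (π e)))) :=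
    PS_comm t ω fun e e' => F (s e) * F (s e') * (1 - L (sat (s e) (t e) (π e)))
  have h8 : PS t ω (fun e e' => F (s e') * F (s e) * vr L (s e')) =
      PS t ω (fun e e' => F (s e) * F (s e') * vr L (s e)) :=
    PS_comm t ω fun e e' => F (s e) * F (s e') * vr L (s e)
  have h9 : ErrW s t π (al s t ω F) L =
      PS t ω (fun e e' => F (s e) * F (s e') * (1 - L (sat (s e) (t e) (π e)))) :=
    al_sum s t ω F fun e => 1 - L (sat (s e) (t e) (π e))
  have h10 : PhiM (fun u => ∑ v, kf (K2 s t ω) F u v) L =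
      PS t ω (fun e e' => F (s e) * F (s e') * vr L (s e)) := by
    rw [← K2_sum s t ω fun u v => F u * F v * vr L u]
    unfold PhiM kf
    refine sum_congr rfl fun u _ => ?_
    rw [sum_mul]
    exact sum_congr rfl fun v _ => by ring
  rw [h7, h8] at h2
  rw [h9, h10]
  linarith

end

end Pool.Agent.Helper72.SA
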